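import Mathlib
import Pool.Prelude.Def_F_7905cbea

set_option autoImplicit false

/-!
Linear covering codes of fixed radius: syndrome formulation, the doubling argument and the
Vandermonde lift.
-/

namespace Pool.Agent.H33.Cov

open N8b55e67f
open scoped ENNReal Pointwise

/-- every element of `W` is a sum of exactly `r` distinct columns -/
def CoversEq {ι W : Type} [AddCommGroup W] (r : ℕ) (h : ι → W) : Prop :=
  ∀ w, ∃ T : Finset ι, T.card = r ∧ ∑ i ∈ T, h i = w

/-- adding zero columns -/
lemma CoversEq.extend {ι κ W : Type} [AddCommGroup W] {r : ℕ} {h : ι → W} (hc : CoversEq r h)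
    (e : ι ↪ κ) : CoversEq r (Function.extend e h 0) := by
  intro w
  obtain ⟨T, hT, hw⟩ := hc w
  refine ⟨T.map e, by rw [Finset.card_map, hT], ?_⟩
  rw [Finset.sum_map, ← hw]
  apply Finset.sum_congr rfl
  intro i _
  exact e.injective.extend_apply h 0 i

lemma hammingNorm_indicator {n : ℕ} (T : Finset (Fin n)) :
    hammingNorm (fun i => if i ∈ T then (1 : ZMod 2) else 0) = T.card := by
  unfold hammingNorm
  congr 1
  ext i
  simp

/-- density of the code with given columns -/
theorem minDensity_le {W : Type} [AddCommGroup W] [Module (ZMod 2) W] [Finite W] {n r : ℕ}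
    {h : Fin n → W} (hc : CoversEq r h) :
    minDensity n r ≤ (Nat.card (hammingBall n r) : ℝ≥0∞) / (Nat.card W : ℝ≥0∞) := by
  classical
  let H : 𝔽₂ n →ₗ[ZMod 2] W := Fintype.linearCombination (ZMod 2) h
  have hH : ∀ T : Finset (Fin n), H (fun i => if i ∈ T then (1 : ZMod 2) else 0) = ∑ i ∈ T, h i := by
    intro T
    rw [Fintype.linearCombination_apply]
    simp only [ite_smul, one_smul, zero_smul]
    rw [Finset.sum_ite_mem, Finset.univ_inter]
  have hsurj : Function.Surjective H := by
    intro w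
    obtain ⟨T, _, hw⟩ := hc w
    exact ⟨_, (hH T).trans hw⟩
  have hcov : IsCoveringSubspace n r (LinearMap.ker H) := by
    unfold IsCoveringSubspace
    rw [Set.eq_univ_iff_forall]
    intro y
    obtain ⟨T, hT, hw⟩ := hc (H y)
    refine Set.mem_add.2 ⟨y - (fun i => if i ∈ T then (1 : ZMod 2) else 0), ?_,
      (fun i => if i ∈ T then (1 : ZMod 2) else 0), ?_, ?_⟩
    · rw [SetLike.mem_coe, LinearMap.mem_ker, map_sub, hH, hw, sub_self]
    · show hammingNorm _ ≤ r
      rw [hammingNorm_indicator, hT]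
    · rw [sub_add_cancel]
  have hcard : Nat.card (LinearMap.ker H) * Nat.card W = 2 ^ n := by
    have h1 := Submodule.card_eq_card_quotient_mul_card (LinearMap.ker H)
    have h2 : Nat.card (𝔽₂ n ⧸ LinearMap.ker H) = Nat.card W :=
      Nat.card_congr (LinearMap.quotKerEquivOfSurjective H hsurj).toEquiv
    rw [h2] at h1
    have h3 : Nat.card (𝔽₂ n) = 2 ^ n := by
      rw [Nat.card_eq_fintype_card, Fintype.card_pi]
      simp
    rw [h3] at h1
    rw [h1, mul_comm]
  have hker : 0 < Nat.card (LinearMap.ker H) := Nat.card_pos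
  unfold minDensity
  refine (iInf₂_le (LinearMap.ker H) hcov).trans ?_
  have e : (2 ^ n : ℝ≥0∞) = (Nat.card (LinearMap.ker H) : ℝ≥0∞) * (Nat.card W : ℝ≥0∞) := by
    rw [← Nat.cast_mul, hcard]
    push_cast
    rfl
  rw [e, ENNReal.mul_div_mul_left _ _ (by exact_mod_cast hker.ne') (ENNReal.natCast_ne_top _)]

/-- the size of a ball -/
lemma card_ball_le (n r : ℕ) : Nat.card (hammingBall n r) ≤ (n + r).choose r := by
  classical
  have h1 : Nat.card (hammingBall n r) ≤
      ((Finset.range (r + 1)).biUnion (fun i => (Finset.univ : Finset (Fin n)).powersetCard i)).card := by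
    rw [Nat.card_eq_fintype_card, ← Finset.card_univ]
    apply Finset.card_le_card_of_injOn
      (fun x : hammingBall n r => Finset.univ.filter (fun i => (x : 𝔽₂ n) i ≠ 0))
    · intro x _
      simp only [Finset.coe_biUnion, Set.mem_iUnion, Finset.mem_coe, Finset.mem_range,
        Finset.mem_powersetCard]
      have hx : hammingNorm (x : 𝔽₂ n) ≤ r := x.2
      exact ⟨_, by unfold hammingNorm at hx; omega, Finset.subset_univ _, rfl⟩
    · intro x _ y _ hxy
      apply Subtype.ext
      funext i
      have h2 : ∀ a : ZMod 2, a ≠ 0 → a = 1 := by decide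
      have h3 : ((x : 𝔽₂ n) i ≠ 0) ↔ ((y : 𝔽₂ n) i ≠ 0) := by
        have := Finset.ext_iff.1 hxy i
        simpa using this
      by_cases hx : (x : 𝔽₂ n) i = 0
      · rw [hx]
        by_contra hy
        exact (h3.2 (Ne.symm hy)) hx
      · rw [h2 _ hx, h2 _ (h3.1 hx)]
  refine h1.trans ?_
  refine Finset.card_biUnion_le.trans ?_
  simp only [Finset.card_powersetCard, Finset.card_univ, Fintype.card_fin]
  rw [Nat.add_choose_eq, Finset.Nat.sum_antidiagonal_eq_sum_range_succ
    (fun i j => n.choose i * r.choose j)]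
  apply Finset.sum_le_sum
  intro i hi
  rw [Finset.mem_range] at hi
  have : 1 ≤ r.choose (r - i) := Nat.choose_pos (by omega)
  exact Nat.le_mul_of_pos_right _ this

/-! ### the lift -/

theorem CoversEq.lift {W F : Type} [AddCommGroup W] [Field F] {N r : ℕ} {h : Fin N → W}
    (hc : CoversEq r h) {β : Fin N → F} (hβ : Function.Injective β) :
    CoversEq r (fun p : Fin N × F => ((h p.1, fun l : Fin r => β p.1 ^ (l : ℕ) * p.2) :
      W × (Fin r → F))) := by
  classical
  rintro ⟨w, y⟩
  obtain ⟨T, hT, hw⟩ := hc w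
  let e : Fin r ≃ T := (T.equivFinOfCardEq hT).symm
  let b : Fin r → F := fun j => β (e j)
  have hb : Function.Injective b := by
    intro i j hij
    exact e.injective (Subtype.ext (hβ hij))
  have hdet : (Matrix.vandermonde b).transpose.det ≠ 0 := by
    rw [Matrix.det_transpose]
    exact Matrix.det_vandermonde_ne_zero_iff.2 hb
  let x : Fin r → F := Matrix.mulVec ((Matrix.vandermonde b).transpose)⁻¹ y
  have hx : Matrix.mulVec (Matrix.vandermonde b).transpose x = y := by
    simp only [x]
    rw [Matrix.mulVec_mulVec, Matrix.mul_nonsing_inv _ (Ne.isUnit hdet), Matrix.one_mulVec]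
  have hinj : Function.Injective (fun j : Fin r => ((e j : Fin N), x j)) := by
    intro i j hij
    have := congrArg Prod.fst hij
    exact e.injective (Subtype.ext this)
  refine ⟨Finset.univ.map ⟨_, hinj⟩, ?_, ?_⟩
  · rw [Finset.card_map, Finset.card_univ, Fintype.card_fin]
  · rw [Finset.sum_map]
    apply Prod.ext
    · rw [Prod.fst_sum, ← hw, ← Finset.sum_coe_sort T h]
      exact Equiv.sum_comp e (fun t : T => h t)
    · rw [Prod.snd_sum]
      funext l
      rw [Finset.sum_apply, ← hx]
      simp only [Matrix.mulVec, dotProduct, Matrix.transpose_apply, Matrix.vandermonde_apply, b]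
      rfl

/-! ### the doubling argument -/

section doubling

variable {N : ℕ}

open Classical in
/-- the points not covered by `V + S` -/
noncomputable def unc (S : Finset (𝔽₂ N)) (V : Submodule (ZMod 2) (𝔽₂ N)) : Finset (𝔽₂ N) :=
  Finset.univ.filter (fun y => ∀ v ∈ V, y - v ∉ S)

lemma mem_unc {S : Finset (𝔽₂ N)} {V : Submodule (ZMod 2) (𝔽₂ N)} {y : 𝔽₂ N} :
    y ∈ unc S V ↔ ∀ v ∈ V, y - v ∉ S := by
  unfold unc
  simp

lemma unc_mono {S : Finset (𝔽₂ N)} {V V' : Submodule (ZMod 2) (𝔽₂ N)} (h : V ≤ V') :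
    unc S V' ⊆ unc S V := by
  intro y hy
  rw [mem_unc] at hy ⊢
  exact fun v hv => hy v (h hv)

lemma card_space : (Finset.univ : Finset (𝔽₂ N)).card = 2 ^ N := by
  rw [Finset.card_univ, Fintype.card_pi]
  simp

lemma unc_step (S : Finset (𝔽₂ N)) (V : Submodule (ZMod 2) (𝔽₂ N)) :
    ∃ x, (unc S (V ⊔ Submodule.span (ZMod 2) {x})).card * 2 ^ N ≤ (unc S V).card ^ 2 := by
  classical
  set F := unc S V with hF
  have hsub : ∀ x, (unc S (V ⊔ Submodule.span (ZMod 2) {x})).card ≤
      (F.filter (fun y => y - x ∈ F)).card := by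
    intro x
    apply Finset.card_le_card
    intro y hy
    rw [Finset.mem_filter]
    refine ⟨unc_mono le_sup_left hy, ?_⟩
    rw [hF, mem_unc]
    intro v hv
    rw [mem_unc] at hy
    have := hy (x + v) (Submodule.add_mem _
      (Submodule.mem_sup_right (Submodule.mem_span_singleton_self x)) (Submodule.mem_sup_left hv))
    rwa [← sub_sub] at this
  have hsum : ∑ x : 𝔽₂ N, (F.filter (fun y => y - x ∈ F)).card = F.card * F.card := by
    simp only [Finset.card_filter]
    rw [Finset.sum_comm]
    have : ∀ y ∈ F, ∑ x : 𝔽₂ N, (if y - x ∈ F then 1 else 0) = F.card := by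
      intro y _
      rw [← Finset.card_filter]
      apply Finset.card_bij (fun x _ => y - x)
      · intro x hx
        exact (Finset.mem_filter.1 hx).2
      · intro a _ b _ hab
        exact sub_right_injective hab
      · intro z hz
        exact ⟨y - z, by simp [hz], by simp⟩
    rw [Finset.sum_congr rfl this, Finset.sum_const, smul_eq_mul]
  by_contra hcon
  push Not at hcon
  have h1 : ∑ x : 𝔽₂ N, F.card ^ 2 < ∑ x : 𝔽₂ N, (F.filter (fun y => y - x ∈ F)).card * 2 ^ N := by
    apply Finset.sum_lt_sum_of_nonempty Finset.univ_nonempty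
    intro x _
    exact (hcon x).trans_le (Nat.mul_le_mul_right _ (hsub x))
  rw [← Finset.sum_mul, hsum, Finset.sum_const, card_space, smul_eq_mul] at h1
  have : 2 ^ N * F.card ^ 2 = F.card * F.card * 2 ^ N := by ring
  omega

lemma finrank_sup_span {V : Submodule (ZMod 2) (𝔽₂ N)} {x : 𝔽₂ N} (hx : x ∉ V) :
    Module.finrank (ZMod 2) (V ⊔ Submodule.span (ZMod 2) {x} : Submodule (ZMod 2) (𝔽₂ N)) =
      Module.finrank (ZMod 2) V + 1 := by
  have h0 : x ≠ 0 := by
    rintro rfl
    exact hx V.zero_mem
  have h1 := Submodule.finrank_sup_add_finrank_inf_eq V (Submodule.span (ZMod 2) {x})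
  have h2 : V ⊓ Submodule.span (ZMod 2) {x} = ⊥ := by
    rw [← disjoint_iff]
    exact (Submodule.disjoint_span_singleton' h0).2 hx
  rw [h2, finrank_bot, finrank_span_singleton h0] at h1
  omega

theorem exists_subspace {S : Finset (𝔽₂ N)} (hS : S.Nonempty) :
    ∀ k, k ≤ N → ∃ V : Submodule (ZMod 2) (𝔽₂ N), Module.finrank (ZMod 2) V = k ∧
      ((unc S V).card : ℝ) ≤ 2 ^ N * (1 - (S.card : ℝ) / 2 ^ N) ^ (2 ^ k) := by
  classical
  have hScard : (S.card : ℝ) ≤ 2 ^ N := by
    have := Finset.card_le_card (Finset.subset_univ S)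
    rw [card_space] at this
    exact_mod_cast this
  have hpos : (0 : ℝ) < 2 ^ N := by positivity
  have hS0 : (0 : ℝ) < S.card := by exact_mod_cast hS.card_pos
  have ha0 : 0 ≤ 1 - (S.card : ℝ) / 2 ^ N := by
    have : (S.card : ℝ) / 2 ^ N ≤ 1 := by rw [div_le_one hpos]; exact hScard
    linarith
  have ha1 : 1 - (S.card : ℝ) / 2 ^ N < 1 := by
    have : 0 < (S.card : ℝ) / 2 ^ N := by positivity
    linarith
  intro k
  induction k with
  | zero =>
    intro _
    refine ⟨⊥, finrank_bot _ _, ?_⟩
    have h1 : unc S (⊥ : Submodule (ZMod 2) (𝔽₂ N)) = Sᶜ := by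
      ext y
      rw [mem_unc, Finset.mem_compl]
      constructor
      · intro h
        have := h 0 (Submodule.zero_mem _)
        rwa [sub_zero] at this
      · intro h v hv
        rw [Submodule.mem_bot] at hv
        rw [hv, sub_zero]
        exact h
    rw [h1, Finset.card_compl, ← Finset.card_univ, card_space, Nat.cast_sub (by
      have := Finset.card_le_card (Finset.subset_univ S)
      rwa [card_space] at this)]
    rw [pow_zero, pow_one, mul_sub, mul_one, mul_div_cancel₀ _ hpos.ne']
    push_cast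
    exact le_rfl
  | succ k ih =>
    intro hk
    obtain ⟨V, hV, hU⟩ := ih (by omega)
    obtain ⟨x, hx⟩ := unc_step S V
    have hx' : ((unc S (V ⊔ Submodule.span (ZMod 2) {x})).card : ℝ) * 2 ^ N ≤
        ((unc S V).card : ℝ) ^ 2 := by exact_mod_cast hx
    by_cases hxV : x ∈ V
    · -- then everything is covered
      have hVV : V ⊔ Submodule.span (ZMod 2) {x} = V := by
        rw [sup_eq_left, Submodule.span_singleton_le_iff_mem]
        exact hxV
      rw [hVV] at hx
      have hlt : (unc S V).card < 2 ^ N := by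
        have h1 : ((unc S V).card : ℝ) < 2 ^ N := by
          refine lt_of_le_of_lt hU ?_
          have : (1 - (S.card : ℝ) / 2 ^ N) ^ (2 ^ k) < 1 := pow_lt_one₀ ha0 ha1 (by positivity)
          nlinarith
        exact_mod_cast h1
      have h0 : (unc S V).card = 0 := by
        by_contra hne
        have h2 : (unc S V).card ^ 2 < (unc S V).card * 2 ^ N := by
          rw [pow_two]
          exact Nat.mul_lt_mul_of_pos_left hlt (Nat.pos_of_ne_zero hne)
        omega
      have hVtop : ∃ z, z ∉ V := by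
        by_contra hcon
        push Not at hcon
        have : V = ⊤ := by rw [eq_top_iff]; exact fun z _ => hcon z
        rw [this, finrank_top, Module.finrank_fin_fun] at hV
        omega
      obtain ⟨z, hz⟩ := hVtop
      refine ⟨V ⊔ Submodule.span (ZMod 2) {z}, by rw [finrank_sup_span hz, hV], ?_⟩
      have h3 : (unc S (V ⊔ Submodule.span (ZMod 2) {z})).card = 0 := by
        have := Finset.card_le_card (unc_mono (S := S)
          (le_sup_left : V ≤ V ⊔ Submodule.span (ZMod 2) {z}))
        omega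
      rw [h3]
      push_cast
      positivity
    · refine ⟨V ⊔ Submodule.span (ZMod 2) {x}, by rw [finrank_sup_span hxV, hV], ?_⟩
      have h1 : ((unc S V).card : ℝ) ^ 2 ≤ (2 ^ N * (1 - (S.card : ℝ) / 2 ^ N) ^ (2 ^ k)) ^ 2 :=
        pow_le_pow_left₀ (by positivity) hU 2
      have h2 : ((2 : ℝ) ^ N * (1 - (S.card : ℝ) / 2 ^ N) ^ (2 ^ k)) ^ 2 =
          (2 ^ N * (1 - (S.card : ℝ) / 2 ^ N) ^ (2 ^ (k + 1))) * 2 ^ N := by
        rw [mul_pow, ← pow_mul, pow_succ 2 k]
        ring
      have h3 := (hx'.trans h1).trans_eq h2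
      exact le_of_mul_le_mul_right h3 hpos

lemma unc_invariant {S : Finset (𝔽₂ N)} {V : Submodule (ZMod 2) (𝔽₂ N)} (h : (unc S V).Nonempty) :
    2 ^ (Module.finrank (ZMod 2) V) ≤ (unc S V).card := by
  classical
  obtain ⟨y, hy⟩ := h
  have h1 : Nat.card V = 2 ^ (Module.finrank (ZMod 2) V) := by
    rw [Module.natCard_eq_pow_finrank (K := ZMod 2), Nat.card_zmod]
  rw [← h1, Nat.card_eq_fintype_card, ← Finset.card_univ]
  apply Finset.card_le_card_of_injOn (fun v : V => y + (v : 𝔽₂ N))
  · intro v _
    rw [Finset.mem_coe, mem_unc]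
    rw [mem_unc] at hy
    intro u hu
    have := hy (u - v) (V.sub_mem hu v.2)
    have e : y + (v : 𝔽₂ N) - u = y - (u - v) := by abel
    rw [e]
    exact this
  · intro u _ v _ huv
    exact Subtype.ext (add_left_cancel huv)

/-- existence of a good finite code -/
theorem exists_base {c r : ℕ} (hcN : c ≤ N) (hr : r ≤ N)
    (hc : (2 : ℝ) ^ c * (c * Real.log 2) < N.choose r) :
    ∃ V : Submodule (ZMod 2) (𝔽₂ N), Module.finrank (ZMod 2) V + c = N ∧
      CoversEq r (fun i : Fin N => V.mkQ (Pi.single i 1)) := by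
  classical
  set S : Finset (𝔽₂ N) := Finset.univ.filter (fun x => hammingNorm x = r) with hSdef
  have hScard : N.choose r ≤ S.card := by
    have h1 : ((Finset.univ : Finset (Fin N)).powersetCard r).card = N.choose r := by
      rw [Finset.card_powersetCard, Finset.card_univ, Fintype.card_fin]
    rw [← h1]
    apply Finset.card_le_card_of_injOn
      (fun T : Finset (Fin N) => (fun i => if i ∈ T then (1 : ZMod 2) else 0))
    · intro T hT
      rw [Finset.mem_coe, Finset.mem_powersetCard] at hT
      rw [Finset.mem_coe, hSdef, Finset.mem_filter]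
      exact ⟨Finset.mem_univ _, by rw [hammingNorm_indicator, hT.2]⟩
    · intro T _ T' _ hTT
      ext i
      have := congrFun hTT i
      by_cases h1 : i ∈ T <;> by_cases h2 : i ∈ T' <;> simp_all
  have hSne : S.Nonempty := by
    rw [← Finset.card_pos]
    exact lt_of_lt_of_le (Nat.choose_pos hr) hScard
  obtain ⟨V, hV, hU⟩ := exists_subspace hSne (N - c) (by omega)
  have hpos : (0 : ℝ) < 2 ^ N := by positivity
  have hSle : (S.card : ℝ) ≤ 2 ^ N := by
    have := Finset.card_le_card (Finset.subset_univ S)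
    rw [card_space] at this
    exact_mod_cast this
  have hempty : unc S V = ∅ := by
    by_contra hne
    have h1 := unc_invariant (Finset.nonempty_iff_ne_empty.2 hne)
    rw [hV] at h1
    have h2 : (2 : ℝ) ^ (N - c) ≤ (unc S V).card := by exact_mod_cast h1
    have h3 : (1 - (S.card : ℝ) / 2 ^ N) ^ (2 ^ (N - c)) ≤
        Real.exp (-(S.card / 2 ^ c)) := by
      have h4 : 1 - (S.card : ℝ) / 2 ^ N ≤ Real.exp (-((S.card : ℝ) / 2 ^ N)) := by
        have := Real.add_one_le_exp (-((S.card : ℝ) / 2 ^ N))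
        linarith
      have h5 : 0 ≤ 1 - (S.card : ℝ) / 2 ^ N := by
        have : (S.card : ℝ) / 2 ^ N ≤ 1 := by rw [div_le_one hpos]; exact hSle
        linarith
      refine (pow_le_pow_left₀ h5 h4 _).trans_eq ?_
      rw [← Real.exp_nat_mul]
      congr 1
      have h6 : (2 : ℝ) ^ N = 2 ^ c * 2 ^ (N - c) := by
        rw [← pow_add]
        congr 1
        omega
      rw [h6]
      push_cast
      field_simp
    have h4 : Real.exp (-(S.card / 2 ^ c)) < Real.exp (-(c * Real.log 2)) := by
      rw [Real.exp_lt_exp, neg_lt_neg_iff, lt_div_iff₀ (by positivity)]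
      refine lt_of_lt_of_le ?_ (by exact_mod_cast hScard : (N.choose r : ℝ) ≤ S.card)
      rw [mul_comm]
      exact hc
    have h5 : Real.exp (-(c * Real.log 2)) = 1 / 2 ^ c := by
      rw [Real.exp_neg, mul_comm, Real.exp_mul, Real.exp_log (by norm_num), Real.rpow_natCast,
        one_div]
    have h6 : (2 : ℝ) ^ N * (1 / 2 ^ c) = 2 ^ (N - c) := by
      have h7 : (2 : ℝ) ^ N = 2 ^ c * 2 ^ (N - c) := by
        rw [← pow_add]
        congr 1
        omega
      rw [h7]
      field_simp
    have h7 : ((unc S V).card : ℝ) < 2 ^ (N - c) := by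
      calc ((unc S V).card : ℝ) ≤ 2 ^ N * (1 - (S.card : ℝ) / 2 ^ N) ^ (2 ^ (N - c)) := hU
        _ ≤ 2 ^ N * Real.exp (-(S.card / 2 ^ c)) := mul_le_mul_of_nonneg_left h3 hpos.le
        _ < 2 ^ N * Real.exp (-(c * Real.log 2)) := (mul_lt_mul_iff_right₀ hpos).2 h4
        _ = 2 ^ (N - c) := by rw [h5, h6]
    linarith
  refine ⟨V, by omega, ?_⟩
  intro w
  obtain ⟨y, rfl⟩ := V.mkQ_surjective w
  have hy : y ∉ unc S V := by rw [hempty]; exact Finset.notMem_empty _
  rw [mem_unc] at hy
  push Not at hy
  obtain ⟨v, hv, hyv⟩ := hy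
  rw [hSdef, Finset.mem_filter] at hyv
  set z := y - v with hz
  refine ⟨Finset.univ.filter (fun i => z i ≠ 0), hyv.2, ?_⟩
  rw [← map_sum]
  have hsum : ∑ i ∈ Finset.univ.filter (fun i => z i ≠ 0), (Pi.single i 1 : 𝔽₂ N) = z := by
    funext j
    rw [Finset.sum_apply]
    have h2 : ∀ a : ZMod 2, a ≠ 0 → a = 1 := by decide
    by_cases hj : z j = 0
    · rw [hj]
      apply Finset.sum_eq_zero
      intro i hi
      rw [Finset.mem_filter] at hi
      rw [Pi.single_apply, if_neg]
      rintro rfl
      exact hi.2 hj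
    · rw [Finset.sum_eq_single j]
      · rw [Pi.single_eq_same, h2 _ hj]
      · intro i _ hij
        rw [Pi.single_apply, if_neg (Ne.symm hij)]
      · intro h
        exact absurd (by rw [Finset.mem_filter]; exact ⟨Finset.mem_univ j, hj⟩) h
  rw [hsum, hz, map_sub]
  have : V.mkQ v = 0 := by rw [Submodule.mkQ_apply, Submodule.Quotient.mk_eq_zero]; exact hv
  rw [this, sub_zero]

end doubling

end Pool.Agent.H33.Cov
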