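import Pool.Agent.H33.CovBase

set_option autoImplicit false

/-!
The density estimate.
-/

namespace Pool.Agent.H33.Cov

open N8b55e67f Filter
open scoped ENNReal Pointwise

lemma log_two_gt : (0.69 : ℝ) < Real.log 2 := by
  have := Real.log_two_gt_d9
  linarith

lemma exists_codim {A : ℝ} (hA : 1 ≤ A) :
    ∃ c : ℕ, (2 : ℝ) ^ c * (c * Real.log 2) < A ∧
      A ≤ 2 ^ (c + 1) * ((c + 1 : ℕ) * Real.log 2) := by
  classical
  have hl := log_two_gt
  have hex : ∃ c : ℕ, A ≤ (2 : ℝ) ^ c * (c * Real.log 2) := by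
    obtain ⟨c, hc⟩ := pow_unbounded_of_one_lt A (by norm_num : (1 : ℝ) < 2)
    refine ⟨c + 2, ?_⟩
    have h1 : (1 : ℝ) ≤ ((c + 2 : ℕ) : ℝ) * Real.log 2 := by
      push_cast
      have : (0 : ℝ) ≤ c := by positivity
      nlinarith
    have h2 : (2 : ℝ) ^ c ≤ 2 ^ (c + 2) := pow_le_pow_right₀ (by norm_num) (by omega)
    have h3 : (0 : ℝ) < 2 ^ (c + 2) := by positivity
    nlinarith
  have h0 : Nat.find hex ≠ 0 := by
    intro h
    have := Nat.find_spec hex
    rw [h] at this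
    simp at this
    linarith
  obtain ⟨c, hc⟩ := Nat.exists_eq_succ_of_ne_zero h0
  refine ⟨c, ?_, ?_⟩
  · have := Nat.find_min hex (m := c) (by omega)
    exact not_le.1 this
  · have := Nat.find_spec hex
    rw [hc] at this
    exact this

lemma two_pow_le {A : ℕ} {c : ℕ} (hA : 1 ≤ A) (h : (2 : ℝ) ^ c * (c * Real.log 2) < A) :
    (2 : ℝ) ^ c ≤ A := by
  have hl := log_two_gt
  rcases (show c = 0 ∨ c = 1 ∨ 2 ≤ c by omega) with rfl | rfl | hc
  · simpa using hA
  · norm_num at h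
    have h1 : (1 : ℝ) < A := by linarith
    have h2 : 1 < A := by exact_mod_cast h1
    have h3 : 2 ≤ A := h2
    have h4 : (2 : ℝ) ≤ A := by exact_mod_cast h3
    simpa using h4
  · have h1 : (1 : ℝ) ≤ (c : ℝ) * Real.log 2 := by
      have : (2 : ℝ) ≤ c := by exact_mod_cast hc
      nlinarith
    have h3 : (0 : ℝ) < 2 ^ c := by positivity
    nlinarith

lemma codim_le {N r c : ℕ} (h : (2 : ℝ) ^ c * (c * Real.log 2) < N.choose r) : c ≤ N := by
  by_contra hcon
  push Not at hcon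
  have hl := log_two_gt
  have h1 : (N.choose r : ℝ) ≤ 2 ^ N := by exact_mod_cast Nat.choose_le_two_pow N r
  have h2 : (2 : ℝ) ^ (N + 1) ≤ 2 ^ c := pow_le_pow_right₀ (by norm_num) hcon
  have h3 : (2 : ℝ) ^ (N + 1) = 2 * 2 ^ N := by ring
  have h4 : (1 : ℝ) ≤ c := by
    have : 1 ≤ c := by omega
    exact_mod_cast this
  have h5 : (0 : ℝ) < 2 ^ N := by positivity
  have h6 : (0.69 : ℝ) ≤ c * Real.log 2 := by nlinarith
  nlinarith

/-- the logarithm of a binomial coefficient -/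
lemma log_choose_le {N r : ℕ} (hr : 1 ≤ r) (hN : r ≤ N) :
    Real.log (N.choose r) ≤ r * (Real.log N - Real.log r + 1) := by
  have hr0 : (0 : ℝ) < r := by exact_mod_cast hr
  have hN0 : (0 : ℝ) < N := by
    have : 0 < N := by omega
    exact_mod_cast this
  have h1 : (N.choose r : ℝ) ≤ (N : ℝ) ^ r / r.factorial := Nat.choose_le_pow_div r N
  have h2 : (r : ℝ) ^ r / r.factorial ≤ Real.exp r := Real.pow_div_factorial_le_exp r hr0.le r
  have h3 : (N.choose r : ℝ) ≤ (N : ℝ) ^ r * Real.exp r / (r : ℝ) ^ r := by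
    rw [le_div_iff₀ (by positivity)]
    have h4 : (N : ℝ) ^ r / r.factorial * (r : ℝ) ^ r = (N : ℝ) ^ r * ((r : ℝ) ^ r / r.factorial) := by
      ring
    calc (N.choose r : ℝ) * (r : ℝ) ^ r ≤ (N : ℝ) ^ r / r.factorial * (r : ℝ) ^ r :=
          mul_le_mul_of_nonneg_right h1 (by positivity)
      _ = (N : ℝ) ^ r * ((r : ℝ) ^ r / r.factorial) := h4
      _ ≤ (N : ℝ) ^ r * Real.exp r := mul_le_mul_of_nonneg_left h2 (by positivity)
  have hpos : (0 : ℝ) < N.choose r := by exact_mod_cast Nat.choose_pos hN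
  have h5 := Real.log_le_log hpos h3
  rw [Real.log_div (by positivity) (by positivity), Real.log_mul (by positivity) (by positivity),
    Real.log_pow, Real.log_pow, Real.log_exp] at h5
  linarith

/-- the ratio between `(N + 2) ^ r` and `r! * C(N, r)` -/
lemma ratio_le {N r K : ℕ} (hr : 1 ≤ r) (hK : 2 ≤ K) (hN : K * r ^ 2 ≤ N) :
    ((N : ℝ) + 2) ^ r / (r.factorial * N.choose r) ≤ Real.exp (2 / ((K : ℝ) - 1)) := by
  have hr0 : (1 : ℝ) ≤ r := by exact_mod_cast hr
  have hK0 : (2 : ℝ) ≤ K := by exact_mod_cast hK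
  have hN' : (K : ℝ) * r ^ 2 ≤ N := by exact_mod_cast hN
  have hrN : r ≤ N := by
    have : r ≤ K * r ^ 2 := by nlinarith
    omega
  have h1 : (N + 1 - r) ^ r ≤ N.descFactorial r := Nat.pow_sub_le_descFactorial N r
  have h2 : (((N + 1 - r : ℕ) : ℝ)) = (N : ℝ) + 1 - r := by
    rw [Nat.cast_sub (by omega)]
    push_cast
    ring
  have h3 : ((N : ℝ) + 1 - r) ^ r ≤ r.factorial * N.choose r := by
    rw [← h2]
    have h4 : N.descFactorial r = r.factorial * N.choose r := Nat.descFactorial_eq_factorial_mul_choose N r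
    rw [h4] at h1
    exact_mod_cast h1
  have h5 : (1 : ℝ) ≤ (K - 1) * r ^ 2 := by
    nlinarith [sq_nonneg ((r : ℝ) - 1)]
  have h6 : ((K : ℝ) - 1) * r ^ 2 ≤ (N : ℝ) + 1 - r := by nlinarith
  have h7 : (0 : ℝ) < (N : ℝ) + 1 - r := by linarith
  have h8 : ((N : ℝ) + 2) ^ r / (r.factorial * N.choose r) ≤ (((N : ℝ) + 2) / ((N : ℝ) + 1 - r)) ^ r := by
    rw [div_pow]
    exact div_le_div_of_nonneg_left (by positivity) (by positivity) h3
  refine h8.trans ?_
  have h9 : ((N : ℝ) + 2) / ((N : ℝ) + 1 - r) ≤ Real.exp ((r + 1) / ((N : ℝ) + 1 - r)) := by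
    have h10 : ((N : ℝ) + 2) / ((N : ℝ) + 1 - r) = (r + 1) / ((N : ℝ) + 1 - r) + 1 := by
      field_simp
      ring
    rw [h10]
    exact Real.add_one_le_exp _
  refine (pow_le_pow_left₀ (by positivity) h9 r).trans ?_
  rw [← Real.exp_nat_mul, Real.exp_le_exp]
  have h11 : (r : ℝ) * ((r + 1) / ((N : ℝ) + 1 - r)) ≤ (r : ℝ) * ((r + 1) / ((K - 1) * r ^ 2)) := by
    apply mul_le_mul_of_nonneg_left _ (by positivity)
    exact div_le_div_of_nonneg_left (by positivity) (by linarith) h6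
  refine h11.trans ?_
  have hK1 : (0 : ℝ) < (K : ℝ) - 1 := by linarith
  rw [mul_div_assoc', div_le_div_iff₀ (by positivity) hK1]
  nlinarith

/-- the density of the lifted code -/
theorem lift_bound {n N c r m : ℕ} (hrN : r ≤ N)
    (hc1 : (2 : ℝ) ^ c * (c * Real.log 2) < N.choose r) (hm_ne : m ≠ 0) (hNm : N ≤ 2 ^ m)
    (hrm : r ≤ 2 ^ m) (hNn : N * 2 ^ m ≤ n) (hnN : n < (N + 1) * 2 ^ m) :
    minDensity n r ≤ ENNReal.ofReal (((N : ℝ) + 2) ^ r / (r.factorial * 2 ^ c)) := by
  classical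
  have hcN := codim_le hc1
  obtain ⟨V, hV, hcov⟩ := exists_base hcN hrN hc1
  have : Fact (Nat.Prime 2) := ⟨Nat.prime_two⟩
  let F := GaloisField 2 m
  have : Finite F := inferInstance
  let _ : Fintype F := Fintype.ofFinite F
  have hF : Nat.card F = 2 ^ m := GaloisField.card 2 m hm_ne
  obtain ⟨β⟩ : Nonempty (Fin N ↪ F) := by
    apply Function.Embedding.nonempty_of_card_le
    rw [Fintype.card_fin, ← Nat.card_eq_fintype_card, hF]
    exact hNm
  have hlift := hcov.lift β.injective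
  have hcard : Fintype.card (Fin N × F) ≤ Fintype.card (Fin n) := by
    rw [Fintype.card_prod, Fintype.card_fin, Fintype.card_fin, ← Nat.card_eq_fintype_card, hF]
    exact hNn
  obtain ⟨e⟩ := Function.Embedding.nonempty_of_card_le hcard
  have hext := hlift.extend e
  have hden := minDensity_le hext
  refine hden.trans ?_
  have hcW : Nat.card ((𝔽₂ N ⧸ V) × (Fin r → F)) = 2 ^ c * (2 ^ m) ^ r := by
    rw [Nat.card_prod, Nat.card_fun, hF, Nat.card_fin]
    congr 1
    have h1 := Submodule.card_eq_card_quotient_mul_card V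
    have h2 : Nat.card (𝔽₂ N) = 2 ^ N := by
      rw [Nat.card_eq_fintype_card, Fintype.card_pi]
      simp
    have h3 : Nat.card V = 2 ^ (Module.finrank (ZMod 2) V) := by
      rw [Module.natCard_eq_pow_finrank (K := ZMod 2), Nat.card_zmod]
    have h4 : 2 ^ N = 2 ^ (Module.finrank (ZMod 2) V) * 2 ^ c := by
      rw [← pow_add, hV]
    rw [h2, h3, h4] at h1
    exact (Nat.eq_of_mul_eq_mul_left (by positivity) h1).symm
  rw [hcW]
  have hball : (Nat.card (hammingBall n r) : ℝ) ≤ ((N : ℝ) + 2) ^ r * (2 ^ m) ^ r / r.factorial := by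
    have h1 : (Nat.card (hammingBall n r) : ℝ) ≤ ((n + r).choose r : ℕ) := by
      exact_mod_cast card_ball_le n r
    have h2 : (((n + r).choose r : ℕ) : ℝ) ≤ ((n + r : ℕ) : ℝ) ^ r / r.factorial :=
      Nat.choose_le_pow_div r (n + r)
    refine h1.trans (h2.trans ?_)
    rw [← mul_pow]
    apply div_le_div_of_nonneg_right _ (by positivity)
    apply pow_le_pow_left₀ (by positivity)
    have h3 : n + r ≤ (N + 2) * 2 ^ m := by
      have : (N + 2) * 2 ^ m = (N + 1) * 2 ^ m + 2 ^ m := by ring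
      omega
    exact_mod_cast h3
  have h1 : (Nat.card (hammingBall n r) : ℝ) / (2 ^ c * (2 ^ m) ^ r) ≤
      ((N : ℝ) + 2) ^ r / (r.factorial * 2 ^ c) := by
    have hrf : (0 : ℝ) < r.factorial := by exact_mod_cast Nat.factorial_pos r
    rw [div_le_iff₀ (by positivity)]
    refine hball.trans_eq ?_
    field_simp
  have e1 : (Nat.card (hammingBall n r) : ℝ≥0∞) / ((2 ^ c * (2 ^ m) ^ r : ℕ) : ℝ≥0∞) =
      ENNReal.ofReal ((Nat.card (hammingBall n r) : ℝ) / (2 ^ c * (2 ^ m) ^ r)) := by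
    rw [ENNReal.ofReal_div_of_pos (by positivity), ENNReal.ofReal_natCast]
    congr 1
    rw [← ENNReal.ofReal_natCast]
    push_cast
    rfl
  rw [e1]
  exact ENNReal.ofReal_le_ofReal h1

/-- the bound -/
noncomputable def bnd (r K : ℕ) : ℝ :=
  2 * Real.exp (2 / ((K : ℝ) - 1)) * (r * (Real.log r + Real.log (2 * K) + 1) + Real.log 2)

theorem density_bound {r K : ℕ} (hr : 1 ≤ r) (hK : 2 ≤ K) :
    ∀ᶠ n in atTop, minDensity n r ≤ ENNReal.ofReal (bnd r K) := by
  classical
  set N0 := K * r ^ 2 with hN0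
  have hN0pos : 1 ≤ N0 := by
    have : 1 ≤ r ^ 2 := Nat.one_le_pow _ _ hr
    rw [hN0]
    nlinarith
  obtain ⟨m0, hm0⟩ : ∃ m0 : ℕ, 2 * N0 + r + 1 ≤ 2 ^ m0 := by
    obtain ⟨m0, hm0⟩ := pow_unbounded_of_one_lt (2 * N0 + r + 1) (by norm_num : 1 < 2)
    exact ⟨m0, hm0.le⟩
  filter_upwards [eventually_ge_atTop (N0 * 2 ^ m0)] with n hn
  -- the parameters
  set m := Nat.log 2 (n / N0) with hm
  have hnN0 : 2 ^ m0 ≤ n / N0 := by
    rw [Nat.le_div_iff_mul_le hN0pos, mul_comm]
    exact hn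
  have hne : n / N0 ≠ 0 := by
    have : 0 < 2 ^ m0 := by positivity
    omega
  have hm1 : 2 ^ m ≤ n / N0 := Nat.pow_log_le_self 2 hne
  have hm2 : n / N0 < 2 ^ (m + 1) := Nat.lt_pow_succ_log_self (by norm_num) _
  have hmm0 : m0 ≤ m := by
    rw [hm]
    exact (Nat.le_log_iff_pow_le (by norm_num) hne).2 hnN0
  set N := n / 2 ^ m with hNdef
  have hpm : 0 < 2 ^ m := by positivity
  have hN1 : N0 ≤ N := by
    rw [hNdef, Nat.le_div_iff_mul_le hpm, mul_comm]
    exact (Nat.le_div_iff_mul_le hN0pos).1 hm1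
  have hN2 : N < 2 * N0 := by
    rw [hNdef, Nat.div_lt_iff_lt_mul hpm]
    have := (Nat.div_lt_iff_lt_mul hN0pos).1 hm2
    calc n < 2 ^ (m + 1) * N0 := this
      _ = 2 * N0 * 2 ^ m := by ring
  have hNn : N * 2 ^ m ≤ n := Nat.div_mul_le_self n _
  have hnN : n < (N + 1) * 2 ^ m := by
    have h := (Nat.div_lt_iff_lt_mul hpm).1 (Nat.lt_succ_self (n / 2 ^ m))
    exact h
  have h2m : 2 ^ m0 ≤ 2 ^ m := Nat.pow_le_pow_right (by norm_num) hmm0
  have hrN0 : r ≤ N0 := by
    rw [hN0]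
    nlinarith
  have hrN : r ≤ N := by omega
  have hNpos : 1 ≤ N := by omega
  have hm_ne : m ≠ 0 := by
    intro h
    rw [h, pow_zero] at h2m
    omega
  -- the base code
  have hA1 : 1 ≤ N.choose r := Nat.choose_pos hrN
  obtain ⟨c, hc1, hc2⟩ := exists_codim (A := (N.choose r : ℝ)) (by exact_mod_cast hA1)
  refine (lift_bound hrN hc1 hm_ne (by omega) (by omega) hNn hnN).trans
    (ENNReal.ofReal_le_ofReal ?_)
  -- numbers
  have hl := log_two_gt
  have hA0 : (0 : ℝ) < N.choose r := by exact_mod_cast hA1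
  have hrf : (0 : ℝ) < r.factorial := by exact_mod_cast Nat.factorial_pos r
  have h2 : ((N : ℝ) + 2) ^ r / (r.factorial * 2 ^ c) ≤
      ((N : ℝ) + 2) ^ r / (r.factorial * N.choose r) * (2 * ((c + 1 : ℕ) * Real.log 2)) := by
    rw [div_mul_eq_mul_div, div_le_div_iff₀ (by positivity) (by positivity)]
    have h3 : (2 : ℝ) ^ (c + 1) = 2 ^ c * 2 := pow_succ 2 c
    rw [h3] at hc2
    have h4 : (0 : ℝ) ≤ ((N : ℝ) + 2) ^ r * r.factorial := by positivity
    have := mul_le_mul_of_nonneg_left hc2 h4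
    calc ((N : ℝ) + 2) ^ r * (r.factorial * N.choose r)
        = ((N : ℝ) + 2) ^ r * r.factorial * N.choose r := by ring
      _ ≤ ((N : ℝ) + 2) ^ r * r.factorial * (2 ^ c * 2 * ((c + 1 : ℕ) * Real.log 2)) := this
      _ = ((N : ℝ) + 2) ^ r * (2 * ((c + 1 : ℕ) * Real.log 2)) * (r.factorial * 2 ^ c) := by ring
  have h3 := ratio_le hr hK hN1
  have h4 : ((c + 1 : ℕ) : ℝ) * Real.log 2 ≤
      r * (Real.log r + Real.log (2 * K) + 1) + Real.log 2 := by
    have h5 := two_pow_le hA1 hc1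
    have h6 : (c : ℝ) * Real.log 2 ≤ Real.log (N.choose r) := by
      rw [← Real.log_pow]
      exact Real.log_le_log (by positivity) h5
    have h7 := log_choose_le hr hrN
    have hr0 : (1 : ℝ) ≤ r := by exact_mod_cast hr
    have hK0 : (2 : ℝ) ≤ K := by exact_mod_cast hK
    have h8 : Real.log N ≤ Real.log (2 * K) + 2 * Real.log r := by
      have h9 : (N : ℝ) ≤ 2 * K * r ^ 2 := by
        have : N ≤ 2 * (K * r ^ 2) := by omega
        have h10 : (N : ℝ) ≤ ((2 * (K * r ^ 2) : ℕ) : ℝ) := by exact_mod_cast this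
        push_cast at h10
        linarith
      have h11 := Real.log_le_log (by exact_mod_cast hNpos) h9
      rw [Real.log_mul (by positivity) (by positivity), Real.log_pow] at h11
      push_cast at h11
      exact h11
    push_cast
    have h12 : (r : ℝ) * (Real.log N - Real.log r + 1) ≤
        r * (Real.log r + Real.log (2 * K) + 1) := by
      apply mul_le_mul_of_nonneg_left _ (by linarith)
      linarith
    linarith
  refine h2.trans ?_
  unfold bnd
  have h5 : 0 ≤ ((c + 1 : ℕ) : ℝ) * Real.log 2 := by positivity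
  calc ((N : ℝ) + 2) ^ r / (r.factorial * N.choose r) * (2 * ((c + 1 : ℕ) * Real.log 2))
      ≤ Real.exp (2 / ((K : ℝ) - 1)) * (2 * ((c + 1 : ℕ) * Real.log 2)) :=
        mul_le_mul_of_nonneg_right h3 (by positivity)
    _ ≤ Real.exp (2 / ((K : ℝ) - 1)) * (2 * (r * (Real.log r + Real.log (2 * K) + 1) + Real.log 2)) := by
        apply mul_le_mul_of_nonneg_left _ (Real.exp_pos _).le
        linarith
    _ = _ := by ring

theorem f_all_le {r K : ℕ} (hr : 1 ≤ r) (hK : 2 ≤ K) : f_all r ≤ ENNReal.ofReal (bnd r K) := by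
  unfold f_all
  exact limsup_le_of_le (by isBoundedDefault) (density_bound hr hK)

/-! ### the limit inferior -/

/-- the bound for the limit inferior -/
noncomputable def bnd' (r K : ℕ) : ℝ :=
  Real.exp (2 / ((K : ℝ) - 1)) * ((K : ℝ) / ((K : ℝ) - 1)) *
    (r * (Real.log r + Real.log K + 1) + Real.log 2)

/-- a base code whose size is just above the threshold -/
lemma exists_sharp_base {r K : ℕ} (hr : 1 ≤ r) (hK : 2 ≤ K) :
    ∃ N c : ℕ, K * r ^ 2 ≤ N ∧ (2 : ℝ) ^ c * (c * Real.log 2) < N.choose r ∧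
      ((N : ℝ) + 2) ^ r / (r.factorial * 2 ^ c) ≤ bnd' r K := by
  classical
  set N0 := K * r ^ 2 with hN0
  have hrN0 : r ≤ N0 := by
    rw [hN0]
    nlinarith
  have hN0pos : 1 ≤ N0 := by omega
  have hA1 : 1 ≤ N0.choose r := Nat.choose_pos hrN0
  obtain ⟨c, hc1, hc2⟩ := exists_codim (A := (N0.choose r : ℝ)) (by exact_mod_cast hA1)
  set L : ℝ := 2 ^ (c + 1) * ((c + 1 : ℕ) * Real.log 2) with hL
  have hex : ∃ N : ℕ, L < N.choose r := by
    obtain ⟨M, hM⟩ := exists_nat_gt L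
    refine ⟨M + r, lt_of_lt_of_le hM ?_⟩
    have h1 : M ≤ (M + r).choose r := by
      have h2 : (M + 1).choose 1 ≤ (M + r).choose r := by
        have e1 : (M + r).choose r = (M + r).choose M := by
          rw [← Nat.choose_symm_of_eq_add (show M + r = M + r from rfl)]
        have e2 : (M + 1).choose 1 = (M + 1).choose M := by
          rw [← Nat.choose_symm_of_eq_add (show M + 1 = M + 1 from rfl)]
        rw [e1, e2]
        exact Nat.choose_le_choose M (by omega)
      rw [Nat.choose_one_right] at h2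
      omega
    exact_mod_cast h1
  set N := Nat.find hex with hN
  have hspec : L < N.choose r := Nat.find_spec hex
  have hNgt : N0 < N := by
    by_contra hcon
    push Not at hcon
    have h1 : (N.choose r : ℝ) ≤ N0.choose r := by exact_mod_cast Nat.choose_le_choose r hcon
    linarith
  have hprev : ((N - 1).choose r : ℝ) ≤ L := by
    have := Nat.find_min hex (m := N - 1) (by omega)
    exact not_lt.1 this
  refine ⟨N, c + 1, hNgt.le, hspec, ?_⟩
  have hr0 : (1 : ℝ) ≤ r := by exact_mod_cast hr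
  have hK0 : (2 : ℝ) ≤ K := by exact_mod_cast hK
  have hN0' : (K : ℝ) * r ^ 2 ≤ N := by exact_mod_cast hNgt.le
  have hrN : r ≤ N := by omega
  have hrN' : r < N := by omega
  have hNpos : (0 : ℝ) < N := by
    have : 0 < N := by omega
    exact_mod_cast this
  have hNr : (0 : ℝ) < (N : ℝ) - r := by
    have : (r : ℝ) < N := by exact_mod_cast hrN'
    linarith
  have hK1 : (0 : ℝ) < (K : ℝ) - 1 := by linarith
  -- the ratio of consecutive binomial coefficients
  have hmul : ((N - 1).choose r : ℝ) * N = (N.choose r : ℝ) * ((N : ℝ) - r) := by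
    have h1 := Nat.choose_mul_succ_eq (N - 1) r
    rw [show N - 1 + 1 = N by omega] at h1
    have h2 : ((N - r : ℕ) : ℝ) = (N : ℝ) - r := Nat.cast_sub hrN
    rw [← h2]
    exact_mod_cast h1
  have hCle : (N.choose r : ℝ) ≤ L * (K / (K - 1)) := by
    have h1 : (N.choose r : ℝ) ≤ L * (N / ((N : ℝ) - r)) := by
      rw [mul_div_assoc', le_div_iff₀ hNr, ← hmul]
      exact mul_le_mul_of_nonneg_right hprev hNpos.le
    have h2 : (N : ℝ) / ((N : ℝ) - r) ≤ K / (K - 1) := by
      rw [div_le_div_iff₀ hNr hK1]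
      have h2' : (r : ℝ) ≤ r ^ 2 := by nlinarith
      have h3' : (K : ℝ) * r ≤ K * r ^ 2 := mul_le_mul_of_nonneg_left h2' (by linarith)
      nlinarith
    have hL0 : 0 ≤ L := by
      have := log_two_gt
      positivity
    exact h1.trans (mul_le_mul_of_nonneg_left h2 hL0)
  have h3 := ratio_le hr hK hNgt.le
  have hrf : (0 : ℝ) < r.factorial := by exact_mod_cast Nat.factorial_pos r
  have hA0 : (0 : ℝ) < N.choose r := by exact_mod_cast Nat.choose_pos hrN
  have h4 : ((c + 1 : ℕ) : ℝ) * Real.log 2 ≤ r * (Real.log r + Real.log K + 1) + Real.log 2 := by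
    have h5 := two_pow_le hA1 hc1
    have h6 : (c : ℝ) * Real.log 2 ≤ Real.log (N0.choose r) := by
      rw [← Real.log_pow]
      exact Real.log_le_log (by positivity) h5
    have h7 := log_choose_le hr hrN0
    have h8 : Real.log N0 = Real.log K + 2 * Real.log r := by
      rw [hN0]
      push_cast
      rw [Real.log_mul (by positivity) (by positivity), Real.log_pow]
      push_cast
      ring
    rw [h8] at h7
    push_cast
    have h9 : (r : ℝ) * (Real.log K + 2 * Real.log r - Real.log r + 1) =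
        r * (Real.log r + Real.log K + 1) := by ring
    linarith
  have h5 : ((N : ℝ) + 2) ^ r / (r.factorial * 2 ^ (c + 1)) =
      ((N : ℝ) + 2) ^ r / (r.factorial * N.choose r) * (N.choose r / 2 ^ (c + 1)) := by
    field_simp
  rw [h5]
  have h6 : (N.choose r : ℝ) / 2 ^ (c + 1) ≤ (K / (K - 1)) * (((c + 1 : ℕ) : ℝ) * Real.log 2) := by
    rw [div_le_iff₀ (by positivity)]
    refine hCle.trans_eq ?_
    rw [hL]
    ring
  have h7 : 0 ≤ (N.choose r : ℝ) / 2 ^ (c + 1) := by positivity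
  unfold bnd'
  calc ((N : ℝ) + 2) ^ r / (r.factorial * N.choose r) * (N.choose r / 2 ^ (c + 1))
      ≤ Real.exp (2 / ((K : ℝ) - 1)) * (N.choose r / 2 ^ (c + 1)) :=
        mul_le_mul_of_nonneg_right h3 h7
    _ ≤ Real.exp (2 / ((K : ℝ) - 1)) * ((K / (K - 1)) * (((c + 1 : ℕ) : ℝ) * Real.log 2)) :=
        mul_le_mul_of_nonneg_left h6 (Real.exp_pos _).le
    _ ≤ Real.exp (2 / ((K : ℝ) - 1)) * ((K / (K - 1)) *
          (r * (Real.log r + Real.log K + 1) + Real.log 2)) := by
        apply mul_le_mul_of_nonneg_left _ (Real.exp_pos _).le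
        exact mul_le_mul_of_nonneg_left h4 (by positivity)
    _ = _ := by ring

theorem f_le {r K : ℕ} (hr : 1 ≤ r) (hK : 2 ≤ K) : f r ≤ ENNReal.ofReal (bnd' r K) := by
  obtain ⟨N, c, hN, hc, hb⟩ := exists_sharp_base hr hK
  have hrN : r ≤ N := by
    have : r ≤ K * r ^ 2 := by nlinarith
    omega
  unfold f
  apply liminf_le_of_frequently_le'
  rw [frequently_atTop]
  intro a
  obtain ⟨m, hm⟩ : ∃ m : ℕ, N + r + a + 1 < 2 ^ m := pow_unbounded_of_one_lt _ (by norm_num)
  have hN1 : 1 ≤ N := by omega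
  refine ⟨N * 2 ^ m, ?_, ?_⟩
  · have : 1 * 2 ^ m ≤ N * 2 ^ m := Nat.mul_le_mul_right _ hN1
    omega
  · refine (lift_bound hrN hc ?_ (by omega) (by omega) le_rfl ?_).trans
      (ENNReal.ofReal_le_ofReal hb)
    · rintro rfl
      rw [pow_zero] at hm
      omega
    · have : 0 < 2 ^ m := by positivity
      rw [Nat.add_mul]
      omega

end Pool.Agent.H33.Cov
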