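import Mathlib

/-!
The capped double sum over pairs of intervals: abstract part.
-/

open Finset

namespace Pool.Agent.H33.Cover

/-! ### weighted tails of a representation function -/

/-- the tail `∑_{R < k ≤ n} f k 2^(R-k)` -/
noncomputable def Tr (f : ℕ → ℕ) (n R : ℕ) : ℝ :=
  ∑ u ∈ range (n - R), (f (R + u + 1) : ℝ) * (1/2)^(u+1)

lemma Tr_nonneg (f : ℕ → ℕ) (n R : ℕ) : 0 ≤ Tr f n R :=
  sum_nonneg (fun u _ => by positivity)

lemma Tr_succ {f : ℕ → ℕ} {n R : ℕ} (h : R ≤ n) :
    Tr f (n+1) R = Tr f n R + (f (n+1) : ℝ) * (1/2)^(n+1-R) := by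
  unfold Tr
  rw [show n + 1 - R = (n - R) + 1 by omega, sum_range_succ]
  rw [show R + (n - R) + 1 = n + 1 by omega]

lemma Tr_self (f : ℕ → ℕ) (n : ℕ) : Tr f n n = 0 := by
  unfold Tr; simp

lemma half_sum (n : ℕ) : ∑ R ∈ range (n+1), (1/2:ℝ)^(n+1-R) ≤ 1 := by
  have h : ∀ n : ℕ, ∑ R ∈ range n, (1/2:ℝ)^(n-R) = 1 - (1/2)^n := by
    intro n
    induction n with
    | zero => simp
    | succ n ih =>
      rw [sum_range_succ]
      have : ∑ R ∈ range n, (1/2:ℝ)^(n+1-R) = (1/2) * ∑ R ∈ range n, (1/2:ℝ)^(n-R) := by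
        rw [mul_sum]
        apply sum_congr rfl
        intro R hR
        rw [mem_range] at hR
        rw [show n + 1 - R = (n - R) + 1 by omega, pow_succ]
        ring
      rw [this, ih, show n + 1 - n = 1 by omega, pow_succ]
      ring
  rw [h (n+1)]
  have : (0:ℝ) < (1/2)^(n+1) := by positivity
  linarith

/-- total mass -/
lemma sum_Tr (f : ℕ → ℕ) (n : ℕ) :
    ∑ R ∈ range n, Tr f n R ≤ ∑ k ∈ range (n+1), (f k : ℝ) := by
  induction n with
  | zero => simp
  | succ n ih =>
    have h1 : ∑ R ∈ range (n+1), Tr f (n+1) R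
        = ∑ R ∈ range (n+1), Tr f n R + (f (n+1) : ℝ) * ∑ R ∈ range (n+1), (1/2:ℝ)^(n+1-R) := by
      rw [mul_sum, ← sum_add_distrib]
      apply sum_congr rfl
      intro R hR
      rw [mem_range] at hR
      exact Tr_succ (by omega)
    rw [h1, sum_range_succ (fun R => Tr f n R) n, Tr_self, add_zero,
      sum_range_succ (fun k => (f k : ℝ)) (n+1)]
    have h2 : (f (n+1) : ℝ) * ∑ R ∈ range (n+1), (1/2:ℝ)^(n+1-R) ≤ (f (n+1) : ℝ) * 1 :=
      mul_le_mul_of_nonneg_left (half_sum n) (by positivity)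
    linarith

lemma Tr_zero {f : ℕ → ℕ} {n R e : ℕ} (he : ∀ k, e < k → f k = 0) (h : e ≤ R) : Tr f n R = 0 := by
  unfold Tr
  apply sum_eq_zero
  intro u _
  rw [he _ (by omega)]
  simp

/-- the geometric bound left of the support -/
lemma Tr_le {f : ℕ → ℕ} {s : ℕ} (hs : ∀ k, k < s → f k = 0) (hf : ∀ d, f (s + d) ≤ d + 1)
    (n R : ℕ) (hR : R < s) : Tr f n R ≤ 4 * (1/2)^(s - R) := by
  have h0 : ∀ n, n < s → Tr f n R = 0 := by
    intro n hn
    unfold Tr
    apply sum_eq_zero
    intro u hu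
    rw [mem_range] at hu
    rw [hs _ (by omega)]
    simp
  have h1 : ∀ d, Tr f (s + d) R ≤ (1/2)^(s-R) * (4 - (d + 3) * (1/2)^d) := by
    intro d
    induction d with
    | zero =>
      obtain ⟨s', rfl⟩ : ∃ s', s = s' + 1 := ⟨s - 1, by omega⟩
      rw [add_zero, Tr_succ (by omega), h0 s' (by omega)]
      have h2 : (f (s'+1) : ℝ) ≤ 1 := by
        have := hf 0
        rw [add_zero] at this
        exact_mod_cast this
      have h3 : (0:ℝ) ≤ (1/2)^(s'+1-R) := by positivity
      push_cast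
      rw [pow_zero]
      nlinarith
    | succ d ih =>
      rw [← add_assoc, Tr_succ (by omega)]
      have h2 : (f (s+d+1) : ℝ) ≤ d + 2 := by
        have := hf (d+1)
        rw [← add_assoc] at this
        have h3 : (f (s+d+1) : ℝ) ≤ ((d + 1 + 1 : ℕ) : ℝ) := by exact_mod_cast this
        push_cast at h3
        linarith
      have h3 : (1/2:ℝ)^(s+d+1-R) = (1/2)^(s-R) * (1/2)^(d+1) := by
        rw [← pow_add]; congr 1; omega
      have h4 : (0:ℝ) ≤ (1/2)^(s-R) * (1/2)^(d+1) := by positivity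
      have h5 := mul_le_mul_of_nonneg_right h2 h4
      rw [h3]
      push_cast
      have h6 : (1/2:ℝ)^d = 2 * (1/2)^(d+1) := by rw [pow_succ]; ring
      calc Tr f (s+d) R + (f (s+d+1) : ℝ) * ((1/2)^(s-R) * (1/2)^(d+1))
          ≤ (1/2)^(s-R) * (4 - (d + 3) * (1/2)^d) + (d + 2) * ((1/2)^(s-R) * (1/2)^(d+1)) := by
            linarith
        _ = (1/2)^(s-R) * (4 - (d + 1 + 3) * (1/2)^(d+1)) := by
            rw [h6]; ring
  rcases Nat.lt_or_ge n s with h | h
  · rw [h0 n h]; positivity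
  · obtain ⟨d, rfl⟩ : ∃ d, n = s + d := ⟨n - s, by omega⟩
    refine (h1 d).trans ?_
    have h3 : (0:ℝ) ≤ (1/2)^(s-R) := by positivity
    have h4 : (0:ℝ) ≤ ((d:ℝ) + 3) * (1/2)^d := by positivity
    nlinarith

lemma geomA (s : ℕ) : ∑ d ∈ range s, min (1:ℝ) (4 * (1/2)^(d+1)) ≤ 3 := by
  rcases s with _ | _ | s
  · simp
  · simp
  · have h : ∑ d ∈ range (s+2), min (1:ℝ) (4 * (1/2)^(d+1)) = 3 - (1/2)^s := by
      induction s with
      | zero =>
        rw [sum_range_succ, sum_range_succ, sum_range_zero]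
        norm_num
      | succ s ih =>
        rw [sum_range_succ, ih]
        have h1 : (1/2:ℝ)^s ≤ 1 := pow_le_one₀ (by norm_num) (by norm_num)
        have h2 : 4 * (1/2:ℝ)^(s+2+1) = (1/2)^s / 2 := by rw [pow_succ, pow_succ, pow_succ]; ring
        rw [h2, min_eq_right (by linarith), pow_succ]
        ring
    rw [show s + 1 + 1 = s + 2 by ring, h]
    have : (0:ℝ) < (1/2)^s := by positivity
    linarith

lemma geomB (s : ℕ) : ∑ d ∈ range s, (4:ℝ) * (1/2)^(d+1) ≤ 4 := by
  have h : ∑ d ∈ range s, (4:ℝ) * (1/2)^(d+1) = 4 - 4 * (1/2)^s := by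
    induction s with
    | zero => simp
    | succ s ih => rw [sum_range_succ, ih, pow_succ]; ring
  rw [h]
  have : (0:ℝ) < (1/2)^s := by positivity
  linarith

/-- a general cap lemma: `h` is at most `c`, vanishes from `e` on, and is at most `g (s-R)` for
`R < s`. -/
lemma cap_sum (h : ℕ → ℝ) (g : ℕ → ℝ) (c G : ℝ) (s e n : ℕ) (hse : s ≤ e)
    (h0 : ∀ R, 0 ≤ h R) (hc : ∀ R, h R ≤ c) (he : ∀ R, e ≤ R → h R = 0)
    (hg : ∀ R, R < s → h R ≤ g (s - 1 - R)) (hG : ∑ d ∈ range s, g d ≤ G) :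
    ∑ R ∈ range n, h R ≤ c * ((e - s : ℕ) : ℝ) + G := by
  have h1 : ∑ R ∈ range n, h R ≤ ∑ R ∈ range e, h R := by
    rcases Nat.le_total n e with hn | hn
    · exact sum_le_sum_of_subset_of_nonneg (range_subset_range.mpr hn) (fun R _ _ => h0 R)
    · rw [← sum_range_add_sum_Ico _ hn]
      have : ∑ R ∈ Ico e n, h R = 0 := by
        apply sum_eq_zero
        intro R hR
        rw [mem_Ico] at hR
        exact he R hR.1
      rw [this, add_zero]
  have h2 : ∑ R ∈ range e, h R = ∑ R ∈ range s, h R + ∑ R ∈ Ico s e, h R :=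
    (sum_range_add_sum_Ico _ hse).symm
  have h3 : ∑ R ∈ Ico s e, h R ≤ c * ((e - s : ℕ) : ℝ) := by
    calc ∑ R ∈ Ico s e, h R ≤ ∑ R ∈ Ico s e, c := sum_le_sum (fun R _ => hc R)
      _ = c * ((e - s : ℕ) : ℝ) := by
          rw [sum_const, Nat.card_Ico, nsmul_eq_mul, mul_comm]
  have h4 : ∑ R ∈ range s, h R ≤ ∑ d ∈ range s, g d := by
    rw [← sum_range_reflect (fun d => g d) s]
    apply sum_le_sum
    intro R hR
    rw [mem_range] at hR
    exact hg R hR
  linarith


/-! ### splitting a set between intervals -/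

variable {ι : Type*} [DecidableEq ι]

/-- number of ordered representations -/
def rho (A : Finset ℕ) (k : ℕ) : ℕ := ((A ×ˢ A).filter (fun p => p.1 + p.2 = k)).card

/-- the elements assigned to the index `i` -/
def P (A : Finset ℕ) (idx : ℕ → ι) (i : ι) : Finset ℕ :=
  A.filter (fun a => idx a = i)

/-- representations with the first term assigned to `i` and the second one to `j` -/
def rp (A : Finset ℕ) (idx : ℕ → ι) (i j : ι) (k : ℕ) : ℕ :=
  ((P A idx i ×ˢ P A idx j).filter (fun p => p.1 + p.2 = k)).card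

lemma rho_split [Fintype ι] (A : Finset ℕ) (idx : ℕ → ι) (k : ℕ) :
    rho A k = ∑ i, ∑ j, rp A idx i j k := by
  unfold rho
  rw [card_eq_sum_card_fiberwise (f := fun p : ℕ × ℕ => (idx p.1, idx p.2)) (t := univ)
    (fun _ _ => by simp), Fintype.sum_prod_type]
  apply sum_congr rfl
  intro i _
  apply sum_congr rfl
  intro j _
  unfold rp P
  congr 1
  ext p
  simp only [mem_filter, mem_product, Prod.mk.injEq]
  tauto

lemma rp_symm (A : Finset ℕ) (idx : ℕ → ι) (i j : ι) (k : ℕ) :
    rp A idx i j k = rp A idx j i k := by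
  unfold rp
  apply card_equiv (Equiv.prodComm ℕ ℕ)
  intro p
  simp only [mem_filter, mem_product, Equiv.prodComm_apply, Prod.fst_swap, Prod.snd_swap]
  rw [add_comm p.2 p.1]
  tauto

lemma sum_rp (A : Finset ℕ) (idx : ℕ → ι) (i j : ι) (D : ℕ) :
    ∑ k ∈ range D, rp A idx i j k ≤ (P A idx i).card * (P A idx j).card := by
  unfold rp
  rw [← card_product, ← card_biUnion]
  · apply card_le_card
    intro p hp
    rw [mem_biUnion] at hp
    obtain ⟨k, _, hp⟩ := hp
    exact (mem_filter.mp hp).1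
  · intro k _ l _ hkl
    show Disjoint _ _
    rw [disjoint_left]
    intro p hp hp'
    rw [mem_filter] at hp hp'
    omega

section bounds

variable {A : Finset ℕ} {idx : ℕ → ι} {a b : ι → ℕ}
  (hidx : ∀ x ∈ A, a (idx x) ≤ x ∧ x ≤ b (idx x))

include hidx

lemma mem_P {i : ι} {x : ℕ} (hx : x ∈ P A idx i) : a i ≤ x ∧ x ≤ b i := by
  unfold P at hx
  rw [mem_filter] at hx
  have := hidx x hx.1
  rw [hx.2] at this
  exact this

lemma rp_hi {i j : ι} {k : ℕ} (hk : b i + b j < k) : rp A idx i j k = 0 := by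
  unfold rp
  rw [card_eq_zero, filter_eq_empty_iff]
  intro p hp
  rw [mem_product] at hp
  have h1 := mem_P hidx hp.1
  have h2 := mem_P hidx hp.2
  omega

lemma rp_lo {i j : ι} {k : ℕ} (hk : k < a i + a j) : rp A idx i j k = 0 := by
  unfold rp
  rw [card_eq_zero, filter_eq_empty_iff]
  intro p hp
  rw [mem_product] at hp
  have h1 := mem_P hidx hp.1
  have h2 := mem_P hidx hp.2
  omega

lemma rp_le {i j : ι} (d : ℕ) : rp A idx i j (a i + a j + d) ≤ d + 1 := by
  have h : (Icc (a i) (a i + d)).card = d + 1 := by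
    rw [Nat.card_Icc]; omega
  rw [← h]
  unfold rp
  apply card_le_card_of_injOn (fun p => p.1)
  · intro p hp
    rw [mem_coe, mem_filter, mem_product] at hp
    have h1 := mem_P hidx hp.1.1
    have h2 := mem_P hidx hp.1.2
    rw [mem_coe, mem_Icc]
    simp only
    omega
  · intro p hp q hq hpq
    rw [mem_coe, mem_filter] at hp hq
    simp only at hpq
    ext
    · exact hpq
    · omega

lemma card_P_le (i : ι) : (P A idx i).card ≤ (Icc (a i) (b i)).card := by
  apply card_le_card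
  intro x hx
  rw [mem_Icc]
  exact mem_P hidx hx

end bounds

/-- the capped tails -/
noncomputable def cap (A : Finset ℕ) (n : ℕ) (idx : ℕ → ι) (i j : ι) (R : ℕ) : ℝ :=
  if i = j then min 2 (Tr (rp A idx i j) n R) else min 1 (Tr (rp A idx i j) n R)

lemma cap_nonneg (A : Finset ℕ) (n : ℕ) (idx : ℕ → ι) (i j : ι) (R : ℕ) :
    0 ≤ cap A n idx i j R := by
  unfold cap
  have := Tr_nonneg (rp A idx i j) n R
  split_ifs
  · exact le_min (by norm_num) this
  · exact le_min (by norm_num) this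

lemma sum_Tr_rp [Fintype ι] (A : Finset ℕ) (n R : ℕ) (idx : ℕ → ι) :
    ∑ i, ∑ j, Tr (rp A idx i j) n R = Tr (rho A) n R := by
  unfold Tr
  rw [sum_congr rfl (fun i _ => sum_comm), sum_comm]
  apply sum_congr rfl
  intro u _
  rw [rho_split A idx]
  push_cast
  rw [sum_mul]
  apply sum_congr rfl
  intro i _
  rw [sum_mul]

/-- capping -/
lemma two_le [Fintype ι] (A : Finset ℕ) (n R : ℕ) (idx : ℕ → ι) (δ V tail : ℝ) (hδ : 0 ≤ δ)
    (ht : 0 ≤ tail) (hV : V ≤ tail + Tr (rho A) n R) (h2 : 2 ≤ δ + V) :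
    (2:ℝ) ≤ δ + min 2 tail + ∑ i, ∑ j, cap A n idx i j R := by
  have hm0 : (0:ℝ) ≤ min 2 tail := le_min (by norm_num) ht
  have hs0 : (0:ℝ) ≤ ∑ i, ∑ j, cap A n idx i j R :=
    sum_nonneg (fun i _ => sum_nonneg (fun j _ => cap_nonneg A n idx i j R))
  have hprod : ∑ i, ∑ j, cap A n idx i j R
      = ∑ p : ι × ι, cap A n idx p.1 p.2 R := by rw [Fintype.sum_prod_type]
  by_cases h1 : 2 ≤ tail
  · rw [min_eq_left h1]
    linarith
  by_cases h2 : ∃ i, 2 ≤ Tr (rp A idx i i) n R
  · obtain ⟨i, hi⟩ := h2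
    have h3 : cap A n idx i i R = 2 := by
      unfold cap
      rw [if_pos rfl, min_eq_left hi]
    have h4 : cap A n idx i i R ≤ ∑ i, ∑ j, cap A n idx i j R := by
      rw [hprod]
      exact single_le_sum (f := fun p : ι × ι => cap A n idx p.1 p.2 R)
        (fun p _ => cap_nonneg A n idx p.1 p.2 R) (mem_univ (i, i))
    linarith
  by_cases h3 : ∃ i j, i ≠ j ∧ 1 ≤ Tr (rp A idx i j) n R
  · obtain ⟨i, j, hij, h3⟩ := h3
    have h4 : cap A n idx i j R = 1 := by
      unfold cap
      rw [if_neg hij, min_eq_left h3]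
    have h5 : Tr (rp A idx j i) n R = Tr (rp A idx i j) n R := by
      have : rp A idx j i = rp A idx i j := funext (fun k => rp_symm A idx j i k)
      rw [this]
    have h6 : cap A n idx j i R = 1 := by
      unfold cap
      rw [if_neg (Ne.symm hij), h5, min_eq_left h3]
    have h7 : cap A n idx i j R + cap A n idx j i R ≤ ∑ i, ∑ j, cap A n idx i j R := by
      rw [hprod]
      exact add_le_sum (f := fun p : ι × ι => cap A n idx p.1 p.2 R)
        (fun p _ => cap_nonneg A n idx p.1 p.2 R) (mem_univ (i, j)) (mem_univ (j, i))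
        (fun h => hij (congrArg Prod.fst h))
    linarith
  push Not at h1 h2 h3
  have h4 : ∀ i j, cap A n idx i j R = Tr (rp A idx i j) n R := by
    intro i j
    unfold cap
    by_cases hij : i = j
    · subst hij
      rw [if_pos rfl, min_eq_right (h2 i).le]
    · rw [if_neg hij, min_eq_right (h3 i j hij).le]
  rw [min_eq_right h1.le]
  have h5 : ∑ i, ∑ j, cap A n idx i j R = ∑ i, ∑ j, Tr (rp A idx i j) n R :=
    sum_congr rfl (fun i _ => sum_congr rfl (fun j _ => h4 i j))
  rw [h5, sum_Tr_rp]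
  linarith

/-! ### the sums over `R` -/

lemma Ico_le_range {f : ℕ → ℝ} (hf : ∀ R, 0 ≤ f R) (n₀ n : ℕ) :
    ∑ R ∈ Ico n₀ n, f R ≤ ∑ R ∈ range n, f R := by
  apply sum_le_sum_of_subset_of_nonneg
  · intro R hR
    rw [mem_Ico] at hR
    rw [mem_range]
    exact hR.2
  · intro R _ _
    exact hf R

section sums

variable {A : Finset ℕ} {n : ℕ} {idx : ℕ → ι} {a b : ι → ℕ}
  (hidx : ∀ x ∈ A, a (idx x) ≤ x ∧ x ≤ b (idx x))

lemma Tr_empty {i j : ι} (h : (P A idx i).card = 0 ∨ (P A idx j).card = 0) (R : ℕ) :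
    Tr (rp A idx i j) n R = 0 := by
  unfold Tr
  apply sum_eq_zero
  intro u _
  have : rp A idx i j (R + u + 1) = 0 := by
    unfold rp
    rw [card_eq_zero]
    rcases h with h | h
    · rw [card_eq_zero] at h
      rw [h, empty_product, filter_empty]
    · rw [card_eq_zero] at h
      rw [h, product_empty, filter_empty]
  rw [this]
  simp

lemma sum_Tr_le (i j : ι) :
    ∑ R ∈ range n, Tr (rp A idx i j) n R ≤ ((P A idx i).card : ℝ) * (P A idx j).card := by
  refine (sum_Tr _ n).trans ?_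
  have := sum_rp A idx i j (n+1)
  have h2 : ((∑ k ∈ range (n+1), rp A idx i j k : ℕ) : ℝ)
      ≤ (((P A idx i).card * (P A idx j).card : ℕ) : ℝ) := by exact_mod_cast this
  push_cast at h2
  exact h2

include hidx

lemma off_diag (n₀ : ℕ) (i j : ι) (hij : i ≠ j) :
    ∑ R ∈ Ico n₀ n, cap A n idx i j R ≤ ((if n₀ < b i + b j then
      min ((P A idx i).card * (P A idx j).card)
        ((Icc (a i) (b i)).card + (Icc (a j) (b j)).card + 1) else 0 : ℕ) : ℝ) := by
  have hcap : ∀ R, cap A n idx i j R = min 1 (Tr (rp A idx i j) n R) := by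
    intro R; unfold cap; rw [if_neg hij]
  by_cases h0 : n₀ < b i + b j
  · rw [if_pos h0]
    refine (Ico_le_range (fun R => cap_nonneg A n idx i j R) n₀ n).trans ?_
    rw [Nat.cast_min, le_min_iff]
    constructor
    · push_cast
      refine le_trans ?_ (sum_Tr_le (n := n) i j)
      apply sum_le_sum
      intro R _
      rw [hcap]
      exact min_le_right _ _
    · by_cases hne : (P A idx i).card = 0 ∨ (P A idx j).card = 0
      · have : ∑ R ∈ range n, cap A n idx i j R = 0 := by
          apply sum_eq_zero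
          intro R _
          rw [hcap, Tr_empty hne]
          simp
        rw [this]
        positivity
      · push Not at hne
        obtain ⟨x, hx⟩ := card_ne_zero.mp hne.1
        obtain ⟨y, hy⟩ := card_ne_zero.mp hne.2
        have hx' := mem_P hidx hx
        have hy' := mem_P hidx hy
        have h := cap_sum (fun R => cap A n idx i j R) (fun d => min 1 (4 * (1/2)^(d+1))) 1 3
          (a i + a j) (b i + b j) n (by omega) (fun R => cap_nonneg A n idx i j R)
          (fun R => by simp only [hcap]; exact min_le_left _ _)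
          (fun R hR => by
            simp only [hcap]
            rw [Tr_zero (fun k hk => rp_hi hidx hk) hR]; simp)
          (fun R hR => by
            simp only [hcap]
            apply min_le_min le_rfl
            have h3 := Tr_le (f := rp A idx i j) (s := a i + a j) (fun k hk => rp_lo hidx hk)
              (fun d => rp_le hidx d) n R hR
            rw [show a i + a j - 1 - R + 1 = a i + a j - R by omega]
            exact h3) (geomA _)
        refine h.trans ?_
        rw [Nat.card_Icc, Nat.card_Icc, one_mul]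
        have h4 : (b i + b j - (a i + a j)) + 3 = b i + 1 - a i + (b j + 1 - a j) + 1 := by omega
        have h5 : (((b i + b j - (a i + a j)) + 3 : ℕ) : ℝ)
            = ((b i + 1 - a i + (b j + 1 - a j) + 1 : ℕ) : ℝ) := by rw [h4]
        rw [← h5]
        push_cast
        exact le_rfl
  · rw [if_neg h0]
    have : ∑ R ∈ Ico n₀ n, cap A n idx i j R = 0 := by
      apply sum_eq_zero
      intro R hR
      rw [mem_Ico] at hR
      rw [hcap, Tr_zero (fun k hk => rp_hi hidx hk) (by omega)]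
      simp
    rw [this]
    simp

lemma diag (n₀ : ℕ) (i : ι) :
    ∑ R ∈ Ico n₀ n, cap A n idx i i R ≤ ((if n₀ < b i + b i then
      min ((P A idx i).card * (P A idx i).card)
        ((Icc (a i) (b i)).card + (Icc (a i) (b i)).card + 1) else 0 : ℕ) : ℝ)
      + 2 * ((if n₀ ≤ 2 * b i then (Icc (a i) (b i)).card else 0 : ℕ) : ℝ) := by
  have hcap : ∀ R, cap A n idx i i R = min 2 (Tr (rp A idx i i) n R) := by
    intro R; unfold cap; rw [if_pos rfl]
  by_cases h0 : n₀ < b i + b i
  · rw [if_pos h0, if_pos (by omega)]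
    refine (Ico_le_range (fun R => cap_nonneg A n idx i i R) n₀ n).trans ?_
    have hA : ∑ R ∈ range n, cap A n idx i i R ≤ ((P A idx i).card : ℝ) * (P A idx i).card := by
      refine le_trans ?_ (sum_Tr_le (n := n) i i)
      apply sum_le_sum
      intro R _
      rw [hcap]
      exact min_le_right _ _
    have hB : ∑ R ∈ range n, cap A n idx i i R ≤ 4 * ((Icc (a i) (b i)).card : ℝ) := by
      by_cases hne : (P A idx i).card = 0
      · have : ∑ R ∈ range n, cap A n idx i i R = 0 := by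
          apply sum_eq_zero
          intro R _
          rw [hcap, Tr_empty (Or.inl hne)]
          simp
        rw [this]
        positivity
      · obtain ⟨x, hx⟩ := card_ne_zero.mp hne
        have hx' := mem_P hidx hx
        have h := cap_sum (fun R => cap A n idx i i R) (fun d => 4 * (1/2)^(d+1)) 2 4
          (a i + a i) (b i + b i) n (by omega) (fun R => cap_nonneg A n idx i i R)
          (fun R => by simp only [hcap]; exact min_le_left _ _)
          (fun R hR => by
            simp only [hcap]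
            rw [Tr_zero (fun k hk => rp_hi hidx hk) hR]; simp)
          (fun R hR => by
            simp only [hcap]
            refine (min_le_right _ _).trans ?_
            have h3 := Tr_le (f := rp A idx i i) (s := a i + a i) (fun k hk => rp_lo hidx hk)
              (fun d => rp_le hidx d) n R hR
            rw [show a i + a i - 1 - R + 1 = a i + a i - R by omega]
            exact h3) (geomB _)
        refine h.trans ?_
        rw [Nat.card_Icc]
        have h4 : 2 * (b i + b i - (a i + a i)) + 4 = 4 * (b i + 1 - a i) := by omega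
        have h5 : ((2 * (b i + b i - (a i + a i)) + 4 : ℕ) : ℝ)
            = ((4 * (b i + 1 - a i) : ℕ) : ℝ) := by rw [h4]
        push_cast at h5 ⊢
        linarith
    rcases Nat.le_total ((P A idx i).card * (P A idx i).card)
        ((Icc (a i) (b i)).card + (Icc (a i) (b i)).card + 1) with h | h
    · rw [min_eq_left h]
      push_cast
      have : (0:ℝ) ≤ ((Icc (a i) (b i)).card : ℝ) := by positivity
      linarith
    · rw [min_eq_right h]
      push_cast
      linarith
  · rw [if_neg h0]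
    have : ∑ R ∈ Ico n₀ n, cap A n idx i i R = 0 := by
      apply sum_eq_zero
      intro R hR
      rw [mem_Ico] at hR
      rw [hcap, Tr_zero (fun k hk => rp_hi hidx hk) (by omega)]
      simp
    rw [this]
    positivity


end sums

lemma sum_tail (n₀ n : ℕ) (t : ℝ) (ht0 : 0 ≤ t) (ht : t ≤ 2^(Nat.log 2 (n+4) + 1)) :
    ∑ R ∈ Ico n₀ n, min 2 ((1/2:ℝ)^(n-R) * t) ≤ 2 * (Nat.log 2 (n+4) : ℝ) + 2 := by
  set L := Nat.log 2 (n+4) + 1 with hL
  set h : ℕ → ℝ := fun R => if R < n then min 2 ((1/2:ℝ)^(n-R) * t) else 0 with hh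
  have h0 : ∀ R, 0 ≤ h R := by
    intro R
    rw [hh]
    simp only
    split_ifs
    · exact le_min (by norm_num) (by positivity)
    · exact le_rfl
  have h1 : ∑ R ∈ Ico n₀ n, min 2 ((1/2:ℝ)^(n-R) * t) ≤ ∑ R ∈ range n, h R := by
    refine le_trans (le_of_eq ?_) (Ico_le_range h0 n₀ n)
    apply sum_congr rfl
    intro R hR
    rw [mem_Ico] at hR
    rw [hh]
    simp only
    rw [if_pos hR.2]
  refine h1.trans ?_
  have hg : ∀ s : ℕ, ∑ d ∈ range s, (1/2:ℝ)^d ≤ 2 := by
    intro s
    have h : ∑ d ∈ range s, (1/2:ℝ)^d = 2 - 2 * (1/2)^s := by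
      induction s with
      | zero => simp
      | succ s ih => rw [sum_range_succ, ih, pow_succ]; ring
    rw [h]
    have : (0:ℝ) < (1/2)^s := by positivity
    linarith
  have h2 := cap_sum h (fun d => (1/2:ℝ)^d) 2 2 (n + 1 - L) n n (by omega) h0
    (fun R => by
      rw [hh]; simp only
      split_ifs
      · exact min_le_left _ _
      · norm_num)
    (fun R hR => by
      rw [hh]; simp only
      rw [if_neg (by omega)])
    (fun R hR => by
      rw [hh]; simp only
      rw [if_pos (by omega)]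
      refine (min_le_right _ _).trans ?_
      have h3 : (1/2:ℝ)^(n-R) = (1/2)^(n + 1 - L - 1 - R) * (1/2)^L := by
        rw [← pow_add]; congr 1; omega
      have h4 : (1/2:ℝ)^L * 2^L = 1 := by rw [← mul_pow]; norm_num
      rw [h3, mul_assoc]
      have h5 : (1/2:ℝ)^L * t ≤ 1 := by
        calc (1/2:ℝ)^L * t ≤ (1/2:ℝ)^L * 2^L :=
              mul_le_mul_of_nonneg_left ht (by positivity)
          _ = 1 := h4
      have h6 : (0:ℝ) ≤ (1/2)^(n + 1 - L - 1 - R) := by positivity
      calc (1/2:ℝ)^(n + 1 - L - 1 - R) * ((1/2)^L * t)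
          ≤ (1/2:ℝ)^(n + 1 - L - 1 - R) * 1 := mul_le_mul_of_nonneg_left h5 h6
        _ = (1/2:ℝ)^(n + 1 - L - 1 - R) := mul_one _)
    (hg _)
  refine h2.trans ?_
  have h3 : ((n - (n + 1 - L) : ℕ) : ℝ) ≤ (Nat.log 2 (n+4) : ℝ) := by
    apply Nat.cast_le.mpr
    omega
  linarith

/-- the abstract cover inequality -/
theorem core [Fintype ι] (A : Finset ℕ) (n₀ n : ℕ) (hn : n₀ ≤ n) (idx : ℕ → ι) (a b : ι → ℕ)
    (hidx : ∀ x ∈ A, a (idx x) ≤ x ∧ x ≤ b (idx x)) (δ V : ℕ → ℝ) (hδ : ∀ R, 0 ≤ δ R)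
    (t : ℝ) (ht0 : 0 ≤ t) (ht : t ≤ 2^(Nat.log 2 (n+4) + 1))
    (hV : ∀ R, n₀ ≤ R → R < n → V R ≤ (1/2)^(n-R) * t + Tr (rho A) n R)
    (h2 : ∀ R, n₀ ≤ R → R < n → 2 ≤ δ R + V R) :
    (2:ℝ) * n ≤ 2 * n₀ + ∑ R ∈ Ico n₀ n, δ R
      + ((∑ i, ∑ j, (if n₀ < b i + b j then
          min ((P A idx i).card * (P A idx j).card)
            ((Icc (a i) (b i)).card + (Icc (a j) (b j)).card + 1) else 0) : ℕ) : ℝ)
      + 2 * ((∑ i, (if n₀ ≤ 2 * b i then (Icc (a i) (b i)).card else 0) : ℕ) : ℝ)
      + 2 * (Nat.log 2 (n+4) : ℝ) + 2 := by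
  have h1 : ∑ R ∈ Ico n₀ n, (2:ℝ) ≤ ∑ R ∈ Ico n₀ n, (δ R
      + min 2 ((1/2)^(n-R) * t) + ∑ i, ∑ j, cap A n idx i j R) := by
    apply sum_le_sum
    intro R hR
    rw [mem_Ico] at hR
    exact two_le A n R idx (δ R) (V R) _ (hδ R) (by positivity) (hV R hR.1 hR.2) (h2 R hR.1 hR.2)
  rw [sum_add_distrib, sum_add_distrib, sum_const, Nat.card_Ico, nsmul_eq_mul] at h1
  have h3 := sum_tail n₀ n t ht0 ht
  have h4 : ∑ R ∈ Ico n₀ n, ∑ i, ∑ j, cap A n idx i j R
      = ∑ i, ∑ j, ∑ R ∈ Ico n₀ n, cap A n idx i j R := by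
    rw [sum_comm]
    apply sum_congr rfl
    intro i _
    rw [sum_comm]
  have h5 : ∑ i, ∑ j, ∑ R ∈ Ico n₀ n, cap A n idx i j R ≤
      ∑ i, ∑ j, (((if n₀ < b i + b j then
          min ((P A idx i).card * (P A idx j).card)
            ((Icc (a i) (b i)).card + (Icc (a j) (b j)).card + 1) else 0 : ℕ) : ℝ)
        + (if i = j then 2 * ((if n₀ ≤ 2 * b i then (Icc (a i) (b i)).card else 0 : ℕ) : ℝ)
          else 0)) := by
    apply sum_le_sum
    intro i _
    apply sum_le_sum
    intro j _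
    by_cases hij : i = j
    · subst hij
      rw [if_pos rfl]
      exact diag hidx n₀ i
    · rw [if_neg hij, add_zero]
      exact off_diag hidx n₀ i j hij
  have h6 : ∑ i, ∑ j, (((if n₀ < b i + b j then
          min ((P A idx i).card * (P A idx j).card)
            ((Icc (a i) (b i)).card + (Icc (a j) (b j)).card + 1) else 0 : ℕ) : ℝ)
        + (if i = j then 2 * ((if n₀ ≤ 2 * b i then (Icc (a i) (b i)).card else 0 : ℕ) : ℝ)
          else 0))
      = ((∑ i, ∑ j, (if n₀ < b i + b j then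
          min ((P A idx i).card * (P A idx j).card)
            ((Icc (a i) (b i)).card + (Icc (a j) (b j)).card + 1) else 0) : ℕ) : ℝ)
        + 2 * ((∑ i, (if n₀ ≤ 2 * b i then (Icc (a i) (b i)).card else 0) : ℕ) : ℝ) := by
    rw [Nat.cast_sum, Nat.cast_sum, mul_sum, ← sum_add_distrib]
    apply sum_congr rfl
    intro i _
    rw [sum_add_distrib, sum_ite_eq, if_pos (mem_univ i), Nat.cast_sum]
  rw [h4] at h1
  rw [h6] at h5
  have h7 : ((n - n₀ : ℕ) : ℝ) = (n : ℝ) - n₀ := Nat.cast_sub hn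
  rw [h7] at h1
  linarith

end Pool.Agent.H33.Cover
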