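import Mathlib

set_option autoImplicit false

/-!
Combinatorial core of the counterexample for MP_d6ea2c_co: every multiset of integers `≥ 2`
with sum `61` can be arranged in one of two ways along the tree.
-/

namespace Pool.Agent.H33.Cpet

/-- arrangement of the first kind -/
def P1 (M : Multiset ℕ) : Prop :=
  (∃ (A D : Multiset ℕ) (s : ℕ), M = A + {s} + D ∧ A.sum ≤ 12 ∧ 31 ≤ A.sum + s) ∨
  (∃ (A B D : Multiset ℕ) (s t : ℕ), M = A + {s} + B + {t} + D ∧ A.sum ≤ 12 ∧
    16 ≤ A.sum + s ∧ A.sum + s + B.sum ≤ 28 ∧ 31 ≤ A.sum + s + B.sum + t)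

/-- arrangement of the second kind -/
def P2 (M : Multiset ℕ) : Prop :=
  ∃ (A B D : Multiset ℕ) (s t : ℕ), M = {2} + (A + {s} + B + {t} + D) ∧ A.sum ≤ 12 ∧
    14 ≤ A.sum + s ∧ A.sum + s + B.sum ≤ 26 ∧ 29 ≤ A.sum + s + B.sum + t

lemma greedy (y S lo : ℕ) (Z : Multiset ℕ) (hz : ∀ z ∈ Z, z ≤ y) (h1 : S < lo)
    (h2 : lo ≤ S + Z.sum) :
    ∃ Z1 Z2 : Multiset ℕ, Z = Z1 + Z2 ∧ lo ≤ S + Z1.sum ∧ S + Z1.sum < lo + y := by
  induction Z using Multiset.induction_on generalizing S with
  | empty => simp at h2; omega
  | cons z Z ih =>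
    have hzy : z ≤ y := hz z (Multiset.mem_cons_self _ _)
    by_cases h : lo ≤ S + z
    · refine ⟨{z}, Z, by simp, by simpa using h, ?_⟩
      simp only [Multiset.sum_singleton]
      omega
    · obtain ⟨Z1, Z2, hZ, h3, h4⟩ := ih (S + z) (fun w hw => hz w (Multiset.mem_cons_of_mem hw))
        (by omega) (by simp only [Multiset.sum_cons] at h2; omega)
      refine ⟨z ::ₘ Z1, Z2, by rw [hZ]; simp, ?_, ?_⟩
      · simp only [Multiset.sum_cons]; omega
      · simp only [Multiset.sum_cons]; omega

/-- the elements of the list with label `d` -/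
def pick (d : ℕ) : List ℕ → ℕ → List ℕ
  | [], _ => []
  | x :: xs, c => if c % 8 = d then x :: pick d xs (c / 8) else pick d xs (c / 8)

/-- the elements of the list with a label other than 0,1,2,3,5 -/
def pickRest : List ℕ → ℕ → List ℕ
  | [], _ => []
  | x :: xs, c => if c % 8 = 0 ∨ c % 8 = 1 ∨ c % 8 = 2 ∨ c % 8 = 3 ∨ c % 8 = 5 then
      pickRest xs (c / 8) else x :: pickRest xs (c / 8)

lemma pick_cons (d x : ℕ) (xs : List ℕ) (c : ℕ) :
    pick d (x :: xs) c = if c % 8 = d then x :: pick d xs (c / 8) else pick d xs (c / 8) := rfl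

lemma pickRest_cons (x : ℕ) (xs : List ℕ) (c : ℕ) :
    pickRest (x :: xs) c = if c % 8 = 0 ∨ c % 8 = 1 ∨ c % 8 = 2 ∨ c % 8 = 3 ∨ c % 8 = 5 then
      pickRest xs (c / 8) else x :: pickRest xs (c / 8) := rfl

lemma pick_all (C : List ℕ) (c : ℕ) :
    (C : Multiset ℕ) = (pick 0 C c : Multiset ℕ) + (pick 1 C c : Multiset ℕ) +
      (pick 2 C c : Multiset ℕ) + (pick 3 C c : Multiset ℕ) + (pick 5 C c : Multiset ℕ) +
      (pickRest C c : Multiset ℕ) := by
  induction C generalizing c with
  | nil => simp [pick, pickRest]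
  | cons x xs ih =>
    have h := ih (c / 8)
    rw [← Multiset.cons_coe, h]
    rw [pick_cons, pick_cons, pick_cons, pick_cons, pick_cons, pickRest_cons]
    by_cases h0 : c % 8 = 0
    · rw [if_pos h0, if_neg (by omega), if_neg (by omega), if_neg (by omega), if_neg (by omega),
        if_pos (by omega)]
      simp only [← Multiset.cons_coe, ← Multiset.singleton_add]
      abel
    by_cases h1 : c % 8 = 1
    · rw [if_neg h0, if_pos h1, if_neg (by omega), if_neg (by omega), if_neg (by omega),
        if_pos (by omega)]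
      simp only [← Multiset.cons_coe, ← Multiset.singleton_add]
      abel
    by_cases h2 : c % 8 = 2
    · rw [if_neg h0, if_neg h1, if_pos h2, if_neg (by omega), if_neg (by omega),
        if_pos (by omega)]
      simp only [← Multiset.cons_coe, ← Multiset.singleton_add]
      abel
    by_cases h3 : c % 8 = 3
    · rw [if_neg h0, if_neg h1, if_neg h2, if_pos h3, if_neg (by omega),
        if_pos (by omega)]
      simp only [← Multiset.cons_coe, ← Multiset.singleton_add]
      abel
    by_cases h5 : c % 8 = 5
    · rw [if_neg h0, if_neg h1, if_neg h2, if_neg h3, if_pos h5,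
        if_pos (by omega)]
      simp only [← Multiset.cons_coe, ← Multiset.singleton_add]
      abel
    rw [if_neg h0, if_neg h1, if_neg h2, if_neg h3, if_neg h5,
        if_neg (by omega)]
    simp only [← Multiset.cons_coe, ← Multiset.singleton_add]
    abel

def chk1 (a b s t R y : ℕ) : Bool :=
  Nat.ble a 12 &&
  ((Nat.ble 16 (a + s) && (Nat.ble (a + s + b) 28 &&
      (Nat.ble 31 (a + s + b + t) || (Nat.ble (y + 2) t && Nat.ble 31 (R + (a + s + b) + t))))) ||
   (Nat.blt (a + s) 16 && (Nat.ble (y + 3) s && (Nat.ble 16 (R + a + s) &&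
      (Nat.ble (15 + y + b) 28 && (Nat.ble 31 (16 + b + t) ||
        (Nat.ble (y + 2) t && Nat.ble 31 (R + a + s + b + t))))))))

def leaf1 (C : List ℕ) (R y c : ℕ) : Bool :=
  match pick 1 C c, pick 3 C c with
  | [s], [] =>
    Nat.ble (pick 0 C c).sum 12 &&
      (Nat.ble 31 ((pick 0 C c).sum + s) ||
        (Nat.ble (y + 18) s && Nat.ble 31 (R + (pick 0 C c).sum + s)))
  | [s], [t] => chk1 (pick 0 C c).sum (pick 2 C c).sum s t R y
  | _, _ => false

def leaf2 (C : List ℕ) (R c : ℕ) : Bool :=
  Nat.beq R 0 &&
  match pick 1 C c, pick 3 C c, pick 5 C c with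
  | [s], [t], [2] =>
    Nat.ble (pick 0 C c).sum 12 && (Nat.ble 14 ((pick 0 C c).sum + s) &&
      (Nat.ble ((pick 0 C c).sum + s + (pick 2 C c).sum) 26 &&
        Nat.ble 29 ((pick 0 C c).sum + s + (pick 2 C c).sum + t)))
  | _, _, _ => false

lemma chk1_sound (A B D Z : Multiset ℕ) (s t R y : ℕ) (h : chk1 A.sum B.sum s t R y = true)
    (hz : ∀ z ∈ Z, z ≤ y) (hR : Z.sum = R) :
    P1 (A + {s} + B + {t} + D + Z) := by
  unfold chk1 at h
  simp only [Bool.and_eq_true, Bool.or_eq_true, Nat.ble_eq, Nat.blt_eq] at h
  obtain ⟨ha, h⟩ := h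
  right
  rcases h with ⟨h16, h28, h⟩ | ⟨h16, hy3, hR16, h28, h⟩
  · -- no filling before `s`
    rcases Nat.lt_or_ge (A.sum + s + B.sum + t) 31 with h31 | h31
    · rcases h with h | ⟨hyt, hR31⟩
      · omega
      · obtain ⟨Z1, Z2, hZ, h3, h4⟩ := greedy y (A.sum + s + B.sum) (31 - t) Z hz (by omega)
          (by omega)
        refine ⟨A, B + Z1, D + Z2, s, t, ?_, ha, h16, ?_, ?_⟩
        · rw [hZ]; abel
        · rw [Multiset.sum_add]; omega
        · rw [Multiset.sum_add]; omega
    · exact ⟨A, B, D + Z, s, t, by abel, ha, h16, h28, h31⟩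
  · obtain ⟨Z1, Z2, hZ, h3, h4⟩ := greedy y A.sum (16 - s) Z hz (by omega) (by omega)
    have hz2 : ∀ z ∈ Z2, z ≤ y := fun z hz' => hz z (by rw [hZ]; exact Multiset.mem_add.2 (Or.inr hz'))
    have hsum : Z1.sum + Z2.sum = R := by rw [← hR, hZ, Multiset.sum_add]
    rcases Nat.lt_or_ge ((A + Z1).sum + s + B.sum + t) 31 with h31 | h31
    · rw [Multiset.sum_add] at h31
      rcases h with h | ⟨hyt, hR31⟩
      · omega
      · obtain ⟨Z3, Z4, hZ', h5, h6⟩ := greedy y (A.sum + Z1.sum + s + B.sum) (31 - t) Z2 hz2
          (by omega) (by omega)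
        refine ⟨A + Z1, B + Z3, D + Z4, s, t, ?_, ?_, ?_, ?_, ?_⟩
        · rw [hZ, hZ']; abel
        · rw [Multiset.sum_add]; omega
        · rw [Multiset.sum_add]; omega
        · rw [Multiset.sum_add, Multiset.sum_add]; omega
        · rw [Multiset.sum_add, Multiset.sum_add]; omega
    · refine ⟨A + Z1, B, D + Z2, s, t, ?_, ?_, ?_, ?_, h31⟩
      · rw [hZ]; abel
      · rw [Multiset.sum_add]; omega
      · rw [Multiset.sum_add]; omega
      · rw [Multiset.sum_add]; omega

lemma leaf1_sound (C : List ℕ) (R y c : ℕ) (h : leaf1 C R y c = true) (Z : Multiset ℕ)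
    (hz : ∀ z ∈ Z, z ≤ y) (hR : Z.sum = R) : P1 ((C : Multiset ℕ) + Z) := by
  rw [pick_all C c]
  unfold leaf1 at h
  split at h
  · rename_i s h1 h3
    rw [h1, h3]
    simp only [Bool.and_eq_true, Bool.or_eq_true, Nat.ble_eq] at h
    obtain ⟨ha, h⟩ := h
    rw [← Multiset.sum_coe] at ha h
    left
    rcases Nat.lt_or_ge ((pick 0 C c : Multiset ℕ).sum + s) 31 with h31 | h31
    · rcases h with h | ⟨hys, hR31⟩
      · omega
      · obtain ⟨Z1, Z2, hZ, h3, h4⟩ := greedy y (pick 0 C c : Multiset ℕ).sum (31 - s) Z hz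
          (by omega) (by omega)
        refine ⟨(pick 0 C c : Multiset ℕ) + Z1, (pick 2 C c : Multiset ℕ) +
          (pick 5 C c : Multiset ℕ) + (pickRest C c : Multiset ℕ) + Z2, s, ?_, ?_, ?_⟩
        · rw [hZ]; simp only [Multiset.coe_nil, Multiset.coe_singleton]; abel
        · rw [Multiset.sum_add]; omega
        · rw [Multiset.sum_add]; omega
    · refine ⟨(pick 0 C c : Multiset ℕ), (pick 2 C c : Multiset ℕ) +
          (pick 5 C c : Multiset ℕ) + (pickRest C c : Multiset ℕ) + Z, s, ?_, ha, h31⟩
      simp only [Multiset.coe_nil, Multiset.coe_singleton]; abel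
  · rename_i s t h1 h3
    rw [h1, h3]
    rw [← Multiset.sum_coe, ← Multiset.sum_coe] at h
    have := chk1_sound _ _ ((pick 5 C c : Multiset ℕ) + (pickRest C c : Multiset ℕ)) Z s t R y h hz hR
    convert this using 1
    simp only [Multiset.coe_singleton]; abel
  · exact absurd h (by simp)

lemma leaf2_sound (C : List ℕ) (R c : ℕ) (h : leaf2 C R c = true) (Z : Multiset ℕ)
    (hz : ∀ z ∈ Z, 2 ≤ z) (hR : Z.sum = R) : P2 ((C : Multiset ℕ) + Z) := by
  unfold leaf2 at h
  rw [Bool.and_eq_true] at h
  obtain ⟨hR0, h⟩ := h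
  have hR0 : R = 0 := Nat.eq_of_beq_eq_true hR0
  have hZ : Z = 0 := by
    rw [hR0] at hR
    apply Multiset.eq_zero_of_forall_notMem
    intro z hz'
    have h1 := Multiset.single_le_sum (fun x _ => Nat.zero_le x) z hz'
    have h2 := hz z hz'
    omega
  rw [hZ, add_zero, pick_all C c]
  split at h
  · rename_i s t h1 h3 h5
    rw [h1, h3, h5]
    simp only [Bool.and_eq_true, Nat.ble_eq] at h
    obtain ⟨ha, hb, hc, hd⟩ := h
    rw [← Multiset.sum_coe] at ha hb
    rw [← Multiset.sum_coe, ← Multiset.sum_coe] at hc hd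
    refine ⟨(pick 0 C c : Multiset ℕ), (pick 2 C c : Multiset ℕ), (pickRest C c : Multiset ℕ), s, t,
      ?_, ha, hb, hc, hd⟩
    simp only [Multiset.coe_singleton]; abel
  · exact absurd h (by simp)

/-- depth first search over all multisets with parts in `[2,y]` and sum `R`, guided by a
certificate; returns the unused part of the certificate -/
def go : ℕ → List ℕ → ℕ → ℕ → List ℕ → Option (List ℕ)
  | 0, _, _, _, _ => none
  | f + 1, C, R, y, cert =>
    bif Nat.blt R y then go f C R R cert
    else bif (Nat.blt 0 R && (Nat.beq R 1 || Nat.blt y 2)) then some cert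
    else match cert with
      | [] => none
      | 0 :: cert =>
        bif Nat.beq R 0 then none else
        match go f (y :: C) (R - y) y cert with
        | none => none
        | some cert' => go f C R (y - 1) cert'
      | 1 :: cert =>
        match cert with
        | [] => none
        | c :: cert => bif leaf2 C R c then some cert else none
      | (c + 2) :: cert => bif leaf1 C R y c then some cert else none

theorem go_sound (f : ℕ) : ∀ (C : List ℕ) (R y : ℕ) (cert cert' : List ℕ),
    go f C R y cert = some cert' → ∀ Z : Multiset ℕ, (∀ z ∈ Z, 2 ≤ z ∧ z ≤ y) → Z.sum = R →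
    P1 ((C : Multiset ℕ) + Z) ∨ P2 ((C : Multiset ℕ) + Z) := by
  induction f with
  | zero => intro C R y cert cert' h; simp [go] at h
  | succ f ih =>
    intro C R y cert cert' h Z hZ hR
    have hle : ∀ z ∈ Z, z ≤ R := by
      intro z hz
      rw [← hR]
      exact Multiset.single_le_sum (fun x _ => Nat.zero_le x) z hz
    unfold go at h
    by_cases h1 : R < y
    · have : Nat.blt R y = true := by rw [Nat.blt_eq]; exact h1
      rw [this, cond_true] at h
      exact ih C R R cert cert' h Z (fun z hz => ⟨(hZ z hz).1, hle z hz⟩) hR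
    · have : Nat.blt R y = false := by
        rw [Bool.eq_false_iff]; intro h'; rw [Nat.blt_eq] at h'; exact h1 h'
      rw [this, cond_false] at h
      by_cases h2 : 0 < R ∧ (R = 1 ∨ y < 2)
      · exfalso
        obtain ⟨hR0, h2⟩ := h2
        have hne : Z ≠ 0 := by rintro rfl; simp at hR; omega
        obtain ⟨z, hz⟩ := Multiset.exists_mem_of_ne_zero hne
        have h3 := hZ z hz
        have h4 := hle z hz
        omega
      · have : (Nat.blt 0 R && (Nat.beq R 1 || Nat.blt y 2)) = false := by
          rw [Bool.eq_false_iff]; intro h'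
          simp only [Bool.and_eq_true, Bool.or_eq_true, Nat.blt_eq, Nat.beq_eq] at h'
          exact h2 h'
        rw [this, cond_false] at h
        cases cert with
        | nil => simp at h
        | cons a cert =>
          match a, h with
          | 0, h =>
            simp only at h
            by_cases h3 : R = 0
            · simp [h3] at h
            · have : Nat.beq R 0 = false := by
                rw [Bool.eq_false_iff]; intro h'; exact h3 (Nat.eq_of_beq_eq_true h')
              rw [this, cond_false] at h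
              split at h
              · simp at h
              · rename_i cert2 hgo
                by_cases hy : y ∈ Z
                · obtain ⟨Z', rfl⟩ := Multiset.exists_cons_of_mem hy
                  have := ih (y :: C) (R - y) y cert cert2 hgo Z'
                    (fun z hz => hZ z (Multiset.mem_cons_of_mem hz))
                    (by rw [Multiset.sum_cons] at hR; omega)
                  rwa [← Multiset.cons_coe, Multiset.cons_add, ← Multiset.add_cons] at this
                · refine ih C R (y - 1) cert2 cert' h Z (fun z hz => ⟨(hZ z hz).1, ?_⟩) hR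
                  have h5 := (hZ z hz).2
                  have : z ≠ y := fun h' => hy (h' ▸ hz)
                  omega
          | 1, h =>
            simp only at h
            cases cert with
            | nil => simp at h
            | cons c cert =>
              simp only at h
              cases hl : leaf2 C R c with
              | false => rw [hl] at h; simp at h
              | true => exact Or.inr (leaf2_sound C R c hl Z (fun z hz => (hZ z hz).1) hR)
          | c + 2, h =>
            simp only at h
            cases hl : leaf1 C R y c with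
            | false => rw [hl] at h; simp at h
            | true => exact Or.inl (leaf1_sound C R y c hl Z (fun z hz => (hZ z hz).2) hR)

end Pool.Agent.H33.Cpet
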