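import Mathlib

/-!
The carries of `y² = 2` for the binary digits of `y = √2` (the same as in `OnesLower`).
-/

open Finset

namespace Pool.Agent.H33.Ones

/-- `X n = ⌊2^n √2⌋`. -/
noncomputable def X (n : ℕ) : ℕ := ⌊Real.sqrt 2 * (2:ℝ)^n⌋₊

lemma X_le (n : ℕ) : (X n : ℝ) ≤ Real.sqrt 2 * 2^n := Nat.floor_le (by positivity)

lemma lt_X (n : ℕ) : Real.sqrt 2 * 2^n < X n + 1 := Nat.lt_floor_add_one _

lemma X_ne (n : ℕ) : (X n : ℝ) ≠ Real.sqrt 2 * 2^n := by
  intro h
  apply irrational_sqrt_two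
  refine ⟨(X n : ℚ) / 2^n, ?_⟩
  push_cast
  rw [h]
  field_simp

lemma X_lt (n : ℕ) : (X n : ℝ) < Real.sqrt 2 * 2^n := lt_of_le_of_ne (X_le n) (X_ne n)

lemma X_succ_div (n : ℕ) : X (n+1) / 2 = X n := by
  unfold X
  have h := Nat.floor_div_natCast (Real.sqrt 2 * (2:ℝ)^(n+1)) 2
  rw [← h]
  congr 1
  rw [pow_succ]
  push_cast
  ring

lemma X_succ (n : ℕ) : X (n+1) = 2 * X n + X (n+1) % 2 := by
  have h := X_succ_div n
  omega

lemma X_zero : X 0 = 1 := by
  unfold X
  rw [pow_zero, mul_one, Nat.floor_eq_iff (by positivity)]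
  constructor
  · push_cast
    exact Real.one_le_sqrt.mpr (by norm_num)
  · push_cast
    rw [Real.sqrt_lt' (by norm_num)]
    norm_num

/-- positions of the ones among the digits `0, …, N` -/
noncomputable def A (N : ℕ) : Finset ℕ := (range (N+1)).filter (fun k => X k % 2 = 1)

lemma mem_A {N k : ℕ} : k ∈ A N ↔ k ≤ N ∧ X k % 2 = 1 := by
  simp [A]

lemma A_succ_sum {M : Type*} [AddCommMonoid M] (N : ℕ) (f : ℕ → M) :
    ∑ a ∈ A (N+1), f a = ∑ a ∈ A N, f a + (if X (N+1) % 2 = 1 then f (N+1) else 0) := by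
  unfold A
  rw [sum_filter, sum_filter, sum_range_succ]

/-- partial binary expansion -/
lemma sum_A_half (N : ℕ) : ∑ a ∈ A N, (1/2:ℝ)^a = X N / 2^N := by
  induction N with
  | zero =>
    have : A 0 = {0} := by
      ext k
      rw [mem_A, mem_singleton]
      constructor
      · rintro ⟨h, _⟩; omega
      · rintro rfl; exact ⟨le_rfl, by rw [X_zero]⟩
    rw [this, X_zero]
    simp
  | succ N ih =>
    rw [A_succ_sum, ih]
    have h := X_succ N
    have h2 : (X (N+1) : ℝ) = 2 * X N + (X (N+1) % 2 : ℕ) := by exact_mod_cast h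
    rcases Nat.mod_two_eq_zero_or_one (X (N+1)) with h0 | h1
    · rw [h0] at h2
      rw [h0, if_neg (by norm_num), h2, pow_succ]
      field_simp
      simp
    · rw [h1] at h2
      rw [h1, if_pos rfl, h2, pow_succ, pow_succ]
      rw [one_div, inv_pow]
      field_simp
      simp

lemma A_half_lt (N : ℕ) : ∑ a ∈ A N, (1/2:ℝ)^a < Real.sqrt 2 := by
  rw [sum_A_half, div_lt_iff₀ (by positivity)]
  exact X_lt N

lemma lt_A_half (N : ℕ) : Real.sqrt 2 < ∑ a ∈ A N, (1/2:ℝ)^a + (1/2)^N := by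
  rw [sum_A_half]
  have h := lt_X N
  have : (1/2:ℝ)^N = 1 / 2^N := by rw [one_div, inv_pow, one_div]
  rw [this, ← add_div, lt_div_iff₀ (by positivity)]
  exact h

/-- number of ordered representations inside `A N` -/
noncomputable def rho (N k : ℕ) : ℕ := ((A N ×ˢ A N).filter (fun p => p.1 + p.2 = k)).card

lemma sum_rho {M : Type*} [CommSemiring M] (N R : ℕ) (f : ℕ → M) :
    ∑ k ∈ range (R+1), (rho N k : M) * f k
      = ∑ p ∈ (A N ×ˢ A N).filter (fun p => p.1 + p.2 ≤ R), f (p.1 + p.2) := by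
  rw [← Finset.sum_fiberwise_of_maps_to (g := fun p : ℕ × ℕ => p.1 + p.2) (t := range (R+1))]
  · apply sum_congr rfl
    intro k hk
    rw [mem_range] at hk
    have h1 : ∀ p ∈ ((A N ×ˢ A N).filter (fun p => p.1 + p.2 ≤ R)).filter
        (fun p => p.1 + p.2 = k), f (p.1 + p.2) = f k := by
      intro p hp
      rw [mem_filter] at hp
      rw [hp.2]
    rw [sum_congr rfl h1, sum_const, nsmul_eq_mul]
    congr 2
    unfold rho
    congr 1
    ext p
    simp only [mem_filter]
    constructor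
    · rintro ⟨h, h'⟩; exact ⟨⟨h, by omega⟩, h'⟩
    · rintro ⟨⟨h, _⟩, h'⟩; exact ⟨h, h'⟩
  · intro p hp
    rw [mem_filter] at hp
    rw [mem_range]
    omega

/-- the integer tails -/
noncomputable def tau (N R : ℕ) : ℤ := 2^(R+1) - ∑ k ∈ range (R+1), (rho N k : ℤ) * 2^(R-k)

lemma tau_succ (N R : ℕ) : tau N (R+1) = 2 * tau N R - rho N (R+1) := by
  unfold tau
  rw [sum_range_succ _ (R+1), Nat.sub_self, pow_zero, mul_one, mul_sub, mul_sum]
  have : ∑ k ∈ range (R+1), (rho N k : ℤ) * 2^(R+1-k)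
      = ∑ k ∈ range (R+1), 2 * ((rho N k : ℤ) * 2^(R-k)) := by
    apply sum_congr rfl
    intro k hk
    rw [mem_range] at hk
    rw [show R + 1 - k = (R - k) + 1 by omega, pow_succ]
    ring
  rw [this]
  ring

lemma tau_real (N R : ℕ) : (tau N R : ℝ) =
    2^R * (2 - ∑ p ∈ (A N ×ˢ A N).filter (fun p => p.1 + p.2 ≤ R), (1/2:ℝ)^(p.1 + p.2)) := by
  unfold tau
  push_cast
  rw [← sum_rho N R (fun k => (1/2:ℝ)^k), mul_sub, mul_sum, pow_succ]
  congr 1
  apply sum_congr rfl
  intro k hk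
  rw [mem_range] at hk
  have : (2:ℝ)^R = 2^(R-k) * 2^k := by rw [← pow_add]; congr 1; omega
  rw [this, one_div, inv_pow]
  field_simp

lemma tau_pos (N R : ℕ) : 1 ≤ tau N R := by
  have h1 : (0:ℝ) < tau N R := by
    rw [tau_real]
    apply mul_pos (by positivity)
    have h2 : ∑ p ∈ (A N ×ˢ A N).filter (fun p => p.1 + p.2 ≤ R), (1/2:ℝ)^(p.1 + p.2)
        ≤ (∑ a ∈ A R, (1/2:ℝ)^a) * (∑ a ∈ A R, (1/2:ℝ)^a) := by
      rw [sum_mul_sum, ← sum_product']
      have h3 : ∀ p ∈ (A N ×ˢ A N).filter (fun p => p.1 + p.2 ≤ R), (1/2:ℝ)^(p.1 + p.2)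
          = (1/2:ℝ)^p.1 * (1/2:ℝ)^p.2 := fun p _ => pow_add _ _ _
      rw [sum_congr rfl h3]
      apply sum_le_sum_of_subset_of_nonneg
      · intro p hp
        rw [mem_filter, mem_product, mem_A, mem_A] at hp
        rw [mem_product, mem_A, mem_A]
        refine ⟨⟨by omega, hp.1.1.2⟩, ⟨by omega, hp.1.2.2⟩⟩
      · intro p _ _
        positivity
    have h4 := A_half_lt R
    have h5 : (0:ℝ) ≤ ∑ a ∈ A R, (1/2:ℝ)^a := sum_nonneg (fun a _ => by positivity)
    have h6 : Real.sqrt 2 * Real.sqrt 2 = 2 := Real.mul_self_sqrt (by norm_num)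
    nlinarith [mul_self_lt_mul_self h5 h4]
  have h7 : (0:ℤ) < tau N R := by exact_mod_cast h1
  omega

lemma geom_tail (M N : ℕ) :
    ∑ b ∈ (range (N+1)).filter (fun b => M < b), (1/2:ℝ)^b ≤ (1/2)^M := by
  have key : ∑ b ∈ (range (N+1)).filter (fun b => M < b), (1/2:ℝ)^b + (if M ≤ N then (1/2)^N else (1/2)^M) ≤ (1/2)^M := by
    induction N with
    | zero =>
      rw [sum_filter]
      simp
      split_ifs with h
      · subst h; simp
      · exact le_rfl
    | succ N ih =>
      rw [sum_filter, sum_range_succ, ← sum_filter]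
      by_cases h : M ≤ N
      · rw [if_pos h] at ih
        rw [if_pos (by omega : M < N + 1), if_pos (by omega : M ≤ N+1)]
        have : (1/2:ℝ)^N = (1/2)^(N+1) + (1/2)^(N+1) := by rw [pow_succ]; ring
        linarith
      · rw [if_neg h] at ih
        rw [if_neg (by omega : ¬ M < N + 1)]
        by_cases h2 : M ≤ N + 1
        · have : M = N + 1 := by omega
          subst this
          rw [if_pos le_rfl]
          linarith
        · rw [if_neg h2]
          linarith
  have h2 : (0:ℝ) ≤ (if M ≤ N then (1/2)^N else (1/2)^M) := by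
    split_ifs <;> positivity
  linarith

lemma tau_le (N : ℕ) : tau N N ≤ (A N).card + 3 := by
  have h1 : (tau N N : ℝ) ≤ ((A N).card : ℝ) + 3 := by
    rw [tau_real]
    set x := ∑ a ∈ A N, (1/2:ℝ)^a with hx
    have h2 : x * x = ∑ p ∈ (A N ×ˢ A N).filter (fun p => p.1 + p.2 ≤ N), (1/2:ℝ)^(p.1 + p.2)
        + ∑ p ∈ (A N ×ˢ A N).filter (fun p => ¬ p.1 + p.2 ≤ N), (1/2:ℝ)^(p.1 + p.2) := by
      rw [sum_filter_add_sum_filter_not, hx, sum_mul_sum, ← sum_product']
      apply sum_congr rfl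
      intro p _
      rw [pow_add]
    have h3 : ∑ p ∈ (A N ×ˢ A N).filter (fun p => ¬ p.1 + p.2 ≤ N), (1/2:ℝ)^(p.1 + p.2)
        ≤ (A N).card * (1/2:ℝ)^N := by
      rw [sum_filter, sum_product]
      calc ∑ a ∈ A N, ∑ b ∈ A N, (if ¬ a + b ≤ N then (1/2:ℝ)^(a+b) else 0)
          ≤ ∑ a ∈ A N, (1/2:ℝ)^N := by
            apply sum_le_sum
            intro a ha
            rw [mem_A] at ha
            rw [← sum_filter]
            calc ∑ b ∈ (A N).filter (fun b => ¬ a + b ≤ N), (1/2:ℝ)^(a+b)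
                ≤ ∑ b ∈ (range (N+1)).filter (fun b => N - a < b), (1/2:ℝ)^(a+b) := by
                  apply sum_le_sum_of_subset_of_nonneg
                  · intro b hb
                    rw [mem_filter, mem_A] at hb
                    rw [mem_filter, mem_range]
                    constructor <;> omega
                  · intro b _ _
                    positivity
              _ = (1/2:ℝ)^a * ∑ b ∈ (range (N+1)).filter (fun b => N - a < b), (1/2:ℝ)^b := by
                  rw [mul_sum]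
                  apply sum_congr rfl
                  intro b _
                  rw [pow_add]
              _ ≤ (1/2:ℝ)^a * (1/2)^(N-a) := by
                  apply mul_le_mul_of_nonneg_left (geom_tail _ _) (by positivity)
              _ = (1/2:ℝ)^N := by
                  rw [← pow_add]
                  congr 1
                  omega
        _ = (A N).card * (1/2:ℝ)^N := by rw [sum_const, nsmul_eq_mul]
    have h4 := A_half_lt N
    have h5 := lt_A_half N
    rw [← hx] at h4 h5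
    have h6 : Real.sqrt 2 * Real.sqrt 2 = 2 := Real.mul_self_sqrt (by norm_num)
    have h7 : Real.sqrt 2 < 1.5 := by
      rw [Real.sqrt_lt' (by norm_num)]
      norm_num
    have h8 : (0:ℝ) ≤ x := sum_nonneg (fun a _ => by positivity)
    have hN : (2:ℝ)^N * (1/2)^N = 1 := by rw [← mul_pow]; norm_num
    have hN0 : (0:ℝ) < 2^N := by positivity
    have hH0 : (0:ℝ) < (1/2)^N := by positivity
    have h9 : 2 - x * x ≤ 3 * (1/2)^N := by nlinarith
    calc 2^N * (2 - ∑ p ∈ (A N ×ˢ A N).filter (fun p => p.1 + p.2 ≤ N), (1/2:ℝ)^(p.1 + p.2))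
        ≤ 2^N * (3 * (1/2)^N + (A N).card * (1/2:ℝ)^N) := by
          apply mul_le_mul_of_nonneg_left _ hN0.le
          linarith
      _ = (2^N * (1/2)^N) * ((A N).card + 3) := by ring
      _ = (A N).card + 3 := by rw [hN, one_mul]
  exact_mod_cast h1


/-! ### parity -/

lemma rho_parity (N k : ℕ) (h : ∀ a ∈ A N, a + a ≠ k) : (rho N k) % 2 = 0 := by
  have h1 : ((rho N k : ℕ) : ZMod 2) = 0 := by
    unfold rho
    rw [card_eq_sum_ones, Nat.cast_sum]
    apply sum_involution (fun p _ => (p.2, p.1))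
    · intro p _
      decide
    · intro p hp _ heq
      rw [mem_filter, mem_product] at hp
      have h2 : p.1 = p.2 := by
        have := congrArg Prod.fst heq
        simpa using this.symm
      apply h p.1 hp.1.1
      rw [← hp.2, ← h2]
    · intro p hp
      rw [mem_filter, mem_product] at hp ⊢
      refine ⟨⟨hp.1.2, hp.1.1⟩, ?_⟩
      rw [add_comm]; exact hp.2
    · intro p _
      rfl
  rw [ZMod.natCast_eq_zero_iff] at h1
  omega

lemma zero_mem_A (N : ℕ) : 0 ∈ A N := by
  rw [mem_A, X_zero]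
  exact ⟨Nat.zero_le _, rfl⟩

lemma rho_zero (N : ℕ) : rho N 0 = 1 := by
  unfold rho
  rw [card_eq_one]
  refine ⟨(0, 0), ?_⟩
  ext p
  rw [mem_filter, mem_product, mem_singleton]
  constructor
  · rintro ⟨_, h⟩
    ext
    · simp; omega
    · simp; omega
  · rintro rfl
    exact ⟨⟨zero_mem_A N, zero_mem_A N⟩, rfl⟩

lemma tau_zero (N : ℕ) : tau N 0 = 1 := by
  unfold tau
  simp [rho_zero]


lemma tau_ge (N k : ℕ) : 2 ≤ tau N k + (if ∃ a ∈ A N, a + a = k then 1 else 0) := by
  have hp := tau_pos N k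
  by_cases h : ∃ a ∈ A N, a + a = k
  · rw [if_pos h]
    omega
  · rw [if_neg h]
    push Not at h
    rcases k with _ | k
    · exact absurd rfl (h 0 (zero_mem_A N))
    · have h3 := tau_succ N k
      have h4 := rho_parity N (k+1) h
      have h5 : ((rho N (k+1) : ℕ) : ℤ) % 2 = 0 := by exact_mod_cast h4
      omega

lemma tau_expand (N M L : ℕ) : 2^L * tau N M
    = tau N (M+L) + ∑ i ∈ range L, (rho N (M+i+1) : ℤ) * 2^(L-1-i) := by
  induction L with
  | zero => simp
  | succ L ih =>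
    rw [sum_range_succ, pow_succ]
    have h1 := tau_succ N (M+L)
    have h2 : ∑ i ∈ range L, (rho N (M+i+1) : ℤ) * 2^(L+1-1-i)
        = 2 * ∑ i ∈ range L, (rho N (M+i+1) : ℤ) * 2^(L-1-i) := by
      rw [mul_sum]
      apply sum_congr rfl
      intro i hi
      rw [mem_range] at hi
      rw [show L + 1 - 1 - i = (L - 1 - i) + 1 by omega, pow_succ]
      ring
    rw [h2, show L + 1 - 1 - L = 0 by omega, pow_zero, mul_one, ← add_assoc M L 1, h1]
    linarith


end Pool.Agent.H33.Ones
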