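import Mathlib

/-!
Steiner systems and the divisibility condition.
-/

open Finset

namespace Pool.Agent.H33.Steiner

/-- `B` is (the set of blocks of) a Steiner system `S(n, q, r)` on the point set `Fin n`:
every block has `q` points and every `r`-set of points lies in exactly one block. -/
def IsSteiner (n q r : ℕ) (B : Finset (Finset (Fin n))) : Prop :=
  (∀ b ∈ B, b.card = q) ∧ ∀ R : Finset (Fin n), R.card = r → ∃! b, b ∈ B ∧ R ⊆ b

/-- The divisibility condition (D). -/
def DivCond (n q r : ℕ) : Prop :=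
  ∀ i < r, (q - i).choose (r - i) ∣ (n - i).choose (r - i)

lemma card_supersets {n : ℕ} (b I : Finset (Fin n)) (hI : I ⊆ b) (r : ℕ) (hr : I.card ≤ r) :
    ((b.powersetCard r).filter (fun R => I ⊆ R)).card
      = (b.card - I.card).choose (r - I.card) := by
  classical
  have h : ((b \ I).powersetCard (r - I.card)).card
      = (b.card - I.card).choose (r - I.card) := by
    rw [card_powersetCard, card_sdiff_of_subset hI]
  rw [← h]
  apply card_bij (fun R _ => R \ I)
  · intro R hR
    rw [mem_filter, mem_powersetCard] at hR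
    obtain ⟨⟨h1, h2⟩, h3⟩ := hR
    rw [mem_powersetCard]
    refine ⟨sdiff_subset_sdiff h1 (le_refl I), ?_⟩
    rw [card_sdiff_of_subset h3, h2]
  · intro R1 h1 R2 h2 h
    rw [mem_filter] at h1 h2
    have e1 : R1 \ I ∪ I = R1 := sdiff_union_of_subset h1.2
    have e2 : R2 \ I ∪ I = R2 := sdiff_union_of_subset h2.2
    rw [← e1, ← e2, h]
  · intro S hS
    rw [mem_powersetCard] at hS
    have hd : Disjoint S I := by
      have := hS.1
      rw [subset_sdiff] at this
      exact this.2
    refine ⟨S ∪ I, ?_, ?_⟩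
    · rw [mem_filter, mem_powersetCard]
      refine ⟨⟨union_subset (hS.1.trans sdiff_subset) hI, ?_⟩, subset_union_right⟩
      rw [card_union_of_disjoint hd, hS.2]
      omega
    · rw [union_sdiff_right, sdiff_eq_self_of_disjoint hd]

/-- (D) is necessary. -/
theorem divCond_of_isSteiner {n q r : ℕ} (hrn : r ≤ n) {B : Finset (Finset (Fin n))}
    (hB : IsSteiner n q r B) : DivCond n q r := by
  classical
  intro i hi
  obtain ⟨I, hI⟩ : ∃ I : Finset (Fin n), I.card = i := by
    obtain ⟨I, _, hI⟩ := exists_subset_card_eq (s := (univ : Finset (Fin n))) (n := i) (by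
      rw [card_univ, Fintype.card_fin]
      omega)
    exact ⟨I, hI⟩
  have h1 := card_supersets (univ : Finset (Fin n)) I (subset_univ I) r (by omega)
  rw [card_univ, Fintype.card_fin, hI] at h1
  rw [← h1]
  have h2 : ((univ : Finset (Fin n)).powersetCard r).filter (fun R => I ⊆ R)
      = (B.filter (fun b => I ⊆ b)).biUnion
          (fun b => (b.powersetCard r).filter (fun R => I ⊆ R)) := by
    ext R
    rw [mem_filter, mem_powersetCard, mem_biUnion]
    constructor
    · rintro ⟨⟨_, h3⟩, h4⟩
      obtain ⟨b, ⟨hb1, hb2⟩, _⟩ := hB.2 R h3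
      refine ⟨b, ?_, ?_⟩
      · rw [mem_filter]
        exact ⟨hb1, h4.trans hb2⟩
      · rw [mem_filter, mem_powersetCard]
        exact ⟨⟨hb2, h3⟩, h4⟩
    · rintro ⟨b, _, hR⟩
      rw [mem_filter, mem_powersetCard] at hR
      exact ⟨⟨subset_univ _, hR.1.2⟩, hR.2⟩
  rw [h2, card_biUnion]
  · have h3 : ∀ b ∈ B.filter (fun b => I ⊆ b),
        ((b.powersetCard r).filter (fun R => I ⊆ R)).card = (q - i).choose (r - i) := by
      intro b hb
      rw [mem_filter] at hb
      rw [card_supersets b I hb.2 r (by omega), hB.1 b hb.1, hI]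
    rw [sum_congr rfl h3, sum_const, smul_eq_mul]
    exact dvd_mul_left _ _
  · intro b hb c hc hbc
    rw [Function.onFun, Finset.disjoint_left]
    intro R hR1 hR2
    rw [mem_coe, mem_filter] at hb hc
    rw [mem_filter, mem_powersetCard] at hR1 hR2
    apply hbc
    obtain ⟨d, _, hd⟩ := hB.2 R hR1.1.2
    rw [hd b ⟨hb.1, hR1.1.1⟩, hd c ⟨hc.1, hR2.1.1⟩]

/-- Consequence of (D) for a prime `p ≤ r`. -/
lemma mod_le_of_divCond {n q r : ℕ} (hrq : r ≤ q) (hqn : q ≤ n) (hD : DivCond n q r)
    {p : ℕ} (hp : p.Prime) (hpr : p ≤ r) : (q - r) % p ≤ (n - r) % p := by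
  set u := n - r with hu
  set M := q - r with hM
  by_contra hcon
  push Not at hcon
  set b := M % p with hb
  have hbp : b < p := Nat.mod_lt _ hp.pos
  have hb0 : 0 < b := by omega
  set j := p - b with hj
  have hjpos : 0 < j := by omega
  have hjp : j < p := by omega
  have hjr : j ≤ r := by omega
  have h := hD (r - j) (by omega)
  have e1 : q - (r - j) = M + j := by omega
  have e2 : n - (r - j) = u + j := by omega
  have e3 : r - (r - j) = j := by omega
  rw [e1, e2, e3] at h
  -- p divides M + j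
  have hdvd : p ∣ M + j := by
    have h1 : M + j = p * (M / p) + p := by
      have := Nat.mod_add_div M p
      omega
    rw [h1]
    exact (dvd_mul_right _ _).add (dvd_refl p)
  have hcop : ¬ p ∣ j := fun hd => by
    have := Nat.le_of_dvd hjpos hd
    omega
  have hpC : p ∣ (M + j).choose j := by
    have h1 : (M + j - 1 + 1) * (M + j - 1).choose (j - 1) = (M + j - 1 + 1).choose (j - 1 + 1) * (j - 1 + 1) :=
      Nat.add_one_mul_choose_eq _ _
    have h2 : M + j - 1 + 1 = M + j := by omega
    have h3 : j - 1 + 1 = j := by omega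
    rw [h2, h3] at h1
    have h4 : p ∣ (M + j).choose j * j := by
      rw [← h1]
      exact hdvd.mul_right _
    rcases (Nat.Prime.dvd_mul hp).mp h4 with h5 | h5
    · exact h5
    · exact absurd h5 hcop
  have hpU : p ∣ (u + j).choose j := hpC.trans h
  have hpA : p ∣ (u + j).descFactorial j := by
    rw [Nat.descFactorial_eq_factorial_mul_choose]
    exact hpU.mul_left _
  rw [Nat.descFactorial_eq_prod_range, Prime.dvd_finset_prod_iff hp.prime] at hpA
  obtain ⟨i, hi, hdi⟩ := hpA
  rw [mem_range] at hi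
  have h6 : (u + j - i) % p = 0 := Nat.mod_eq_zero_of_dvd hdi
  have h7 : u + j - i = u + (j - i) := by omega
  rw [h7, Nat.add_mod] at h6
  have h8 : (j - i) % p = j - i := Nat.mod_eq_of_lt (by omega)
  rw [h8, Nat.mod_eq_of_lt (by omega)] at h6
  omega

/-- (D) forces `3 (q - r) ≤ n - r` (a weak form, enough here). -/
lemma three_mul_le_of_divCond {n q r : ℕ} (hr : 2 ≤ r) (hrq : r ≤ q) (hqn : q < n)
    (hM5 : 5 ≤ q - r) (hD : DivCond n q r) : 3 * (q - r) ≤ n - r := by
  set u := n - r with hu
  set M := q - r with hM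
  have h1 := hD (r - 1) (by omega)
  have e1 : q - (r - 1) = M + 1 := by omega
  have e2 : n - (r - 1) = u + 1 := by omega
  have e3 : r - (r - 1) = 1 := by omega
  rw [e1, e2, e3, Nat.choose_one_right, Nat.choose_one_right] at h1
  have h2 := hD (r - 2) (by omega)
  have f1 : q - (r - 2) = M + 2 := by omega
  have f2 : n - (r - 2) = u + 2 := by omega
  have f3 : r - (r - 2) = 2 := by omega
  rw [f1, f2, f3] at h2
  obtain ⟨a, ha⟩ := h1
  have g1 : (M + 2).choose 2 * 2 = (M + 2) * (M + 1) := by
    have := Nat.add_one_mul_choose_eq (M + 1) 1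
    rw [Nat.choose_one_right] at this
    linarith
  have g2 : (u + 2).choose 2 * 2 = (u + 2) * (u + 1) := by
    have := Nat.add_one_mul_choose_eq (u + 1) 1
    rw [Nat.choose_one_right] at this
    linarith
  have h3 : (M + 2) * (M + 1) ∣ (u + 2) * (u + 1) := by
    rw [← g1, ← g2]
    exact Nat.mul_dvd_mul h2 (dvd_refl 2)
  have h4 : M + 2 ∣ (u + 2) * a := by
    have : (u + 2) * (u + 1) = ((u + 2) * a) * (M + 1) := by
      rw [ha]
      ring
    rw [this] at h3
    exact Nat.dvd_of_mul_dvd_mul_right (by omega) h3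
  have ha1 : 1 < a := by
    by_contra hcon
    push Not at hcon
    have : (M + 1) * a ≤ (M + 1) * 1 := Nat.mul_le_mul_left _ hcon
    omega
  -- (u+2) a = a^2 (M+2) - a (a-1)
  have h5 : M + 2 ∣ a * (a - 1) := by
    obtain ⟨c, rfl⟩ : ∃ c, a = c + 1 := ⟨a - 1, by omega⟩
    have h6 : (u + 2) * (c + 1) + (c + 1) * c = (M + 2) * ((c + 1) * (c + 1)) := by
      have : u + 2 = (M + 1) * (c + 1) + 1 := by omega
      rw [this]
      ring
    have h7 : M + 2 ∣ (u + 2) * (c + 1) + (c + 1) * c := by
      rw [h6]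
      exact dvd_mul_right _ _
    simpa using (Nat.dvd_add_right h4).mp h7
  have h8 : M + 2 ≤ a * (a - 1) := Nat.le_of_dvd (Nat.mul_pos (by omega) (by omega)) h5
  have ha4 : 4 ≤ a := by
    by_contra hcon
    push Not at hcon
    have : a * (a - 1) ≤ 3 * 2 := Nat.mul_le_mul (by omega) (by omega)
    omega
  have : (M + 1) * 4 ≤ (M + 1) * a := Nat.mul_le_mul_left _ ha4
  omega

end Pool.Agent.H33.Steiner
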