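import Pool.Agent.H33.Exp.Digit
import Pool.Agent.H33.SteinerDiv

/-!
# Steiner systems `S(n, q, r)` with both `r` and `q - r` large do not exist

For every `ε > 0`, all but finitely many Steiner systems `S(n, q, r)` with `q < n` satisfy
`min(r, q - r) < n ^ ε`. Already the divisibility condition (D) fails as soon as `n` is large,
`q < n`, `r ≥ n ^ ε` and `q - r ≥ n ^ ε`.

The proof: (D) implies `(q - r) mod p ≤ (n - r) mod p` for every prime `p ≤ r`; bounds for
exponential sums over primes (Vaughan's identity and van der Corput's method) show that this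
fails for some prime `p ≤ r`.
-/

open Filter

namespace Pool.Agent.H33.Steiner

open Pool.Agent.H33

theorem not_divCond_of_large (ε : ℝ) (hε : 0 < ε) :
    ∃ n₀ : ℕ, ∀ n q r : ℕ, n₀ ≤ n → r ≤ q → q < n →
      (n : ℝ) ^ ε ≤ (r : ℝ) → (n : ℝ) ^ ε ≤ ((q - r : ℕ) : ℝ) →
        ¬ DivCond n q r ∧ ¬ ∃ B : Finset (Finset (Fin n)), IsSteiner n q r B := by
  set e := min ε 1 with he
  have he0 : 0 < e := lt_min hε one_pos
  have he1 : e ≤ 1 := min_le_right _ _
  have heε : e ≤ ε := min_le_left _ _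
  have hdig := digit (8 / e) (by positivity)
  have hP : Tendsto (fun n : ℕ => ⌊(n : ℝ) ^ (e / 2)⌋₊) atTop atTop :=
    tendsto_nat_floor_atTop.comp ((tendsto_rpow_atTop (by positivity)).comp
      tendsto_natCast_atTop_atTop)
  have h8 : ∀ᶠ n : ℕ in atTop, (8 : ℝ) ≤ (n : ℝ) ^ (e / 4) :=
    ((tendsto_rpow_atTop (by positivity)).comp tendsto_natCast_atTop_atTop).eventually_ge_atTop _
  have hall := (hP.eventually hdig).and (h8.and (eventually_ge_atTop 2))
  rw [eventually_atTop] at hall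
  obtain ⟨n₀, hn₀⟩ := hall
  refine ⟨n₀, ?_⟩
  intro n q r hn hrq hqn hr hM
  obtain ⟨hd, hn8, hn2⟩ := hn₀ n hn
  have hnr : (2 : ℝ) ≤ n := by exact_mod_cast hn2
  have hn0 : (0 : ℝ) < n := by linarith
  have hn1 : (1 : ℝ) ≤ n := by linarith
  have hr' : (n : ℝ) ^ e ≤ (r : ℝ) := (Real.rpow_le_rpow_of_exponent_le hn1 heε).trans hr
  have hM' : (n : ℝ) ^ e ≤ ((q - r : ℕ) : ℝ) :=
    (Real.rpow_le_rpow_of_exponent_le hn1 heε).trans hM
  have h24 : (n : ℝ) ^ (e / 2) = (n : ℝ) ^ (e / 4) * (n : ℝ) ^ (e / 4) := by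
    rw [← Real.rpow_add hn0]
    congr 1
    ring
  have h12 : (n : ℝ) ^ e = (n : ℝ) ^ (e / 2) * (n : ℝ) ^ (e / 2) := by
    rw [← Real.rpow_add hn0]
    congr 1
    ring
  have hn64 : (64 : ℝ) ≤ (n : ℝ) ^ (e / 2) := by
    rw [h24]
    nlinarith
  set P := ⌊(n : ℝ) ^ (e / 2)⌋₊ with hPdef
  have hPle : (P : ℝ) ≤ (n : ℝ) ^ (e / 2) := Nat.floor_le (by positivity)
  have hPge : (n : ℝ) ^ (e / 4) ≤ P := by
    have h1 := Nat.lt_floor_add_one ((n : ℝ) ^ (e / 2))
    rw [← hPdef] at h1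
    rw [h24] at h1
    nlinarith
  have hnot : ¬ DivCond n q r := by
    intro hD
    have hrbig : (64 : ℝ) ≤ (r : ℝ) := by
      rw [h12] at hr'
      nlinarith
    have hMbig : (64 : ℝ) ≤ ((q - r : ℕ) : ℝ) := by
      rw [h12] at hM'
      nlinarith
    have hr2 : 2 ≤ r := by
      have : 64 ≤ r := by exact_mod_cast hrbig
      omega
    have hM5 : 5 ≤ q - r := by
      have : 64 ≤ q - r := by exact_mod_cast hMbig
      omega
    have h3 := three_mul_le_of_divCond hr2 hrq hqn hM5 hD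
    have hA : (P : ℝ) ^ (3 / 2 : ℝ) ≤ ((q - r : ℕ) : ℝ) := by
      calc (P : ℝ) ^ (3 / 2 : ℝ) ≤ ((n : ℝ) ^ (e / 2)) ^ (3 / 2 : ℝ) :=
            Real.rpow_le_rpow (Nat.cast_nonneg _) hPle (by norm_num)
        _ = (n : ℝ) ^ (e * (3 / 4)) := by
            rw [← Real.rpow_mul hn0.le]
            congr 1
            ring
        _ ≤ (n : ℝ) ^ e := Real.rpow_le_rpow_of_exponent_le hn1 (by linarith)
        _ ≤ _ := hM'
    have hB : 2 * ((n - r : ℕ) : ℝ) ≤ (P : ℝ) ^ (8 / e) := by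
      have h6 : ((n - r : ℕ) : ℝ) ≤ n := by exact_mod_cast Nat.sub_le n r
      calc 2 * ((n - r : ℕ) : ℝ) ≤ (n : ℝ) * n := by nlinarith
        _ = ((n : ℝ) ^ (e / 4)) ^ (8 / e) := by
            rw [← Real.rpow_mul hn0.le]
            have : e / 4 * (8 / e) = ((2 : ℕ) : ℝ) := by
              field_simp
              norm_num
            rw [this, Real.rpow_natCast, sq]
        _ ≤ (P : ℝ) ^ (8 / e) := Real.rpow_le_rpow (by positivity) hPge (by positivity)
    obtain ⟨p, hp, _, hpP, hlt⟩ := hd (n - r) (q - r) hA h3 hB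
    have hpr : p ≤ r := by
      have h4 : (8 * P : ℝ) ≤ r := by
        calc (8 * P : ℝ) ≤ 8 * (n : ℝ) ^ (e / 2) := by linarith
          _ ≤ (n : ℝ) ^ (e / 2) * (n : ℝ) ^ (e / 2) := by nlinarith
          _ = (n : ℝ) ^ e := h12.symm
          _ ≤ r := hr'
      have h5 : 8 * P ≤ r := by exact_mod_cast h4
      omega
    have := mod_le_of_divCond hrq hqn.le hD hp hpr
    omega
  refine ⟨hnot, ?_⟩
  rintro ⟨B, hB⟩
  exact hnot (divCond_of_isSteiner (by omega) hB)

end Pool.Agent.H33.Steiner
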