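import Pool.Agent.H33.WcsLink

set_option autoImplicit false

/-!
Uniqueness of the data of reduced derivations.
-/

namespace Pool.Agent.H33.Wcs

variable {k : ℕ} {s s₀ : List ℕ} {T : Start}

lemma swap_val' (a b v : ℕ) : Equiv.swap a b v = if v = a then b else if v = b then a else v :=
  Equiv.swap_apply_def a b v

/-! ### the starting sequences -/

lemma twin_ge {p : ℕ} (hp : p.Prime) (hp2 : (p + 2).Prime) : 3 ≤ p := by
  have := hp.two_le
  by_contra hcon
  have : p = 2 := by omega
  subst this
  norm_num at hp2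

lemma seq3_idx {p v : ℕ} (hp : 3 ≤ p) (hpk : 2 * p ≤ k) (hv1 : 1 ≤ v) (hvk : v ≤ k) :
    (exch 2 (2 * p) (exch p (p + 2) (List.range' 1 k))).idxOf v =
      if v = 2 then 2 * p - 1 else if v = 2 * p then 1 else if v = p then p + 1
      else if v = p + 2 then p - 1 else v - 1 := by
  rw [idxOf_exch, idxOf_exch, swap_val', swap_val']
  split_ifs <;> first | omega | (rw [base0_idx (by omega) (by omega)]; try omega)

lemma seq4_idx {t v : ℕ} (ht : 3 ≤ t) (htk : k + 1 = 2 * t) (hv1 : 1 ≤ v) (hvk : v ≤ k) :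
    (exch t (t + 2) (List.range' 3 (k - 2) ++ [2, 1])).idxOf v =
      if v = 1 then k - 1 else if v = 2 then k - 2 else if v = t then t - 1
      else if v = t + 2 then t - 3 else v - 3 := by
  rw [idxOf_exch, swap_val']
  split_ifs with e1 e2 e3 e4 e5 e6 e7 e8
  · omega
  · omega
  · rw [base2_idx (by omega) (by omega)]; omega
  · omega
  · omega
  · rw [base2_idx (by omega) (by omega)]
  · rw [e7, base2_idx_one (by omega)]
  · rw [e8, base2_idx_two]
  · rw [base2_idx (by omega) (by omega)]

lemma seq5_idx {p v : ℕ} (hp : 3 ≤ p) (hpk : k = 2 * p) (hv1 : 1 ≤ v) (hvk : v ≤ k) :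
    (exch 2 (2 * p) (exch p (p + 2) (List.range' 2 (k - 1) ++ [1]))).idxOf v =
      if v = 1 then k - 1 else if v = 2 then 2 * p - 2 else if v = 2 * p then 0
      else if v = p then p else if v = p + 2 then p - 2 else v - 2 := by
  rw [idxOf_exch, idxOf_exch]
  by_cases e0 : v = 1
  · subst e0
    rw [swap_ne (a := 2) (b := 2 * p) (v := 1) (by omega) (by omega),
      swap_ne (by omega) (by omega), base1_idx_one, if_pos rfl]
  · rw [if_neg e0, swap_val', swap_val']
    split_ifs <;> first | omega | (rw [base1_idx (by omega) (by omega)]; try omega)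

/-- the starting sequences are permutations of `[k]` -/
lemma Start.IsSeq.perm (hk : 1 ≤ k) (h : T.IsSeq k s₀) : s₀.Perm (List.range' 1 k) := by
  have hnd0 : (List.range' 1 k).Nodup := List.nodup_range'
  cases T with
  | consecutive => rw [show s₀ = List.range' 1 k from h]
  | oneInversion =>
    obtain ⟨_, rfl⟩ := h
    exact base1_perm hk
  | twiceTwinPrime =>
    obtain ⟨p, hp, hp2, hkp, rfl⟩ := h
    have h3 := twin_ge hp hp2
    have hm : (exch p (p + 2) (List.range' 1 k)).Perm (List.range' 1 k) :=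
      exch_perm hnd0 ((mem_range1 (List.Perm.refl _)).2 (by omega))
        ((mem_range1 (List.Perm.refl _)).2 (by omega))
    exact (exch_perm (exch_nodup hnd0) ((mem_range1 hm).2 (by omega))
      ((mem_range1 hm).2 (by omega))).trans hm
  | twinSophieGermain =>
    obtain ⟨p, hp, hp2, _, hkp, rfl⟩ := h
    have h3 := twin_ge hp hp2
    have hb : (List.range' 3 (k - 2) ++ [2, 1]).Perm (List.range' 1 k) := base2_perm (by omega)
    exact (exch_perm (hb.nodup_iff.2 hnd0) ((mem_range1 hb).2 (by omega))
      ((mem_range1 hb).2 (by omega))).trans hb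
  | twiceTwinPrimeInversion =>
    obtain ⟨p, hp, hp2, _, hkp, rfl⟩ := h
    have h3 := twin_ge hp hp2
    have hb : (List.range' 2 (k - 1) ++ [1]).Perm (List.range' 1 k) := base1_perm (by omega)
    have hm : (exch p (p + 2) (List.range' 2 (k - 1) ++ [1])).Perm (List.range' 1 k) :=
      (exch_perm (hb.nodup_iff.2 hnd0) ((mem_range1 hb).2 (by omega))
        ((mem_range1 hb).2 (by omega))).trans hb
    exact (exch_perm (hm.nodup_iff.2 hnd0) ((mem_range1 hm).2 (by omega))
      ((mem_range1 hm).2 (by omega))).trans hm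

def Start.shift : Start → ℕ
  | .consecutive => 0
  | .oneInversion => 1
  | .twiceTwinPrime => 0
  | .twinSophieGermain => 2
  | .twiceTwinPrimeInversion => 1

lemma npp_not_prime {v : ℕ} (h : NPP v) : ¬ v.Prime := fun hp => h.2 hp.isPrimePow

/-- entries which are not prime powers -/
lemma Start.IsSeq.idx_npp (h : T.IsSeq k s₀) {v : ℕ} (hv : NPP v) (hvk : v ≤ k)
    (h2 : v ≠ 2 * (k / 2)) : s₀.idxOf v + T.shift + 1 = v := by
  have hv6 := hv.six_le
  have hvp := npp_not_prime hv
  cases T with
  | consecutive =>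
    rw [show s₀ = List.range' 1 k from h, base0_idx (by omega) hvk]
    simp only [Start.shift]
    omega
  | oneInversion =>
    obtain ⟨_, rfl⟩ := h
    rw [base1_idx (by omega) hvk]
    simp only [Start.shift]
    omega
  | twiceTwinPrime =>
    obtain ⟨p, hp, hp2, hkp, rfl⟩ := h
    have h3 := twin_ge hp hp2
    rw [seq3_idx h3 (by omega) (by omega) hvk]
    have e1 : v ≠ p := by rintro rfl; exact hvp hp
    have e2 : v ≠ p + 2 := by rintro rfl; exact hvp hp2
    rw [if_neg (by omega), if_neg (by omega), if_neg e1, if_neg e2]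
    simp only [Start.shift]
    omega
  | twinSophieGermain =>
    obtain ⟨p, hp, hp2, _, hkp, rfl⟩ := h
    have h3 := twin_ge hp hp2
    rw [seq4_idx h3 (by omega) (by omega) hvk]
    have e1 : v ≠ p := by rintro rfl; exact hvp hp
    have e2 : v ≠ p + 2 := by rintro rfl; exact hvp hp2
    rw [if_neg (by omega), if_neg (by omega), if_neg e1, if_neg e2]
    simp only [Start.shift]
    omega
  | twiceTwinPrimeInversion =>
    obtain ⟨p, hp, hp2, _, hkp, rfl⟩ := h
    have h3 := twin_ge hp hp2
    rw [seq5_idx h3 (by omega) (by omega) hvk]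
    have e1 : v ≠ p := by rintro rfl; exact hvp hp
    have e2 : v ≠ p + 2 := by rintro rfl; exact hvp hp2
    rw [if_neg (by omega), if_neg (by omega), if_neg (by omega), if_neg e1, if_neg e2]
    simp only [Start.shift]
    omega

/-! ### allowed pairs -/

lemma PPPair.spec {a b : ℕ} (h : PPPair k a b) : 1 ≤ a ∧ a < b ∧ b ≤ k ∧ ¬ NPP a ∧ ¬ NPP b := by
  obtain ⟨p, c, hp, hc, rfl, rfl, h1, h2⟩ := h
  refine ⟨Nat.one_le_pow _ _ hp.pos, Nat.pow_lt_pow_right hp.one_lt (by omega), h1, ?_, ?_⟩
  · intro h
    rcases Nat.eq_zero_or_pos (c - 1) with h3 | h3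
    · have := h.1
      rw [h3, pow_zero] at this
      omega
    · exact h.2 ((isPrimePow_nat_iff _).2 ⟨p, c - 1, hp, h3, rfl⟩)
  · intro h
    exact h.2 ((isPrimePow_nat_iff _).2 ⟨p, c, hp, hc, rfl⟩)

lemma TwinPair.spec {a b : ℕ} (h : TwinPair k a b) :
    1 ≤ a ∧ a < b ∧ b ≤ k ∧ ¬ NPP a ∧ ¬ NPP b := by
  obtain ⟨h1, h2, h3, h4, _⟩ := h
  exact ⟨h1.one_lt.le, by omega, h4, fun h => npp_not_prime h h1, fun h => npp_not_prime h h2⟩

lemma APair.spec {a b : ℕ} (h : APair k T a b) : 1 ≤ a ∧ a < b ∧ b ≤ k ∧ ¬ NPP a ∧ ¬ NPP b := by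
  rcases h with h | ⟨_, h⟩
  · exact h.spec
  · exact h.spec

lemma PPPair.disj {a b c d : ℕ} (h : PPPair k a b) (h' : PPPair k c d)
    (he : a = c ∨ a = d ∨ b = c ∨ b = d) : a = c ∧ b = d := by
  obtain ⟨p, e, hp, he1, rfl, rfl, h1, h2⟩ := h
  obtain ⟨q, f, hq, hf1, rfl, rfl, h3, h4⟩ := h'
  by_cases hpq : p = q
  · subst hpq
    have key : ∀ i j, 1 ≤ i → k < p ^ i + p ^ (i - 1) → p ^ j ≤ k → j ≤ i := by
      intro i j hi hk hj
      by_contra hcon
      push Not at hcon
      have e1 : p ^ (i + 1) ≤ p ^ j := Nat.pow_le_pow_right hp.pos hcon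
      have e2 : p ^ (i + 1) = p * p ^ i := by ring
      have e3 : 2 * p ^ i ≤ p * p ^ i := Nat.mul_le_mul_right _ hp.two_le
      have e4 : p ^ (i - 1) ≤ p ^ i := Nat.pow_le_pow_right hp.pos (by omega)
      omega
    have := key e f he1 h2 h3
    have := key f e hf1 h4 h1
    have : e = f := by omega
    subst this
    exact ⟨rfl, rfl⟩
  · exfalso
    have key : ∀ i j, p ^ i = q ^ j → i = 0 ∧ j = 0 := by
      intro i j hij
      constructor
      · by_contra hi
        have : p ∣ q ^ j := hij ▸ dvd_pow_self p hi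
        exact hpq ((Nat.prime_dvd_prime_iff_eq hp hq).1 (hp.dvd_of_dvd_pow this))
      · by_contra hj
        have : q ∣ p ^ i := hij ▸ dvd_pow_self q hj
        exact hpq ((Nat.prime_dvd_prime_iff_eq hq hp).1 (hq.dvd_of_dvd_pow this)).symm
    rcases he with h | h | h | h
    · obtain ⟨h5, h6⟩ := key _ _ h
      have he : e = 1 := by omega
      have hf : f = 1 := by omega
      subst he
      subst hf
      simp only [pow_one, Nat.sub_self, pow_zero] at h1 h2 h3 h4
      omega
    · have := key _ _ h
      omega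
    · have := key _ _ h
      omega
    · have := key _ _ h
      omega

lemma prime_eq_pow {p c q : ℕ} (hq : q.Prime) (h : p ^ c = q) : c = 1 ∧ p = q := by
  have hc : c = 1 := by
    rcases Nat.lt_or_ge c 2 with h1 | h1
    · rcases (show c = 0 ∨ c = 1 by omega) with rfl | rfl
      · simp at h
        rw [← h] at hq
        exact absurd hq (by norm_num)
      · rfl
    · rw [← h] at hq
      exact absurd hq (Nat.Prime.not_prime_pow h1)
  subst hc
  rw [pow_one] at h
  exact ⟨rfl, h⟩

lemma mod3_primes {a : ℕ} (ha : 4 ≤ a) (h1 : a.Prime) (h2 : (a + 2).Prime)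
    (h3 : (a + 4).Prime) : False := by
  rcases (show a % 3 = 0 ∨ (a + 2) % 3 = 0 ∨ (a + 4) % 3 = 0 by omega) with h5 | h5 | h5
  · have := (Nat.prime_dvd_prime_iff_eq Nat.prime_three h1).1 (Nat.dvd_of_mod_eq_zero h5)
    omega
  · have := (Nat.prime_dvd_prime_iff_eq Nat.prime_three h2).1 (Nat.dvd_of_mod_eq_zero h5)
    omega
  · have := (Nat.prime_dvd_prime_iff_eq Nat.prime_three h3).1 (Nat.dvd_of_mod_eq_zero h5)
    omega

lemma TwinPair.disj {a b c d : ℕ} (h : TwinPair k a b) (h' : TwinPair k c d)
    (he : a = c ∨ a = d ∨ b = c ∨ b = d) : a = c ∧ b = d := by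
  obtain ⟨h1, h2, h3, h4, h5⟩ := h
  obtain ⟨h6, h7, h8, h9, h10⟩ := h'
  rcases he with h | h | h | h
  · exact ⟨h, by omega⟩
  · exfalso
    have e1 : a = c + 2 := by omega
    have e2 : b = c + 4 := by omega
    rw [e1] at h1
    rw [e2] at h2
    exact mod3_primes (by omega) h6 h1 h2
  · exfalso
    have e1 : c = a + 2 := by omega
    have e2 : d = a + 4 := by omega
    rw [e1] at h6
    rw [e2] at h7
    exact mod3_primes (by omega) h1 h6 h7
  · exact ⟨by omega, h⟩

lemma PPPair.twin_disj {a b c d : ℕ} (hk : 12 ≤ k) (h : PPPair k a b) (h' : TwinPair k c d)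
    (hseq : Start.IsSeq k s₀ .twinSophieGermain) : a ≠ c ∧ a ≠ d ∧ b ≠ c ∧ b ≠ d := by
  obtain ⟨p, e, hp, he1, rfl, rfl, h1, h2⟩ := h
  obtain ⟨h6, h7, h8, h9, h10⟩ := h'
  have small : ∀ q, q.Prime → (k + 1) / 2 < q → p ^ (e - 1) ≠ q := by
    intro q hq hkq h
    obtain ⟨h11, h12⟩ := prime_eq_pow hq h
    have he2 : e = 2 := by omega
    subst he2
    rw [h12] at h1
    have : 2 * q ≤ q * q := Nat.mul_le_mul_right q hq.two_le
    have h13 : q ^ 2 = q * q := by ring
    omega
  have large : ∀ q, q.Prime → p ^ e = q → q = k := by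
    intro q hq h
    obtain ⟨h11, h12⟩ := prime_eq_pow hq h
    subst h11
    simp only [pow_one, Nat.sub_self, pow_zero] at h1 h2
    omega
  refine ⟨small c h6 h10, small d h7 (by omega), ?_, ?_⟩
  · intro h
    have := large c h6 h
    omega
  · intro h
    have hdk := large d h7 h
    obtain ⟨t, ht, ht2, ht3, hkt, _⟩ := hseq
    have h3 : t % 3 ≠ 0 := by
      intro h
      have := (Nat.prime_dvd_prime_iff_eq Nat.prime_three ht).1 (Nat.dvd_of_mod_eq_zero h)
      omega
    have h4 : (t + 2) % 3 ≠ 0 := by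
      intro h
      have := (Nat.prime_dvd_prime_iff_eq Nat.prime_three ht2).1 (Nat.dvd_of_mod_eq_zero h)
      omega
    have h6' : t % 3 = 2 := by omega
    have h5 : 3 ∣ d := by omega
    have := (Nat.prime_dvd_prime_iff_eq Nat.prime_three h7).1 h5
    omega

lemma APair.disj {a b c d : ℕ} (hk : 12 ≤ k) (hseq : T.IsSeq k s₀) (h : APair k T a b)
    (h' : APair k T c d) (he : a = c ∨ a = d ∨ b = c ∨ b = d) : a = c ∧ b = d := by
  rcases h with h | ⟨hT, h⟩ <;> rcases h' with h' | ⟨hT', h'⟩
  · exact h.disj h' he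
  · subst hT'
    exfalso
    have := h.twin_disj hk h' hseq
    omega
  · subst hT
    exfalso
    have := h'.twin_disj hk h hseq
    omega
  · exact h.disj h' he

/-! ### reading off the data -/

/-- positions up to reversal -/
def psn (k : ℕ) (r : Bool) (s : List ℕ) (v : ℕ) : ℕ :=
  if r then k - 1 - s.idxOf v else s.idxOf v

lemma Derives.perm (hk : 1 ≤ k) (hseq : T.IsSeq k s₀) {ops : List Move}
    (h : Derives k T s₀ ops s) : s.Perm (List.range' 1 k) := by
  induction h with
  | start => exact hseq.perm hk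
  | step h hall ih =>
    rename_i ops s m
    cases m with
    | swap a b =>
      have hab : APair k T a b := by
        rcases hall with h | ⟨h, h', _⟩
        · exact Or.inl h
        · exact Or.inr ⟨h, h'⟩
      obtain ⟨h1, h2, h3, _⟩ := hab.spec
      have hnd : s.Nodup := ih.nodup_iff.2 List.nodup_range'
      exact (exch_perm hnd ((mem_range1 ih).2 (by omega)) ((mem_range1 ih).2 (by omega))).trans ih
    | reversal => exact (List.reverse_perm s).trans ih

lemma psn_reverse (h : s.Perm (List.range' 1 k)) (r : Bool) {v : ℕ} (h1 : 1 ≤ v) (h2 : v ≤ k) :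
    psn k (!r) s.reverse v = psn k r s v := by
  have hnd : s.Nodup := h.nodup_iff.2 List.nodup_range'
  have hlen : s.length = k := by rw [h.length_eq, List.length_range']
  have h3 := idxOf_reverse hnd ((mem_range1 h).2 ⟨h1, h2⟩)
  unfold psn
  cases r <;> simp <;> omega

lemma psn_exch {a b v : ℕ} (r : Bool) :
    psn k r (exch a b s) v = psn k r s (Equiv.swap a b v) := by
  unfold psn
  rw [idxOf_exch]

/-- every derivation: entries which are not prime powers keep their positions up to reversal -/
lemma Derives.npp (hk : 1 ≤ k) (hseq : T.IsSeq k s₀) {ops : List Move}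
    (h : Derives k T s₀ ops s) :
    ∃ r : Bool, ∀ v, NPP v → v ≤ k → psn k r s v = s₀.idxOf v := by
  induction h with
  | start => exact ⟨false, fun v _ _ => by simp [psn]⟩
  | step h hall ih =>
    rename_i ops s m
    obtain ⟨r, ih⟩ := ih
    have hp := Derives.perm hk hseq h
    cases m with
    | swap a b =>
      have hab : APair k T a b := by
        rcases hall with h | ⟨h, h', _⟩
        · exact Or.inl h
        · exact Or.inr ⟨h, h'⟩
      obtain ⟨h1, h2, h3, h4, h5⟩ := hab.spec
      refine ⟨r, fun v hv hvk => ?_⟩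
      show psn k r (exch a b s) v = _
      rw [psn_exch, swap_ne (by rintro rfl; exact h4 hv) (by rintro rfl; exact h5 hv)]
      exact ih v hv hvk
    | reversal =>
      refine ⟨!r, fun v hv hvk => ?_⟩
      show psn k (!r) s.reverse v = _
      rw [psn_reverse hp r (by have := hv.1; omega) hvk]
      exact ih v hv hvk

/-- reduced derivations -/
lemma Derives.read (hk : 12 ≤ k) (hseq : T.IsSeq k s₀) {ops : List Move}
    (h : Derives k T s₀ ops s) (hnd : ops.Nodup) :
    ∃ r : Bool, (r = true ↔ Move.reversal ∈ ops) ∧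
      (∀ a b, Move.swap a b ∈ ops → APair k T a b) ∧
      (∀ v, 1 ≤ v → v ≤ k → (∀ a b, Move.swap a b ∈ ops → v ≠ a ∧ v ≠ b) →
        psn k r s v = s₀.idxOf v) ∧
      (∀ a b, Move.swap a b ∈ ops → psn k r s a = s₀.idxOf b ∧ psn k r s b = s₀.idxOf a) := by
  induction h with
  | start => exact ⟨false, by simp, by simp, fun v _ _ _ => by simp [psn], by simp⟩
  | step h hall ih =>
    rename_i ops s m
    have hp := Derives.perm (by omega) hseq h
    rw [List.nodup_append] at hnd
    obtain ⟨hnd1, _, hnd2⟩ := hnd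
    obtain ⟨r, ih1, ih2, ih3, ih4⟩ := ih hnd1
    have hm : m ∉ ops := fun hm => hnd2 m hm m (by simp) rfl
    cases m with
    | swap a b =>
      have hab : APair k T a b := by
        rcases hall with h | ⟨h, h', _⟩
        · exact Or.inl h
        · exact Or.inr ⟨h, h'⟩
      obtain ⟨h1, h2, h3, h4, h5⟩ := hab.spec
      have hfree : ∀ c d, Move.swap c d ∈ ops → a ≠ c ∧ a ≠ d ∧ b ≠ c ∧ b ≠ d := by
        intro c d hcd
        have hcd' := ih2 c d hcd
        by_contra hcon
        have he : a = c ∨ a = d ∨ b = c ∨ b = d := by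
          by_contra h
          push Not at h
          exact hcon ⟨h.1, h.2.1, h.2.2.1, h.2.2.2⟩
        obtain ⟨e1, e2⟩ := hab.disj hk hseq hcd' he
        subst e1
        subst e2
        exact hm hcd
      refine ⟨r, ?_, ?_, ?_, ?_⟩
      · rw [ih1, List.mem_append]
        simp
      · intro c d hcd
        rw [List.mem_append, List.mem_singleton] at hcd
        rcases hcd with hcd | hcd
        · exact ih2 c d hcd
        · injection hcd with e1 e2
          subst e1
          subst e2
          exact hab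
      · intro v hv1 hvk hv
        show psn k r (exch a b s) v = _
        obtain ⟨n1, n2⟩ := hv a b (by simp)
        rw [psn_exch, swap_ne n1 n2]
        exact ih3 v hv1 hvk (fun c d hcd => hv c d (List.mem_append_left _ hcd))
      · intro c d hcd
        show psn k r (exch a b s) c = _ ∧ psn k r (exch a b s) d = _
        rw [psn_exch, psn_exch]
        rw [List.mem_append, List.mem_singleton] at hcd
        rcases hcd with hcd | hcd
        · obtain ⟨n1, n2, n3, n4⟩ := hfree c d hcd
          rw [swap_ne (Ne.symm n1) (Ne.symm n3), swap_ne (Ne.symm n2) (Ne.symm n4)]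
          exact ih4 c d hcd
        · injection hcd with e1 e2
          subst e1
          subst e2
          rw [Equiv.swap_apply_left, Equiv.swap_apply_right]
          constructor
          · exact ih3 d (by omega) h3 (fun x y hxy => ⟨(hfree x y hxy).2.2.1, (hfree x y hxy).2.2.2⟩)
          · exact ih3 c h1 (by omega) (fun x y hxy => ⟨(hfree x y hxy).1, (hfree x y hxy).2.1⟩)
    | reversal =>
      have hr : r = false := by
        cases r
        · rfl
        · exact absurd (ih1.1 rfl) hm
      subst hr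
      refine ⟨true, by simp, ?_, ?_, ?_⟩
      · intro c d hcd
        rw [List.mem_append, List.mem_singleton] at hcd
        rcases hcd with hcd | hcd
        · exact ih2 c d hcd
        · cases hcd
      · intro v hv1 hvk hv
        show psn k (!false) s.reverse v = _
        rw [psn_reverse hp false hv1 hvk]
        exact ih3 v hv1 hvk (fun c d hcd => hv c d (List.mem_append_left _ hcd))
      · intro c d hcd
        rw [List.mem_append, List.mem_singleton] at hcd
        rcases hcd with hcd | hcd
        · obtain ⟨h1, h2, h3, _, _⟩ := (ih2 c d hcd).spec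
          show psn k (!false) s.reverse c = _ ∧ psn k (!false) s.reverse d = _
          rw [psn_reverse hp false h1 (by omega), psn_reverse hp false (by omega) h3]
          exact ih4 c d hcd
        · cases hcd

lemma npp6 : NPP 6 :=
  NPP.of_primes (by norm_num) (by norm_num : Nat.Prime 2) (by norm_num : Nat.Prime 3)
    (by norm_num) (by norm_num) (by norm_num)

lemma npp_two_prime {p : ℕ} (hp : p.Prime) (h3 : 3 ≤ p) : NPP (2 * p) :=
  NPP.of_primes (by omega) Nat.prime_two hp (by omega) (Dvd.intro _ rfl) (Dvd.intro_left _ rfl)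

/-- the position of the last even entry -/
def evenIdx (k : ℕ) : Start → ℕ
  | .consecutive => 2 * (k / 2) - 1
  | .oneInversion => 2 * (k / 2) - 2
  | .twiceTwinPrime => 1
  | .twinSophieGermain => 2 * (k / 2) - 3
  | .twiceTwinPrimeInversion => 0

lemma Start.IsSeq.idx_even (hk : 12 ≤ k) (h : T.IsSeq k s₀) :
    s₀.idxOf (2 * (k / 2)) = evenIdx k T := by
  cases T with
  | consecutive =>
    rw [show s₀ = List.range' 1 k from h, base0_idx (by omega) (by omega)]
    rfl
  | oneInversion =>
    obtain ⟨_, rfl⟩ := h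
    rw [base1_idx (by omega) (by omega)]
    rfl
  | twiceTwinPrime =>
    obtain ⟨p, hp, hp2, hkp, rfl⟩ := h
    have h3 := twin_ge hp hp2
    rw [seq3_idx h3 (by omega) (by omega) (by omega), if_neg (by omega), if_pos (by omega)]
    rfl
  | twinSophieGermain =>
    obtain ⟨p, hp, hp2, _, hkp, rfl⟩ := h
    have h3 := twin_ge hp hp2
    have hodd : p % 2 = 1 := by
      rcases hp.eq_two_or_odd with h | h
      · omega
      · exact h
    rw [seq4_idx h3 (by omega) (by omega) (by omega), if_neg (by omega), if_neg (by omega),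
      if_neg (by omega), if_neg (by omega)]
    rfl
  | twiceTwinPrimeInversion =>
    obtain ⟨p, hp, hp2, _, hkp, rfl⟩ := h
    have h3 := twin_ge hp hp2
    rw [seq5_idx h3 (by omega) (by omega) (by omega), if_neg (by omega), if_neg (by omega),
      if_pos (by omega)]
    rfl

/-- the starting sequence and the orientation are determined by the entries which are not prime
powers -/
lemma kind_unique (hk : 12 ≤ k) {T T' : Start} {s₀ s₀' : List ℕ} (hT : T.IsSeq k s₀)
    (hT' : T'.IsSeq k s₀') {r r' : Bool}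
    (h : ∀ v, NPP v → v ≤ k → psn k r s v = s₀.idxOf v)
    (h' : ∀ v, NPP v → v ≤ k → psn k r' s v = s₀'.idxOf v) : T = T' ∧ r = r' := by
  have n12 : NPP 12 := npp12
  have n6 : NPP 6 := npp6
  have shift_le : ∀ T : Start, T.shift ≤ 2 := by
    intro T; cases T <;> simp [Start.shift]
  -- entry 12 may be the last even entry
  have key : ∀ {T : Start} {s₀ : List ℕ}, T.IsSeq k s₀ → s₀.idxOf 12 + T.shift + 1 = 12 ∧
      s₀.idxOf 6 + T.shift + 1 = 6 := by
    intro T s₀ hT
    refine ⟨?_, hT.idx_npp n6 (by omega) (by omega)⟩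
    by_cases h12 : (12 : ℕ) = 2 * (k / 2)
    · have := hT.idx_even hk
      rw [← h12] at this
      cases T with
      | consecutive => simp only [Start.shift, evenIdx] at this ⊢; omega
      | oneInversion => simp only [Start.shift, evenIdx] at this ⊢; omega
      | twiceTwinPrime =>
        exfalso
        obtain ⟨p, hp, hp2, hkp, rfl⟩ := hT
        have : p = 6 := by omega
        subst this
        norm_num at hp
      | twinSophieGermain => simp only [Start.shift, evenIdx] at this ⊢; omega
      | twiceTwinPrimeInversion =>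
        exfalso
        obtain ⟨p, hp, hp2, _, hkp, rfl⟩ := hT
        have : p = 6 := by omega
        subst this
        norm_num at hp
    · exact hT.idx_npp n12 hk h12
  obtain ⟨k1, k2⟩ := key hT
  obtain ⟨k3, k4⟩ := key hT'
  have a1 := h 12 n12 hk
  have a2 := h 6 n6 (by omega)
  have a3 := h' 12 n12 hk
  have a4 := h' 6 n6 (by omega)
  have s1 := shift_le T
  have s2 := shift_le T'
  have hrr : r = r' := by
    unfold psn at a1 a2 a3 a4
    cases r <;> cases r' <;> simp at a1 a2 a3 a4 ⊢ <;> omega
  subst hrr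
  have hshift : T.shift = T'.shift := by omega
  refine ⟨?_, rfl⟩
  have e1 := hT.idx_even hk
  have e2 := hT'.idx_even hk
  have hnpp : ∀ {T : Start} {s₀ : List ℕ}, T.IsSeq k s₀ →
      (T = .twiceTwinPrime ∨ T = .twiceTwinPrimeInversion) → NPP (2 * (k / 2)) := by
    intro T s₀ hT hor
    rcases hor with rfl | rfl
    · obtain ⟨p, hp, hp2, hkp, rfl⟩ := hT
      have h3 := twin_ge hp hp2
      have : k / 2 = p := by omega
      rw [this]
      exact npp_two_prime hp h3
    · obtain ⟨p, hp, hp2, _, hkp, rfl⟩ := hT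
      have h3 := twin_ge hp hp2
      have : k / 2 = p := by omega
      rw [this]
      exact npp_two_prime hp h3
  have heven : (T = .twiceTwinPrime ∨ T = .twiceTwinPrimeInversion) ∨
      (T' = .twiceTwinPrime ∨ T' = .twiceTwinPrimeInversion) →
      s₀.idxOf (2 * (k / 2)) = s₀'.idxOf (2 * (k / 2)) := by
    intro hor
    have hn : NPP (2 * (k / 2)) := by
      rcases hor with h | h
      · exact hnpp hT h
      · exact hnpp hT' h
    rw [← h _ hn (by omega), ← h' _ hn (by omega)]
  cases T <;> cases T' <;> simp [Start.shift] at hshift <;> try rfl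
  all_goals
    exfalso
    simp only [evenIdx] at e1 e2
    have := heven (by simp)
    omega

/-- the starting sequence is determined by its kind -/
lemma Start.IsSeq.unique {s₀' : List ℕ} (h : T.IsSeq k s₀) (h' : T.IsSeq k s₀') : s₀ = s₀' := by
  cases T with
  | consecutive => rw [show s₀ = _ from h, show s₀' = _ from h']
  | oneInversion => rw [h.2, h'.2]
  | twiceTwinPrime =>
    obtain ⟨p, hp, hp2, hkp, rfl⟩ := h
    obtain ⟨q, hq, hq2, hkq, rfl⟩ := h'
    have : p = q := by omega
    rw [this]
  | twinSophieGermain =>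
    obtain ⟨p, hp, hp2, _, hkp, rfl⟩ := h
    obtain ⟨q, hq, hq2, _, hkq, rfl⟩ := h'
    have : p = q := by omega
    rw [this]
  | twiceTwinPrimeInversion =>
    obtain ⟨p, hp, hp2, _, hkp, rfl⟩ := h
    obtain ⟨q, hq, hq2, _, hkq, rfl⟩ := h'
    have : p = q := by omega
    rw [this]

/-- uniqueness of the kind for arbitrary derivations -/
theorem IsDerivation.kind (hk : 12 ≤ k) {T T' : Start} {ops ops' : List Move}
    (h : IsDerivation k T ops s) (h' : IsDerivation k T' ops' s) : T = T' := by
  obtain ⟨s₀, h1, h2⟩ := h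
  obtain ⟨s₀', h3, h4⟩ := h'
  obtain ⟨r, hr⟩ := h2.npp (by omega) h1
  obtain ⟨r', hr'⟩ := h4.npp (by omega) h3
  exact (kind_unique hk h1 h3 hr hr').1

/-- uniqueness of the data -/
theorem IsDerivation.unique (hk : 12 ≤ k) {T T' : Start} {ops ops' : List Move}
    (h : IsDerivation k T ops s) (h' : IsDerivation k T' ops' s) (hnd : ops.Nodup)
    (hnd' : ops'.Nodup) : T = T' ∧ ops.Perm ops' := by
  obtain ⟨s₀, h1, h2⟩ := h
  obtain ⟨s₀', h3, h4⟩ := h'
  obtain ⟨r, r1, r2, r3, r4⟩ := h2.read hk h1 hnd
  obtain ⟨r', r1', r2', r3', r4'⟩ := h4.read hk h3 hnd'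
  have hnp : ∀ v, NPP v → v ≤ k → psn k r s v = s₀.idxOf v := by
    intro v hv hvk
    apply r3 v (by have := hv.1; omega) hvk
    intro a b hab
    obtain ⟨_, _, _, e1, e2⟩ := (r2 a b hab).spec
    exact ⟨by rintro rfl; exact e1 hv, by rintro rfl; exact e2 hv⟩
  have hnp' : ∀ v, NPP v → v ≤ k → psn k r' s v = s₀'.idxOf v := by
    intro v hv hvk
    apply r3' v (by have := hv.1; omega) hvk
    intro a b hab
    obtain ⟨_, _, _, e1, e2⟩ := (r2' a b hab).spec
    exact ⟨by rintro rfl; exact e1 hv, by rintro rfl; exact e2 hv⟩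
  obtain ⟨hTT, hrr⟩ := kind_unique hk h1 h3 hnp hnp'
  subst hTT
  subst hrr
  have hss := h1.unique h3
  subst hss
  refine ⟨rfl, ?_⟩
  have hperm := h1.perm (by omega : 1 ≤ k)
  -- one inclusion
  have incl : ∀ (ops ops' : List Move),
      (∀ a b, Move.swap a b ∈ ops → APair k T a b) →
      (∀ a b, Move.swap a b ∈ ops → psn k r s a = s₀.idxOf b ∧ psn k r s b = s₀.idxOf a) →
      (∀ a b, Move.swap a b ∈ ops' → APair k T a b) →
      (∀ v, 1 ≤ v → v ≤ k → (∀ a b, Move.swap a b ∈ ops' → v ≠ a ∧ v ≠ b) →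
        psn k r s v = s₀.idxOf v) →
      ∀ a b, Move.swap a b ∈ ops → Move.swap a b ∈ ops' := by
    intro ops ops' q2 q4 q2' q3' a b hab
    by_contra hcon
    obtain ⟨e1, e2, e3, _, _⟩ := (q2 a b hab).spec
    have h5 : psn k r s a = s₀.idxOf a := by
      apply q3' a e1 (by omega)
      intro c d hcd
      by_contra hc
      have he : a = c ∨ a = d ∨ b = c ∨ b = d := by
        by_contra h
        push Not at h
        exact hc ⟨h.1, h.2.1⟩
      obtain ⟨f1, f2⟩ := (q2 a b hab).disj hk h1 (q2' c d hcd) he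
      subst f1
      subst f2
      exact hcon hcd
    rw [(q4 a b hab).1] at h5
    have := (List.idxOf_inj ((mem_range1 hperm).2 (by omega : 1 ≤ b ∧ b ≤ k))).1 h5
    omega
  rw [List.perm_ext_iff_of_nodup hnd hnd']
  intro m
  cases m with
  | swap a b =>
    exact ⟨incl ops ops' r2 r4 r2' r3' a b, incl ops' ops r2' r4' r2 r3 a b⟩
  | reversal => rw [← r1, ← r1']

end Pool.Agent.H33.Wcs
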