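import Pool.Agent.H33.WcsTable
import Pool.Agent.H33.WcsUnique

set_option autoImplicit false

/-!
The base cases `k ≤ 41`.
-/

namespace Pool.Agent.H33.Wcs

variable {k : ℕ} {s : List ℕ}

def chkFin (k : ℕ) : Bool := k == 0 || (finN k tbl).all (fun s => (tbl k).elem s)

set_option maxRecDepth 100000 in
theorem chkFin_all : ∀ k, k < 42 → chkFin k = true := by decide +kernel

theorem mem_tbl : ∀ k, 1 ≤ k → k ≤ 41 → ∀ s, IsWCS k s → s ∈ tbl k := by
  intro k
  induction k using Nat.strong_induction_on with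
  | _ k ih =>
    intro h1 h2 s h
    have h3 := finN_sound h h2 (T := tbl) (fun q hq1 hq2 tau htau => ih q hq2 hq1 (by omega) tau htau)
    have h4 := chkFin_all k (by omega)
    unfold chkFin at h4
    rw [Bool.or_eq_true] at h4
    rcases h4 with h4 | h4
    · simp at h4; omega
    · rw [List.all_eq_true] at h4
      have := h4 s h3
      simpa using this

/-! ### derivations -/

def exchC (a b : ℕ) (s : List ℕ) : List ℕ :=
  s.map (fun x => if x == a then b else if x == b then a else x)

lemma exchC_eq (a b : ℕ) (s : List ℕ) : exchC a b s = exch a b s := by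
  unfold exchC exch
  apply List.map_congr_left
  intro x _
  rw [Equiv.swap_apply_def]
  simp

def seqOf (k : ℕ) : Start → Option (List ℕ)
  | .consecutive => some (List.range' 1 k)
  | .oneInversion => if isP (k + 1) then some (List.range' 2 (k - 1) ++ [1]) else none
  | .twiceTwinPrime => if isP (k / 2) && isP (k / 2 + 2) then
      some (exchC 2 (2 * (k / 2)) (exchC (k / 2) (k / 2 + 2) (List.range' 1 k))) else none
  | .twinSophieGermain => if isP ((k + 1) / 2) && isP ((k + 1) / 2 + 2) &&
      isP (2 * ((k + 1) / 2) + 1) && (k + 1 == 2 * ((k + 1) / 2)) then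
      some (exchC ((k + 1) / 2) ((k + 1) / 2 + 2) (List.range' 3 (k - 2) ++ [2, 1])) else none
  | .twiceTwinPrimeInversion => if isP (k / 2) && isP (k / 2 + 2) && isP (2 * (k / 2) + 1) &&
      (k == 2 * (k / 2)) then
      some (exchC 2 (2 * (k / 2)) (exchC (k / 2) (k / 2 + 2) (List.range' 2 (k - 1) ++ [1])))
      else none

lemma seqOf_sound {T : Start} (h : seqOf k T = some s) : T.IsSeq k s := by
  cases T with
  | consecutive =>
    simp only [seqOf, Option.some.injEq] at h
    exact h.symm
  | oneInversion =>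
    simp only [seqOf] at h
    split_ifs at h with h1
    simp only [Option.some.injEq] at h
    exact ⟨isP_prime h1, h.symm⟩
  | twiceTwinPrime =>
    simp only [seqOf] at h
    split_ifs at h with h1
    simp only [Option.some.injEq, exchC_eq] at h
    rw [Bool.and_eq_true] at h1
    exact ⟨k / 2, isP_prime h1.1, isP_prime h1.2, by omega, h.symm⟩
  | twinSophieGermain =>
    simp only [seqOf] at h
    split_ifs at h with h1
    simp only [Option.some.injEq, exchC_eq] at h
    simp only [Bool.and_eq_true, beq_iff_eq] at h1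
    obtain ⟨⟨⟨h1, h2⟩, h3⟩, h4⟩ := h1
    exact ⟨(k + 1) / 2, isP_prime h1, isP_prime h2, isP_prime h3, h4, h.symm⟩
  | twiceTwinPrimeInversion =>
    simp only [seqOf] at h
    split_ifs at h with h1
    simp only [Option.some.injEq, exchC_eq] at h
    simp only [Bool.and_eq_true, beq_iff_eq] at h1
    obtain ⟨⟨⟨h1, h2⟩, h3⟩, h4⟩ := h1
    exact ⟨k / 2, isP_prime h1, isP_prime h2, isP_prime h3, h4, h.symm⟩

def okPP (k a b : ℕ) : Bool :=
  [2, 3, 5, 7, 11, 13, 17, 19, 23, 29, 31, 37, 41].any (fun p =>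
    isP p && [1, 2, 3, 4, 5].any (fun c =>
      (1 ≤ c) && (a == p ^ (c - 1)) && (b == p ^ c) && decide (p ^ c ≤ k) &&
        decide (k < p ^ c + p ^ (c - 1))))

lemma okPP_sound {a b : ℕ} (h : okPP k a b = true) : PPPair k a b := by
  unfold okPP at h
  rw [List.any_eq_true] at h
  obtain ⟨p, _, hp⟩ := h
  rw [Bool.and_eq_true, List.any_eq_true] at hp
  obtain ⟨h1, c, _, h2⟩ := hp
  simp only [Bool.and_eq_true, beq_iff_eq, decide_eq_true_eq] at h2
  obtain ⟨⟨⟨⟨h3, h4⟩, h5⟩, h6⟩, h7⟩ := h2
  exact ⟨p, c, isP_prime h1, h3, h4, h5, h6, h7⟩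

def isTSG : Start → Bool
  | .twinSophieGermain => true
  | _ => false

def isFifth : Start → Bool
  | .twiceTwinPrimeInversion => true
  | _ => false

def okMove (k : ℕ) (T : Start) (s₀ s : List ℕ) : Move → Bool
  | .swap a b => okPP k a b || (isTSG T && (isP a && isP b && (b == a + 2) && decide (b ≤ k) &&
      decide ((k + 1) / 2 < a)) && (s.idxOf a == s₀.idxOf a) && (s.idxOf b == s₀.idxOf b))
  | .reversal => true

lemma okMove_sound {T : Start} {s₀ s : List ℕ} {m : Move} (h : okMove k T s₀ s m = true) :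
    m.Allowed k T s₀ s := by
  cases m with
  | swap a b =>
    unfold okMove at h
    rw [Bool.or_eq_true] at h
    rcases h with h | h
    · exact Or.inl (okPP_sound h)
    · simp only [Bool.and_eq_true, beq_iff_eq, decide_eq_true_eq] at h
      obtain ⟨⟨⟨h1, ⟨⟨⟨h2, h3⟩, h4⟩, h5⟩, h6⟩, h7⟩, h8⟩ := h
      refine Or.inr ⟨?_, ⟨isP_prime h2, isP_prime h3, h4, h5, h6⟩, h7, h8⟩
      cases T <;> first | rfl | (simp [isTSG] at h1)
  | reversal => trivial

def applyC : Move → List ℕ → List ℕ
  | .swap a b, s => exchC a b s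
  | .reversal, s => s.reverse

lemma applyC_eq (m : Move) (s : List ℕ) : applyC m s = m.apply s := by
  cases m with
  | swap a b => exact exchC_eq a b s
  | reversal => rfl

def runC (k : ℕ) (T : Start) (s₀ : List ℕ) : List ℕ → List Move → Option (List ℕ)
  | s, [] => some s
  | s, m :: ms => if okMove k T s₀ s m then runC k T s₀ (applyC m s) ms else none

lemma runC_sound {T : Start} {s₀ : List ℕ} : ∀ (ms : List Move) (ops : List Move)
    (s s' : List ℕ), Derives k T s₀ ops s → runC k T s₀ s ms = some s' →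
      Derives k T s₀ (ops ++ ms) s' := by
  intro ms
  induction ms with
  | nil =>
    intro ops s s' h h'
    simp only [runC, Option.some.injEq] at h'
    subst h'
    rw [List.append_nil]
    exact h
  | cons m ms ih =>
    intro ops s s' h h'
    unfold runC at h'
    split_ifs at h' with h1
    have h2 := Derives.step h (okMove_sound h1)
    rw [← applyC_eq] at h2
    have h3 := ih _ _ _ h2 h'
    rw [List.append_assoc] at h3
    exact h3

def certRun (k : ℕ) (c : Start × List Move) : Option (List ℕ) :=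
  (seqOf k c.1).bind (fun s₀ => runC k c.1 s₀ s₀ c.2)

def chkCert (k : ℕ) : Bool :=
  ((certs k).map (certRun k) == (tbl k).map some) && (k == 22 || (certs k).all (fun c => !isFifth c.1))

set_option maxRecDepth 100000 in
theorem chkCert_all : ∀ k, k < 42 → chkCert k = true := by decide +kernel

theorem complete_small (h1 : 1 ≤ k) (h2 : k ≤ 41) (h : IsWCS k s) :
    ∃ T ops, (k ≠ 22 → T ≠ .twiceTwinPrimeInversion) ∧ IsDerivation k T ops s := by
  have h3 := mem_tbl k h1 h2 s h
  have h4 := chkCert_all k (by omega)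
  unfold chkCert at h4
  rw [Bool.and_eq_true, beq_iff_eq] at h4
  obtain ⟨h4, h5⟩ := h4
  have h6 : some s ∈ (certs k).map (certRun k) := by
    rw [h4]
    exact List.mem_map_of_mem h3
  rw [List.mem_map] at h6
  obtain ⟨c, hc, h6⟩ := h6
  refine ⟨c.1, c.2, ?_, ?_⟩
  · intro hk
    rw [Bool.or_eq_true, beq_iff_eq] at h5
    have h7 := h5.resolve_left hk
    rw [List.all_eq_true] at h7
    have h8 := h7 c hc
    intro h9
    rw [h9] at h8
    simp [isFifth] at h8
  · unfold certRun at h6
    rw [Option.bind_eq_some_iff] at h6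
    obtain ⟨s₀, h7, h8⟩ := h6
    refine ⟨s₀, seqOf_sound h7, ?_⟩
    have := runC_sound c.2 [] s₀ s Derives.start h8
    rwa [List.nil_append] at this

/-! ### regularity -/

def npps : List ℕ := [6, 10, 12, 14, 15, 18, 20, 21, 22, 24, 26, 28, 30, 33, 34, 35, 36, 38, 39, 40]

lemma mem_npps {v : ℕ} (h : NPP v) (hv : v ≤ 41) : v ∈ npps := by
  have h1 := h.1
  have h2 := h.2
  rw [isPrimePow_nat_iff] at h2
  interval_cases v <;> first
    | decide
    | (exfalso; apply h2; refine ⟨2, 2, ?_, ?_, ?_⟩ <;> norm_num; done)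
    | (exfalso; apply h2; refine ⟨2, 3, ?_, ?_, ?_⟩ <;> norm_num; done)
    | (exfalso; apply h2; refine ⟨2, 4, ?_, ?_, ?_⟩ <;> norm_num; done)
    | (exfalso; apply h2; refine ⟨2, 5, ?_, ?_, ?_⟩ <;> norm_num; done)
    | (exfalso; apply h2; refine ⟨3, 2, ?_, ?_, ?_⟩ <;> norm_num; done)
    | (exfalso; apply h2; refine ⟨3, 3, ?_, ?_, ?_⟩ <;> norm_num; done)
    | (exfalso; apply h2; refine ⟨5, 2, ?_, ?_, ?_⟩ <;> norm_num; done)
    | (exfalso; apply h2; refine ⟨_, 1, ?_, ?_, pow_one _⟩ <;> norm_num; done)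

/-- `v` is exempt from regularity -/
def exempt (k v : ℕ) : Bool := (v % 2 == 0) && isP (v / 2) && ((k == v) || (k == v + 1))

lemma exempt_sound {v : ℕ} (h : exempt k v = true) : Special k v := by
  unfold exempt at h
  simp only [Bool.and_eq_true, Bool.or_eq_true, beq_iff_eq] at h
  obtain ⟨⟨h1, h2⟩, h3⟩ := h
  exact ⟨v / 2, isP_prime h2, by omega, by omega⟩

def chkR (k : ℕ) (s : List ℕ) : Bool :=
  [0, 1, 2].any (fun N =>
    npps.all (fun v => decide (k < v) || exempt k v || (s.idxOf v + 1 + N == v)) ||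
    npps.all (fun v => decide (k < v) || exempt k v || (k + 1 - (s.idxOf v + 1) + N == v)))

set_option maxRecDepth 100000 in
theorem chkR_all : ∀ k, k < 42 → (decide (k < 14) || (tbl k).all (chkR k)) = true := by
  decide +kernel

theorem R_base : ∀ k, 14 ≤ k → k ≤ 41 → R k := by
  intro k h1 h2 π S
  obtain ⟨s, hs, hidx⟩ := S.toList
  have h3 := mem_tbl k (by omega) h2 s hs
  have h4 := chkR_all k (by omega)
  rw [Bool.or_eq_true, decide_eq_true_eq] at h4
  have h5 := h4.resolve_left (by omega)
  rw [List.all_eq_true] at h5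
  have h6 := h5 s h3
  unfold chkR at h6
  rw [List.any_eq_true] at h6
  obtain ⟨N, hN, h7⟩ := h6
  have hN2 : N ≤ 2 := by
    simp at hN
    omega
  refine ⟨N, hN2, ?_⟩
  rw [Bool.or_eq_true, List.all_eq_true, List.all_eq_true] at h7
  rcases h7 with h7 | h7
  · left
    intro v hv hvk hns
    have h8 := h7 v (mem_npps hv (by omega))
    simp only [Bool.or_eq_true, decide_eq_true_eq, beq_iff_eq] at h8
    have hv1 : 1 ≤ v := by have := hv.1; omega
    have h9 := hidx v hv1 hvk
    rcases h8 with (h8 | h8) | h8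
    · omega
    · exact absurd (exempt_sound h8) hns
    · omega
  · right
    intro v hv hvk hns
    have h8 := h7 v (mem_npps hv (by omega))
    simp only [Bool.or_eq_true, decide_eq_true_eq, beq_iff_eq] at h8
    have hv1 : 1 ≤ v := by have := hv.1; omega
    have h9 := hidx v hv1 hvk
    unfold rev
    rcases h8 with (h8 | h8) | h8
    · omega
    · exact absurd (exempt_sound h8) hns
    · rw [← h9]
      exact h8

theorem R_holds : ∀ k, 14 ≤ k → R k := R_all R_base

end Pool.Agent.H33.Wcs
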