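import Pool.Agent.H33.WcsClass

set_option autoImplicit false

/-!
The five families.
-/

namespace Pool.Agent.H33.Wcs

variable {k N : ℕ} {g : ℕ → ℕ}

/-- `v` keeps its nominal slot or is exchanged with an allowed partner -/
def Swp (P : ℕ → ℕ → Prop) (k : ℕ) (g : ℕ → ℕ) (v : ℕ) : Prop :=
  g v = v ∨ ∃ w, 3 ≤ w ∧ w ≤ k ∧ (P v w ∨ P w v) ∧ g v = w ∧ g w = v

/-- a window with one slot -/
lemma Ctx.one_window (C : Ctx k N g) {s : ℕ} (h1 : 1 ≤ s) (hs : s ≤ k) (h2 : k < 2 * s) :
    g s ≤ N + s ∧ N + k < g s + s := by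
  obtain ⟨x1, hx1, hx1', hx1'', _, hw⟩ := C.window h1 hs
  have hdiv : k / s = 1 := by
    rw [Nat.div_eq_iff h1]
    omega
  rw [hdiv] at hx1'' hw
  obtain ⟨i, hi, hgi⟩ := hw s h1 hs dvd_rfl
  have hi0 : i = 0 := by omega
  subst hi0
  omega

/-- bad primes up to `k/2` coincide -/
lemma Ctx.bad_unique (C : Ctx k N g) {s p : ℕ} (hs : s.Prime) (hb : ¬ Good g s) (h2 : 2 * s ≤ k)
    (hp : p.Prime) (hbp : ¬ Good g p) (h2p : 2 * p ≤ k) : s = p := by
  have h1 := C.bad_half hs hb h2
  have h3 := C.bad_half hp hbp h2p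
  have := C.inj (2 * s) (2 * p) (by have := hs.pos; omega) h2 (by have := hp.pos; omega) h2p
    (by omega)
  omega

/-- bad primes above `k/2` -/
lemma Ctx.bad_large (C : Ctx k N g) {s : ℕ} (hs : s.Prime) (hb : ¬ Good g s) (hsk : s ≤ k)
    (h2 : k < 2 * s) (hN : N ≤ 1) :
    g s < s ∧ N + k < g s + s ∧
      (g s = 1 ∨ ((g s).Prime ∧ g s % 2 = 1 ∧ ¬ Good g (g s))) := by
  have hk := C.hk
  obtain ⟨h3, h4⟩ := C.one_window hs.one_lt.le hsk h2
  have hsodd : s % 2 = 1 := by
    rcases hs.eq_two_or_odd with h | h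
    · omega
    · exact h
  rcases C.gs hs hb hsk with h | ⟨h5, h6, h7, h8⟩
  · exact ⟨by omega, h4, Or.inl h⟩
  · have hodd : g s % 2 = 1 := by
      rcases h5.eq_two_or_odd with h | h
      · omega
      · exact h
    refine ⟨by omega, h4, Or.inr ⟨h5, hodd, h8 (by omega)⟩⟩

/-- no bad primes at all above `k/2` if `N = 1` and none below -/
lemma Ctx.no_bad (C : Ctx k N g) (hN : N = 1) (hnb : ∀ p, p.Prime → ¬ Good g p → k < 2 * p) :
    ∀ s, s.Prime → s ≤ k → Good g s := by
  intro s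
  induction s using Nat.strong_induction_on with
  | _ s ih =>
    intro hs hsk
    by_contra hb
    obtain ⟨h1, h2, h3 | ⟨h3, h4, h5⟩⟩ := C.bad_large hs hb hsk (hnb s hs hb) (by omega)
    · have := C.lo s hs.one_lt.le hsk
      omega
    · exact h5 (ih (g s) h1 h3 (by omega))

/-- `N = 0`: the only possible bad prime above `k/2` is `k` if none is below -/
lemma Ctx.bad_zero (C : Ctx k N g) (hN : N = 0) (hnb : ∀ p, p.Prime → ¬ Good g p → k < 2 * p) :
    ∀ s, s.Prime → s ≤ k → ¬ Good g s → s = k ∧ g s = 1 := by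
  intro s
  induction s using Nat.strong_induction_on with
  | _ s ih =>
    intro hs hsk hb
    obtain ⟨h1, h2, h3 | ⟨h3, h4, h5⟩⟩ := C.bad_large hs hb hsk (hnb s hs hb) (by omega)
    · omega
    · have := ih (g s) h1 h3 (by omega) h5
      omega

/-- the entry `2` -/
lemma Ctx.two_slot (C : Ctx k N g) : ∃ w, w % 2 = 1 ∧ g 2 = 2 * w := by
  have hk := C.hk
  have h1 : 2 ∣ g 2 := C.good2
  obtain ⟨w, hw⟩ := h1
  refine ⟨w, ?_, hw⟩
  by_contra hcon
  have h4 : 4 ∣ g 2 := by omega
  have := (C.good_iff (by norm_num) (by omega) C.good4 (by norm_num) (by omega)).2 h4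
  omega

lemma npp_two_odd {w : ℕ} (h1 : w % 2 = 1) (h2 : w ≠ 1) : NPP (2 * w) := by
  obtain ⟨r, hr, hrw⟩ := Nat.exists_prime_and_dvd h2
  refine NPP.of_primes (by omega) Nat.prime_two hr ?_ (Dvd.intro _ rfl) (hrw.mul_left _)
  rintro rfl
  omega

/-- no bad prime up to `k/2`, `N ≤ 1`: the entry `2` is fixed -/
lemma Ctx.two_fixed (C : Ctx k N g) (hnb : ∀ p, p.Prime → ¬ Good g p → k < 2 * p)
    (h : g 2 ≤ k) : g 2 = 2 := by
  have hk := C.hk
  obtain ⟨w, hw1, hw2⟩ := C.two_slot
  by_cases h1 : w = 1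
  · omega
  exfalso
  have hnpp := npp_two_odd hw1 h1
  have := C.reg' hnpp (by omega) (by
    intro p hp hvp
    by_contra hcon
    have := hnb p hp hcon
    omega)
  have := C.inj (2 * w) 2 (by omega) (by omega) (by norm_num) (by omega) (by omega)
  omega

/-- slot `k + 1` for `N ≥ 1` if `k + 1` is odd -/
lemma Ctx.succ_prime (C : Ctx k N g) {y : ℕ} (h1 : k < y) (h2 : y ≤ N + k) (hodd : y % 2 = 1) :
    y.Prime := by
  have hk := C.hk
  have hN := C.N_le
  rcases prime_or_one hk (z := y) (by omega) (by omega) (by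
    intro t ht hty
    by_cases htk : t ≤ k
    · apply C.not_good ht.one_lt.le
      intro hg
      have ht3 : t ≠ 2 := by
        rintro rfl
        omega
      have := ht.two_le
      have := C.no_ghost htk hg (by omega) hty h1
      omega
    · omega) with h | h
  · omega
  · exact h

/-- generic entries in the case without bad primes up to `k/2` -/
lemma Ctx.generic' (C : Ctx k N g) (hnb : ∀ p, p.Prime → ¬ Good g p → k < 2 * p)
    {v : ℕ} (h3 : 3 ≤ v) (hvk : v ≤ k) :
    (v.Prime ∧ ¬ Good g v) ∨ Swp (PPPair k) k g v := by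
  rcases C.generic h3 hvk with h | ⟨p, hp, hb, rfl⟩ | h | ⟨w, h1, h2, _, _, h3, h4, h5⟩
  · exact Or.inl h
  · have := hnb p hp hb
    omega
  · exact Or.inr (Or.inl h)
  · exact Or.inr (Or.inr ⟨w, h1, h2, h3, h4, h5⟩)

/-- Consecutive -/
theorem Ctx.case0 (C : Ctx k N g) (hN : N = 0) (hnb : ∀ p, p.Prime → ¬ Good g p → k < 2 * p) :
    ∀ v, 1 ≤ v → v ≤ k →
      g v = v ∨ ∃ w, 1 ≤ w ∧ w ≤ k ∧ (PPPair k v w ∨ PPPair k w v) ∧ g v = w ∧ g w = v := by
  have hk := C.hk
  have h2 : g 2 = 2 := C.two_fixed hnb (by have := C.hi 2 (by norm_num) (by omega); omega)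
  have hbad := C.bad_zero hN hnb
  have h1 : g 1 = 1 ∨ (k.Prime ∧ ¬ Good g k ∧ g 1 = k) := by
    have hlo := C.lo 1 le_rfl (by omega)
    have hhi := C.hi 1 le_rfl (by omega)
    rcases (show g 1 = 1 ∨ g 1 = 2 ∨ 3 ≤ g 1 by omega) with h | h | h
    · left; exact h
    · have := C.inj 1 2 le_rfl (by omega) (by norm_num) (by omega) (by omega)
      omega
    · rcases C.generic' hnb h (by omega) with ⟨h3, h4⟩ | h3 | ⟨w, hw1, hw2, _, _, h5⟩
      · obtain ⟨h5, h6⟩ := hbad _ h3 (by omega) h4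
        right
        rw [h5] at h3 h4
        exact ⟨h3, h4, h5⟩
      · have := C.inj (g 1) 1 (by omega) (by omega) le_rfl (by omega) (by omega)
        omega
      · have := C.inj w 1 (by omega) (by omega) le_rfl (by omega) (by omega)
        omega
  have hpair : k.Prime → PPPair k 1 k := fun hkp =>
    ⟨k, 1, hkp, le_rfl, by simp, by simp, by simp, by simp⟩
  intro v hv1 hvk
  rcases (show v = 1 ∨ v = 2 ∨ 3 ≤ v by omega) with rfl | rfl | hv3
  · rcases h1 with h | ⟨h3, h4, h5⟩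
    · left; exact h
    · right
      refine ⟨k, by omega, le_rfl, Or.inl (hpair h3), h5, (hbad k h3 le_rfl h4).2⟩
  · left; exact h2
  · rcases C.generic' hnb hv3 hvk with ⟨h3, h4⟩ | h3 | ⟨w, hw1, hw2, h4, h5, h6⟩
    · obtain ⟨h5, h6⟩ := hbad _ h3 hvk h4
      subst h5
      right
      refine ⟨1, le_rfl, by omega, Or.inr (hpair h3), h6, ?_⟩
      rcases h1 with h | ⟨_, _, h⟩
      · have := C.inj 1 v le_rfl hv1 hv1 le_rfl (by omega)
        omega
      · exact h
    · left; exact h3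
    · right; exact ⟨w, by omega, hw2, h4, h5, h6⟩

/-- One-Inversion -/
theorem Ctx.case1 (C : Ctx k N g) (hN : N = 1) (hnb : ∀ p, p.Prime → ¬ Good g p → k < 2 * p) :
    (k + 1).Prime ∧ g 1 = k + 1 ∧ ∀ v, 2 ≤ v → v ≤ k →
      g v = v ∨ ∃ w, 2 ≤ w ∧ w ≤ k ∧ (PPPair k v w ∨ PPPair k w v) ∧ g v = w ∧ g w = v := by
  have hk := C.hk
  have hbad := C.no_bad hN hnb
  have heven : k % 2 = 0 := by
    by_contra hcon
    -- slot `k+1` even
    have hy := C.no_ghost (m := 2) (y := k + 1) (by omega) C.good2 (by omega) (by omega) (by omega)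
    omega
  have hp : (k + 1).Prime := C.succ_prime (by omega) (by omega) (by omega)
  have h2 : g 2 = 2 := C.two_fixed hnb (by
    have := C.hi 2 (by norm_num) (by omega)
    obtain ⟨w, hw1, hw2⟩ := C.two_slot
    omega)
  have hgen : ∀ v, 3 ≤ v → v ≤ k → Swp (PPPair k) k g v := by
    intro v hv3 hvk
    rcases C.generic' hnb hv3 hvk with ⟨h3, h4⟩ | h3
    · exact absurd (hbad v h3 hvk) h4
    · exact h3
  refine ⟨hp, ?_, ?_⟩
  · have hlo := C.lo 1 le_rfl (by omega)
    have hhi := C.hi 1 le_rfl (by omega)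
    rcases (show g 1 = k + 1 ∨ g 1 = 2 ∨ (3 ≤ g 1 ∧ g 1 ≤ k) by omega) with h | h | ⟨h, h'⟩
    · exact h
    · have := C.inj 1 2 le_rfl (by omega) (by norm_num) (by omega) (by omega)
      omega
    · rcases hgen _ h h' with h3 | ⟨w, hw1, hw2, _, _, h5⟩
      · have := C.inj (g 1) 1 (by omega) (by omega) le_rfl (by omega) (by omega)
        omega
      · have := C.inj w 1 (by omega) (by omega) le_rfl (by omega) (by omega)
        omega
  · intro v hv2 hvk
    rcases (show v = 2 ∨ 3 ≤ v by omega) with rfl | hv3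
    · left; exact h2
    · rcases hgen v hv3 hvk with h3 | ⟨w, hw1, hw2, h4, h5, h6⟩
      · left; exact h3
      · right; exact ⟨w, by omega, hw2, h4, h5, h6⟩

/-- facts about the exceptional bad prime `p`, `2p ≤ k` -/
theorem Ctx.caseB (C : Ctx k N g) {p : ℕ} (hp : p.Prime) (hb : ¬ Good g p) (h2p : 2 * p ≤ k) :
    N ≤ 1 ∧ N + k < 2 + 2 * p ∧ (p + 2).Prime ∧ 20 < p ∧ g 2 = 2 * p ∧ g (2 * p) = 2 ∧
      g p = p + 2 ∧ g (p + 2) = p ∧ ¬ Good g (p + 2) := by
  have hk := C.hk
  have hN := C.N_le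
  obtain ⟨h1, h2, h3⟩ := C.bad_half hp hb h2p
  have hlo2 := C.lo (2 * p) (by omega) h2p
  have hp20 : 20 < p ∨ p = 20 := by omega
  have hp20' : 20 < p := by
    rcases hp20 with h | h
    · exact h
    · rw [h] at hp
      exact absurd hp (by norm_num)
  have hpodd : p % 2 = 1 := by
    rcases hp.eq_two_or_odd with h | h
    · omega
    · exact h
  have hgs := C.gs hp hb (by omega)
  rw [h3] at hgs
  rcases hgs with h | ⟨h4, h5, h6, h7⟩
  · omega
  have hbad2 : ¬ Good g (p + 2) := h7 (by omega)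
  obtain ⟨h8, h9, h10⟩ := C.bad_large h4 hbad2 (by omega) (by omega) (by omega)
  have hp2 : g (p + 2) = p := by
    rcases h10 with h | ⟨_, h, _⟩
    · omega
    · omega
  refine ⟨by omega, h2, h4, hp20', ?_, h1, h3, hp2, hbad2⟩
  obtain ⟨w, hw1, hw2⟩ := C.two_slot
  have hhi := C.hi 2 (by norm_num) (by omega)
  have hw3 : w ≠ 1 := by
    rintro rfl
    have := C.inj 2 (2 * p) (by norm_num) (by omega) (by omega) h2p (by omega)
    omega
  have hwk : 2 * w ≤ k := by
    by_contra hcon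
    rcases (show N = 0 ∨ N = 1 by omega) with h | h
    · omega
    · have hk2 : k = 2 * p := by omega
      omega
  by_contra hne
  have hreg := C.reg' (npp_two_odd hw1 hw3) hwk (by
    intro q hq hwq
    by_contra hcon
    have := C.bad_unique hq hcon (by omega) hp hb h2p
    subst this
    omega)
  have := C.inj (2 * w) 2 (by omega) (by omega) (by norm_num) (by omega) (by omega)
  omega

/-- bad primes in the exceptional case -/
lemma Ctx.caseB_bad (C : Ctx k N g) {p : ℕ} (hp : p.Prime) (hb : ¬ Good g p) (h2p : 2 * p ≤ k) :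
    ∀ s, s.Prime → s ≤ k → ¬ Good g s → s = p ∨ s = p + 2 ∨ (N = 0 ∧ s = k ∧ g s = 1) := by
  obtain ⟨hN, h1, h2, h3, h4, h5, h6, h7, h8⟩ := C.caseB hp hb h2p
  intro s
  induction s using Nat.strong_induction_on with
  | _ s ih =>
    intro hs hsk hbs
    rcases Nat.lt_or_ge k (2 * s) with h9 | h9
    · obtain ⟨h10, h11, h12 | ⟨h12, h13, h14⟩⟩ := C.bad_large hs hbs hsk h9 hN
      · right; right
        have := C.lo s hs.one_lt.le hsk
        refine ⟨by omega, by omega, h12⟩
      · rcases ih (g s) h10 h12 (by omega) h14 with h | h | ⟨h, h', h''⟩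
        · have := C.inj s (p + 2) hs.one_lt.le hsk (by omega) (by omega) (by omega)
          omega
        · have := C.inj s p hs.one_lt.le hsk (by omega) (by omega) (by omega)
          omega
        · omega
    · left
      exact C.bad_unique hs hbs h9 hp hb h2p

/-- generic entries in the exceptional case -/
lemma Ctx.caseB_gen (C : Ctx k N g) {p : ℕ} (hp : p.Prime) (hb : ¬ Good g p) (h2p : 2 * p ≤ k)
    {v : ℕ} (h3 : 3 ≤ v) (hvk : v ≤ k) (hv1 : v ≠ p) (hv2 : v ≠ p + 2) (hv3 : v ≠ 2 * p) :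
    (N = 0 ∧ v = k ∧ v.Prime ∧ ¬ Good g v ∧ g v = 1) ∨ g v = v ∨
      ∃ w, 3 ≤ w ∧ w ≤ k ∧ w ≠ p ∧ w ≠ p + 2 ∧ w ≠ 2 * p ∧ (PPPair k v w ∨ PPPair k w v) ∧
        g v = w ∧ g w = v := by
  obtain ⟨hN, h1, h2, h3', h4, h5, h6, h7, h8⟩ := C.caseB hp hb h2p
  rcases C.generic h3 hvk with ⟨h, h'⟩ | ⟨q, hq, hbq, rfl⟩ | h |
      ⟨w, hw1, hw2, hw3, hw4, hw5, hw6, hw7⟩
  · rcases C.caseB_bad hp hb h2p v h hvk h' with h9 | h9 | ⟨h9, h10, h11⟩
    · exact absurd h9 hv1
    · exact absurd h9 hv2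
    · left; exact ⟨h9, h10, h, h', h11⟩
  · have := C.bad_unique hq hbq (by omega) hp hb h2p
    subst this
    exact absurd rfl hv3
  · right; left; exact h
  · right; right
    refine ⟨w, hw1, hw2, ?_, ?_, ?_, hw5, hw6, hw7⟩
    · rintro rfl
      exact hw3 ⟨hp, hb⟩
    · rintro rfl
      exact hw3 ⟨h2, h8⟩
    · rintro rfl
      rw [hw7] at h5
      omega

/-- Twice Twin Prime -/
theorem Ctx.caseB0 (C : Ctx k N g) (hN : N = 0) {p : ℕ} (hp : p.Prime) (hb : ¬ Good g p)
    (h2p : 2 * p ≤ k) :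
    (p + 2).Prime ∧ (k = 2 * p ∨ k = 2 * p + 1) ∧ 20 < p ∧ g 2 = 2 * p ∧ g (2 * p) = 2 ∧
      g p = p + 2 ∧ g (p + 2) = p ∧
      ∀ v, 1 ≤ v → v ≤ k → v ≠ 2 → v ≠ p → v ≠ p + 2 → v ≠ 2 * p →
        g v = v ∨ ∃ w, 1 ≤ w ∧ w ≤ k ∧ w ≠ 2 ∧ w ≠ p ∧ w ≠ p + 2 ∧ w ≠ 2 * p ∧
          (PPPair k v w ∨ PPPair k w v) ∧ g v = w ∧ g w = v := by
  have hk := C.hk
  obtain ⟨_, h1, h2, h3, h4, h5, h6, h7, h8⟩ := C.caseB hp hb h2p
  have hpair : k.Prime → PPPair k 1 k := fun hkp =>
    ⟨k, 1, hkp, le_rfl, by simp, by simp, by simp, by simp⟩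
  have hg1 : g 1 = 1 ∨ (k.Prime ∧ k ≠ 2 * p ∧ g 1 = k ∧ g k = 1) := by
    have hlo := C.lo 1 le_rfl (by omega)
    have hhi := C.hi 1 le_rfl (by omega)
    by_cases e1 : g 1 = 1
    · left; exact e1
    right
    have e2 : g 1 ≠ 2 := by
      intro h
      have := C.inj 1 (2 * p) le_rfl (by omega) (by omega) h2p (by omega)
      omega
    have e3 : g 1 ≠ p := by
      intro h
      have := C.inj 1 (p + 2) le_rfl (by omega) (by omega) (by omega) (by omega)
      omega
    have e4 : g 1 ≠ p + 2 := by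
      intro h
      have := C.inj 1 p le_rfl (by omega) (by omega) (by omega) (by omega)
      omega
    have e5 : g 1 ≠ 2 * p := by
      intro h
      have := C.inj 1 2 le_rfl (by omega) (by omega) (by omega) (by omega)
      omega
    rcases C.caseB_gen hp hb h2p (v := g 1) (by omega) (by omega) e3 e4 e5 with
      ⟨_, h9, h10, h11, h12⟩ | h | ⟨w, hw1, hw2, _, _, _, _, _, hw3⟩
    · rw [h9] at h10 h12 e5
      exact ⟨h10, e5, h9, h12⟩
    · have := C.inj (g 1) 1 (by omega) (by omega) le_rfl (by omega) (by omega)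
      omega
    · have := C.inj w 1 (by omega) (by omega) le_rfl (by omega) (by omega)
      omega
  refine ⟨h2, by omega, h3, h4, h5, h6, h7, ?_⟩
  intro v hv1 hvk n1 n2 n3 n4
  rcases (show v = 1 ∨ 3 ≤ v by omega) with rfl | hv3
  · rcases hg1 with h | ⟨h9, h10, h11, h12⟩
    · left; exact h
    · right
      refine ⟨k, by omega, le_rfl, by omega, by omega, by omega, h10, Or.inl (hpair h9), h11, h12⟩
  · rcases C.caseB_gen hp hb h2p hv3 hvk n2 n3 n4 with
      ⟨_, h9, h10, h11, h12⟩ | h | ⟨w, hw1, hw2, hw3, hw4, hw5, hw6, hw7, hw8⟩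
    · right
      subst h9
      refine ⟨1, le_rfl, by omega, by omega, by omega, by omega, by omega, Or.inr (hpair h10),
        h12, ?_⟩
      rcases hg1 with h | ⟨_, _, h, _⟩
      · have := C.inj 1 v le_rfl hv1 hv1 le_rfl (by omega)
        omega
      · exact h
    · left; exact h
    · right
      exact ⟨w, by omega, hw2, by omega, hw3, hw4, hw5, hw6, hw7, hw8⟩

/-- the fifth family -/
theorem Ctx.caseB1 (C : Ctx k N g) (hN : N = 1) {p : ℕ} (hp : p.Prime) (hb : ¬ Good g p)
    (h2p : 2 * p ≤ k) :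
    (p + 2).Prime ∧ k = 2 * p ∧ (2 * p + 1).Prime ∧ 20 < p ∧ g 1 = k + 1 ∧ g 2 = 2 * p ∧
      g (2 * p) = 2 ∧ g p = p + 2 ∧ g (p + 2) = p ∧
      ∀ v, 2 ≤ v → v ≤ k → v ≠ 2 → v ≠ p → v ≠ p + 2 → v ≠ 2 * p →
        g v = v ∨ ∃ w, 2 ≤ w ∧ w ≤ k ∧ w ≠ 2 ∧ w ≠ p ∧ w ≠ p + 2 ∧ w ≠ 2 * p ∧
          (PPPair k v w ∨ PPPair k w v) ∧ g v = w ∧ g w = v := by
  have hk := C.hk
  obtain ⟨_, h1, h2, h3, h4, h5, h6, h7, h8⟩ := C.caseB hp hb h2p
  have hk2 : k = 2 * p := by omega
  have hgen : ∀ v, 3 ≤ v → v ≤ k → v ≠ p → v ≠ p + 2 → v ≠ 2 * p →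
      g v = v ∨ ∃ w, 3 ≤ w ∧ w ≤ k ∧ w ≠ p ∧ w ≠ p + 2 ∧ w ≠ 2 * p ∧
        (PPPair k v w ∨ PPPair k w v) ∧ g v = w ∧ g w = v := by
    intro v h3 hvk n1 n2 n3
    rcases C.caseB_gen hp hb h2p h3 hvk n1 n2 n3 with ⟨h, _⟩ | h | h
    · omega
    · left; exact h
    · right; exact h
  have hlo := C.lo 1 le_rfl (by omega)
  have hhi := C.hi 1 le_rfl (by omega)
  refine ⟨h2, hk2, C.succ_prime (by omega) (by omega) (by omega), h3, ?_, h4, h5, h6, h7, ?_⟩
  · by_contra hne
    have e2 : g 1 ≠ 2 := by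
      intro h
      have := C.inj 1 (2 * p) le_rfl (by omega) (by omega) h2p (by omega)
      omega
    have e3 : g 1 ≠ p := by
      intro h
      have := C.inj 1 (p + 2) le_rfl (by omega) (by omega) (by omega) (by omega)
      omega
    have e4 : g 1 ≠ p + 2 := by
      intro h
      have := C.inj 1 p le_rfl (by omega) (by omega) (by omega) (by omega)
      omega
    have e5 : g 1 ≠ 2 * p := by
      intro h
      have := C.inj 1 2 le_rfl (by omega) (by omega) (by omega) (by omega)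
      omega
    rcases hgen (g 1) (by omega) (by omega) e3 e4 e5 with h | ⟨w, hw1, hw2, _, _, _, _, _, hw3⟩
    · have := C.inj (g 1) 1 (by omega) (by omega) le_rfl (by omega) (by omega)
      omega
    · have := C.inj w 1 (by omega) (by omega) le_rfl (by omega) (by omega)
      omega
  · intro v hv1 hvk n1 n2 n3 n4
    rcases hgen v (by omega) hvk n2 n3 n4 with h | ⟨w, hw1, hw2, hw3, hw4, hw5, hw6, hw7, hw8⟩
    · left; exact h
    · right
      exact ⟨w, by omega, hw2, by omega, hw3, hw4, hw5, hw6, hw7, hw8⟩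

/-- Twin Sophie Germain: the primes -/
theorem Ctx.case2_pre (C : Ctx k N g) (hN : N = 2) :
    ∃ t, t.Prime ∧ (t + 2).Prime ∧ (2 * t + 1).Prime ∧ k + 1 = 2 * t ∧ t % 3 = 2 ∧
      ¬ Good g t ∧ g t = t + 2 ∧ g 2 = k + 1 := by
  have hk := C.hk
  have hnb : ∀ p, p.Prime → ¬ Good g p → k < 2 * p := by
    intro p hp hb
    by_contra hcon
    push Not at hcon
    have h1 := (C.bad_half hp hb hcon).1
    have h2 := C.lo (2 * p) (by have := hp.pos; omega) hcon
    omega
  obtain ⟨e, o, he1, ho1, heo, he⟩ : ∃ e o, k < e ∧ k < o ∧ (e + o = 2 * k + 3) ∧ e % 2 = 0 := by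
    by_cases h : k % 2 = 0
    · exact ⟨k + 2, k + 1, by omega, by omega, by omega, by omega⟩
    · exact ⟨k + 1, k + 2, by omega, by omega, by omega, by omega⟩
  have hop : o.Prime := C.succ_prime (by omega) (by omega) (by omega)
  have h4e : ¬ 4 ∣ e := by
    intro h
    have := C.no_ghost (m := 4) (by omega) C.good4 (by omega) h he1
    omega
  obtain ⟨t, rfl⟩ : ∃ t, e = 2 * t := ⟨e / 2, by omega⟩
  have htodd : t % 2 = 1 := by omega
  have htp : t.Prime := by
    rcases prime_or_one hk (z := t) (by omega) (by omega) (by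
      intro u hu hut
      have hule := Nat.le_of_dvd (by omega) hut
      apply C.not_good hu.one_lt.le
      intro hg
      have hu2 : u ≠ 2 := by
        rintro rfl
        omega
      have := hu.two_le
      have := C.no_ghost (y := 2 * t) (by omega) hg (by omega) (hut.mul_left _) he1
      omega) with h | h
    · omega
    · exact h
  have htbad : ¬ Good g t := by
    intro hg
    have := C.no_ghost (y := 2 * t) (by omega) hg (by omega) (Dvd.intro_left _ rfl) he1
    omega
  obtain ⟨h1, h2⟩ := C.one_window (s := t) (by omega) (by omega) (by omega)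
  have hgt : g t = t + 2 ∧ (t + 2).Prime := by
    rcases C.gs htp htbad (by omega) with h | ⟨h3, h4, h5, h6⟩
    · omega
    · have h7 : g t % 2 = 1 := by
        rcases h3.eq_two_or_odd with h | h
        · omega
        · exact h
      have : g t = t + 2 := by omega
      exact ⟨this, this ▸ h3⟩
  have hmod3 : t % 3 = 2 := by
    have h3 : t % 3 ≠ 0 := by
      intro h
      have := (Nat.prime_dvd_prime_iff_eq Nat.prime_three htp).1 (Nat.dvd_of_mod_eq_zero h)
      omega
    have h4 : (t + 2) % 3 ≠ 0 := by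
      intro h
      have := (Nat.prime_dvd_prime_iff_eq Nat.prime_three hgt.2).1 (Nat.dvd_of_mod_eq_zero h)
      omega
    omega
  have ho3 : o % 3 ≠ 0 := by
    intro h
    have := (Nat.prime_dvd_prime_iff_eq Nat.prime_three hop).1 (Nat.dvd_of_mod_eq_zero h)
    omega
  have hk2 : k + 1 = 2 * t := by omega
  have ho2 : o = 2 * t + 1 := by omega
  refine ⟨t, htp, hgt.2, ho2 ▸ hop, hk2, hmod3, htbad, hgt.1, ?_⟩
  obtain ⟨v, hv1, hvk, hgv⟩ := C.surj (k + 1) (by omega) (by omega)
  have h2v : 2 ∣ v := (C.good_iff (by norm_num) (by omega) C.good2 hv1 hvk).2 (by rw [hgv]; omega)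
  have h4v : ¬ 4 ∣ v := by
    intro h
    have := (C.good_iff (by norm_num) (by omega) C.good4 hv1 hvk).1 h
    rw [hgv, hk2] at this
    exact h4e this
  obtain ⟨w, rfl⟩ := h2v
  by_cases hw1 : w = 1
  · subst hw1
    exact hgv
  · exfalso
    have hwodd : w % 2 = 1 := by omega
    have := C.reg' (npp_two_odd hwodd hw1) hvk (by
      intro p hp hwp
      by_contra hcon
      have := hnb p hp hcon
      omega)
    omega

/-- Twin Sophie Germain: large primes are fixed or exchanged with a twin -/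
theorem Ctx.case2_twin (C : Ctx k N g) (hN : N = 2) {t : ℕ} (hk1 : k + 1 = 2 * t) (hmod : t % 3 = 2) :
    ∀ s, s.Prime → t ≤ s → s ≤ k →
      g s = s ∨ ((s + 2).Prime ∧ s + 2 ≤ k ∧ g s = s + 2 ∧ g (s + 2) = s) ∨
        (∃ u, u.Prime ∧ s = u + 2 ∧ t ≤ u ∧ g s = u ∧ g u = s) := by
  have hk := C.hk
  have hnb : ∀ p, p.Prime → ¬ Good g p → k < 2 * p := by
    intro p hp hb
    by_contra hcon
    push Not at hcon
    have h1 := (C.bad_half hp hb hcon).1
    have h2 := C.lo (2 * p) (by have := hp.pos; omega) hcon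
    omega
  have hk3 : ¬ k.Prime := by
    intro h
    have := (Nat.prime_dvd_prime_iff_eq Nat.prime_three h).1 (Nat.dvd_of_mod_eq_zero (by omega))
    omega
  -- the images
  have himg : ∀ s, s.Prime → t ≤ s → s ≤ k →
      (g s).Prime ∧ t ≤ g s ∧ g s ≤ k ∧ g s ≤ s + 2 ∧ g s % 2 = 1 ∧ s % 2 = 1 := by
    intro s hs hts hsk
    obtain ⟨h1, h2⟩ := C.one_window (s := s) (by omega) hsk (by omega)
    have hsodd : s % 2 = 1 := by
      rcases hs.eq_two_or_odd with h | h
      · omega
      · exact h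
    by_cases hg : Good g s
    · have := C.good_regular hsk hg (by omega) (by omega)
      rw [this]
      exact ⟨hs, hts, hsk, by omega, hsodd, hsodd⟩
    · rcases C.gs hs hg hsk with h | ⟨h3, h4, h5, h6⟩
      · have := C.lo s (by omega) hsk
        omega
      · have hodd : g s % 2 = 1 := by
          rcases h3.eq_two_or_odd with h | h
          · omega
          · exact h
        have hne : s ≠ k := fun h => hk3 (h ▸ hs)
        have hgk : g s ≤ k := by omega
        have := hnb _ h3 (h6 hgk)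
        exact ⟨h3, by omega, hgk, by omega, hodd, hsodd⟩
  intro s
  induction s using Nat.strong_induction_on with
  | _ s ih =>
    intro hs hts hsk
    obtain ⟨y1, y2, y3, y4, y5, y6⟩ := himg s hs hts hsk
    rcases (show g s < s ∨ g s = s ∨ g s = s + 2 by omega) with h | h | h
    · rcases ih (g s) h y1 y2 y3 with e | ⟨_, _, _, e⟩ | ⟨u, _, e1, _, _, e2⟩
      · have := C.inj (g s) s (by omega) y3 (by omega) hsk e
        omega
      · have := C.inj (g s + 2) s (by omega) (by omega) (by omega) hsk e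
        right; right
        exact ⟨g s, y1, this.symm, y2, rfl, by omega⟩
      · have := C.inj u s (by omega) (by omega) (by omega) hsk (by omega)
        omega
    · left; exact h
    · have hs2 : (s + 2).Prime := h ▸ y1
      obtain ⟨z1, z2, z3, z4, z5, z6⟩ := himg (s + 2) hs2 (by omega) (by omega)
      have hz4 : g (s + 2) ≠ s + 4 := by
        intro h4
        rw [h4] at z1
        rcases mod_three s with h5 | h5 | h5
        · have := (Nat.prime_dvd_prime_iff_eq Nat.prime_three hs).1 (Nat.dvd_of_mod_eq_zero h5)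
          omega
        · have := (Nat.prime_dvd_prime_iff_eq Nat.prime_three hs2).1 (Nat.dvd_of_mod_eq_zero h5)
          omega
        · have := (Nat.prime_dvd_prime_iff_eq Nat.prime_three z1).1 (Nat.dvd_of_mod_eq_zero h5)
          omega
      have hz2 : g (s + 2) ≠ s + 2 := by
        intro h4
        have := C.inj (s + 2) s (by omega) (by omega) (by omega) hsk (by omega)
        omega
      rcases (show g (s + 2) = s ∨ g (s + 2) < s by omega) with h5 | h5
      · right; left
        exact ⟨hs2, by omega, h, h5⟩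
      · exfalso
        rcases ih (g (s + 2)) h5 z1 z2 z3 with e | ⟨_, _, _, e⟩ | ⟨u, _, e1, _, _, e2⟩
        · have := C.inj (g (s + 2)) (s + 2) (by omega) z3 (by omega) (by omega) e
          omega
        · have := C.inj (g (s + 2) + 2) (s + 2) (by omega) (by omega) (by omega) (by omega) e
          omega
        · have := C.inj u (s + 2) (by omega) (by omega) (by omega) (by omega) (by omega)
          omega

/-- Twin Sophie Germain -/
theorem Ctx.case2 (C : Ctx k N g) (hN : N = 2) :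
    ∃ t, t.Prime ∧ (t + 2).Prime ∧ (2 * t + 1).Prime ∧ k + 1 = 2 * t ∧ 20 < t ∧
      g 1 = k + 2 ∧ g 2 = k + 1 ∧ g t = t + 2 ∧ g (t + 2) = t ∧
      ∀ v, 3 ≤ v → v ≤ k → v ≠ t → v ≠ t + 2 →
        g v = v ∨ ∃ w, 3 ≤ w ∧ w ≤ k ∧ w ≠ t ∧ w ≠ t + 2 ∧
          (PPPair k v w ∨ PPPair k w v ∨ TwinPair k v w ∨ TwinPair k w v) ∧
          g v = w ∧ g w = v := by
  have hk := C.hk
  obtain ⟨t, htp, htp2, htp3, hk1, hmod, htbad, hgt, hg2⟩ := C.case2_pre hN
  have htw := C.case2_twin hN hk1 hmod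
  have hnb : ∀ p, p.Prime → ¬ Good g p → k < 2 * p := by
    intro p hp hb
    by_contra hcon
    push Not at hcon
    have h1 := (C.bad_half hp hb hcon).1
    have h2 := C.lo (2 * p) (by have := hp.pos; omega) hcon
    omega
  have hgt2 : g (t + 2) = t := by
    rcases htw t htp le_rfl (by omega) with h | ⟨_, _, _, h⟩ | ⟨u, _, h, h', _, _⟩
    · omega
    · exact h
    · omega
  have hgen : ∀ v, 3 ≤ v → v ≤ k → v ≠ t → v ≠ t + 2 →
        g v = v ∨ ∃ w, 3 ≤ w ∧ w ≤ k ∧ w ≠ t ∧ w ≠ t + 2 ∧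
          (PPPair k v w ∨ PPPair k w v ∨ TwinPair k v w ∨ TwinPair k w v) ∧
          g v = w ∧ g w = v := by
    intro v hv3 hvk n1 n2
    rcases C.generic' hnb hv3 hvk with ⟨h1, h2⟩ | h | ⟨w, hw1, hw2, hw3, hw4, hw5⟩
    · have h3 := hnb v h1 h2
      rcases htw v h1 (by omega) hvk with h | ⟨h4, h5, h6, h7⟩ | ⟨u, h4, h5, h6, h7, h8⟩
      · left; exact h
      · right
        refine ⟨v + 2, by omega, by omega, by omega, by omega, ?_, h6, h7⟩
        right; right; left
        exact ⟨h1, h4, rfl, h5, by omega⟩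
      · right
        have hut : u ≠ t := by
          rintro rfl
          exact n2 h5
        have hut2 : u ≠ t + 2 := by
          rintro rfl
          have h9 : (t + 4) % 3 = 0 := by omega
          rw [h5] at h1
          have := (Nat.prime_dvd_prime_iff_eq Nat.prime_three h1).1 (Nat.dvd_of_mod_eq_zero h9)
          omega
        refine ⟨u, by omega, by omega, hut, hut2, ?_, h7, h8⟩
        right; right; right
        exact ⟨h4, h1, h5, hvk, by omega⟩
    · left; exact h
    · right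
      refine ⟨w, hw1, hw2, ?_, ?_, ?_, hw4, hw5⟩
      · rintro rfl
        omega
      · rintro rfl
        omega
      · rcases hw3 with h | h
        · left; exact h
        · right; left; exact h
  refine ⟨t, htp, htp2, htp3, hk1, by omega, ?_, hg2, hgt, hgt2, hgen⟩
  have hlo := C.lo 1 le_rfl (by omega)
  have hhi := C.hi 1 le_rfl (by omega)
  by_contra hne
  have e1 : g 1 ≠ k + 1 := by
    intro h
    have := C.inj 1 2 le_rfl (by omega) (by omega) (by omega) (by omega)
    omega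
  have e3 : g 1 ≠ t := by
    intro h
    have := C.inj 1 (t + 2) le_rfl (by omega) (by omega) (by omega) (by omega)
    omega
  have e4 : g 1 ≠ t + 2 := by
    intro h
    have := C.inj 1 t le_rfl (by omega) (by omega) (by omega) (by omega)
    omega
  rcases hgen (g 1) (by omega) (by omega) e3 e4 with h | ⟨w, hw1, hw2, _, _, _, _, hw3⟩
  · have := C.inj (g 1) 1 (by omega) (by omega) le_rfl (by omega) (by omega)
    omega
  · have := C.inj w 1 (by omega) (by omega) le_rfl (by omega) (by omega)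
    omega

end Pool.Agent.H33.Wcs
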