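import Mathlib

set_option autoImplicit false

/-!
Weakly consecutive permutations: definitions.

A permutation `σ` of `{1, …, k}` is written as the list `(σ(1), …, σ(k))`.
-/

namespace Pool.Agent.H33.Wcs

/-- `s = (σ(1), …, σ(k))` is a weakly consecutive permutation of `{1, …, k}` (a WCS of length
`k`): if `m` divides the entry with index `i` and `m` divides `i - j`, then `m` divides the entry
with index `j`. (Indices of lists start at `0`, which does not change `i - j`.) -/
def IsWCS (k : ℕ) (s : List ℕ) : Prop :=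
  s.Perm (List.range' 1 k) ∧
    ∀ (i j : ℕ) (hi : i < s.length) (hj : j < s.length) (m : ℤ),
      m ∣ (s[i] : ℤ) → m ∣ (i : ℤ) - (j : ℤ) → m ∣ (s[j] : ℤ)

/-- exchange the entries `a` and `b` -/
def exch (a b : ℕ) (s : List ℕ) : List ℕ := s.map (Equiv.swap a b)

/-- the kinds of starting sequences; the first four are those of the problem -/
inductive Start : Type
  | consecutive
  | oneInversion
  | twiceTwinPrime
  | twinSophieGermain
  | twiceTwinPrimeInversion

/-- `T.IsSeq k s`: the starting sequence of kind `T` is available for the length `k`, and it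
is `s`. -/
def Start.IsSeq (k : ℕ) (s : List ℕ) : Start → Prop
  | .consecutive => s = List.range' 1 k
  | .oneInversion => (k + 1).Prime ∧ s = List.range' 2 (k - 1) ++ [1]
  | .twiceTwinPrime => ∃ p : ℕ, p.Prime ∧ (p + 2).Prime ∧ (k = 2 * p ∨ k = 2 * p + 1) ∧
      s = exch 2 (2 * p) (exch p (p + 2) (List.range' 1 k))
  | .twinSophieGermain => ∃ p : ℕ, p.Prime ∧ (p + 2).Prime ∧ (2 * p + 1).Prime ∧
      k + 1 = 2 * p ∧ s = exch p (p + 2) (List.range' 3 (k - 2) ++ [2, 1])
  | .twiceTwinPrimeInversion => ∃ p : ℕ, p.Prime ∧ (p + 2).Prime ∧ (2 * p + 1).Prime ∧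
      k = 2 * p ∧ s = exch 2 (2 * p) (exch p (p + 2) (List.range' 2 (k - 1) ++ [1]))

/-- the rules: a swap is recorded by the two entries it exchanges (the smaller one first) -/
inductive Move : Type
  | swap (a b : ℕ)
  | reversal

/-- the effect of a rule -/
def Move.apply : Move → List ℕ → List ℕ
  | .swap a b, s => exch a b s
  | .reversal, s => s.reverse

/-- the pairs of entries of the rule Prime Power Swap: `p ^ (c - 1)` and `p ^ c`, where `p` is
prime, `c ≥ 1` and `p ^ c ≤ k < p ^ c + p ^ (c - 1)` -/
def PPPair (k a b : ℕ) : Prop :=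
  ∃ p c : ℕ, p.Prime ∧ 1 ≤ c ∧ a = p ^ (c - 1) ∧ b = p ^ c ∧ p ^ c ≤ k ∧ k < p ^ c + p ^ (c - 1)

/-- the pairs of entries of the rule Twin Prime Swap: `q` and `q + 2`, both prime and `≤ k`, with
`⌈k / 2⌉ < q` -/
def TwinPair (k a b : ℕ) : Prop :=
  a.Prime ∧ b.Prime ∧ b = a + 2 ∧ b ≤ k ∧ (k + 1) / 2 < a

/-- `m.Allowed k T s₀ s`: the rule `m` may be applied to `s`, a sequence of length `k` coming
from the starting sequence `s₀` of kind `T`. -/
def Move.Allowed (k : ℕ) (T : Start) (s₀ s : List ℕ) : Move → Prop
  | .swap a b => PPPair k a b ∨ (T = .twinSophieGermain ∧ TwinPair k a b ∧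
      s.idxOf a = s₀.idxOf a ∧ s.idxOf b = s₀.idxOf b)
  | .reversal => True

/-- `Derives k T s₀ ops s`: applying the rules `ops`, in this order, to `s₀` gives `s`, each rule
being applied when its condition holds. -/
inductive Derives (k : ℕ) (T : Start) (s₀ : List ℕ) : List Move → List ℕ → Prop
  | start : Derives k T s₀ [] s₀
  | step {ops : List Move} {s : List ℕ} {m : Move} :
      Derives k T s₀ ops s → m.Allowed k T s₀ s → Derives k T s₀ (ops ++ [m]) (m.apply s)

/-- `IsDerivation k T ops s`: a derivation of `s`, which consists of the starting sequence of kind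
`T` for the length `k` and the rules `ops`. It is reduced if `ops` has no repetition. -/
def IsDerivation (k : ℕ) (T : Start) (ops : List Move) (s : List ℕ) : Prop :=
  ∃ s₀, T.IsSeq k s₀ ∧ Derives k T s₀ ops s

end Pool.Agent.H33.Wcs
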