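import Pool.Agent.H33.WcsRec
import Pool.Agent.H33.WcsDefs

set_option autoImplicit false

/-!
Classification of the slot function from regularity.
-/

namespace Pool.Agent.H33.Wcs

variable {k N : ℕ} {g : ℕ → ℕ}

lemma not_npp_two_mul_two : ¬ NPP (2 * 2) := by
  intro h
  exact h.2 ((isPrimePow_nat_iff _).2 ⟨2, 2, Nat.prime_two, by norm_num, by norm_num⟩)

lemma Ctx.reg' (C : Ctx k N g) {v : ℕ} (hv : NPP v) (hvk : v ≤ k)
    (h : ∀ p, p.Prime → v = 2 * p → Good g p) : g v = v := by
  by_cases hsp : Special k v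
  · obtain ⟨p, hp, rfl, hk⟩ := hsp
    have hk42 := C.hk
    have hN := C.N_le
    have hp2 : p ≠ 2 := by
      rintro rfl
      exact not_npp_two_mul_two hv
    have hodd : p % 2 = 1 := hp.eq_two_or_odd.resolve_left hp2
    have hg := C.good_mul C.good2 (h p hp rfl)
      (Nat.coprime_two_left.2 (Nat.odd_iff.2 hodd)) (by omega) hvk
    exact C.good_regular hvk hg (by omega) (by omega)
  · exact C.regular hv hvk hsp

/-- the image of a power of a good prime -/
lemma Ctx.pow_img (C : Ctx k N g) {q c : ℕ} (hq : q.Prime) (hg : Good g q) (hc : 1 ≤ c)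
    (hc2 : q = 2 → 2 ≤ c) (hqk : q ^ c ≤ k) :
    ∃ d, 1 ≤ d ∧ (q = 2 → 2 ≤ d) ∧ q ^ d ≤ k ∧ g (q ^ c) = q ^ d := by
  have hk := C.hk
  have hN := C.N_le
  have hpos : 1 ≤ q ^ c := Nat.one_le_pow _ _ hq.pos
  -- a good `m > N` dividing `q ^ c` with `q ∣ m`
  obtain ⟨m, hm1, hm2, hm3, hm4, hm5⟩ : ∃ m, Good g m ∧ N < m ∧ m ∣ q ^ c ∧ q ∣ m ∧
      (q = 2 → 4 ∣ m) := by
    by_cases h2 : q = 2
    · refine ⟨4, C.good4, by omega, ?_, by rw [h2]; norm_num, fun _ => dvd_rfl⟩
      rw [h2]
      exact pow_dvd_pow 2 (hc2 h2)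
    · refine ⟨q, hg, ?_, dvd_pow_self q (by omega), dvd_rfl, fun h => absurd h h2⟩
      have := hq.two_le
      omega
  have hmk : m ≤ k := (Nat.le_of_dvd hpos hm3).trans hqk
  have hmy : m ∣ g (q ^ c) := (C.good_iff (by omega) hmk hm1 hpos hqk).1 hm3
  have hlo := C.lo (q ^ c) hpos hqk
  have hhi := C.hi (q ^ c) hpos hqk
  have hyk : g (q ^ c) ≤ k := by
    by_contra hcon
    push Not at hcon
    have := C.no_ghost hmk hm1 hm2 hmy hcon
    omega
  set y := g (q ^ c) with hy
  have hqy : q ∣ y := hm4.trans hmy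
  have hnpp : ¬ NPP y := by
    intro hnpp
    have hreg : g y = y := by
      apply C.reg' hnpp hyk
      intro p hp hyp
      by_cases h2 : q = 2
      · exfalso
        have h4 : 4 ∣ 2 * p := hyp ▸ (hm5 h2).trans hmy
        have h5 : 2 ∣ p := by omega
        have h6 := (Nat.prime_dvd_prime_iff_eq Nat.prime_two hp).1 h5
        subst h6
        rw [hyp] at hnpp
        exact not_npp_two_mul_two hnpp
      · have h4 : q ∣ 2 * p := hyp ▸ hqy
        rcases (Nat.Prime.dvd_mul hq).1 h4 with h | h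
        · exact absurd ((Nat.prime_dvd_prime_iff_eq hq Nat.prime_two).1 h) h2
        · have := (Nat.prime_dvd_prime_iff_eq hq hp).1 h
          rw [← this]; exact hg
    have h1 : g y = g (q ^ c) := by rw [hreg]
    have h2 := C.inj _ _ (by omega) hyk hpos hqk h1
    rw [h2] at hnpp
    exact hnpp.2 ((isPrimePow_nat_iff _).2 ⟨q, c, hq, hc, rfl⟩)
  have hy1 : 1 < y := by
    have := Nat.le_of_dvd (by omega) hqy
    have := hq.two_le
    omega
  have hpp : IsPrimePow y := by
    by_contra h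
    exact hnpp ⟨hy1, h⟩
  rw [isPrimePow_nat_iff] at hpp
  obtain ⟨r, d, hr, hd, hrd⟩ := hpp
  have hqr : q = r := by
    rw [← hrd] at hqy
    exact (Nat.prime_dvd_prime_iff_eq hq hr).1 (hq.dvd_of_dvd_pow hqy)
  subst hqr
  refine ⟨d, hd, ?_, by rw [hrd]; exact hyk, hrd.symm⟩
  intro h2
  by_contra hcon
  have hd1 : d = 1 := by omega
  have h4 := (hm5 h2).trans hmy
  rw [← hrd, hd1, h2] at h4
  norm_num at h4

lemma Good.of_dvd (S : Sys k N g) {m d : ℕ} (hm1 : 1 ≤ m) (hm : m ≤ k) (hg : Good g m)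
    (hd : d ∣ m) : Good g d :=
  S.good_of_dvd hm1 hm hd (hd.trans hg)

/-- the second largest power of a good prime is good -/
lemma Ctx.good_second (C : Ctx k N g) {q e : ℕ} (hq : q.Prime) (hg : Good g q)
    (h1 : q ^ (e + 1) ≤ k) (h2 : k < q ^ (e + 2)) : Good g (q ^ e) := by
  have hk := C.hk
  have hN := C.N_le
  by_cases hq2 : q = 2
  · subst hq2
    -- `e ≥ 4`
    have he : 4 ≤ e := by
      by_contra hcon
      have : 2 ^ (e + 2) ≤ 2 ^ 5 := Nat.pow_le_pow_right (by norm_num) (by omega)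
      omega
    by_contra hbad
    have h3 : k < 3 * 2 ^ e := by
      by_contra hcon
      exact hbad (C.good_two_pow (by omega))
    obtain ⟨f, rfl⟩ : ∃ f, e = f + 1 := ⟨e - 1, by omega⟩
    have e1 : 2 ^ (f + 1) = 2 * 2 ^ f := by ring
    have e2 : 2 ^ (f + 1 + 1) = 4 * 2 ^ f := by ring
    have e3 : 2 ^ (f + 1 + 2) = 8 * 2 ^ f := by ring
    have hfpos : 1 ≤ 2 ^ f := Nat.one_le_pow _ _ (by norm_num)
    have hgf : Good g (2 ^ f) := C.good_two_pow (by omega)
    obtain ⟨a, ha1, ha2, hak, hga⟩ := C.pow_img Nat.prime_two C.good2 (c := f + 1) (by omega)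
      (fun _ => by omega) (by omega)
    obtain ⟨b, hb1, hb2, hbk, hgb⟩ := C.pow_img Nat.prime_two C.good2 (c := f + 1 + 1) (by omega)
      (fun _ => by omega) (by omega)
    have hfa : f ≤ a := by
      have : 2 ^ f ∣ g (2 ^ (f + 1)) :=
        (C.good_iff hfpos (by omega) hgf (by omega) (by omega)).1 ⟨2, by ring⟩
      rw [hga] at this
      exact (Nat.pow_dvd_pow_iff_le_right (by norm_num)).1 this
    have hfb : f ≤ b := by
      have : 2 ^ f ∣ g (2 ^ (f + 1 + 1)) :=
        (C.good_iff hfpos (by omega) hgf (by omega) (by omega)).1 ⟨4, by ring⟩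
      rw [hgb] at this
      exact (Nat.pow_dvd_pow_iff_le_right (by norm_num)).1 this
    have ha' : a < f + 1 + 2 := (Nat.pow_lt_pow_iff_right (by norm_num)).1 (lt_of_le_of_lt hak h2)
    have hb' : b < f + 1 + 2 := (Nat.pow_lt_pow_iff_right (by norm_num)).1 (lt_of_le_of_lt hbk h2)
    have hane : a ≠ f + 1 + 1 ∧ a ≠ f + 1 := by
      constructor
      · rintro rfl
        apply hbad
        unfold Good
        rw [hga]
        exact pow_dvd_pow 2 (by omega)
      · rintro rfl
        apply hbad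
        unfold Good
        rw [hga]
    have haf : a = f := by omega
    have hbne : b ≠ f := by
      rintro rfl
      have h5 := C.inj (2 ^ (b + 1)) (2 ^ (b + 1 + 1)) (by omega) (by omega) (by omega) (by omega)
        (by rw [hga, hgb, haf])
      omega
    have h6 := (C.div (2 ^ (f + 1)) (2 ^ (f + 1)) (2 ^ (f + 1 + 1)) (by omega) (by omega)
      (by omega) (by omega) dvd_rfl).1 ⟨2, by ring⟩
    have h7 : 2 ^ (f + 1) ∣ g (2 ^ (f + 1 + 1)) := by
      rw [hgb]
      exact pow_dvd_pow 2 (by omega)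
    have h8 := h6.trans ((Nat.modEq_zero_iff_dvd).2 h7)
    exact hbad ((Nat.modEq_zero_iff_dvd).1 h8)
  · rcases e with _ | _ | e
    · exact one_dvd _
    · simpa using hg
    · apply C.good_prime_pow hq hq2 (by omega)
      have h3 := hq.two_le
      have e1 : q ^ (e + 1 + 1 + 1) = q * q ^ (e + 1 + 1) := by ring
      have : 2 * q ^ (e + 1 + 1) ≤ q * q ^ (e + 1 + 1) := Nat.mul_le_mul_right _ h3
      omega

/-- the powers of a good prime -/
lemma Ctx.pow_class (C : Ctx k N g) {q c : ℕ} (hq : q.Prime) (hg : Good g q) (hc : 1 ≤ c)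
    (hc2 : q = 2 → 2 ≤ c) (hqk : q ^ c ≤ k) :
    g (q ^ c) = q ^ c ∨ ∃ d, 1 ≤ d ∧ (q = 2 → 2 ≤ d) ∧ q ^ d ≤ k ∧
      (PPPair k (q ^ c) (q ^ d) ∨ PPPair k (q ^ d) (q ^ c)) ∧ g (q ^ c) = q ^ d ∧
      g (q ^ d) = q ^ c := by
  have hk := C.hk
  have hN := C.N_le
  have hq2 := hq.two_le
  -- the largest exponent
  obtain ⟨e, he1, he2⟩ : ∃ e, q ^ (e + 1) ≤ k ∧ k < q ^ (e + 2) := by
    have h1 : q ≤ k := by
      have : q ^ 1 ≤ q ^ c := Nat.pow_le_pow_right hq.pos hc
      rw [pow_one] at this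
      omega
    have h2 : 1 ≤ Nat.log q k := Nat.log_pos hq.one_lt h1
    refine ⟨Nat.log q k - 1, ?_, ?_⟩
    · rw [Nat.sub_add_cancel h2]
      exact Nat.pow_log_le_self q (by omega)
    · rw [show Nat.log q k - 1 + 2 = Nat.log q k + 1 by omega]
      exact Nat.lt_pow_succ_log_self hq.one_lt k
  have hge := C.good_second hq hg he1 he2
  have hqe : q ^ e ≤ k := le_trans (Nat.pow_le_pow_right hq.pos (by omega)) he1
  have hgood : ∀ a, a ≤ e → Good g (q ^ a) := fun a ha =>
    Good.of_dvd C.toSys (Nat.one_le_pow _ _ hq.pos) hqe hge (pow_dvd_pow q ha)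
  have hle : ∀ a, q ^ a ≤ k → a ≤ e + 1 := by
    intro a ha
    have : q ^ a < q ^ (e + 2) := lt_of_le_of_lt ha he2
    have := (Nat.pow_lt_pow_iff_right hq.one_lt).1 this
    omega
  have hpos : ∀ a, 1 ≤ q ^ a := fun a => Nat.one_le_pow _ _ hq.pos
  obtain ⟨d, hd1, hd2, hdk, hgd⟩ := C.pow_img hq hg hc hc2 hqk
  have hce := hle c hqk
  have hde := hle d hdk
  have hval : ∀ a, a ≤ e → (a ≤ c ↔ a ≤ d) := by
    intro a ha
    have h1 := C.good_iff (hpos a) (le_trans (Nat.pow_le_pow_right hq.pos ha) hqe) (hgood a ha)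
      (hpos c) hqk
    rw [hgd, Nat.pow_dvd_pow_iff_le_right hq.one_lt, Nat.pow_dvd_pow_iff_le_right hq.one_lt] at h1
    exact h1
  by_cases hdc : d = c
  · left; rw [hgd, hdc]
  right
  -- `{c, d} = {e, e+1}`
  have hce' : e ≤ c := by
    by_contra hcon
    push Not at hcon
    have h1 := (hval c (by omega)).1 le_rfl
    have h2 := hval (c + 1) (by omega)
    omega
  have hde' : e ≤ d := (hval e le_rfl).1 hce'
  have he0 : 1 ≤ e := by omega
  have he0' : q = 2 → 2 ≤ e := by
    intro h2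
    have := hc2 h2
    have := hd2 h2
    omega
  obtain ⟨a, ha1, ha2, hak, hga⟩ := C.pow_img hq hg hd1 hd2 hdk
  have hae := hle a hak
  have hval' : ∀ b, b ≤ e → (b ≤ d ↔ b ≤ a) := by
    intro b hb
    have h1 := C.good_iff (hpos b) (le_trans (Nat.pow_le_pow_right hq.pos hb) hqe) (hgood b hb)
      (hpos d) hdk
    rw [hga, Nat.pow_dvd_pow_iff_le_right hq.one_lt, Nat.pow_dvd_pow_iff_le_right hq.one_lt] at h1
    exact h1
  have hea : e ≤ a := (hval' e le_rfl).1 hde'
  have hac : a = c := by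
    have had : a ≠ d := by
      rintro rfl
      have := C.inj (q ^ c) (q ^ a) (hpos c) hqk (hpos a) hak (by rw [hgd, hga])
      exact hdc (Nat.pow_right_injective hq2 this).symm
    omega
  subst hac
  -- the condition of the rule
  have htop : g (q ^ (e + 1)) = q ^ e := by
    rcases (show a = e ∨ a = e + 1 by omega) with h | h
    · have : d = e + 1 := by omega
      rw [← this, hga, h]
    · have : d = e := by omega
      rw [← h, hgd, this]
  have hlt : q ^ e < q ^ (e + 1) := Nat.pow_lt_pow_right hq.one_lt (by omega)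
  have hk2 : k < 2 * q ^ (e + 1) := by
    by_contra hcon
    push Not at hcon
    by_cases h2 : q = 2
    · have e1 : q ^ (e + 2) = 2 * q ^ (e + 1) := by rw [h2]; ring
      omega
    · have hnpp : NPP (2 * q ^ (e + 1)) := by
        refine NPP.of_primes (by have := hpos (e + 1); omega) Nat.prime_two hq (Ne.symm h2)
          (Dvd.intro _ rfl) ?_
        exact ⟨2 * q ^ e, by ring⟩
      have hreg := C.reg' hnpp hcon (by
        intro p hp h3
        have h4 : q ^ (e + 1) = p := by omega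
        rw [← h4] at hp
        exact absurd hp (Nat.Prime.not_prime_pow (by omega)))
      have h5 := C.good_of_reg (by omega) hcon (Dvd.intro_left 2 rfl) hreg
      have h6 : q ^ (e + 1) ∣ q ^ e := by
        have : q ^ (e + 1) ∣ g (q ^ (e + 1)) := h5
        rwa [htop] at this
      have := Nat.le_of_dvd (hpos e) h6
      omega
  have hcond : k < q ^ (e + 1) + q ^ e := by
    obtain ⟨x1, hx1, hx1', hx1'', _, hw⟩ := C.window (hpos (e + 1)) he1
    have hdiv : k / q ^ (e + 1) = 1 := by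
      rw [Nat.div_eq_iff (hpos (e + 1))]
      omega
    rw [hdiv] at hx1'' hw
    obtain ⟨i, hi, hgi⟩ := hw (q ^ (e + 1)) (hpos _) he1 dvd_rfl
    have hi0 : i = 0 := by omega
    subst hi0
    rw [htop] at hgi
    omega
  have hpair : PPPair k (q ^ e) (q ^ (e + 1)) :=
    ⟨q, e + 1, hq, by omega, by simp, rfl, he1, by simpa using hcond⟩
  refine ⟨d, hd1, hd2, hdk, ?_, hgd, hga⟩
  rcases (show a = e ∨ a = e + 1 by omega) with h | h
  · have : d = e + 1 := by omega
    left
    rw [h, this]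
    exact hpair
  · have : d = e := by omega
    right
    rw [h, this]
    exact hpair

/-- every entry `≥ 3` -/
lemma Ctx.generic (C : Ctx k N g) {v : ℕ} (h3 : 3 ≤ v) (hvk : v ≤ k) :
    (v.Prime ∧ ¬ Good g v) ∨ (∃ p, p.Prime ∧ ¬ Good g p ∧ v = 2 * p) ∨ g v = v ∨
      ∃ w, 3 ≤ w ∧ w ≤ k ∧ ¬ (w.Prime ∧ ¬ Good g w) ∧ IsPrimePow w ∧
        (PPPair k v w ∨ PPPair k w v) ∧ g v = w ∧ g w = v := by
  have hk := C.hk
  by_cases hv : IsPrimePow v
  · rw [isPrimePow_nat_iff] at hv
    obtain ⟨q, c, hq, hc, rfl⟩ := hv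
    have hq2 := hq.two_le
    by_cases hg : Good g q
    · have hc2 : q = 2 → 2 ≤ c := by
        rintro rfl
        by_contra hcon
        have : c = 1 := by omega
        subst this
        omega
      right; right
      rcases C.pow_class hq hg hc hc2 hvk with h | ⟨d, hd1, hd2, hdk, hp, h1, h2⟩
      · left; exact h
      · right
        refine ⟨q ^ d, ?_, hdk, ?_, (isPrimePow_nat_iff _).2 ⟨q, d, hq, hd1, rfl⟩, hp, h1, h2⟩
        · by_cases h2 : q = 2
          · have := hd2 h2
            have h4 : 2 ^ 2 ≤ 2 ^ d := Nat.pow_le_pow_right (by norm_num) this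
            rw [h2]
            omega
          · have : q ^ 1 ≤ q ^ d := Nat.pow_le_pow_right hq.pos hd1
            rw [pow_one] at this
            omega
        · rintro ⟨h5, h6⟩
          rcases Nat.lt_or_ge d 2 with h7 | h7
          · have : d = 1 := by omega
            subst this
            rw [pow_one] at h6
            exact h6 hg
          · exact Nat.Prime.not_prime_pow h7 h5
    · left
      have h6 := C.not_good hq.one_lt.le hg
      have hc1 : c = 1 := by
        by_contra hcon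
        have h7 : q ^ 2 ≤ q ^ c := Nat.pow_le_pow_right hq.pos (by omega)
        have h8 : 7 * q ≤ q * q := Nat.mul_le_mul_right q (by omega)
        have h9 : q ^ 2 = q * q := by ring
        omega
      subst hc1
      rw [pow_one]
      exact ⟨hq, hg⟩
  · right
    by_cases h : ∃ p, p.Prime ∧ ¬ Good g p ∧ v = 2 * p
    · left; exact h
    · right; left
      push Not at h
      apply C.reg' ⟨by omega, hv⟩ hvk
      intro p hp hvp
      by_contra hcon
      exact h p hp hcon hvp

end Pool.Agent.H33.Wcs
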