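import Mathlib

set_option autoImplicit false

/-!
Core of the classification of weakly consecutive permutations.
`g v` is the position of the entry `v`, shifted by `N`.
-/

namespace Pool.Agent.H33.Wcs

structure Sys (k N : ℕ) (g : ℕ → ℕ) : Prop where
  lo : ∀ v, 1 ≤ v → v ≤ k → N + 1 ≤ g v
  hi : ∀ v, 1 ≤ v → v ≤ k → g v ≤ N + k
  inj : ∀ v w, 1 ≤ v → v ≤ k → 1 ≤ w → w ≤ k → g v = g w → v = w
  div : ∀ m v w, 1 ≤ v → v ≤ k → 1 ≤ w → w ≤ k → m ∣ v → (m ∣ w ↔ g v ≡ g w [MOD m])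

def Good (g : ℕ → ℕ) (m : ℕ) : Prop := m ∣ g m

def NPP (v : ℕ) : Prop := 1 < v ∧ ¬ IsPrimePow v

def Special (q v : ℕ) : Prop := ∃ p, p.Prime ∧ v = 2 * p ∧ (q = 2 * p ∨ q = 2 * p + 1)

lemma NPP.of_primes {v p q : ℕ} (hv : v ≠ 0) (hp : p.Prime) (hq : q.Prime) (hpq : p ≠ q)
    (h1 : p ∣ v) (h2 : q ∣ v) : NPP v := by
  constructor
  · have := Nat.le_of_dvd (Nat.pos_of_ne_zero hv) h1
    have := hp.two_le
    omega
  · intro h
    rw [isPrimePow_nat_iff] at h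
    obtain ⟨r, n, hr, hn, rfl⟩ := h
    have e1 := (Nat.prime_dvd_prime_iff_eq hp hr).1 (hp.dvd_of_dvd_pow h1)
    have e2 := (Nat.prime_dvd_prime_iff_eq hq hr).1 (hq.dvd_of_dvd_pow h2)
    exact hpq (e1.trans e2.symm)

lemma NPP.exists_ne {v : ℕ} (h : NPP v) (p : ℕ) : ∃ q, q.Prime ∧ q ≠ p ∧ q ∣ v := by
  by_contra hcon
  push Not at hcon
  obtain ⟨h1, h2⟩ := h
  obtain ⟨r, hr, hrv⟩ := Nat.exists_prime_and_dvd (n := v) (by omega)
  have hrp : r = p := by
    by_contra h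
    exact hcon r hr h hrv
  subst hrp
  apply h2
  rw [isPrimePow_nat_iff]
  have hv : v = r ^ v.factorization r := by
    apply Nat.eq_of_factorization_eq (by omega) (pow_ne_zero _ hr.ne_zero)
    intro q
    by_cases hq : q = r
    · subst hq
      rw [hr.factorization_pow, Finsupp.single_eq_same]
    · rw [hr.factorization_pow, Finsupp.single_eq_of_ne (by exact fun h => hq h)]
      by_cases hqp : q.Prime
      · exact Nat.factorization_eq_zero_of_not_dvd (fun h => hcon q hqp hq h)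
      · exact Nat.factorization_eq_zero_of_not_prime v hqp
  refine ⟨r, v.factorization r, hr, ?_, hv.symm⟩
  exact hr.factorization_pos_of_dvd (by omega) hrv

lemma NPP.two_primes {v : ℕ} (h : NPP v) : ∃ p q, p.Prime ∧ q.Prime ∧ p ≠ q ∧ p ∣ v ∧ q ∣ v := by
  obtain ⟨p, hp, _, hpv⟩ := h.exists_ne 1
  obtain ⟨q, hq, hqp, hqv⟩ := h.exists_ne p
  exact ⟨p, q, hp, hq, fun e => hqp e.symm, hpv, hqv⟩

lemma NPP.mul {v : ℕ} (h : NPP v) {j : ℕ} (hj : 0 < j) : NPP (j * v) := by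
  obtain ⟨p, q, hp, hq, hpq, h1, h2⟩ := h.two_primes
  have : v ≠ 0 := by have := h.1; omega
  exact NPP.of_primes (by positivity) hp hq hpq (h1.mul_left _) (h2.mul_left _)

lemma NPP.six_le {v : ℕ} (h : NPP v) : 6 ≤ v := by
  obtain ⟨p, q, hp, hq, hpq, h1, h2⟩ := h.two_primes
  have hv : 0 < v := by have := h.1; omega
  have h3 : p * q ∣ v := Nat.Coprime.mul_dvd_of_dvd_of_dvd ((Nat.coprime_primes hp hq).2 hpq) h1 h2
  have h4 := Nat.le_of_dvd hv h3
  have h5 := hp.two_le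
  have h6 := hq.two_le
  rcases Nat.lt_or_ge p 3 with h7 | h7
  · have : 3 ≤ q := by omega
    nlinarith
  · nlinarith

/-- an NPP divisor of `2p` is `2p` -/
lemma NPP.eq_two_mul {v p : ℕ} (h : NPP v) (hp : p.Prime) (hd : v ∣ 2 * p) : v = 2 * p := by
  obtain ⟨c, hc⟩ := hd
  by_contra hne
  have hc1 : c ≠ 1 := by rintro rfl; simp at hc; exact hne hc.symm
  obtain ⟨r, hr, hrc⟩ := Nat.exists_prime_and_dvd hc1
  obtain ⟨a, b, ha, hb, hab, h1, h2⟩ := h.two_primes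
  have hva : ∀ a, a.Prime → a ∣ v → a = 2 ∨ a = p := by
    intro a ha hav
    have : a ∣ 2 * p := by rw [hc]; exact hav.mul_right _
    rcases (Nat.Prime.dvd_mul ha).1 this with h | h
    · left; exact (Nat.prime_dvd_prime_iff_eq ha Nat.prime_two).1 h
    · right; exact (Nat.prime_dvd_prime_iff_eq ha hp).1 h
  have h3 : a * b ∣ v := Nat.Coprime.mul_dvd_of_dvd_of_dvd ((Nat.coprime_primes ha hb).2 hab) h1 h2
  have h4 : a * b = 2 * p := by
    rcases hva a ha h1 with e1 | e1 <;> rcases hva b hb h2 with e2 | e2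
    · exact absurd (e1.trans e2.symm) hab
    · rw [e1, e2]
    · rw [e1, e2, mul_comm]
    · exact absurd (e1.trans e2.symm) hab
  rw [h4] at h3
  have h5 : v ∣ 2 * p := ⟨c, hc⟩
  exact hne (Nat.dvd_antisymm h5 h3)

section sys

variable {k N : ℕ} {g : ℕ → ℕ}

lemma Sys.surj (S : Sys k N g) (x : ℕ) (h1 : N + 1 ≤ x) (h2 : x ≤ N + k) :
    ∃ v, 1 ≤ v ∧ v ≤ k ∧ g v = x := by
  have himg : (Finset.Icc 1 k).image g = Finset.Icc (N + 1) (N + k) := by
    apply Finset.eq_of_subset_of_card_le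
    · intro y hy
      rw [Finset.mem_image] at hy
      obtain ⟨v, hv, rfl⟩ := hy
      rw [Finset.mem_Icc] at hv ⊢
      exact ⟨S.lo v hv.1 hv.2, S.hi v hv.1 hv.2⟩
    · rw [Finset.card_image_of_injOn]
      · simp only [Nat.card_Icc]; omega
      · intro v hv w hw h
        simp only [Finset.coe_Icc, Set.mem_Icc] at hv hw
        exact S.inj v w hv.1 hv.2 hw.1 hw.2 h
  have : x ∈ (Finset.Icc 1 k).image g := by
    rw [himg, Finset.mem_Icc]; exact ⟨h1, h2⟩
  rw [Finset.mem_image] at this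
  obtain ⟨v, hv, hx⟩ := this
  rw [Finset.mem_Icc] at hv
  exact ⟨v, hv.1, hv.2, hx⟩

lemma Sys.good_iff (S : Sys k N g) {m v : ℕ} (hm1 : 1 ≤ m) (hm : m ≤ k) (hg : Good g m)
    (hv1 : 1 ≤ v) (hv : v ≤ k) : m ∣ v ↔ m ∣ g v := by
  rw [S.div m m v hm1 hm hv1 hv dvd_rfl]
  have h0 : g m ≡ 0 [MOD m] := (Nat.modEq_zero_iff_dvd).2 hg
  constructor
  · intro h
    exact (Nat.modEq_zero_iff_dvd).1 (h.symm.trans h0)
  · intro h
    exact h0.trans ((Nat.modEq_zero_iff_dvd).2 h).symm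

lemma Sys.good_of_dvd (S : Sys k N g) {m v : ℕ} (hv1 : 1 ≤ v) (hv : v ≤ k) (hmv : m ∣ v)
    (hm : m ∣ g v) : Good g m := by
  have h1 : 1 ≤ m := Nat.pos_of_dvd_of_pos hmv hv1
  have h2 : m ≤ k := (Nat.le_of_dvd hv1 hmv).trans hv
  have := (S.div m v m hv1 hv h1 h2 hmv).1 dvd_rfl
  exact (Nat.modEq_zero_iff_dvd).1 (this.symm.trans ((Nat.modEq_zero_iff_dvd).2 hm))

lemma Sys.good_of_reg (S : Sys k N g) {m v : ℕ} (hv1 : 1 ≤ v) (hv : v ≤ k) (hmv : m ∣ v)
    (hg : g v = v) : Good g m := S.good_of_dvd hv1 hv hmv (by rw [hg]; exact hmv)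

lemma Sys.good_mul (S : Sys k N g) {a b : ℕ} (ha : Good g a) (hb : Good g b)
    (hab : Nat.Coprime a b) (h1 : 1 ≤ a * b) (h2 : a * b ≤ k) : Good g (a * b) := by
  have ha1 : 1 ≤ a := Nat.pos_of_ne_zero (by rintro rfl; simp at h1)
  have hb1 : 1 ≤ b := Nat.pos_of_ne_zero (by rintro rfl; simp at h1)
  have hak : a ≤ k := (Nat.le_mul_of_pos_right a hb1).trans h2
  have hbk : b ≤ k := (Nat.le_mul_of_pos_left b ha1).trans h2
  apply Nat.Coprime.mul_dvd_of_dvd_of_dvd hab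
  · exact (S.good_iff ha1 hak ha h1 h2).1 (Dvd.intro _ rfl)
  · exact (S.good_iff hb1 hbk hb h1 h2).1 (Dvd.intro_left _ rfl)

lemma Sys.good_of_prime_pows (S : Sys k N g) {v : ℕ} (hv1 : 1 ≤ v) (hv : v ≤ k)
    (h : ∀ p a, p.Prime → 1 ≤ a → p ^ a ∣ v → Good g (p ^ a)) : Good g v := by
  unfold Good
  rw [Nat.dvd_iff_prime_pow_dvd_dvd]
  intro p a hp hpa
  rcases Nat.eq_zero_or_pos a with rfl | ha
  · simp
  · have h1 : 1 ≤ p ^ a := Nat.pos_of_dvd_of_pos hpa hv1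
    have h2 : p ^ a ≤ k := (Nat.le_of_dvd hv1 hpa).trans hv
    exact (S.good_iff h1 h2 (h p a hp ha hpa) hv1 hv).1 hpa

lemma Sys.window (S : Sys k N g) {m : ℕ} (hm1 : 1 ≤ m) (hm : m ≤ k) :
    ∃ x1, N + 1 ≤ x1 ∧ x1 ≤ N + m ∧ N + k < x1 + (k / m) * m ∧
      (∃ i, g m = x1 + i * m) ∧
      (∀ v, 1 ≤ v → v ≤ k → m ∣ v → ∃ i, i < k / m ∧ g v = x1 + i * m) := by
  obtain ⟨d, hd⟩ := Nat.exists_eq_add_of_le (S.lo m hm1 hm)
  have hmod : d % m < m := Nat.mod_lt _ hm1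
  have hcls : ∀ v, 1 ≤ v → v ≤ k → m ∣ v → ∃ i, g v = (N + 1 + d % m) + i * m := by
    intro v hv1 hv hmv
    obtain ⟨e, he⟩ := Nat.exists_eq_add_of_le (S.lo v hv1 hv)
    have h1 := (S.div m m v hm1 hm hv1 hv dvd_rfl).1 hmv
    rw [hd, he] at h1
    have h2 : d ≡ e [MOD m] := Nat.ModEq.add_left_cancel' (N + 1) h1
    have h3 : d % m = e % m := h2
    refine ⟨e / m, ?_⟩
    rw [he, h3]
    have := Nat.mod_add_div e m
    nlinarith
  have hfull : ∀ i, (N + 1 + d % m) + i * m ≤ N + k →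
      ∃ v, 1 ≤ v ∧ v ≤ k ∧ m ∣ v ∧ g v = (N + 1 + d % m) + i * m := by
    intro i hi
    obtain ⟨v, hv1, hv, hgv⟩ := S.surj ((N + 1 + d % m) + i * m) (by omega) hi
    refine ⟨v, hv1, hv, ?_, hgv⟩
    rw [S.div m m v hm1 hm hv1 hv dvd_rfl, hgv, hd, Nat.ModEq]
    rw [Nat.add_mul_mod_self_right, Nat.add_mod_mod]
  have hlast : N + k < (N + 1 + d % m) + (k / m) * m := by
    by_contra hcon
    push Not at hcon
    have hf : ∀ i : ℕ, i ∈ Finset.range (k / m + 1) →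
        ∃ j, j ∈ Finset.Icc 1 (k / m) ∧ g (m * j) = (N + 1 + d % m) + i * m := by
      intro i hi
      rw [Finset.mem_range] at hi
      have h1 : i * m ≤ (k / m) * m := Nat.mul_le_mul_right m (by omega)
      obtain ⟨v, hv1, hv, ⟨j, rfl⟩, hgv⟩ := hfull i (by omega)
      refine ⟨j, ?_, hgv⟩
      rw [Finset.mem_Icc]
      constructor
      · exact Nat.pos_of_ne_zero (by rintro rfl; simp at hv1)
      · rw [Nat.le_div_iff_mul_le hm1, mul_comm]; exact hv
    choose! f hf1 hf2 using hf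
    have hcard := Finset.card_le_card_of_injOn f (s := Finset.range (k / m + 1))
      (t := Finset.Icc 1 (k / m)) hf1 (by
        intro i hi j hj hij
        simp only [Finset.coe_range, Set.mem_Iio] at hi hj
        have e1 := hf2 i (Finset.mem_range.2 hi)
        have e2 := hf2 j (Finset.mem_range.2 hj)
        rw [hij, e2] at e1
        have : j * m = i * m := by omega
        exact (Nat.eq_of_mul_eq_mul_right hm1 this).symm)
    rw [Finset.card_range, Nat.card_Icc, Nat.add_sub_cancel] at hcard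
    exact absurd hcard (Nat.not_succ_le_self _)
  refine ⟨N + 1 + d % m, by omega, by omega, hlast, hcls m hm1 hm dvd_rfl, ?_⟩
  intro v hv1 hv hmv
  obtain ⟨i, hi⟩ := hcls v hv1 hv hmv
  refine ⟨i, ?_, hi⟩
  by_contra hcon
  push Not at hcon
  have h1 : (k / m) * m ≤ i * m := Nat.mul_le_mul_right m hcon
  have h2 := S.hi v hv1 hv
  omega

lemma Sys.good_window (S : Sys k N g) {m : ℕ} (hm : m ≤ k) (hg : Good g m) (hNm : N < m) :
    N + k < (k / m + 1) * m := by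
  obtain ⟨x1, h1, h2, h3, ⟨i, hi⟩, h4⟩ := S.window (by omega : 1 ≤ m) hm
  have hdvd : m ∣ x1 := by
    have : m ∣ x1 + i * m := by rw [← hi]; exact hg
    exact (Nat.dvd_add_left (Dvd.intro_left _ rfl)).1 this
  obtain ⟨c, rfl⟩ := hdvd
  have hc : c = 1 := by
    rcases Nat.lt_or_ge c 1 with h | h
    · have : c = 0 := by omega
      subst this; simp at h1
    rcases Nat.lt_or_ge c 2 with h' | h'
    · omega
    · have : 2 * m ≤ m * c := by rw [mul_comm]; exact Nat.mul_le_mul_left m h'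
      omega
  subst hc
  rw [Nat.add_mul]
  omega

lemma Sys.no_ghost (S : Sys k N g) {m y : ℕ} (hm : m ≤ k) (hg : Good g m) (hNm : N < m)
    (hmy : m ∣ y) (hky : k < y) : N + k < y := by
  have h := S.good_window hm hg hNm
  obtain ⟨c, rfl⟩ := hmy
  have : k / m < c := by
    rw [Nat.div_lt_iff_lt_mul (by omega), mul_comm]; exact hky
  have h2 : (k / m + 1) * m ≤ m * c := by
    rw [mul_comm m c]; exact Nat.mul_le_mul_right m this
  omega

lemma Sys.good_regular (S : Sys k N g) {m : ℕ} (hm : m ≤ k) (hg : Good g m) (hNm : N < m)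
    (hk : k < 2 * m) : g m = m := by
  have h := S.good_window hm hg hNm
  have h1 : k / m < 2 := by
    rw [Nat.div_lt_iff_lt_mul (by omega)]; omega
  have h2 : (k / m + 1) * m ≤ 2 * m := Nat.mul_le_mul_right m (by omega)
  have h3 := S.hi m (by omega) hm
  have h4 := S.lo m (by omega) hm
  obtain ⟨c, hc⟩ := hg
  have : c = 1 := by
    rcases Nat.lt_or_ge c 1 with h | h
    · have : c = 0 := by omega
      subst this; simp at hc; omega
    rcases Nat.lt_or_ge c 2 with h' | h'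
    · omega
    · have : 2 * m ≤ m * c := by rw [mul_comm]; exact Nat.mul_le_mul_left m h'
      omega
  subst this
  omega

end sys

end Pool.Agent.H33.Wcs
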