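import Pool.Agent.H33.WcsLink

set_option autoImplicit false

/-!
A verified enumeration of the weakly consecutive permutations of small length.
-/

namespace Pool.Agent.H33.Wcs

variable {k : ℕ} {s : List ℕ}

/-! ### from slot functions to lists -/

theorem Sys.toList {π : ℕ → ℕ} (S : Sys k 0 π) :
    ∃ s : List ℕ, IsWCS k s ∧ ∀ v, 1 ≤ v → v ≤ k → s.idxOf v + 1 = π v := by
  have hf : ∀ i : ℕ, i < k → ∃ v, 1 ≤ v ∧ v ≤ k ∧ π v = i + 1 := fun i hi =>
    S.surj (i + 1) (by omega) (by omega)
  choose! f hf1 hf2 hf3 using hf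
  set s := (List.range k).map f with hs
  have hlen : s.length = k := by rw [hs, List.length_map, List.length_range]
  have hget : ∀ i (hi : i < s.length), s[i] = f i := by
    intro i hi
    simp only [hs, List.getElem_map, List.getElem_range]
  have hnd : s.Nodup := by
    rw [hs]
    apply List.Nodup.map_on _ List.nodup_range
    intro x hx y hy hxy
    rw [List.mem_range] at hx hy
    have e1 := hf3 x hx
    have e2 := hf3 y hy
    rw [hxy] at e1
    omega
  have hsub : s ⊆ List.range' 1 k := by
    intro x hx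
    rw [hs, List.mem_map] at hx
    obtain ⟨i, hi, rfl⟩ := hx
    rw [List.mem_range] at hi
    rw [List.mem_range'_1]
    have := hf1 i hi
    have := hf2 i hi
    omega
  have hperm : s.Perm (List.range' 1 k) :=
    (List.subperm_of_subset hnd hsub).perm_of_length_le (by rw [List.length_range', hlen])
  refine ⟨s, ⟨hperm, ?_⟩, ?_⟩
  · intro i j hi hj m hm hmij
    rw [hlen] at hi hj
    rw [hget i (by omega)] at hm
    rw [hget j (by omega)]
    have h1 : m.natAbs ∣ f i := Int.natAbs_dvd_natAbs.2 hm
    have h2 : (m.natAbs : ℤ) ∣ (i : ℤ) - j := Int.natAbs_dvd.2 hmij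
    have h3 := (S.div m.natAbs (f i) (f j) (hf1 i hi) (hf2 i hi) (hf1 j hj) (hf2 j hj) h1).2 (by
      rw [hf3 i hi, hf3 j hj]
      apply Nat.ModEq.add_right
      rw [Nat.ModEq.comm, Nat.modEq_iff_dvd]
      exact h2)
    have h4 : (m.natAbs : ℤ) ∣ (f j : ℤ) := by exact_mod_cast h3
    exact Int.natAbs_dvd.1 h4
  · intro v hv1 hvk
    have h1 := S.lo v hv1 hvk
    have h2 := S.hi v hv1 hvk
    have h3 : π v - 1 < s.length := by omega
    have h4 : f (π v - 1) = v := by
      apply S.inj _ _ (hf1 _ (by omega)) (hf2 _ (by omega)) hv1 hvk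
      rw [hf3 _ (by omega)]
      omega
    have h5 := List.Nodup.idxOf_getElem hnd (π v - 1) h3
    rw [hget _ h3, h4] at h5
    omega

/-! ### the enumeration -/

/-- keep the multiples of the numbers `2, …, n` -/
def keepN (n x : ℕ) : ℕ := if (List.range' 2 (n - 1)).any (fun q => x % q == 0) then x else 0

def mrg (p : ℕ) : ℕ → List ℕ → List ℕ → Option (List ℕ)
  | _, tau, [] => if tau.isEmpty then some [] else none
  | 0, [], _ :: _ => none
  | 0, y :: tau, x :: c =>
      if x == keepN (p - 1) (p * y) then (mrg p (p - 1) tau c).map (fun l => p * y :: l) else none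
  | t + 1, tau, x :: c =>
      if x != 0 && x % p == 0 then none else (mrg p t tau c).map (fun l => x :: l)

lemma keepN_of_dvd {n x q : ℕ} (h1 : 2 ≤ q) (h2 : q ≤ n) (h3 : q ∣ x) : keepN n x = x := by
  unfold keepN
  rw [if_pos]
  rw [List.any_eq_true]
  refine ⟨q, ?_, ?_⟩
  · rw [List.mem_range'_1]; omega
  · simp [Nat.mod_eq_zero_of_dvd h3]

lemma keepN_cases (n x : ℕ) : keepN n x = 0 ∨ keepN n x = x := by
  unfold keepN
  split_ifs
  · right; rfl
  · left; rfl

lemma keepN_eq {n m x : ℕ} (h : ∀ q, 2 ≤ q → q ∣ x → (q ≤ n → ∃ r, 2 ≤ r ∧ r ≤ m ∧ r ∣ x))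
    (h' : ∀ q, 2 ≤ q → q ∣ x → (q ≤ m → ∃ r, 2 ≤ r ∧ r ≤ n ∧ r ∣ x)) :
    keepN n x = keepN m x := by
  by_cases h1 : ∃ q, 2 ≤ q ∧ q ≤ n ∧ q ∣ x
  · obtain ⟨q, h2, h3, h4⟩ := h1
    obtain ⟨r, h5, h6, h7⟩ := h q h2 h4 h3
    rw [keepN_of_dvd h2 h3 h4, keepN_of_dvd h5 h6 h7]
  · have h2 : ¬ ∃ q, 2 ≤ q ∧ q ≤ m ∧ q ∣ x := by
      rintro ⟨q, h3, h4, h5⟩
      exact h1 (h' q h3 h5 h4)
    have key : ∀ n, (¬ ∃ q, 2 ≤ q ∧ q ≤ n ∧ q ∣ x) → keepN n x = 0 := by
      intro n hn
      unfold keepN
      rw [if_neg]
      rw [List.any_eq_true]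
      rintro ⟨q, hq, hqx⟩
      rw [List.mem_range'_1] at hq
      apply hn
      refine ⟨q, by omega, by omega, ?_⟩
      simp at hqx
      exact Nat.dvd_of_mod_eq_zero hqx
    rw [key n h1, key m h2]

lemma keepN_pred {p x : ℕ} (hp : 2 ≤ p) (h : ¬ p ∣ x) : keepN p x = keepN (p - 1) x := by
  apply keepN_eq
  · intro q h1 h2 h3
    refine ⟨q, h1, ?_, h2⟩
    have : q ≠ p := by rintro rfl; exact h h2
    omega
  · intro q h1 h2 h3
    exact ⟨q, h1, by omega, h2⟩

theorem mrg_sound {p : ℕ} (hp : 2 ≤ p) : ∀ (s : List ℕ) (t : ℕ) (tau : List ℕ), t < p →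
    (∀ x ∈ s, 1 ≤ x) → (∀ (i x : ℕ), s[i]? = some x → (p ∣ x ↔ i ≡ t [MOD p])) →
    (∀ i : ℕ, s[t + i * p]? = (tau[i]?).map (fun y => p * y)) →
    mrg p t tau (s.map (keepN (p - 1))) = some (s.map (keepN p)) := by
  intro s
  induction s with
  | nil =>
    intro t tau _ _ _ h2
    have h3 := h2 0
    rw [List.getElem?_nil] at h3
    cases tau with
    | nil =>
      cases t <;> simp [mrg]
    | cons y tau => simp at h3
  | cons a s ih =>
    intro t tau ht hpos h1 h2
    have ha : 1 ≤ a := hpos a (by simp)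
    have hpos' : ∀ x ∈ s, 1 ≤ x := fun x hx => hpos x (by simp [hx])
    rw [List.map_cons, List.map_cons]
    cases t with
    | zero =>
      have h3 := h2 0
      cases tau with
      | nil => simp at h3
      | cons y tau =>
        simp at h3
        have hstep := ih (p - 1) tau (by omega) hpos' (by
          intro i x hx
          have h4 := h1 (i + 1) x (by rw [List.getElem?_cons_succ]; exact hx)
          rw [h4]
          constructor
          · intro h5
            have h6 : i + 1 ≡ (p - 1) + 1 [MOD p] := by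
              have : (p - 1) + 1 = p := by omega
              rw [this]
              exact h5.trans ((Nat.modEq_zero_iff_dvd).2 dvd_rfl).symm
            exact Nat.ModEq.add_right_cancel' 1 h6
          · intro h5
            have h6 : i + 1 ≡ (p - 1) + 1 [MOD p] := h5.add_right 1
            have : (p - 1) + 1 = p := by omega
            rw [this] at h6
            exact h6.trans ((Nat.modEq_zero_iff_dvd).2 dvd_rfl)) (by
          intro i
          have h4 := h2 (i + 1)
          have e : 0 + (i + 1) * p = (p - 1 + i * p) + 1 := by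
            have : (i + 1) * p = i * p + p := by ring
            omega
          rw [e, List.getElem?_cons_succ, List.getElem?_cons_succ] at h4
          exact h4)
        have hka : keepN p a = a := keepN_of_dvd hp le_rfl (h3 ▸ Dvd.intro _ rfl)
        rw [mrg, if_pos (by rw [← h3]; simp), hstep, hka, ← h3]
        rfl
    | succ t =>
      have hnd : ¬ p ∣ a := by
        intro h3
        have h4 := (h1 0 a (by simp)).1 h3
        rw [Nat.ModEq, Nat.zero_mod, Nat.mod_eq_of_lt ht] at h4
        omega
      have hstep := ih t tau (by omega) hpos' (by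
        intro i x hx
        have h4 := h1 (i + 1) x (by rw [List.getElem?_cons_succ]; exact hx)
        rw [h4]
        constructor
        · intro h5; exact Nat.ModEq.add_right_cancel' 1 h5
        · intro h5; exact h5.add_right 1) (by
        intro i
        have h4 := h2 i
        have e : t + 1 + i * p = (t + i * p) + 1 := by ring
        rw [e, List.getElem?_cons_succ] at h4
        exact h4)
      rw [mrg, if_neg, hstep, keepN_pred hp hnd]
      · rfl
      · rcases keepN_cases (p - 1) a with h | h
        · simp [h]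
        · rw [h]
          have : a % p ≠ 0 := fun h => hnd (Nat.dvd_of_mod_eq_zero h)
          simp [this]

def stepP (k p : ℕ) (Tq : List (List ℕ)) (cur : List (List ℕ)) : List (List ℕ) :=
  cur.flatMap fun c => (List.range' (k % p) (p - k % p)).flatMap fun t =>
    Tq.filterMap (fun tau => mrg p t tau c)

theorem stepP_sound (h : IsWCS k s) {p : ℕ} (hp : 2 ≤ p) (hpk : p ≤ k) {Tq cur : List (List ℕ)}
    (hT : ∀ tau, IsWCS (k / p) tau → tau ∈ Tq) (hc : s.map (keepN (p - 1)) ∈ cur) :
    s.map (keepN p) ∈ stepP k p Tq cur := by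
  have S := h.sys
  have hlen := h.length
  have hnd := h.nodup
  obtain ⟨x1, hx1, hx1', hx1'', hd⟩ := der_spec S (m := p) (by omega) hpk
  obtain ⟨tau, htau, hidx⟩ := (S.der (m := p) (by omega) hpk).toList
  have htlen := htau.length
  have htnd := htau.nodup
  unfold stepP
  rw [List.mem_flatMap]
  refine ⟨_, hc, ?_⟩
  rw [List.mem_flatMap]
  have hdm := Nat.div_add_mod k p
  have hml : k % p < p := Nat.mod_lt _ (by omega)
  refine ⟨x1 - 1, ?_, ?_⟩
  · rw [List.mem_range'_1]
    have e : p * (k / p) = k / p * p := by ring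
    omega
  rw [List.mem_filterMap]
  refine ⟨tau, hT tau htau, ?_⟩
  have hk1 : 1 ≤ k / p := Nat.div_pos hpk (by omega)
  obtain ⟨i1, hi1, hπ1, _⟩ := hd 1 le_rfl hk1
  rw [mul_one] at hπ1
  apply mrg_sound hp s (x1 - 1) tau (by omega)
  · intro x hx
    exact (h.mem.1 hx).1
  · intro i x hx
    rw [List.getElem?_eq_some_iff] at hx
    obtain ⟨hi, rfl⟩ := hx
    have hxm := h.mem.1 (List.getElem_mem hi)
    have h1 := S.div p p s[i] (by omega) hpk hxm.1 hxm.2 dvd_rfl
    rw [hπ1, List.Nodup.idxOf_getElem hnd _ hi] at h1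
    rw [h1]
    have e1 : x1 + i1 * p ≡ x1 [MOD p] := by
      rw [Nat.ModEq, Nat.add_mul_mod_self_right]
    have e2 : x1 = (x1 - 1) + 1 := by omega
    constructor
    · intro h2
      have h3 : (x1 - 1) + 1 ≡ i + 1 [MOD p] := by
        rw [← e2]
        exact e1.symm.trans h2
      exact (Nat.ModEq.add_right_cancel' 1 h3).symm
    · intro h2
      have h3 := (h2.add_right 1)
      rw [← e2] at h3
      exact e1.trans h3.symm
  · intro i
    by_cases hi : i < k / p
    · have hit : i < tau.length := by omega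
      have hv := htau.mem.1 (List.getElem_mem hit)
      have h1 := hidx _ hv.1 hv.2
      rw [List.Nodup.idxOf_getElem htnd _ hit] at h1
      obtain ⟨j, hj, hπ, hdj⟩ := hd _ hv.1 hv.2
      have hij : i = j := by omega
      subst hij
      obtain ⟨m1, m2⟩ := mul_range (by omega) hv.1 hv.2
      have h2 : s.idxOf (p * tau[i]) = x1 - 1 + i * p := by omega
      have h3 := List.idxOf_lt_length_of_mem (h.mem.2 ⟨m1, m2⟩)
      rw [List.getElem?_eq_getElem hit, Option.map_some]
      rw [List.getElem?_eq_some_iff]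
      refine ⟨by omega, ?_⟩
      have h4 : s[s.idxOf (p * tau[i])] = p * tau[i] := List.getElem_idxOf _
      simp only [h2] at h4
      exact h4
    · rw [List.getElem?_eq_none, List.getElem?_eq_none (by omega)]
      · rfl
      · have : (k / p) * p ≤ i * p := Nat.mul_le_mul_right p (by omega)
        omega

def isP (n : ℕ) : Bool := [2, 3, 5, 7, 11, 13, 17, 19, 23, 29, 31, 37, 41, 43].elem n

def expandN (k : ℕ) (T : ℕ → List (List ℕ)) : ℕ → List (List ℕ)
  | 0 => [List.replicate k 0]
  | n + 1 => if isP (n + 1) then stepP k (n + 1) (T (k / (n + 1))) (expandN k T n)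
      else expandN k T n

def finN (k : ℕ) (T : ℕ → List (List ℕ)) : List (List ℕ) :=
  (expandN k T k).map (fun l => l.map (fun x => if x == 0 then 1 else x))

lemma not_isP : ∀ n ≤ 41, isP n = false → 2 ≤ n → ∃ q, 2 ≤ q ∧ q < n ∧ q ∣ n := by
  intro n hn h h2
  interval_cases n <;> first
    | (exfalso; revert h; decide)
    | (refine ⟨2, ?_, ?_, ?_⟩ <;> decide)
    | (refine ⟨3, ?_, ?_, ?_⟩ <;> decide)
    | (refine ⟨5, ?_, ?_, ?_⟩ <;> decide)
    | (refine ⟨7, ?_, ?_, ?_⟩ <;> decide)

lemma isP_prime {n : ℕ} (h : isP n = true) : n.Prime := by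
  unfold isP at h
  simp only [List.elem_eq_mem, decide_eq_true_eq, List.mem_cons, List.not_mem_nil, or_false] at h
  rcases h with rfl | rfl | rfl | rfl | rfl | rfl | rfl | rfl | rfl | rfl | rfl | rfl | rfl | rfl <;>
    norm_num

theorem expandN_sound (h : IsWCS k s) (hk : k ≤ 41) {T : ℕ → List (List ℕ)}
    (hT : ∀ q, 1 ≤ q → q < k → ∀ tau, IsWCS q tau → tau ∈ T q) :
    ∀ n, n ≤ k → s.map (keepN n) ∈ expandN k T n := by
  intro n
  induction n with
  | zero =>
    intro _
    have : s.map (keepN 0) = List.replicate k 0 := by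
      rw [List.eq_replicate_iff]
      refine ⟨by rw [List.length_map, h.length], ?_⟩
      intro b hb
      rw [List.mem_map] at hb
      obtain ⟨x, _, rfl⟩ := hb
      simp [keepN]
    rw [this]
    simp [expandN]
  | succ n ih =>
    intro hn
    have ih := ih (by omega)
    unfold expandN
    by_cases hp : isP (n + 1) = true
    · rw [if_pos hp]
      have h2 := (isP_prime hp).two_le
      apply stepP_sound h h2 hn
      · intro tau htau
        apply hT _ _ _ tau htau
        · exact Nat.div_pos hn (by omega)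
        · exact Nat.div_lt_self (by omega) (by omega)
      · exact ih
    · rw [if_neg hp]
      have e : s.map (keepN (n + 1)) = s.map (keepN n) := by
        apply List.map_congr_left
        intro x _
        rcases Nat.eq_zero_or_pos n with h0 | h0
        · subst h0
          simp [keepN]
        · obtain ⟨q, h1, h2, h3⟩ := not_isP (n + 1) (by omega) (by simpa using hp) (by omega)
          apply keepN_eq
          · intro r h4 h5 h6
            rcases Nat.lt_or_ge n r with h7 | h7
            · have : r = n + 1 := by omega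
              subst this
              exact ⟨q, h1, by omega, h3.trans h5⟩
            · exact ⟨r, h4, h7, h5⟩
          · intro r h4 h5 h6
            exact ⟨r, h4, by omega, h5⟩
      rw [e]
      exact ih

theorem finN_sound (h : IsWCS k s) (hk : k ≤ 41) {T : ℕ → List (List ℕ)}
    (hT : ∀ q, 1 ≤ q → q < k → ∀ tau, IsWCS q tau → tau ∈ T q) : s ∈ finN k T := by
  unfold finN
  rw [List.mem_map]
  refine ⟨_, expandN_sound h hk hT k le_rfl, ?_⟩
  rw [List.map_map]
  conv_rhs => rw [← List.map_id s]
  apply List.map_congr_left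
  intro x hx
  have hx := h.mem.1 hx
  simp only [Function.comp, id]
  rcases Nat.lt_or_ge x 2 with h2 | h2
  · have : x = 1 := by omega
    subst this
    have : keepN k 1 = 0 := by
      unfold keepN
      rw [if_neg]
      rw [List.any_eq_true]
      rintro ⟨q, hq, hqx⟩
      rw [List.mem_range'_1] at hq
      simp at hqx
      have : 1 % q = 1 := Nat.mod_eq_of_lt (by omega)
      omega
    rw [this]
    rfl
  · rw [keepN_of_dvd h2 hx.2 dvd_rfl]
    have : x ≠ 0 := by omega
    simp [this]

end Pool.Agent.H33.Wcs
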