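import Pool.Agent.H33.WcsUnique

set_option autoImplicit false

/-!
The fifth starting sequence is weakly consecutive, and it has no derivation from the other four.
-/

namespace Pool.Agent.H33.Wcs

def slot5 (p v : ℕ) : ℕ :=
  if v = 1 then 2 * p + 1 else if v = 2 then 2 * p else if v = 2 * p then 2
  else if v = p then p + 2 else if v = p + 2 then p else v

lemma dvd_two_prime {n p : ℕ} (hp : p.Prime) (h : n ∣ 2 * p) (hn : 2 ≤ n) :
    n = 2 ∨ n = p ∨ n = 2 * p := by
  by_cases hpn : p ∣ n
  · obtain ⟨c, rfl⟩ := hpn
    have h1 : p * c ∣ p * 2 := by rw [mul_comm p 2]; exact h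
    have h2 : c ∣ 2 := (Nat.mul_dvd_mul_iff_left hp.pos).1 h1
    rcases (Nat.dvd_prime Nat.prime_two).1 h2 with rfl | rfl
    · right; left; omega
    · right; right; omega
  · left
    have hc : Nat.Coprime n p := ((Nat.Prime.coprime_iff_not_dvd hp).2 hpn).symm
    have h1 : n ∣ 2 := hc.dvd_of_dvd_mul_right h
    have := Nat.le_of_dvd (by norm_num) h1
    omega

lemma slot5_core {p n v w : ℕ} (hp : p.Prime) (hp2 : (p + 2).Prime) (hp3 : (2 * p + 1).Prime)
    (hv1 : 1 ≤ v) (hv : v ≤ 2 * p) (hw1 : 1 ≤ w) (hw : w ≤ 2 * p) (hnv : n ∣ v)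
    (hd : (n : ℤ) ∣ (slot5 p v : ℤ) - (slot5 p w : ℤ)) : n ∣ w := by
  have h3 := twin_ge hp hp2
  have hodd : p % 2 = 1 := by
    rcases hp.eq_two_or_odd with h | h
    · omega
    · exact h
  have hnle := Nat.le_of_dvd hv1 hnv
  have hn0 : 0 < n := Nat.pos_of_dvd_of_pos hnv hv1
  rcases (show n = 1 ∨ 2 ≤ n by omega) with rfl | hn
  · exact one_dvd _
  -- bounds for the slot of `w`
  have hw2 : 2 ≤ slot5 p w ∧ slot5 p w ≤ 2 * p + 1 := by
    unfold slot5
    split_ifs <;> omega
  have parity : slot5 p w % 2 = 0 → w % 2 = 0 := by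
    unfold slot5
    split_ifs <;> omega
  have val2 : slot5 p w = 2 → w = 2 * p := by
    unfold slot5
    split_ifs <;> omega
  have valp2 : slot5 p w = p + 2 → w = p := by
    unfold slot5
    split_ifs <;> omega
  have valp : slot5 p w = p → w = p + 2 := by
    unfold slot5
    split_ifs <;> omega
  -- the class of `2` modulo `p`
  have clsp : (p : ℤ) ∣ 2 - (slot5 p w : ℤ) → p ∣ w := by
    rintro ⟨c, hc⟩
    have h4 : c = 0 ∨ c = -1 := by
      have h5 : c < 1 := by
        by_contra hcon
        push Not at hcon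
        have : (p : ℤ) * 1 ≤ p * c := mul_le_mul_of_nonneg_left hcon (by positivity)
        omega
      have h6 : -2 < c := by
        by_contra hcon
        push Not at hcon
        have : (p : ℤ) * c ≤ p * (-2) := mul_le_mul_of_nonneg_left hcon (by positivity)
        omega
      omega
    rcases h4 with rfl | rfl
    · rw [val2 (by omega)]
      exact Dvd.intro_left _ rfl
    · rw [valp2 (by omega)]
  by_cases e1 : v = 1
  · subst e1; omega
  by_cases e2 : v = 2
  · subst e2
    have hn2 : n = 2 := by omega
    subst hn2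
    have hs : slot5 p 2 = 2 * p := by simp [slot5]
    rw [hs] at hd
    have : slot5 p w % 2 = 0 := by omega
    have := parity this
    omega
  by_cases e3 : v = 2 * p
  · subst e3
    have hs : slot5 p (2 * p) = 2 := by
      unfold slot5
      rw [if_neg (by omega), if_neg (by omega), if_pos rfl]
    rw [hs] at hd
    rcases dvd_two_prime hp hnv hn with rfl | rfl | rfl
    · have : slot5 p w % 2 = 0 := by omega
      have := parity this
      omega
    · exact clsp (by exact_mod_cast hd)
    · have : slot5 p w = 2 := by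
        obtain ⟨c, hc⟩ := hd
        push_cast at hc
        have h4 : c = 0 := by
          have h5 : c < 1 := by
            by_contra hcon
            push Not at hcon
            have : (2 * p : ℤ) * 1 ≤ 2 * p * c := mul_le_mul_of_nonneg_left hcon (by positivity)
            omega
          have h6 : -1 < c := by
            by_contra hcon
            push Not at hcon
            have : (2 * p : ℤ) * c ≤ 2 * p * (-1) := mul_le_mul_of_nonneg_left hcon (by positivity)
            omega
          omega
        subst h4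
        omega
      rw [val2 this]
  by_cases e4 : v = p
  · subst e4
    have hs : slot5 v v = v + 2 := by
      unfold slot5
      rw [if_neg (by omega), if_neg (by omega), if_neg (by omega), if_pos rfl]
    rw [hs] at hd
    have hnp : n = v := by
      rcases (Nat.dvd_prime hp).1 hnv with h | h
      · omega
      · exact h
    subst hnp
    apply clsp
    have : (2 : ℤ) - (slot5 n w : ℤ) = ((n + 2 : ℕ) : ℤ) - (slot5 n w : ℤ) - n := by
      push_cast; ring
    rw [this]
    exact dvd_sub hd dvd_rfl
  by_cases e5 : v = p + 2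
  · have hs : slot5 p v = p := by
      unfold slot5
      rw [if_neg e1, if_neg e2, if_neg e3, if_neg e4, if_pos e5]
    rw [hs] at hd
    have hnp : n = p + 2 := by
      rw [e5] at hnv
      rcases (Nat.dvd_prime hp2).1 hnv with h | h
      · omega
      · exact h
    have : slot5 p w = p := by
      obtain ⟨c, hc⟩ := hd
      rw [hnp] at hc
      push_cast at hc
      have h4 : c = 0 := by
        have h5 : c < 1 := by
          by_contra hcon
          push Not at hcon
          have : (p + 2 : ℤ) * 1 ≤ (p + 2) * c := mul_le_mul_of_nonneg_left hcon (by positivity)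
          omega
        have h6 : -1 < c := by
          by_contra hcon
          push Not at hcon
          have : (p + 2 : ℤ) * c ≤ (p + 2) * (-1) := mul_le_mul_of_nonneg_left hcon (by positivity)
          omega
        omega
      subst h4
      omega
    rw [valp this, hnp]
  -- regular `v`
  have hs : slot5 p v = v := by
    unfold slot5
    rw [if_neg e1, if_neg e2, if_neg e3, if_neg e4, if_neg e5]
  rw [hs] at hd
  have hnw : n ∣ slot5 p w := by
    have h1 : (n : ℤ) ∣ (v : ℤ) := by exact_mod_cast hnv
    have h2 := dvd_sub h1 hd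
    rw [sub_sub_cancel] at h2
    exact_mod_cast h2
  -- `n` is not `p`, `2p`, `p + 2`
  have hnp : n ≠ p := by
    rintro rfl
    obtain ⟨c, rfl⟩ := hnv
    have hc : c < 3 := by
      by_contra hcon
      have : n * 3 ≤ n * c := Nat.mul_le_mul_left _ (by omega)
      omega
    interval_cases c <;> omega
  have hn2p : n ≠ 2 * p := by
    rintro rfl
    omega
  have hnp2 : n ≠ p + 2 := by
    intro h
    rw [h] at hnv
    obtain ⟨c, rfl⟩ := hnv
    have hc : c < 2 := by
      by_contra hcon
      have : (p + 2) * 2 ≤ (p + 2) * c := Nat.mul_le_mul_left _ (by omega)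
      omega
    interval_cases c <;> omega
  unfold slot5 at hnw
  split_ifs at hnw with f1 f2 f3 f4 f5
  · rcases (Nat.dvd_prime hp3).1 hnw with h | h
    · omega
    · omega
  · rcases dvd_two_prime hp hnw hn with h | h | h
    · rw [h, f2]
    · exact absurd h hnp
    · exact absurd h hn2p
  · have : n = 2 := by
      have := Nat.le_of_dvd (by norm_num) hnw
      omega
    rw [this, f3]
    exact Dvd.intro _ rfl
  · rcases (Nat.dvd_prime hp2).1 hnw with h | h
    · omega
    · exact absurd h hnp2
  · rcases (Nat.dvd_prime hp).1 hnw with h | h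
    · omega
    · exact absurd h hnp
  · exact hnw

theorem fifth_isWCS {k : ℕ} {s : List ℕ} (h : Start.IsSeq k s .twiceTwinPrimeInversion) :
    IsWCS k s := by
  obtain ⟨p, hp, hp2, hp3, rfl, hs⟩ := id h
  have h3 := twin_ge hp hp2
  have hperm := h.perm (by omega)
  have hnd : s.Nodup := hperm.nodup_iff.2 List.nodup_range'
  refine ⟨hperm, ?_⟩
  have hslot : ∀ v, 1 ≤ v → v ≤ 2 * p → s.idxOf v + 2 = slot5 p v := by
    intro v hv1 hvk
    rw [hs, seq5_idx h3 rfl hv1 hvk]
    unfold slot5
    split_ifs <;> omega
  intro i j hi hj m hm hmij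
  have hvi := (mem_range1 hperm).1 (List.getElem_mem hi)
  have hwj := (mem_range1 hperm).1 (List.getElem_mem hj)
  have e1 := hslot _ hvi.1 hvi.2
  have e2 := hslot _ hwj.1 hwj.2
  rw [List.Nodup.idxOf_getElem hnd _ hi] at e1
  rw [List.Nodup.idxOf_getElem hnd _ hj] at e2
  have h1 : m.natAbs ∣ s[i] := Int.natAbs_dvd_natAbs.2 hm
  have h2 : (m.natAbs : ℤ) ∣ (i : ℤ) - j := Int.natAbs_dvd.2 hmij
  have h4 : m.natAbs ∣ s[j] := by
    apply slot5_core hp hp2 hp3 hvi.1 hvi.2 hwj.1 hwj.2 h1
    rw [← e1, ← e2]
    have : ((i + 2 : ℕ) : ℤ) - ((j + 2 : ℕ) : ℤ) = (i : ℤ) - j := by push_cast; ring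
    rw [this]
    exact h2
  have h5 : (m.natAbs : ℤ) ∣ (s[j] : ℤ) := by exact_mod_cast h4
  exact Int.natAbs_dvd.1 h5

end Pool.Agent.H33.Wcs
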