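import Pool.Agent.H33.WcsLink

set_option autoImplicit false

/-!
Completeness for `k ≥ 42`.
-/

namespace Pool.Agent.H33.Wcs

variable {k N : ℕ} {s : List ℕ} {g : ℕ → ℕ}

lemma swap_val (a b v : ℕ) : Equiv.swap a b v = if v = a then b else if v = b then a else v :=
  Equiv.swap_apply_def a b v

theorem derive_fwd (C : Ctx k N g) (hs : s.Perm (List.range' 1 k))
    (hg : ∀ v, 1 ≤ v → v ≤ k → g v = s.idxOf v + 1 + N) :
    ∃ T ops, IsDerivation k T ops s := by
  have hk := C.hk
  have hN := C.N_le
  have hnd : s.Nodup := hs.nodup_iff.2 List.nodup_range'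
  have hnd0 : (List.range' 1 k).Nodup := List.nodup_range'
  have hmem : ∀ v, v ∈ List.range' 1 k ↔ 1 ≤ v ∧ v ≤ k := fun v => mem_range1 (List.Perm.refl _)
  have h1mem : ∀ v, v ∈ (List.range' 2 (k - 1) ++ [1]) ↔ 1 ≤ v ∧ v ≤ k := fun v => by
    rw [(base1_perm (by omega)).mem_iff, hmem]
  have h2mem : ∀ v, v ∈ (List.range' 3 (k - 2) ++ [2, 1]) ↔ 1 ≤ v ∧ v ≤ k := fun v => by
    rw [(base2_perm (by omega)).mem_iff, hmem]
  have hnd1 : (List.range' 2 (k - 1) ++ [1]).Nodup := (base1_perm (by omega)).nodup_iff.2 hnd0
  have hnd2 : (List.range' 3 (k - 2) ++ [2, 1]).Nodup := (base2_perm (by omega)).nodup_iff.2 hnd0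
  by_cases hnb : ∀ p, p.Prime → ¬ Good g p → k < 2 * p
  · rcases (show N = 0 ∨ N = 1 ∨ N = 2 by omega) with h0 | h1 | h2
    · -- Consecutive
      have hc := C.case0 h0 hnb
      obtain ⟨ops, hops⟩ := exists_derives (k := k) (s₀ := List.range' 1 k) .consecutive _ s hnd hs
        rfl (by
        intro v hv
        rw [hmem] at hv
        have hgv := hg v hv.1 hv.2
        rcases hc v hv.1 hv.2 with h | ⟨w, hw1, hwk, hp, h3, h4⟩
        · left
          rw [base0_idx hv.1 hv.2]
          omega
        · right
          have hgw := hg w hw1 hwk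
          refine ⟨w, (hmem w).2 ⟨hw1, hwk⟩, ?_, ?_, ?_⟩
          · rcases hp with h | h
            · exact Or.inl (Or.inl h)
            · exact Or.inr (Or.inl h)
          · rw [base0_idx hw1 hwk]; omega
          · rw [base0_idx hv.1 hv.2]; omega)
      exact ⟨.consecutive, ops, _, rfl, hops⟩
    · -- One-Inversion
      obtain ⟨hpr, hg1, hc⟩ := C.case1 h1 hnb
      obtain ⟨ops, hops⟩ := exists_derives (k := k) (s₀ := List.range' 2 (k - 1) ++ [1])
        .oneInversion _ s hnd (hs.trans (base1_perm (by omega)).symm) rfl (by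
        intro v hv
        rw [h1mem] at hv
        have hgv := hg v hv.1 hv.2
        rcases (show v = 1 ∨ 2 ≤ v by omega) with rfl | hv2
        · left
          rw [base1_idx_one]
          omega
        · rcases hc v hv2 hv.2 with h | ⟨w, hw1, hwk, hp, h3, h4⟩
          · left
            rw [base1_idx hv2 hv.2]
            omega
          · right
            have hgw := hg w (by omega) hwk
            refine ⟨w, (h1mem w).2 ⟨by omega, hwk⟩, ?_, ?_, ?_⟩
            · rcases hp with h | h
              · exact Or.inl (Or.inl h)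
              · exact Or.inr (Or.inl h)
            · rw [base1_idx hw1 hwk]; omega
            · rw [base1_idx hv2 hv.2]; omega)
      exact ⟨.oneInversion, ops, _, ⟨hpr, rfl⟩, hops⟩
    · -- Twin Sophie Germain
      obtain ⟨t, htp, htp2, htp3, hk1, ht20, hg1, hg2, hgt, hgt2, hc⟩ := C.case2 h2
      have hperm : (exch t (t + 2) (List.range' 3 (k - 2) ++ [2, 1])).Perm (List.range' 1 k) :=
        (exch_perm hnd2 ((h2mem t).2 (by omega)) ((h2mem (t + 2)).2 (by omega))).trans
          (base2_perm (by omega))
      have hcomp : ∀ v, 1 ≤ v → v ≤ k →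
          (exch t (t + 2) (List.range' 3 (k - 2) ++ [2, 1])).idxOf v =
            if v = 1 then k - 1 else if v = 2 then k - 2 else if v = t then t - 1
            else if v = t + 2 then t - 3 else v - 3 := by
        intro v hv1 hvk
        rw [idxOf_exch, swap_val]
        split_ifs with e1 e2 e3 e4 e5 e6 e7 e8
        · omega
        · omega
        · rw [base2_idx (by omega) (by omega)]; omega
        · omega
        · omega
        · rw [base2_idx (by omega) (by omega)]
        · rw [e7, base2_idx_one (by omega)]
        · rw [e8, base2_idx_two]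
        · rw [base2_idx (by omega) (by omega)]
      obtain ⟨ops, hops⟩ := exists_derives (k := k)
        (s₀ := exch t (t + 2) (List.range' 3 (k - 2) ++ [2, 1]))
        .twinSophieGermain _ s hnd (hs.trans hperm.symm) rfl (by
        intro v hv
        rw [mem_range1 hperm] at hv
        have hgv := hg v hv.1 hv.2
        rw [hcomp v hv.1 hv.2]
        by_cases e1 : v = 1
        · left; subst e1; rw [if_pos rfl]; omega
        by_cases e2 : v = 2
        · left; subst e2; rw [if_neg (by omega), if_pos rfl]; omega
        by_cases e3 : v = t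
        · left; subst e3; rw [if_neg e1, if_neg e2, if_pos rfl]; omega
        by_cases e4 : v = t + 2
        · left; subst e4; rw [if_neg e1, if_neg e2, if_neg e3, if_pos rfl]; omega
        rw [if_neg e1, if_neg e2, if_neg e3, if_neg e4]
        rcases hc v (by omega) hv.2 e3 e4 with h | ⟨w, hw3, hwk, hw1, hw2, hp, h3, h4⟩
        · left; omega
        · right
          have hgw := hg w (by omega) hwk
          refine ⟨w, (mem_range1 hperm).2 ⟨by omega, hwk⟩, ?_, ?_, ?_⟩
          · rcases hp with h | h | h | h
            · exact Or.inl (Or.inl h)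
            · exact Or.inr (Or.inl h)
            · exact Or.inl (Or.inr ⟨rfl, h⟩)
            · exact Or.inr (Or.inr ⟨rfl, h⟩)
          · rw [hcomp w (by omega) hwk, if_neg (by omega), if_neg (by omega), if_neg hw1,
              if_neg hw2]
            omega
          · omega)
      exact ⟨.twinSophieGermain, ops, _, ⟨t, htp, htp2, htp3, hk1, rfl⟩, hops⟩
  · push Not at hnb
    obtain ⟨p, hp, hb, h2p⟩ := hnb
    rcases (show N = 0 ∨ N = 1 ∨ N = 2 by omega) with h0 | h1 | h2
    · -- Twice Twin Prime
      obtain ⟨hp2, hkp, hp20, hg2, hg2p, hgp, hgp2, hc⟩ := C.caseB0 h0 hp hb h2p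
      have hm : (exch p (p + 2) (List.range' 1 k)).Perm (List.range' 1 k) :=
        exch_perm hnd0 ((hmem p).2 (by omega)) ((hmem (p + 2)).2 (by omega))
      have hperm : (exch 2 (2 * p) (exch p (p + 2) (List.range' 1 k))).Perm (List.range' 1 k) :=
        (exch_perm (exch_nodup hnd0) ((mem_range1 hm).2 (by omega))
          ((mem_range1 hm).2 (by omega))).trans hm
      have hcomp : ∀ v, 1 ≤ v → v ≤ k →
          (exch 2 (2 * p) (exch p (p + 2) (List.range' 1 k))).idxOf v =
            if v = 2 then 2 * p - 1 else if v = 2 * p then 1 else if v = p then p + 1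
            else if v = p + 2 then p - 1 else v - 1 := by
        intro v hv1 hvk
        rw [idxOf_exch, idxOf_exch, swap_val, swap_val]
        split_ifs <;> first | omega | (rw [base0_idx (by omega) (by omega)]; try omega)
      obtain ⟨ops, hops⟩ := exists_derives (k := k)
        (s₀ := exch 2 (2 * p) (exch p (p + 2) (List.range' 1 k)))
        .twiceTwinPrime _ s hnd (hs.trans hperm.symm) rfl (by
        intro v hv
        rw [mem_range1 hperm] at hv
        have hgv := hg v hv.1 hv.2
        rw [hcomp v hv.1 hv.2]
        by_cases e1 : v = 2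
        · left; subst e1; rw [if_pos rfl]; omega
        by_cases e2 : v = 2 * p
        · left; subst e2; rw [if_neg e1, if_pos rfl]; omega
        by_cases e3 : v = p
        · left; subst e3; rw [if_neg e1, if_neg e2, if_pos rfl]; omega
        by_cases e4 : v = p + 2
        · left; subst e4; rw [if_neg e1, if_neg e2, if_neg e3, if_pos rfl]; omega
        rw [if_neg e1, if_neg e2, if_neg e3, if_neg e4]
        rcases hc v hv.1 hv.2 e1 e3 e4 e2 with h | ⟨w, hw1, hwk, n1, n2, n3, n4, hp', h3, h4⟩
        · left; omega
        · right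
          have hgw := hg w (by omega) hwk
          refine ⟨w, (mem_range1 hperm).2 ⟨by omega, hwk⟩, ?_, ?_, ?_⟩
          · rcases hp' with h | h
            · exact Or.inl (Or.inl h)
            · exact Or.inr (Or.inl h)
          · rw [hcomp w (by omega) hwk, if_neg n1, if_neg n4, if_neg n2, if_neg n3]
            omega
          · omega)
      exact ⟨.twiceTwinPrime, ops, _, ⟨p, hp, hp2, hkp, rfl⟩, hops⟩
    · -- the fifth family
      obtain ⟨hp2, hkp, hp3, hp20, hg1, hg2, hg2p, hgp, hgp2, hc⟩ := C.caseB1 h1 hp hb h2p
      have hm : (exch p (p + 2) (List.range' 2 (k - 1) ++ [1])).Perm (List.range' 1 k) :=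
        (exch_perm hnd1 ((h1mem p).2 (by omega)) ((h1mem (p + 2)).2 (by omega))).trans
          (base1_perm (by omega))
      have hmnd : (exch p (p + 2) (List.range' 2 (k - 1) ++ [1])).Nodup := exch_nodup hnd1
      have hperm : (exch 2 (2 * p) (exch p (p + 2) (List.range' 2 (k - 1) ++ [1]))).Perm
          (List.range' 1 k) :=
        (exch_perm hmnd ((mem_range1 hm).2 (by omega))
          ((mem_range1 hm).2 (by omega))).trans hm
      have hcomp : ∀ v, 1 ≤ v → v ≤ k →
          (exch 2 (2 * p) (exch p (p + 2) (List.range' 2 (k - 1) ++ [1]))).idxOf v =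
            if v = 1 then k - 1 else if v = 2 then 2 * p - 2 else if v = 2 * p then 0
            else if v = p then p else if v = p + 2 then p - 2 else v - 2 := by
        intro v hv1 hvk
        rw [idxOf_exch, idxOf_exch]
        by_cases e0 : v = 1
        · subst e0
          rw [swap_ne (a := 2) (b := 2 * p) (v := 1) (by omega) (by omega),
            swap_ne (by omega) (by omega), base1_idx_one, if_pos rfl]
        · rw [if_neg e0, swap_val, swap_val]
          split_ifs <;> first | omega | (rw [base1_idx (by omega) (by omega)]; try omega)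
      obtain ⟨ops, hops⟩ := exists_derives (k := k)
        (s₀ := exch 2 (2 * p) (exch p (p + 2) (List.range' 2 (k - 1) ++ [1])))
        .twiceTwinPrimeInversion _ s hnd (hs.trans hperm.symm) rfl (by
        intro v hv
        rw [mem_range1 hperm] at hv
        have hgv := hg v hv.1 hv.2
        rw [hcomp v hv.1 hv.2]
        by_cases e0 : v = 1
        · left; subst e0; rw [if_pos rfl]; omega
        by_cases e1 : v = 2
        · left; subst e1; rw [if_neg e0, if_pos rfl]; omega
        by_cases e2 : v = 2 * p
        · left; subst e2; rw [if_neg e0, if_neg e1, if_pos rfl]; omega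
        by_cases e3 : v = p
        · left; subst e3; rw [if_neg e0, if_neg e1, if_neg e2, if_pos rfl]; omega
        by_cases e4 : v = p + 2
        · left; subst e4; rw [if_neg e0, if_neg e1, if_neg e2, if_neg e3, if_pos rfl]; omega
        rw [if_neg e0, if_neg e1, if_neg e2, if_neg e3, if_neg e4]
        rcases hc v (by omega) hv.2 e1 e3 e4 e2 with h | ⟨w, hw1, hwk, n1, n2, n3, n4, hp', h3, h4⟩
        · left; omega
        · right
          have hgw := hg w (by omega) hwk
          refine ⟨w, (mem_range1 hperm).2 ⟨by omega, hwk⟩, ?_, ?_, ?_⟩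
          · rcases hp' with h | h
            · exact Or.inl (Or.inl h)
            · exact Or.inr (Or.inl h)
          · rw [hcomp w (by omega) hwk, if_neg (by omega), if_neg n1, if_neg n4, if_neg n2,
              if_neg n3]
            omega
          · omega)
      exact ⟨.twiceTwinPrimeInversion, ops, _, ⟨p, hp, hp2, hp3, hkp, rfl⟩, hops⟩
    · -- impossible
      have := (C.caseB hp hb h2p).1
      omega

theorem complete_large (hk : 42 ≤ k) (h2 : R (k / 2)) (h3 : R (k / 3)) (h : IsWCS k s) :
    ∃ T ops, IsDerivation k T ops s := by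
  have S := h.sys
  obtain ⟨N2, hN2, hF | hF⟩ := h2 _ (S.der (m := 2) (by norm_num) (by omega))
  · obtain ⟨N, C⟩ := mk_ctx S hk hN2 hF h3
    exact derive_fwd C h.1 (fun v _ _ => rfl)
  · obtain ⟨N, C⟩ := mk_ctx S.rev hk hN2 (by
      intro v hv hvk hs
      have hv6 := hv.six_le
      rw [der_rev S (by norm_num) (by omega) (by omega) hvk]
      exact hF v hv hvk hs) h3
    obtain ⟨T, ops, s₀, h4, h5⟩ := derive_fwd (s := s.reverse) C
      ((List.reverse_perm s).trans h.1) (by
      intro v hv1 hvk
      have := idxOf_reverse h.nodup (h.mem.2 ⟨hv1, hvk⟩)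
      rw [h.length] at this
      unfold rev
      beta_reduce
      omega)
    exact ⟨T, _, s₀, h4, h5.reverse⟩

end Pool.Agent.H33.Wcs
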