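import Pool.Agent.H33.WcsCases

set_option autoImplicit false

/-!
Link between lists and slot functions.
-/

namespace Pool.Agent.H33.Wcs

variable {k : ℕ} {s s₀ : List ℕ}

lemma mem_range1 {v : ℕ} (h : s.Perm (List.range' 1 k)) : v ∈ s ↔ 1 ≤ v ∧ v ≤ k := by
  rw [h.mem_iff, List.mem_range'_1]
  omega

lemma IsWCS.nodup (h : IsWCS k s) : s.Nodup := h.1.nodup_iff.2 List.nodup_range'

lemma IsWCS.length (h : IsWCS k s) : s.length = k := by
  rw [h.1.length_eq, List.length_range']

lemma IsWCS.mem (h : IsWCS k s) {v : ℕ} : v ∈ s ↔ 1 ≤ v ∧ v ≤ k := mem_range1 h.1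

lemma IsWCS.cong (h : IsWCS k s) {m v w : ℕ} (hv : v ∈ s) (hw : w ∈ s) (hm : m ∣ v)
    (hc : s.idxOf v ≡ s.idxOf w [MOD m]) : m ∣ w := by
  have hv' := List.idxOf_lt_length_of_mem hv
  have hw' := List.idxOf_lt_length_of_mem hw
  have := h.2 (s.idxOf v) (s.idxOf w) hv' hw' (m : ℤ) (by
    rw [List.getElem_idxOf]; exact_mod_cast hm) (by
    have := (Nat.modEq_iff_dvd.1 hc.symm)
    exact this)
  rw [List.getElem_idxOf] at this
  exact_mod_cast this

lemma IsWCS.sys (h : IsWCS k s) : Sys k 0 (fun v => s.idxOf v + 1) := by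
  have hlen := h.length
  have hnd := h.nodup
  refine ⟨?_, ?_, ?_, ?_⟩
  · intro v _ _
    omega
  · intro v hv1 hvk
    have := List.idxOf_lt_length_of_mem (h.mem.2 ⟨hv1, hvk⟩)
    omega
  · intro v w hv1 hvk hw1 hwk hvw
    have h1 : s.idxOf v = s.idxOf w := by omega
    exact (List.idxOf_inj (h.mem.2 ⟨hv1, hvk⟩)).1 h1
  · intro m v w hv1 hvk hw1 hwk hmv
    have hvs := h.mem.2 ⟨hv1, hvk⟩
    have hws := h.mem.2 ⟨hw1, hwk⟩
    have hm1 : 1 ≤ m := Nat.pos_of_dvd_of_pos hmv hv1
    have hmk : m ≤ k := (Nat.le_of_dvd hv1 hmv).trans hvk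
    constructor
    · intro hmw
      apply Nat.ModEq.add_right
      -- counting
      set r := s.idxOf v % m with hr
      have hrm : r < m := Nat.mod_lt _ hm1
      have hlt : ∀ i, i < k / m → r + i * m < s.length := by
        intro i hi
        have h1 : (i + 1) * m ≤ (k / m) * m := Nat.mul_le_mul_right m hi
        have h2 := Nat.div_mul_le_self k m
        have h3 : (i + 1) * m = i * m + m := by ring
        omega
      have hf : ∀ i : ℕ, i ∈ Finset.range (k / m) →
          ∃ j, j ∈ Finset.Icc 1 (k / m) ∧ ∀ (hi : r + i * m < s.length), s[r + i * m] = m * j := by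
        intro i hi
        rw [Finset.mem_range] at hi
        have hli := hlt i hi
        have h1 : s[r + i * m] ∈ s := List.getElem_mem hli
        have h2 : s.idxOf (s[r + i * m]) = r + i * m := List.Nodup.idxOf_getElem hnd _ hli
        have h3 : m ∣ s[r + i * m] := by
          apply h.cong hvs h1 hmv
          rw [h2, Nat.ModEq, Nat.add_mul_mod_self_right, Nat.mod_mod]
        obtain ⟨j, hj⟩ := h3
        have h4 := h.mem.1 h1
        refine ⟨j, ?_, fun _ => hj⟩
        rw [hj] at h4
        rw [Finset.mem_Icc]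
        constructor
        · exact Nat.pos_of_ne_zero (by rintro rfl; simp at h4)
        · rw [Nat.le_div_iff_mul_le hm1, mul_comm]; exact h4.2
      choose! f hf1 hf2 using hf
      obtain ⟨j, rfl⟩ := hmw
      have hj : j ∈ Finset.Icc 1 (k / m) := by
        rw [Finset.mem_Icc]
        constructor
        · exact Nat.pos_of_ne_zero (by rintro rfl; simp at hw1)
        · rw [Nat.le_div_iff_mul_le hm1, mul_comm]; exact hwk
      have hinj : Set.InjOn f (Finset.range (k / m)) := by
        intro a ha b hb hab
        simp only [Finset.coe_range, Set.mem_Iio] at ha hb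
        have e1 := hf2 a (Finset.mem_range.2 ha) (hlt a ha)
        have e2 := hf2 b (Finset.mem_range.2 hb) (hlt b hb)
        rw [hab, ← e2] at e1
        have e3 := (List.Nodup.getElem_inj_iff hnd).1 e1
        have : a * m = b * m := by omega
        exact Nat.eq_of_mul_eq_mul_right hm1 this
      have himg : (Finset.range (k / m)).image f = Finset.Icc 1 (k / m) := by
        apply Finset.eq_of_subset_of_card_le
        · intro y hy
          rw [Finset.mem_image] at hy
          obtain ⟨i, hi, rfl⟩ := hy
          exact hf1 i hi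
        · rw [Finset.card_image_of_injOn hinj, Finset.card_range, Nat.card_Icc,
            Nat.add_sub_cancel]
      rw [← himg, Finset.mem_image] at hj
      obtain ⟨i, hi, rfl⟩ := hj
      rw [Finset.mem_range] at hi
      have e := hf2 i (Finset.mem_range.2 hi) (hlt i hi)
      rw [← e, List.Nodup.idxOf_getElem hnd _ (hlt i hi), Nat.ModEq,
        Nat.add_mul_mod_self_right, Nat.mod_mod]
    · intro hc
      exact h.cong hvs hws hmv (Nat.ModEq.add_right_cancel' 1 hc)

/-! ### lists with a swap -/

lemma swap_ne {a b v : ℕ} (h1 : v ≠ a) (h2 : v ≠ b) : Equiv.swap a b v = v :=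
  Equiv.swap_apply_of_ne_of_ne h1 h2

lemma idxOf_map_inj {f : ℕ → ℕ} (hf : Function.Injective f) (v : ℕ) (s : List ℕ) :
    (s.map f).idxOf (f v) = s.idxOf v := by
  induction s with
  | nil => rfl
  | cons a s ih =>
    rw [List.map_cons, List.idxOf_cons, List.idxOf_cons, ih]
    by_cases h : a = v
    · subst h; simp
    · have h2 : f a ≠ f v := fun h' => h (hf h')
      rw [beq_false_of_ne h, beq_false_of_ne h2]

lemma idxOf_exch (a b v : ℕ) (s : List ℕ) :
    (exch a b s).idxOf v = s.idxOf (Equiv.swap a b v) := by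
  unfold exch
  conv_lhs => rw [← Equiv.swap_apply_self a b v]
  exact idxOf_map_inj (Equiv.swap a b).injective _ _

lemma exch_exch (a b : ℕ) (s : List ℕ) : exch a b (exch a b s) = s := by
  unfold exch
  rw [List.map_map]
  conv_rhs => rw [← List.map_id s]
  congr 1
  funext x
  simp

lemma exch_mem {a b v : ℕ} (ha : a ∈ s) (hb : b ∈ s) : v ∈ exch a b s ↔ v ∈ s := by
  unfold exch
  rw [List.mem_map]
  constructor
  · rintro ⟨x, hx, rfl⟩
    rw [Equiv.swap_apply_def]
    split_ifs
    · exact hb
    · exact ha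
    · exact hx
  · intro hv
    refine ⟨Equiv.swap a b v, ?_, by simp⟩
    rw [Equiv.swap_apply_def]
    split_ifs
    · exact hb
    · exact ha
    · exact hv

lemma exch_nodup {a b : ℕ} (h : s.Nodup) : (exch a b s).Nodup :=
  List.Nodup.map (Equiv.swap a b).injective h

lemma exch_perm {a b : ℕ} (hs : s.Nodup) (ha : a ∈ s) (hb : b ∈ s) : (exch a b s).Perm s :=
  (List.perm_ext_iff_of_nodup (exch_nodup hs) hs).2 (fun _ => exch_mem ha hb)

lemma list_eq_of_idxOf (hs : s.Nodup) (hs₀ : s₀.Nodup) (hp : s.Perm s₀)
    (h : ∀ v, v ∈ s → s.idxOf v = s₀.idxOf v) : s = s₀ := by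
  apply List.ext_getElem hp.length_eq
  intro i h1 h2
  have h3 := h (s[i]) (List.getElem_mem h1)
  rw [List.Nodup.idxOf_getElem hs _ h1] at h3
  have h4 : s[i] ∈ s₀ := hp.mem_iff.1 (List.getElem_mem h1)
  have h5 : s₀[s₀.idxOf s[i]]'(List.idxOf_lt_length_of_mem h4) = s[i] := List.getElem_idxOf _
  simp only [← h3] at h5
  exact h5.symm

/-- allowed pairs -/
def APair (k : ℕ) (T : Start) (a b : ℕ) : Prop :=
  PPPair k a b ∨ (T = .twinSophieGermain ∧ TwinPair k a b)

/-- a sequence which differs from the starting sequence by disjoint allowed exchanges has a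
derivation -/
theorem exists_derives (T : Start) :
    ∀ (n : ℕ) (s : List ℕ), s.Nodup → s.Perm s₀ →
      (s₀.toFinset.filter (fun v => s.idxOf v ≠ s₀.idxOf v)).card = n →
      (∀ v, v ∈ s₀ → s.idxOf v = s₀.idxOf v ∨ ∃ w, w ∈ s₀ ∧ (APair k T v w ∨ APair k T w v) ∧
        s.idxOf v = s₀.idxOf w ∧ s.idxOf w = s₀.idxOf v) →
      ∃ ops, Derives k T s₀ ops s := by
  intro n
  induction n using Nat.strong_induction_on with
  | _ n ih =>
    intro s hs hp hcard hcore
    have hs₀ : s₀.Nodup := hp.nodup_iff.1 hs
    by_cases hall : ∀ v, v ∈ s → s.idxOf v = s₀.idxOf v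
    · have := list_eq_of_idxOf hs hs₀ hp hall
      subst this
      exact ⟨[], Derives.start⟩
    · push Not at hall
      obtain ⟨v, hv, hne⟩ := hall
      have hv0 : v ∈ s₀ := hp.mem_iff.1 hv
      -- the pair
      obtain ⟨a, b, ha, hb, hab, h1, h2, hab'⟩ : ∃ a b, a ∈ s₀ ∧ b ∈ s₀ ∧ APair k T a b ∧
          s.idxOf a = s₀.idxOf b ∧ s.idxOf b = s₀.idxOf a ∧ s.idxOf a ≠ s₀.idxOf a := by
        rcases hcore v hv0 with h | ⟨w, hw, hvw | hvw, h1, h2⟩
        · exact absurd h hne
        · exact ⟨v, w, hv0, hw, hvw, h1, h2, hne⟩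
        · refine ⟨w, v, hw, hv0, hvw, h2, h1, ?_⟩
          intro h
          rw [h] at h2
          exact hne (h1.trans h2)
      have hane : a ≠ b := by
        rintro rfl
        exact hab' h1
      have has : a ∈ s := hp.mem_iff.2 ha
      have hbs : b ∈ s := hp.mem_iff.2 hb
      set s' := exch a b s with hs'
      have hs'nd : s'.Nodup := exch_nodup hs
      have hs'p : s'.Perm s₀ := (exch_perm hs has hbs).trans hp
      have ea : s'.idxOf a = s₀.idxOf a := by
        rw [hs', idxOf_exch, Equiv.swap_apply_left, h2]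
      have eb : s'.idxOf b = s₀.idxOf b := by
        rw [hs', idxOf_exch, Equiv.swap_apply_right, h1]
      have eu : ∀ u, u ≠ a → u ≠ b → s'.idxOf u = s.idxOf u := by
        intro u hu1 hu2
        rw [hs', idxOf_exch, swap_ne hu1 hu2]
      have hlt : (s₀.toFinset.filter (fun v => s'.idxOf v ≠ s₀.idxOf v)).card < n := by
        rw [← hcard]
        apply Finset.card_lt_card
        rw [Finset.ssubset_iff_of_subset]
        · refine ⟨a, ?_, ?_⟩
          · rw [Finset.mem_filter, List.mem_toFinset]
            exact ⟨ha, hab'⟩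
          · rw [Finset.mem_filter]
            exact fun h => h.2 ea
        · intro u hu
          rw [Finset.mem_filter] at hu ⊢
          refine ⟨hu.1, ?_⟩
          by_cases hua : u = a
          · subst hua; exact hab'
          by_cases hub : u = b
          · subst hub; exact absurd eb hu.2
          rw [← eu u hua hub]
          exact hu.2
      obtain ⟨ops, hops⟩ := ih _ hlt s' hs'nd hs'p rfl (by
        intro u hu
        by_cases hua : u = a
        · subst hua; left; exact ea
        by_cases hub : u = b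
        · subst hub; left; exact eb
        rcases hcore u hu with h | ⟨w, hw, hp', h3, h4⟩
        · left; rw [eu u hua hub, h]
        · right
          refine ⟨w, hw, hp', by rw [eu u hua hub, h3], ?_⟩
          have hwa : w ≠ a := by
            rintro rfl
            rw [h1] at h4
            exact hub ((List.idxOf_inj hb).1 h4).symm
          have hwb : w ≠ b := by
            rintro rfl
            rw [h2] at h4
            exact hua ((List.idxOf_inj ha).1 h4).symm
          rw [eu w hwa hwb, h4])
      refine ⟨ops ++ [Move.swap a b], ?_⟩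
      have hstep := Derives.step (m := Move.swap a b) hops (by
        rcases hab with h | ⟨h, h'⟩
        · exact Or.inl h
        · exact Or.inr ⟨h, h', ea, eb⟩)
      have e : (Move.swap a b).apply s' = s := by
        show exch a b s' = s
        rw [hs', exch_exch]
      rw [e] at hstep
      exact hstep

/-! ### reversal -/

lemma idxOf_reverse (hs : s.Nodup) {v : ℕ} (hv : v ∈ s) :
    s.reverse.idxOf v + s.idxOf v + 1 = s.length := by
  have h1 := List.idxOf_lt_length_of_mem hv
  have h2 : s.length - 1 - s.idxOf v < s.reverse.length := by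
    rw [List.length_reverse]; omega
  have h3 : s.reverse[s.length - 1 - s.idxOf v] = v := by
    rw [List.getElem_reverse]
    have e : s.length - 1 - (s.length - 1 - s.idxOf v) = s.idxOf v := by omega
    simp only [e]
    exact List.getElem_idxOf _
  have h4 : s.reverse.idxOf (s.reverse[s.length - 1 - s.idxOf v]) = s.length - 1 - s.idxOf v :=
    List.Nodup.idxOf_getElem (List.nodup_reverse.2 hs) _ h2
  rw [h3] at h4
  omega

lemma Derives.reverse {T : Start} {ops : List Move} (h : Derives k T s₀ ops s.reverse) :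
    Derives k T s₀ (ops ++ [Move.reversal]) s := by
  have := Derives.step (m := Move.reversal) h trivial
  have e : Move.reversal.apply s.reverse = s := List.reverse_reverse s
  rw [e] at this
  exact this

/-! ### positions in the starting sequences -/

lemma idxOf_range' (a n v : ℕ) (h1 : a ≤ v) (h2 : v < a + n) : (List.range' a n).idxOf v = v - a := by
  have hlt : v - a < (List.range' a n).length := by rw [List.length_range']; omega
  have h3 : (List.range' a n)[v - a] = v := by
    rw [List.getElem_range']; omega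
  have h4 := List.Nodup.idxOf_getElem (List.nodup_range' (s := a) (n := n) (step := 1)) (v - a) hlt
  rw [h3] at h4
  exact h4

lemma base0_idx {v : ℕ} (h1 : 1 ≤ v) (h2 : v ≤ k) : (List.range' 1 k).idxOf v = v - 1 :=
  idxOf_range' 1 k v h1 (by omega)

lemma base1_idx {v : ℕ} (h1 : 2 ≤ v) (h2 : v ≤ k) :
    (List.range' 2 (k - 1) ++ [1]).idxOf v = v - 2 := by
  rw [List.idxOf_append_of_mem (by rw [List.mem_range'_1]; omega)]
  exact idxOf_range' 2 (k - 1) v h1 (by omega)

lemma base1_idx_one : (List.range' 2 (k - 1) ++ [1]).idxOf 1 = k - 1 := by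
  rw [List.idxOf_append_of_notMem (by rw [List.mem_range'_1]; omega)]
  simp

lemma base2_idx {v : ℕ} (h1 : 3 ≤ v) (h2 : v ≤ k) :
    (List.range' 3 (k - 2) ++ [2, 1]).idxOf v = v - 3 := by
  rw [List.idxOf_append_of_mem (by rw [List.mem_range'_1]; omega)]
  exact idxOf_range' 3 (k - 2) v h1 (by omega)

lemma base2_idx_two : (List.range' 3 (k - 2) ++ [2, 1]).idxOf 2 = k - 2 := by
  rw [List.idxOf_append_of_notMem (by rw [List.mem_range'_1]; omega)]
  simp

lemma base2_idx_one (hk : 2 ≤ k) : (List.range' 3 (k - 2) ++ [2, 1]).idxOf 1 = k - 1 := by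
  rw [List.idxOf_append_of_notMem (by rw [List.mem_range'_1]; omega)]
  have : [2, 1].idxOf 1 = 1 := by decide
  rw [this, List.length_range']
  omega

lemma base1_perm (hk : 1 ≤ k) : (List.range' 2 (k - 1) ++ [1]).Perm (List.range' 1 k) := by
  have e : List.range' 1 k = 1 :: List.range' 2 (k - 1) := by
    obtain ⟨n, rfl⟩ : ∃ n, k = n + 1 := ⟨k - 1, by omega⟩
    rw [List.range'_succ]
    rfl
  rw [e]
  exact List.perm_append_singleton 1 _

lemma base2_perm (hk : 2 ≤ k) : (List.range' 3 (k - 2) ++ [2, 1]).Perm (List.range' 1 k) := by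
  have e : List.range' 1 k = [1, 2] ++ List.range' 3 (k - 2) := by
    obtain ⟨n, rfl⟩ : ∃ n, k = n + 1 + 1 := ⟨k - 2, by omega⟩
    rw [List.range'_succ, List.range'_succ]
    rfl
  rw [e]
  refine List.perm_append_comm.trans ?_
  apply List.Perm.append_right
  exact List.Perm.swap 1 2 []

end Pool.Agent.H33.Wcs
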