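import Pool.Agent.H33.WcsStep

set_option autoImplicit false

namespace Pool.Agent.H33.Wcs

variable {k N : ℕ} {g : ℕ → ℕ}

lemma mod_three (t : ℕ) : t % 3 = 0 ∨ (t + 2) % 3 = 0 ∨ (t + 4) % 3 = 0 := by omega

/-- the shift is at most two -/
lemma Ctx.N_le (C : Ctx k N g) : N ≤ 2 := by
  by_contra hN3
  push Not at hN3
  have hk := C.hk
  have hN := C.hN
  have h6 : ∀ y, 6 ∣ y → k < y → N + k < y := fun y h h' =>
    C.no_ghost (by omega) C.good6 (by omega) h h'
  have hk6 : k % 6 = 0 ∨ k % 6 = 1 ∨ k % 6 = 2 := by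
    by_contra hcon
    have h := h6 (k + (6 - k % 6)) (by omega) (by omega)
    omega
  obtain ⟨y, hy1, hy2, hy3⟩ : ∃ y, k < y ∧ y ≤ k + 3 ∧ y % 6 = 3 := by
    refine ⟨k + 3 - k % 6, ?_, ?_, ?_⟩ <;> omega
  obtain ⟨t, rfl⟩ : ∃ t, y = 3 * t := ⟨y / 3, by omega⟩
  have ht14 : 15 ≤ t := by omega
  have key : ∀ u, u.Prime → u ∣ t → k < 6 * u := by
    intro u hu hut
    have hule := Nat.le_of_dvd (by omega) hut
    have huy : u ∣ 3 * t := hut.mul_left _
    have hu5 : 5 < u := by
      have := hu.two_le
      by_contra hcon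
      push Not at hcon
      interval_cases u
      · omega
      · obtain ⟨c, rfl⟩ := hut
        have := C.no_ghost (m := 9) (by omega) C.good9 (by omega)
          (y := 3 * (3 * c)) ⟨c, by ring⟩ hy1
        omega
      · exact absurd hu (by norm_num)
      · obtain ⟨c, rfl⟩ := hut
        have := C.no_ghost (m := 15) (by omega) C.good15 (by omega)
          (y := 3 * (5 * c)) ⟨c, by ring⟩ hy1
        omega
    have hbad : ¬ Good g u := by
      intro hg
      have := C.no_ghost (by omega) hg (by omega) huy hy1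
      omega
    exact C.not_good (by omega) hbad
  have htp : t.Prime := by
    rcases prime_or_one hk (z := t) (by omega) (by omega) key with h | h
    · omega
    · exact h
  have htbad : ¬ Good g t := by
    intro hg
    have := C.no_ghost (by omega) hg (by omega) (y := 3 * t) (Dvd.intro_left _ rfl) hy1
    omega
  have h2t : 2 * t ≤ k := by omega
  obtain ⟨x1, hx1, hx1', hx1'', _, hw⟩ := C.window (m := t) (by omega) (by omega)
  have hdiv : k / t = 2 := by
    rw [Nat.div_eq_iff (by omega)]
    constructor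
    · omega
    · omega
  rw [hdiv] at hx1'' hw
  obtain ⟨i, hi, hgi⟩ := hw (2 * t) (by omega) h2t (Dvd.intro_left _ rfl)
  obtain ⟨j, hj, hgj⟩ := hw t (by omega) (by omega) dvd_rfl
  have hij : i ≠ j := by
    rintro rfl
    have := C.inj t (2 * t) (by omega) (by omega) (by omega) h2t (by rw [hgi, hgj])
    omega
  obtain ⟨z, hz, hz'⟩ := C.g2s htp htbad h2t
  have hlo := C.lo (2 * t) (by omega) h2t
  have hhi := C.hi (2 * t) (by omega) h2t
  rcases hz' with rfl | ⟨hzp, hzt, hz2, hzb⟩
  · omega
  have hzk : z ≤ k := by omega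
  have hzb := C.bad_prime hzp (hzb hzk) hzk
  interval_cases i
  · -- `g (2t) = x1`
    have ht16 : t ≤ 16 := by omega
    interval_cases t
    · exact absurd htp (by norm_num)
    · exact absurd htp (by norm_num)
  · have hj0 : j = 0 := by omega
    subst hj0
    have hzt2 : z = t + 2 := by
      by_contra hne
      have hzt1 : z = t + 1 := by omega
      have : z % 2 = 0 := by omega
      have := (Nat.Prime.eq_two_or_odd hzp)
      omega
    have hgt : g t = t + 4 := by omega
    rcases C.gs htp htbad (by omega) with h | ⟨h, _⟩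
    · omega
    rw [hgt] at h
    rw [hzt2] at hzp
    rcases mod_three t with h3 | h3 | h3
    · have := (Nat.prime_dvd_prime_iff_eq Nat.prime_three htp).1 (Nat.dvd_of_mod_eq_zero h3)
      omega
    · have := (Nat.prime_dvd_prime_iff_eq Nat.prime_three hzp).1 (Nat.dvd_of_mod_eq_zero h3)
      omega
    · have := (Nat.prime_dvd_prime_iff_eq Nat.prime_three h).1 (Nat.dvd_of_mod_eq_zero h3)
      omega

/-- the smallest bad prime up to `k/2` -/
lemma Ctx.bad_min (C : Ctx k N g) {s : ℕ} (hs : s.Prime) (hb : ¬ Good g s) (h2 : 2 * s ≤ k)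
    (hmin : ∀ u, u.Prime → ¬ Good g u → s ≤ u) :
    g (2 * s) = 2 ∧ N + k < 2 + 2 * s ∧ g s = s + 2 := by
  have hk := C.hk
  have hN := C.N_le
  obtain ⟨hk6, hk4⟩ := C.bad_prime hs hb (by omega)
  have hsodd : s % 2 = 1 := by
    rcases hs.eq_two_or_odd with h | h
    · omega
    · exact h
  obtain ⟨x1, hx1, hx1', hx1'', _, hw⟩ := C.window (m := s) (by omega) (by omega)
  have hbig : ∀ z, z.Prime → z ≠ s → (z ≤ k → ¬ Good g z) → z ≤ k → s + 2 ≤ z := by
    intro z hz hzs hzb hzk
    have h1 := hmin z hz (hzb hzk)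
    rcases hz.eq_two_or_odd with h | h
    · omega
    · omega
  rcases Nat.lt_or_ge k (4 * s) with h4 | h4
  · rcases Nat.lt_or_ge k (3 * s) with h3 | h3
    · -- H = 2
      have hdiv : k / s = 2 := by
        rw [Nat.div_eq_iff (by omega)]; omega
      rw [hdiv] at hx1'' hw
      obtain ⟨i, hi, hgi⟩ := hw (2 * s) (by omega) h2 (Dvd.intro_left _ rfl)
      obtain ⟨j, hj, hgj⟩ := hw s (by omega) (by omega) dvd_rfl
      have hij : i ≠ j := by
        rintro rfl
        have := C.inj s (2 * s) (by omega) (by omega) (by omega) h2 (by rw [hgi, hgj])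
        omega
      have his : i * s ≤ 1 * s := Nat.mul_le_mul_right s (by omega)
      obtain ⟨z, hz, hz'⟩ := C.g2s hs hb h2
      rcases hz' with rfl | ⟨hzp, hzt, hz2, hzb⟩
      · have hi0 : i = 0 := by
          by_contra hne
          have : 1 * s ≤ i * s := Nat.mul_le_mul_right s (by omega)
          omega
        subst hi0
        have hj1 : j = 1 := by omega
        subst hj1
        refine ⟨by omega, by omega, by omega⟩
      · have := hbig z hzp hzt hzb (by omega)
        omega
    · -- H = 3
      exfalso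
      have hdiv : k / s = 3 := by
        rw [Nat.div_eq_iff (by omega)]; omega
      rw [hdiv] at hx1'' hw
      obtain ⟨i, hi, hgi⟩ := hw (2 * s) (by omega) h2 (Dvd.intro_left _ rfl)
      obtain ⟨j, hj, hgj⟩ := hw (3 * s) (by omega) h3 (Dvd.intro_left _ rfl)
      have hij : i ≠ j := by
        rintro rfl
        have := C.inj (3 * s) (2 * s) (by omega) (by omega) (by omega) h2 (by rw [hgi, hgj])
        omega
      have his : i * s ≤ 2 * s := Nat.mul_le_mul_right s (by omega)
      have hjs : j * s ≤ 2 * s := Nat.mul_le_mul_right s (by omega)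
      obtain ⟨z, hz, hz'⟩ := C.g2s hs hb h2
      obtain ⟨y, hy, hy'⟩ := C.g3s hs hb h3
      rcases hy' with rfl | ⟨hyp, hyt, hy2, hyb⟩
      · have hj0 : j = 0 := by
          by_contra hne
          have : 1 * s ≤ j * s := Nat.mul_le_mul_right s (by omega)
          omega
        subst hj0
        rcases hz' with rfl | ⟨hzp, hzt, hz2, hzb⟩
        · have : 1 * s ≤ i * s := Nat.mul_le_mul_right s (by omega)
          omega
        · have := hbig z hzp hzt hzb (by omega)
          omega
      · have := hbig y hyp hyt hyb (by omega)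
        omega
  · -- H = 4
    exfalso
    have hdiv : k / s = 4 := by
      rw [Nat.div_eq_iff (by omega)]; omega
    rw [hdiv] at hx1'' hw
    obtain ⟨i, hi, hgi⟩ := hw (3 * s) (by omega) (by omega) (Dvd.intro_left _ rfl)
    obtain ⟨j, hj, hgj⟩ := hw (4 * s) (by omega) h4 (Dvd.intro_left _ rfl)
    have hij : i ≠ j := by
      rintro rfl
      have := C.inj (3 * s) (4 * s) (by omega) (by omega) (by omega) h4 (by rw [hgi, hgj])
      omega
    have his : i * s ≤ 3 * s := Nat.mul_le_mul_right s (by omega)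
    obtain ⟨z, hz, hz'⟩ := C.g4s hs hb h4
    obtain ⟨y, hy, hy'⟩ := C.g3s hs hb (by omega)
    have hhi := C.hi (4 * s) (by omega) h4
    rcases hz' with rfl | ⟨hzp, hzt, hz2, hzb⟩
    · have hj0 : j = 0 := by
        by_contra hne
        have : 1 * s ≤ j * s := Nat.mul_le_mul_right s (by omega)
        omega
      subst hj0
      rcases hy' with rfl | ⟨hyp, hyt, hy2, hyb⟩
      · have : 1 * s ≤ i * s := Nat.mul_le_mul_right s (by omega)
        omega
      · have := hbig y hyp hyt hyb (by omega)
        omega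
    · have := hbig z hzp hzt hzb (by omega)
      omega

/-- bad primes up to `k/2` -/
lemma Ctx.bad_half (C : Ctx k N g) {s : ℕ} (hs : s.Prime) (hb : ¬ Good g s) (h2 : 2 * s ≤ k) :
    g (2 * s) = 2 ∧ N + k < 2 + 2 * s ∧ g s = s + 2 := by
  classical
  have hex : ∃ u, u.Prime ∧ ¬ Good g u := ⟨s, hs, hb⟩
  set u := Nat.find hex with hu
  obtain ⟨hup, hub⟩ := Nat.find_spec hex
  have hus : u ≤ s := Nat.find_min' hex ⟨hs, hb⟩
  have hmin : ∀ w, w.Prime → ¬ Good g w → u ≤ w := fun w h1 h2 => Nat.find_min' hex ⟨h1, h2⟩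
  have h := C.bad_min hup hub (by omega) hmin
  have h' : u = s := by omega
  have h'' : Nat.find hex = s := h'
  rw [h''] at h
  exact h

/-- good NPP numbers are regular, first case -/
lemma Ctx.reg_of_good (C : Ctx k N g) {v : ℕ} (hv : NPP v) (hvk : v ≤ k) (hg : Good g v)
    (h : k < 2 * v ∨ ¬ Special (k / 2) v) : g v = v := by
  have hk := C.hk
  have hN := C.N_le
  have hv6 := hv.six_le
  by_cases h2v : k < 2 * v
  · exact C.good_regular hvk hg (by omega) h2v
  have hns : ¬ Special (k / 2) v := h.resolve_left h2v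
  push Not at h2v
  obtain ⟨j, hj⟩ := id hg
  have hlo := C.lo v (by omega) hvk
  have hhi := C.hi v (by omega) hvk
  have hj0 : 0 < j := Nat.pos_of_ne_zero (by rintro rfl; simp at hj; omega)
  have hjk : v * j ≤ k := by
    by_contra hcon
    push Not at hcon
    have := C.no_ghost hvk hg (by omega) ⟨j, rfl⟩ hcon
    omega
  have hfin : g (v * j) = v * j → g v = v := by
    intro h'
    have := C.inj v (v * j) (by omega) hvk (by omega) hjk (by rw [h', hj])
    rw [hj, ← this]
  have spec : ∀ q i, 0 < i → Special q (i * v) → i = 1 ∧ ∃ p, p.Prime ∧ v = 2 * p ∧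
      (q = 2 * p ∨ q = 2 * p + 1) := by
    rintro q i hi ⟨p, hp, h1, h2⟩
    have h3 : v = 2 * p := hv.eq_two_mul hp (by rw [← h1]; exact Dvd.intro_left _ rfl)
    refine ⟨?_, p, hp, h3, h2⟩
    rw [← h3] at h1
    have : i * v = 1 * v := by omega
    exact Nat.eq_of_mul_eq_mul_right (by omega) this
  by_cases hj2 : 2 ∣ j
  · obtain ⟨i, rfl⟩ := hj2
    apply hfin
    have e : v * (2 * i) = 2 * (i * v) := by ring
    rw [e]
    apply C.E (i * v) (hv.mul (by omega)) (by rw [← e]; exact hjk)
    intro hsp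
    exact hns (spec _ _ (by omega) hsp).2
  by_cases hj3 : 3 ∣ j
  · obtain ⟨i, rfl⟩ := hj3
    apply hfin
    have e : v * (3 * i) = 3 * (i * v) := by ring
    by_cases hsp : Special (k / 3) (i * v)
    · obtain ⟨hi1, p, hp, hvp, hkp⟩ := spec _ _ (by omega) hsp
      subst hi1
      have hp2 : p ≠ 2 := by
        rintro rfl
        subst hvp
        exact hv.2 ((isPrimePow_nat_iff _).2 ⟨2, 2, Nat.prime_two, by norm_num, by norm_num⟩)
      have hp3 : p ≠ 3 := by
        rintro rfl
        omega
      have e2 : v * (3 * 1) = 2 * (3 * p) := by rw [hvp]; ring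
      rw [e2]
      apply C.E (3 * p) (NPP.of_primes (by have := hp.pos; omega) Nat.prime_three hp
        (Ne.symm hp3) (Dvd.intro _ rfl) (Dvd.intro_left _ rfl)) (by rw [← e2]; exact hjk)
      rintro ⟨p', hp', h1, h2⟩
      have : 2 ∣ 3 * p := by rw [h1]; exact Dvd.intro _ rfl
      rcases (Nat.Prime.dvd_mul Nat.prime_two).1 this with h | h
      · omega
      · exact hp2 ((Nat.prime_dvd_prime_iff_eq Nat.prime_two hp).1 h).symm
    · rw [e]
      exact C.T (i * v) (hv.mul (by omega)) (by rw [← e]; exact hjk) hsp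
  by_cases hj1 : j = 1
  · rw [hj, hj1, mul_one]
  exfalso
  obtain ⟨l, hl, hlj⟩ := Nat.exists_prime_and_dvd hj1
  have hl2 : l ≠ 2 := by rintro rfl; exact hj2 hlj
  have hl3 : l ≠ 3 := by rintro rfl; exact hj3 hlj
  have hv0 : v ≠ 0 := by omega
  set a := v.factorization l with ha
  obtain ⟨v', hv'⟩ : l ^ a ∣ v := Nat.ordProj_dvd v l
  have hnd : ¬ l ^ (a + 1) ∣ v := Nat.pow_succ_factorization_not_dvd hv0 hl
  obtain ⟨j', rfl⟩ := hlj
  have hdv : l ^ (a + 1) ∣ g v := by
    rw [hj]
    refine ⟨v' * j', ?_⟩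
    conv_lhs => rw [hv']
    ring
  have hle : l ^ (a + 1) ≤ k := by
    have := Nat.le_of_dvd (by omega) (hj ▸ hdv : l ^ (a + 1) ∣ v * (l * j'))
    omega
  have hbad : ¬ Good g (l ^ (a + 1)) := by
    intro hgood
    exact hnd ((C.good_iff (Nat.one_le_pow _ _ hl.pos) hle hgood (by omega) hvk).2 hdv)
  have hv'2 : 2 ≤ v' := by
    by_contra hcon
    have hv'0 : v' ≠ 0 := by rintro rfl; rw [mul_zero] at hv'; omega
    have hv'1 : v' = 1 := by omega
    rw [hv'1, mul_one] at hv'
    apply hv.2
    rw [isPrimePow_nat_iff]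
    refine ⟨l, a, hl, ?_, hv'.symm⟩
    by_contra h0
    have : a = 0 := by omega
    rw [this] at hv'
    simp at hv'
    omega
  have hj'0 : 0 < j' := Nat.pos_of_ne_zero (by rintro rfl; simp at hj0)
  have hpow : 0 < l ^ (a + 1) := Nat.pow_pos hl.pos
  have h2l : 2 * l ^ (a + 1) ≤ k := by
    have e : v * (l * j') = (v' * j') * l ^ (a + 1) := by
      conv_lhs => rw [hv']
      ring
    have h1 : 2 * 1 ≤ v' * j' := Nat.mul_le_mul hv'2 hj'0
    have h2 : 2 * l ^ (a + 1) ≤ (v' * j') * l ^ (a + 1) := Nat.mul_le_mul_right _ (by omega)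
    omega
  rcases Nat.eq_zero_or_pos a with ha0 | ha0
  · -- `l` itself is bad
    rw [ha0, zero_add, pow_one] at hbad h2l hdv hnd hle hpow
    rw [ha0, pow_zero, one_mul] at hv'
    have h6 := C.not_good hl.one_lt.le hbad
    have : 6 * l ≤ v * (l * j') := by
      have h1 : l * 1 ≤ l * j' := Nat.mul_le_mul_left _ hj'0
      have h2 : 6 * l ≤ v * l := Nat.mul_le_mul_right _ hv6
      have h3 : v * l ≤ v * (l * j') := Nat.mul_le_mul_left _ (by omega)
      omega
    omega
  · exact hbad (C.good_prime_pow hl hl2 (by omega) h2l)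

/-- all NPP numbers which are not special are regular -/
theorem Ctx.regular (C : Ctx k N g) {v : ℕ} (hv : NPP v) (hvk : v ≤ k) (hns : ¬ Special k v) :
    g v = v := by
  have hk := C.hk
  have hN := C.N_le
  have hv6 := hv.six_le
  by_cases hall : ∀ p a, p.Prime → 1 ≤ a → p ^ a ∣ v → Good g (p ^ a)
  · have hg := C.good_of_prime_pows (by omega) hvk hall
    by_cases hsp : Special (k / 2) v
    · obtain ⟨p, hp, rfl, hkp⟩ := hsp
      have hp2 : p ≠ 2 := by
        rintro rfl
        exact hv.2 ((isPrimePow_nat_iff _).2 ⟨2, 2, Nat.prime_two, by norm_num, by norm_num⟩)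
      have hpodd : p % 2 = 1 := hp.eq_two_or_odd.resolve_left hp2
      have hgp : Good g p := by
        have := hall p 1 hp le_rfl (by rw [pow_one]; exact Dvd.intro_left _ rfl)
        rwa [pow_one] at this
      have hp0 := hp.pos
      have hg4p : Good g (4 * p) := C.good_mul C.good4 hgp
        (by
          rw [show 4 = 2 ^ 2 by norm_num]
          exact Nat.Coprime.pow_left 2 (Nat.coprime_two_left.2 (Nat.odd_iff.2 hpodd)))
        (by omega) (by omega)
      have hreg4 := C.good_regular (m := 4 * p) (by omega) hg4p (by omega) (by omega)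
      obtain ⟨j, hj⟩ := id hg
      have hlo := C.lo (2 * p) (by omega) hvk
      have hhi := C.hi (2 * p) (by omega) hvk
      have hj3 : j < 3 := by
        by_contra hcon
        have : 2 * p * 3 ≤ 2 * p * j := Nat.mul_le_mul_left _ (by omega)
        omega
      interval_cases j
      · omega
      · omega
      · have := C.inj (2 * p) (4 * p) (by omega) (by omega) (by omega) (by omega) (by omega)
        omega
    · exact C.reg_of_good hv hvk hg (Or.inr hsp)
  · exfalso
    push Not at hall
    obtain ⟨p, a, hp, ha, hpv, hbad⟩ := hall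
    obtain ⟨q, hq, hqp, hqv⟩ := hv.exists_ne p
    have hcop : Nat.Coprime (p ^ a) q := Nat.Coprime.pow_left a ((Nat.coprime_primes hp hq).2 (Ne.symm hqp))
    have hdiv : p ^ a * q ∣ v := Nat.Coprime.mul_dvd_of_dvd_of_dvd hcop hpv hqv
    have hle := Nat.le_of_dvd (by omega) hdiv
    have hppos : 0 < p ^ a := Nat.pow_pos hp.pos
    by_cases hp2 : p = 2
    · subst hp2
      have hq3 : 3 ≤ q := by have := hq.two_le; omega
      have : 3 * 2 ^ a ≤ 2 ^ a * q := by rw [mul_comm]; exact Nat.mul_le_mul_left _ hq3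
      exact hbad (C.good_two_pow (by omega))
    · have h2 : 2 * p ^ a ≤ p ^ a * q := by
        rw [mul_comm]; exact Nat.mul_le_mul_left _ hq.two_le
      rcases Nat.lt_or_ge a 2 with ha2 | ha2
      · have : a = 1 := by omega
        subst this
        rw [pow_one] at hbad h2 hdiv hle hpv hppos
        obtain ⟨h3, h4, h5⟩ := C.bad_half hp hbad (by omega)
        obtain ⟨c, rfl⟩ := hpv
        have hc2 : c = 2 := by
          have h6 : c < 3 := by
            by_contra hcon
            have : p * 3 ≤ p * c := Nat.mul_le_mul_left _ (by omega)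
            omega
          interval_cases c
          · omega
          · exfalso
            apply hv.2
            rw [mul_one]
            exact hp.isPrimePow
          · rfl
        subst hc2
        exact hns ⟨p, hp, by ring, by omega⟩
      · exact hbad (C.good_prime_pow hp hp2 ha2 (by omega))

end Pool.Agent.H33.Wcs
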