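import Pool.Agent.H33.WcsMain

set_option autoImplicit false

/-!
The recursion: subsequence of the multiples of `m`, reversal, and the induction step.
-/

namespace Pool.Agent.H33.Wcs

variable {k N : ℕ} {π : ℕ → ℕ}

/-- positions in the sequence of multiples of `m` -/
def der (m : ℕ) (π : ℕ → ℕ) (v : ℕ) : ℕ := (π (m * v) - 1) / m + 1

def rev (k : ℕ) (π : ℕ → ℕ) (v : ℕ) : ℕ := k + 1 - π v

lemma mul_range {m k v : ℕ} (hm1 : 1 ≤ m) (hv1 : 1 ≤ v) (hv : v ≤ k / m) :
    1 ≤ m * v ∧ m * v ≤ k := by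
  constructor
  · exact Nat.mul_pos hm1 hv1
  · rw [mul_comm]; exact (Nat.le_div_iff_mul_le hm1).1 hv

lemma der_spec (S : Sys k 0 π) {m : ℕ} (hm1 : 1 ≤ m) (hm : m ≤ k) :
    ∃ x1, 1 ≤ x1 ∧ x1 ≤ m ∧ k < x1 + (k / m) * m ∧
      ∀ v, 1 ≤ v → v ≤ k / m → ∃ i, i < k / m ∧ π (m * v) = x1 + i * m ∧ der m π v = i + 1 := by
  obtain ⟨x1, h1, h2, h3, _, h4⟩ := S.window hm1 hm
  refine ⟨x1, by omega, by omega, by omega, ?_⟩
  intro v hv1 hv
  obtain ⟨a, b⟩ := mul_range hm1 hv1 hv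
  obtain ⟨i, hi, hπ⟩ := h4 (m * v) a b (Dvd.intro _ rfl)
  refine ⟨i, hi, hπ, ?_⟩
  unfold der
  rw [hπ]
  have : x1 + i * m - 1 = (x1 - 1) + i * m := by omega
  rw [this, Nat.add_mul_div_right _ _ hm1, Nat.div_eq_of_lt (by omega)]
  omega

lemma Sys.der (S : Sys k 0 π) {m : ℕ} (hm1 : 1 ≤ m) (hm : m ≤ k) :
    Sys (k / m) 0 (der m π) := by
  obtain ⟨x1, h1, h2, h3, h4⟩ := der_spec S hm1 hm
  refine ⟨?_, ?_, ?_, ?_⟩
  · intro v hv1 hv
    obtain ⟨i, hi, hπ, hd⟩ := h4 v hv1 hv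
    omega
  · intro v hv1 hv
    obtain ⟨i, hi, hπ, hd⟩ := h4 v hv1 hv
    rw [hd]
    omega
  · intro v w hv1 hv hw1 hw h
    obtain ⟨i, hi, hπ, hd⟩ := h4 v hv1 hv
    obtain ⟨j, hj, hπ', hd'⟩ := h4 w hw1 hw
    have hij : i = j := by omega
    subst hij
    obtain ⟨a, b⟩ := mul_range hm1 hv1 hv
    obtain ⟨c, d⟩ := mul_range hm1 hw1 hw
    have := S.inj (m * v) (m * w) a b c d (by rw [hπ, hπ'])
    exact Nat.eq_of_mul_eq_mul_left hm1 this
  · intro n v w hv1 hv hw1 hw hn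
    obtain ⟨i, hi, hπ, hd⟩ := h4 v hv1 hv
    obtain ⟨j, hj, hπ', hd'⟩ := h4 w hw1 hw
    obtain ⟨a, b⟩ := mul_range hm1 hv1 hv
    obtain ⟨c, d⟩ := mul_range hm1 hw1 hw
    have h := S.div (m * n) (m * v) (m * w) a b c d (Nat.mul_dvd_mul_left m hn)
    rw [Nat.mul_dvd_mul_iff_left hm1] at h
    rw [h, hπ, hπ', hd, hd']
    constructor
    · intro h'
      have h5 : i * m ≡ j * m [MOD m * n] := Nat.ModEq.add_left_cancel' x1 h'
      have h6 : i ≡ j [MOD n] := by
        have : m * i ≡ m * j [MOD m * n] := by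
          rw [mul_comm m i, mul_comm m j]; exact h5
        exact Nat.ModEq.mul_left_cancel' (by omega) this
      exact h6.add_right 1
    · intro h'
      have h6 : i ≡ j [MOD n] := Nat.ModEq.add_right_cancel' 1 h'
      have h5 : m * i ≡ m * j [MOD m * n] := Nat.ModEq.mul_left' m h6
      have : i * m ≡ j * m [MOD m * n] := by
        rw [mul_comm i m, mul_comm j m]; exact h5
      exact this.add_left x1

lemma Sys.rev (S : Sys k 0 π) : Sys k 0 (rev k π) := by
  refine ⟨?_, ?_, ?_, ?_⟩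
  · intro v hv1 hv
    have := S.hi v hv1 hv
    unfold Wcs.rev
    omega
  · intro v hv1 hv
    have := S.lo v hv1 hv
    unfold Wcs.rev
    omega
  · intro v w hv1 hv hw1 hw h
    have h1 := S.hi v hv1 hv
    have h2 := S.hi w hw1 hw
    unfold Wcs.rev at h
    exact S.inj v w hv1 hv hw1 hw (by omega)
  · intro m v w hv1 hv hw1 hw hm
    rw [S.div m v w hv1 hv hw1 hw hm]
    have h1 := S.hi v hv1 hv
    have h2 := S.hi w hw1 hw
    unfold Wcs.rev
    obtain ⟨a, ha⟩ : ∃ a, a + π v = k + 1 := ⟨k + 1 - π v, by omega⟩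
    obtain ⟨b, hb⟩ : ∃ b, b + π w = k + 1 := ⟨k + 1 - π w, by omega⟩
    have e1 : k + 1 - π v = a := by omega
    have e2 : k + 1 - π w = b := by omega
    rw [e1, e2]
    constructor
    · intro h
      have : a + π v ≡ b + π v [MOD m] := by
        rw [ha, ← hb]
        exact (h.add_left b).symm
      exact Nat.ModEq.add_right_cancel' _ this
    · intro h
      have : a + π v ≡ a + π w [MOD m] := by
        rw [ha, ← hb]
        exact (h.add_right (π w)).symm
      exact Nat.ModEq.add_left_cancel' _ this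

lemma Sys.shift (S : Sys k 0 π) (N : ℕ) : Sys k N (fun v => π v + N) := by
  refine ⟨?_, ?_, ?_, ?_⟩
  · intro v hv1 hv
    have := S.lo v hv1 hv
    omega
  · intro v hv1 hv
    have := S.hi v hv1 hv
    omega
  · intro v w hv1 hv hw1 hw h
    exact S.inj v w hv1 hv hw1 hw (by omega)
  · intro m v w hv1 hv hw1 hw hm
    rw [S.div m v w hv1 hv hw1 hw hm]
    constructor
    · intro h; exact h.add_right N
    · intro h; exact Nat.ModEq.add_right_cancel' N h

lemma der_rev (S : Sys k 0 π) {m : ℕ} (hm1 : 1 ≤ m) (hm : m ≤ k) {v : ℕ} (hv1 : 1 ≤ v)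
    (hv : v ≤ k / m) : der m (rev k π) v = rev (k / m) (der m π) v := by
  obtain ⟨x1, h1, h2, h3, h4⟩ := der_spec S hm1 hm
  obtain ⟨i, hi, hπ, hd⟩ := h4 v hv1 hv
  unfold rev
  rw [hd]
  unfold der
  simp only
  rw [hπ]
  obtain ⟨j, hj⟩ : ∃ j, k / m = i + 1 + j := ⟨k / m - (i + 1), by omega⟩
  have hkm := Nat.div_add_mod k m
  have hmod : k % m < m := Nat.mod_lt _ hm1
  rw [hj] at hkm h3 ⊢
  have e : k + 1 - (x1 + i * m) - 1 = (m + k % m - x1) + j * m := by
    have e1 : m * (i + 1 + j) = i * m + m + j * m := by ring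
    have e2 : (i + 1 + j) * m = i * m + m + j * m := by ring
    omega
  rw [e, Nat.add_mul_div_right _ _ hm1, Nat.div_eq_of_lt (by
    have e2 : (i + 1 + j) * m = i * m + m + j * m := by ring
    have e1 : m * (i + 1 + j) = i * m + m + j * m := by ring
    omega)]
  omega

/-- forward regularity with shift `N` -/
def Fwd (k N : ℕ) (π : ℕ → ℕ) : Prop :=
  ∀ v, NPP v → v ≤ k → ¬ Special k v → π v + N = v

def R (k : ℕ) : Prop :=
  ∀ π, Sys k 0 π → ∃ N, N ≤ 2 ∧ (Fwd k N π ∨ Fwd k N (rev k π))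

lemma rev_rev (S : Sys k 0 π) {v : ℕ} (hv1 : 1 ≤ v) (hv : v ≤ k) : rev k (rev k π) v = π v := by
  have h1 := S.lo v hv1 hv
  have h2 := S.hi v hv1 hv
  unfold rev
  omega

lemma npp10 : NPP 10 :=
  NPP.of_primes (by norm_num) (by norm_num : Nat.Prime 2) (by norm_num : Nat.Prime 5)
    (by norm_num) (by norm_num) (by norm_num)

/-- building the context -/
lemma mk_ctx (S : Sys k 0 π) (hk : 42 ≤ k) {N2 : ℕ} (hN2 : N2 ≤ 2)
    (h2 : Fwd (k / 2) N2 (der 2 π)) (h3 : R (k / 3)) :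
    ∃ N, Ctx k N (fun v => π v + N) := by
  obtain ⟨x2, hx2, hx2', _, hd2⟩ := der_spec S (m := 2) (by norm_num) (by omega)
  obtain ⟨x3, hx3, hx3', _, hd3⟩ := der_spec S (m := 3) (by norm_num) (by omega)
  obtain ⟨N3, hN3, h3⟩ := h3 _ (S.der (m := 3) (by norm_num) (by omega))
  -- even entries
  have E : ∀ w, NPP w → 2 * w ≤ k → ¬ Special (k / 2) w → π (2 * w) + (2 * N2 + (2 - x2)) = 2 * w := by
    intro w hw hwk hs
    have hw6 := hw.six_le
    obtain ⟨i, hi, hπ, hd⟩ := hd2 w (by omega) (by omega)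
    have := h2 w hw (by omega) hs
    omega
  have n18 : ∀ q, ¬ Special q 18 := by
    rintro q ⟨p, hp, h, _⟩
    have : p = 9 := by omega
    subst this; norm_num at hp
  have n12 : ∀ q, ¬ Special q 12 := by
    rintro q ⟨p, hp, h, _⟩
    have : p = 6 := by omega
    subst this; norm_num at hp
  have n15 : ∀ q, ¬ Special q 15 := by
    rintro q ⟨p, hp, h, _⟩
    omega
  have n10 : ¬ Special (k / 3) 10 := by
    rintro ⟨p, hp, h, h'⟩
    omega
  have e36 := E 18 npp18 (by omega) (n18 _)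
  have e30 := E 15 npp15 (by omega) (n15 _)
  obtain ⟨i12, hi12, hπ12, hd12⟩ := hd3 12 (by norm_num) (by omega)
  obtain ⟨i10, hi10, hπ10, hd10⟩ := hd3 10 (by norm_num) (by omega)
  norm_num at e36 e30 hπ12 hπ10
  rcases h3 with h3 | h3
  · -- forward
    refine ⟨2 * N2 + (2 - x2), { toSys := S.shift _, hk := hk, hN := by omega, E := ?_, T := ?_ }⟩
    · intro w hw hwk hs
      exact E w hw hwk hs
    · have t12 := h3 12 npp12 (by omega) (n12 _)
      intro w hw hwk hs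
      have hw6 := hw.six_le
      obtain ⟨i, hi, hπ, hd⟩ := hd3 w (by omega) (by omega)
      have := h3 w hw (by omega) hs
      omega
  · exfalso
    have t12 := h3 12 npp12 (by omega) (n12 _)
    have t10 := h3 10 npp10 (by omega) n10
    unfold rev at t12 t10
    omega

theorem R_step (hk : 42 ≤ k) (h2 : R (k / 2)) (h3 : R (k / 3)) : R k := by
  have key : ∀ π, Sys k 0 π → ∀ N2, N2 ≤ 2 → Fwd (k / 2) N2 (der 2 π) →
      ∃ N, N ≤ 2 ∧ Fwd k N π := by
    intro π S N2 hN2 hF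
    obtain ⟨N, C⟩ := mk_ctx S hk hN2 hF h3
    exact ⟨N, C.N_le, fun v hv hvk hs => C.regular hv hvk hs⟩
  intro π S
  obtain ⟨N2, hN2, hF | hF⟩ := h2 _ (S.der (m := 2) (by norm_num) (by omega))
  · obtain ⟨N, hN, h⟩ := key π S N2 hN2 hF
    exact ⟨N, hN, Or.inl h⟩
  · obtain ⟨N, hN, h⟩ := key (rev k π) S.rev N2 hN2 (by
      intro v hv hvk hs
      have hv6 := hv.six_le
      rw [der_rev S (by norm_num) (by omega) (by omega) hvk]
      exact hF v hv hvk hs)
    exact ⟨N, hN, Or.inr h⟩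

theorem R_all (base : ∀ k, 14 ≤ k → k ≤ 41 → R k) : ∀ k, 14 ≤ k → R k := by
  intro k
  induction k using Nat.strong_induction_on with
  | _ k ih =>
    intro hk
    rcases Nat.lt_or_ge k 42 with h | h
    · exact base k hk (by omega)
    · exact R_step h (ih (k / 2) (by omega) (by omega)) (ih (k / 3) (by omega) (by omega))

end Pool.Agent.H33.Wcs
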