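import Pool.Agent.H33.WcsCore

set_option autoImplicit false

namespace Pool.Agent.H33.Wcs

structure Ctx (k N : ℕ) (g : ℕ → ℕ) : Prop extends Sys k N g where
  hk : 42 ≤ k
  hN : N ≤ 5
  E : ∀ w, NPP w → 2 * w ≤ k → ¬ Special (k / 2) w → g (2 * w) = 2 * w
  T : ∀ w, NPP w → 3 * w ≤ k → ¬ Special (k / 3) w → g (3 * w) = 3 * w

variable {k N : ℕ} {g : ℕ → ℕ}

lemma two_mul_prime_of_dvd {p : ℕ} (hp : p.Prime) (h : 3 ∣ 2 * p) : p = 3 := by
  have h3 : Nat.Prime 3 := by norm_num
  rcases (Nat.Prime.dvd_mul h3).1 h with h | h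
  · omega
  · exact ((Nat.prime_dvd_prime_iff_eq h3 hp).1 h).symm

lemma Ctx.good_small (C : Ctx k N g) {m : ℕ} (h1 : 1 ≤ m) (h6 : 6 * m ≤ k) : Good g m := by
  have hk := C.hk
  by_cases h : ∃ p, p.Prime ∧ p ≠ 3 ∧ p ∣ m
  · obtain ⟨p, hp, hp3, hpm⟩ := h
    have hnpp : NPP (3 * m) :=
      NPP.of_primes (by omega) (by norm_num : Nat.Prime 3) hp (Ne.symm hp3)
        (Dvd.intro _ rfl) (hpm.mul_left _)
    have hns : ¬ Special (k / 2) (3 * m) := by
      rintro ⟨p', hp', h2, h3⟩
      have : p' = 3 := two_mul_prime_of_dvd hp' (by rw [← h2]; exact Dvd.intro _ rfl)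
      subst this
      omega
    have := C.E (3 * m) hnpp (by omega) hns
    refine C.good_of_reg (v := 2 * (3 * m)) (by omega) (by omega) ?_ this
    exact ⟨6, by ring⟩
  · push Not at h
    rcases Nat.lt_or_ge m 2 with h2 | h2
    · have : m = 1 := by omega
      subst this
      exact one_dvd _
    · obtain ⟨p, hp, hpm⟩ := Nat.exists_prime_and_dvd (n := m) (by omega)
      have hp3 : p = 3 := by
        by_contra hne
        exact h p hp hne hpm
      subst hp3
      have hnpp : NPP (2 * m) :=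
        NPP.of_primes (by omega) (by norm_num : Nat.Prime 2) hp (by norm_num)
          (Dvd.intro _ rfl) (hpm.mul_left _)
      have hns : ¬ Special (k / 3) (2 * m) := by
        rintro ⟨p', hp', h2, h3⟩
        have h4 : m = p' := by omega
        subst h4
        have : m = 3 := ((Nat.prime_dvd_prime_iff_eq hp hp').1 hpm).symm
        omega
      have := C.T (2 * m) hnpp (by omega) hns
      refine C.good_of_reg (v := 3 * (2 * m)) (by omega) (by omega) ?_ this
      exact ⟨6, by ring⟩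

lemma Ctx.not_good (C : Ctx k N g) {m : ℕ} (h1 : 1 ≤ m) (h : ¬ Good g m) : k < 6 * m := by
  by_contra hcon
  exact h (C.good_small h1 (by omega))

lemma Ctx.good2 (C : Ctx k N g) : Good g 2 := C.good_small (by norm_num) (by have := C.hk; omega)
lemma Ctx.good3 (C : Ctx k N g) : Good g 3 := C.good_small (by norm_num) (by have := C.hk; omega)
lemma Ctx.good4 (C : Ctx k N g) : Good g 4 := C.good_small (by norm_num) (by have := C.hk; omega)
lemma Ctx.good6 (C : Ctx k N g) : Good g 6 := C.good_small (by norm_num) (by have := C.hk; omega)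

lemma npp12 : NPP 12 :=
  NPP.of_primes (by norm_num) (by norm_num : Nat.Prime 2) (by norm_num : Nat.Prime 3)
    (by norm_num) (by norm_num) (by norm_num)
lemma npp18 : NPP 18 :=
  NPP.of_primes (by norm_num) (by norm_num : Nat.Prime 2) (by norm_num : Nat.Prime 3)
    (by norm_num) (by norm_num) (by norm_num)
lemma npp15 : NPP 15 :=
  NPP.of_primes (by norm_num) (by norm_num : Nat.Prime 5) (by norm_num : Nat.Prime 3)
    (by norm_num) (by norm_num) (by norm_num)

lemma Ctx.good8 (C : Ctx k N g) : Good g 8 := by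
  have hk := C.hk
  have := C.E 12 npp12 (by omega) (by
    rintro ⟨p, hp, h, _⟩
    have : p = 6 := by omega
    subst this; norm_num at hp)
  exact C.good_of_reg (v := 2 * 12) (by omega) (by omega) (by norm_num) this

lemma Ctx.good9 (C : Ctx k N g) : Good g 9 := by
  have hk := C.hk
  have := C.E 18 npp18 (by omega) (by
    rintro ⟨p, hp, h, _⟩
    have : p = 9 := by omega
    subst this; norm_num at hp)
  exact C.good_of_reg (v := 2 * 18) (by omega) (by omega) (by norm_num) this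

lemma Ctx.good15 (C : Ctx k N g) : Good g 15 := by
  have hk := C.hk
  have := C.E 15 npp15 (by omega) (by
    rintro ⟨p, hp, h, _⟩
    omega)
  exact C.good_of_reg (v := 2 * 15) (by omega) (by omega) (by norm_num) this

/-- powers of two -/
lemma Ctx.good_two_pow (C : Ctx k N g) {b : ℕ} (h : 3 * 2 ^ b ≤ k) : Good g (2 ^ b) := by
  rcases b with _ | _ | b
  · exact one_dvd _
  · simpa using C.good2
  · have e : 2 ^ (b + 1 + 1) = 2 * 2 ^ (b + 1) := by ring
    have e2 : 2 ^ (b + 1) = 2 * 2 ^ b := by ring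
    have hpos : 0 < 2 ^ b := by positivity
    have hnpp : NPP (3 * 2 ^ (b + 1)) :=
      NPP.of_primes (by positivity) (by norm_num : Nat.Prime 3) (by norm_num : Nat.Prime 2)
        (by norm_num) (Dvd.intro _ rfl) (by rw [e2]; exact ⟨3 * 2 ^ b, by ring⟩)
    have hns : ¬ Special (k / 2) (3 * 2 ^ (b + 1)) := by
      rintro ⟨p', hp', h2, h3⟩
      have : p' = 3 := two_mul_prime_of_dvd hp' (by rw [← h2]; exact Dvd.intro _ rfl)
      subst this
      have := C.hk
      omega
    have := C.E _ hnpp (by omega) hns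
    refine C.good_of_reg (v := 2 * (3 * 2 ^ (b + 1))) (by omega) (by omega) ?_ this
    exact ⟨3, by rw [e]; ring⟩

lemma Ctx.slot_prime (C : Ctx k N g) {v t : ℕ} (hv1 : 1 ≤ v) (hv : v ≤ k) (ht : t.Prime)
    (h1 : t ∣ g v) (h2 : ¬ t ∣ v) : k < 6 * t ∧ (t ≤ k → ¬ Good g t) := by
  have h3 : t ≤ k → ¬ Good g t := by
    intro htk hgood
    exact h2 ((C.good_iff ht.one_lt.le htk hgood hv1 hv).2 h1)
  refine ⟨?_, h3⟩
  by_cases htk : t ≤ k
  · exact C.not_good ht.one_lt.le (h3 htk)
  · have := ht.pos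
    omega

lemma prime_or_one {k z : ℕ} (hk : 42 ≤ k) (hz1 : 1 ≤ z) (hz : z ≤ k + 5)
    (h : ∀ t, t.Prime → t ∣ z → k < 6 * t) : z = 1 ∨ z.Prime := by
  by_contra hcon
  push Not at hcon
  obtain ⟨h1, h2⟩ := hcon
  obtain ⟨t, ht, htz⟩ := Nat.exists_prime_and_dvd h1
  obtain ⟨z', rfl⟩ := htz
  have hz' : z' ≠ 1 := by rintro rfl; rw [mul_one] at h2; exact h2 ht
  obtain ⟨t', ht', htz'⟩ := Nat.exists_prime_and_dvd hz'
  have hz'0 : 0 < z' := Nat.pos_of_ne_zero (by rintro rfl; simp at hz1)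
  have h3 := Nat.le_of_dvd hz'0 htz'
  have h4 := h t ht (Dvd.intro _ rfl)
  have h5 := h t' ht' (htz'.mul_left _)
  have h6 : k < 6 * z' := by omega
  have h7 : (k + 1) * (k + 1) ≤ (6 * t) * (6 * z') := Nat.mul_le_mul h4 h6
  nlinarith

/-- the entry `2s`, `s` a bad prime -/
lemma Ctx.g2s (C : Ctx k N g) {s : ℕ} (hs : s.Prime) (hb : ¬ Good g s) (h2 : 2 * s ≤ k) :
    ∃ z, g (2 * s) = 2 * z ∧ (z = 1 ∨ (z.Prime ∧ z ≠ s ∧ z ≠ 2 ∧ (z ≤ k → ¬ Good g z))) := by
  have hk := C.hk
  have hN := C.hN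
  have hs0 := hs.pos
  have hs2 : s ≠ 2 := by rintro rfl; exact hb C.good2
  have hdvd : 2 ∣ g (2 * s) :=
    (C.good_iff (by norm_num) (by omega) C.good2 (by omega) h2).1 (Dvd.intro _ rfl)
  obtain ⟨z, hz⟩ := hdvd
  have hlo := C.lo (2 * s) (by omega) h2
  have hhi := C.hi (2 * s) (by omega) h2
  have h4 : ¬ 4 ∣ g (2 * s) := by
    intro h
    have := (C.good_iff (by norm_num) (by omega) C.good4 (by omega) h2).2 h
    have h2s : 2 ∣ s := by omega
    exact hs2 ((Nat.prime_dvd_prime_iff_eq Nat.prime_two hs).1 h2s).symm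
  have hodd : ¬ 2 ∣ z := by
    rintro ⟨c, rfl⟩
    exact h4 ⟨c, by rw [hz]; ring⟩
  have hsz : ¬ s ∣ z := by
    intro h
    apply hb
    exact C.good_of_dvd (v := 2 * s) (by omega) h2 (Dvd.intro_left _ rfl)
      (by rw [hz]; exact h.mul_left _)
  have key : ∀ t, t.Prime → t ∣ z → k < 6 * t ∧ (t ≤ k → ¬ Good g t) := by
    intro t ht htz
    apply C.slot_prime (v := 2 * s) (by omega) h2 ht (by rw [hz]; exact htz.mul_left _)
    intro h
    rcases (Nat.Prime.dvd_mul ht).1 h with h | h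
    · have := (Nat.prime_dvd_prime_iff_eq ht Nat.prime_two).1 h
      subst this; exact hodd htz
    · have := (Nat.prime_dvd_prime_iff_eq ht hs).1 h
      subst this; exact hsz htz
  refine ⟨z, hz, ?_⟩
  rcases prime_or_one hk (z := z) (by omega) (by omega) (fun t ht htz => (key t ht htz).1) with h | h
  · left; exact h
  · right
    refine ⟨h, ?_, ?_, (key z h dvd_rfl).2⟩
    · rintro rfl; exact hsz dvd_rfl
    · rintro rfl; exact hodd dvd_rfl

/-- the entry `3s`, `s` a bad prime -/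
lemma Ctx.g3s (C : Ctx k N g) {s : ℕ} (hs : s.Prime) (hb : ¬ Good g s) (h3 : 3 * s ≤ k) :
    ∃ z, g (3 * s) = 3 * z ∧ (z = 1 ∨ (z.Prime ∧ z ≠ s ∧ z ≠ 2 ∧ (z ≤ k → ¬ Good g z))) := by
  have hk := C.hk
  have hN := C.hN
  have hs0 := hs.pos
  have hs2 : s ≠ 2 := by rintro rfl; exact hb C.good2
  have hs3 : s ≠ 3 := by rintro rfl; exact hb C.good3
  have hdvd : 3 ∣ g (3 * s) :=
    (C.good_iff (by norm_num) (by omega) C.good3 (by omega) h3).1 (Dvd.intro _ rfl)
  obtain ⟨z, hz⟩ := hdvd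
  have hlo := C.lo (3 * s) (by omega) h3
  have hhi := C.hi (3 * s) (by omega) h3
  have h9 : ¬ 9 ∣ g (3 * s) := by
    intro h
    have := (C.good_iff (by norm_num) (by omega) C.good9 (by omega) h3).2 h
    have h2s : 3 ∣ s := by omega
    exact hs3 ((Nat.prime_dvd_prime_iff_eq Nat.prime_three hs).1 h2s).symm
  have hodd : ¬ 2 ∣ z := by
    intro h
    have h' : 2 ∣ g (3 * s) := by rw [hz]; exact h.mul_left _
    have := (C.good_iff (by norm_num) (by omega) C.good2 (by omega) h3).2 h'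
    have h2s : 2 ∣ s := by omega
    exact hs2 ((Nat.prime_dvd_prime_iff_eq Nat.prime_two hs).1 h2s).symm
  have h3z : ¬ 3 ∣ z := by
    rintro ⟨c, rfl⟩
    exact h9 ⟨c, by rw [hz]; ring⟩
  have hsz : ¬ s ∣ z := by
    intro h
    apply hb
    exact C.good_of_dvd (v := 3 * s) (by omega) h3 (Dvd.intro_left _ rfl)
      (by rw [hz]; exact h.mul_left _)
  have key : ∀ t, t.Prime → t ∣ z → k < 6 * t ∧ (t ≤ k → ¬ Good g t) := by
    intro t ht htz
    apply C.slot_prime (v := 3 * s) (by omega) h3 ht (by rw [hz]; exact htz.mul_left _)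
    intro h
    rcases (Nat.Prime.dvd_mul ht).1 h with h | h
    · have := (Nat.prime_dvd_prime_iff_eq ht Nat.prime_three).1 h
      subst this; exact h3z htz
    · have := (Nat.prime_dvd_prime_iff_eq ht hs).1 h
      subst this; exact hsz htz
  refine ⟨z, hz, ?_⟩
  rcases prime_or_one hk (z := z) (by omega) (by omega) (fun t ht htz => (key t ht htz).1) with h | h
  · left; exact h
  · right
    refine ⟨h, ?_, ?_, (key z h dvd_rfl).2⟩
    · rintro rfl; exact hsz dvd_rfl
    · rintro rfl; exact hodd dvd_rfl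

/-- the entry `4s`, `s` a bad prime -/
lemma Ctx.g4s (C : Ctx k N g) {s : ℕ} (hs : s.Prime) (hb : ¬ Good g s) (h4 : 4 * s ≤ k) :
    ∃ z, g (4 * s) = 4 * z ∧ (z = 1 ∨ (z.Prime ∧ z ≠ s ∧ z ≠ 2 ∧ (z ≤ k → ¬ Good g z))) := by
  have hk := C.hk
  have hN := C.hN
  have hs0 := hs.pos
  have hs2 : s ≠ 2 := by rintro rfl; exact hb C.good2
  have hdvd : 4 ∣ g (4 * s) :=
    (C.good_iff (by norm_num) (by omega) C.good4 (by omega) h4).1 (Dvd.intro _ rfl)
  obtain ⟨z, hz⟩ := hdvd
  have hlo := C.lo (4 * s) (by omega) h4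
  have hhi := C.hi (4 * s) (by omega) h4
  have h8 : ¬ 8 ∣ g (4 * s) := by
    intro h
    have := (C.good_iff (by norm_num) (by omega) C.good8 (by omega) h4).2 h
    have h2s : 2 ∣ s := by omega
    exact hs2 ((Nat.prime_dvd_prime_iff_eq Nat.prime_two hs).1 h2s).symm
  have hodd : ¬ 2 ∣ z := by
    rintro ⟨c, rfl⟩
    exact h8 ⟨c, by rw [hz]; ring⟩
  have hsz : ¬ s ∣ z := by
    intro h
    apply hb
    exact C.good_of_dvd (v := 4 * s) (by omega) h4 (Dvd.intro_left _ rfl)
      (by rw [hz]; exact h.mul_left _)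
  have key : ∀ t, t.Prime → t ∣ z → k < 6 * t ∧ (t ≤ k → ¬ Good g t) := by
    intro t ht htz
    apply C.slot_prime (v := 4 * s) (by omega) h4 ht (by rw [hz]; exact htz.mul_left _)
    intro h
    rcases (Nat.Prime.dvd_mul ht).1 h with h | h
    · have h' : t ∣ 2 ^ 2 := by norm_num; exact h
      have := (Nat.prime_dvd_prime_iff_eq ht Nat.prime_two).1 (ht.dvd_of_dvd_pow h')
      subst this; exact hodd htz
    · have := (Nat.prime_dvd_prime_iff_eq ht hs).1 h
      subst this; exact hsz htz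
  refine ⟨z, hz, ?_⟩
  rcases prime_or_one hk (z := z) (by omega) (by omega) (fun t ht htz => (key t ht htz).1) with h | h
  · left; exact h
  · right
    refine ⟨h, ?_, ?_, (key z h dvd_rfl).2⟩
    · rintro rfl; exact hsz dvd_rfl
    · rintro rfl; exact hodd dvd_rfl

/-- the entry `s`, `s` a bad prime -/
lemma Ctx.gs (C : Ctx k N g) {s : ℕ} (hs : s.Prime) (hb : ¬ Good g s) (h : s ≤ k) :
    g s = 1 ∨ ((g s).Prime ∧ g s ≠ s ∧ g s ≠ 2 ∧ (g s ≤ k → ¬ Good g (g s))) := by
  have hk := C.hk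
  have hN := C.hN
  have hs0 := hs.pos
  have hs2 : s ≠ 2 := by rintro rfl; exact hb C.good2
  have hlo := C.lo s (by omega) h
  have hhi := C.hi s (by omega) h
  have hodd : ¬ 2 ∣ g s := by
    intro h'
    have := (C.good_iff (by norm_num) (by omega) C.good2 (by omega) h).2 h'
    exact hs2 ((Nat.prime_dvd_prime_iff_eq Nat.prime_two hs).1 this).symm
  have hsz : ¬ s ∣ g s := hb
  have key : ∀ t, t.Prime → t ∣ g s → k < 6 * t ∧ (t ≤ k → ¬ Good g t) := by
    intro t ht htz
    apply C.slot_prime (v := s) (by omega) h ht htz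
    intro h
    have := (Nat.prime_dvd_prime_iff_eq ht hs).1 h
    subst this; exact hsz htz
  rcases prime_or_one hk (z := g s) (by omega) (by omega) (fun t ht htz => (key t ht htz).1) with h | h
  · left; exact h
  · right
    refine ⟨h, ?_, ?_, (key (g s) h dvd_rfl).2⟩
    · intro h'; exact hsz (by rw [h'])
    · intro h'; exact hodd (by rw [h'])

/-- bad primes are large -/
lemma Ctx.bad_prime (C : Ctx k N g) {s : ℕ} (hs : s.Prime) (hb : ¬ Good g s) (h : s ≤ k) :
    k < 6 * s ∧ k ≤ 4 * s + 3 := by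
  refine ⟨C.not_good hs.one_lt.le hb, ?_⟩
  by_contra hcon
  push Not at hcon
  have hs2 : s ≠ 2 := by rintro rfl; exact hb C.good2
  have hnpp : NPP (2 * s) := NPP.of_primes (by have := hs.pos; omega) Nat.prime_two hs
    (Ne.symm hs2) (Dvd.intro _ rfl) (Dvd.intro_left _ rfl)
  apply hb
  have := C.E (2 * s) hnpp (by omega) (by
    rintro ⟨p, hp, h1, h2⟩
    have : s = p := by omega
    subst this
    omega)
  exact C.good_of_reg (v := 2 * (2 * s)) (by have := hs.pos; omega) (by omega)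
    ⟨4, by ring⟩ this

/-- odd prime powers which are not primes are good up to `k/2` -/
lemma Ctx.good_prime_pow (C : Ctx k N g) {s b : ℕ} (hs : s.Prime) (hs2 : s ≠ 2) (hb : 2 ≤ b)
    (hq : 2 * s ^ b ≤ k) : Good g (s ^ b) := by
  by_contra hbad
  have hk := C.hk
  have hN := C.hN
  have hs3 : 3 ≤ s := by
    have := hs.two_le
    omega
  have hsodd : s % 2 = 1 := (hs.eq_two_or_odd).resolve_left hs2
  obtain ⟨c, rfl⟩ : ∃ c, b = c + 2 := ⟨b - 2, by omega⟩
  set r := s ^ (c + 1) with hr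
  have hq' : s ^ (c + 2) = s * r := by rw [hr]; ring
  have hrs : r = s * s ^ c := by rw [hr]; ring
  rw [hq'] at hq hbad
  have hpc : 1 ≤ s ^ c := Nat.one_le_pow _ _ hs.pos
  have hsr : s ≤ r := by rw [hrs]; exact Nat.le_mul_of_pos_right s hpc
  have hr3 : 3 ≤ r := by omega
  have h3r : 3 * r ≤ s * r := Nat.mul_le_mul_right r hs3
  have hqk : s * r ≤ k := by omega
  have hqpos : 1 ≤ s * r := by omega
  have hrodd : r % 2 = 1 := by
    rw [hr]
    exact Nat.odd_iff.1 (Odd.pow (Nat.odd_iff.2 hsodd))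
  have hqodd : (s * r) % 2 = 1 := by
    rw [← hq']
    exact Nat.odd_iff.1 (Odd.pow (Nat.odd_iff.2 hsodd))
  -- `k < 4q`
  have hk4 : k < 4 * (s * r) := by
    by_contra hcon
    push Not at hcon
    apply hbad
    have hnpp : NPP (2 * (s * r)) := NPP.of_primes (by omega) Nat.prime_two hs
      (Ne.symm hs2) (Dvd.intro _ rfl) ⟨2 * r, by ring⟩
    have := C.E (2 * (s * r)) hnpp (by omega) (by
      rintro ⟨p, hp, h1, h2⟩
      have h3 : s * r = p := by omega
      rw [← h3] at hp
      exact Nat.not_prime_mul (by omega) (by omega) hp)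
    exact C.good_of_reg (v := 2 * (2 * (s * r))) (by omega) (by omega)
      ⟨4, by ring⟩ this
  have hgr : Good g r := C.good_small (by omega) (by omega)
  have hg2r : Good g (2 * r) := C.good_mul C.good2 hgr
    (Nat.coprime_two_left.2 (Nat.odd_iff.2 hrodd)) (by omega) (by omega)
  have hx1 : 2 * r ∣ g (2 * (s * r)) :=
    (C.good_iff (by omega) (by omega) hg2r (by omega) (by omega)).1 ⟨s, by ring⟩
  obtain ⟨z, hz⟩ := hx1
  have hlo := C.lo (2 * (s * r)) (by omega) (by omega)
  have hhi := C.hi (2 * (s * r)) (by omega) (by omega)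
  have hz1 : z = 1 := by
    by_contra hne
    obtain ⟨t, ht, htz⟩ := Nat.exists_prime_and_dvd hne
    have htx : t ∣ g (2 * (s * r)) := by rw [hz]; exact htz.mul_left _
    have hts : t ≠ s := by
      rintro rfl
      apply hbad
      refine C.good_of_dvd (v := 2 * (t * r)) (by omega) (by omega) (Dvd.intro_left _ rfl) ?_
      rw [hz]
      obtain ⟨d, rfl⟩ := htz
      exact ⟨2 * d, by ring⟩
    have ht2 : t ≠ 2 := by
      rintro rfl
      have h4 : 4 ∣ g (2 * (s * r)) := by
        rw [hz]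
        obtain ⟨d, rfl⟩ := htz
        exact ⟨r * d, by ring⟩
      have := (C.good_iff (by norm_num) (by omega) C.good4 (by omega) (by omega)).2 h4
      omega
    have h6 := (C.slot_prime (v := 2 * (s * r)) (by omega) (by omega) ht htx (by
      intro h
      rcases (Nat.Prime.dvd_mul ht).1 h with h | h
      · exact ht2 ((Nat.prime_dvd_prime_iff_eq ht Nat.prime_two).1 h)
      · rw [← hq'] at h
        exact hts ((Nat.prime_dvd_prime_iff_eq ht hs).1 (ht.dvd_of_dvd_pow h)))).1
    have htle : t ≤ z := Nat.le_of_dvd (Nat.pos_of_ne_zero (by rintro rfl; simp at hz; omega)) htz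
    have hxge : 6 * t ≤ g (2 * (s * r)) := by
      rw [hz]
      calc 6 * t ≤ (2 * r) * t := Nat.mul_le_mul_right t (by omega)
        _ ≤ (2 * r) * z := Nat.mul_le_mul_left _ htle
    have := C.no_ghost (m := 2 * r) (by omega) hg2r (by omega) ⟨z, hz⟩ (by omega)
    omega
  subst hz1
  rw [mul_one] at hz
  -- the entry `q`
  obtain ⟨x1, hx1, hx1', hx1'', _, hw⟩ := C.window hqpos hqk
  obtain ⟨i, hi, hgi⟩ := hw (2 * (s * r)) (by omega) (by omega) (Dvd.intro_left _ rfl)
  obtain ⟨j, hj, hgj⟩ := hw (s * r) (by omega) (by omega) dvd_rfl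
  have hi0 : i = 0 := by
    by_contra hne
    have : 1 * (s * r) ≤ i * (s * r) := Nat.mul_le_mul_right _ (by omega)
    omega
  subst hi0
  have hx : x1 = 2 * r := by omega
  have hqodd' : g (s * r) % 2 = 1 := by
    by_contra hcon
    have h2 : 2 ∣ g (s * r) := by omega
    have := (C.good_iff (by norm_num) (by omega) C.good2 (by omega) hqk).2 h2
    omega
  have hj1 : j ≠ 0 := by
    rintro rfl
    omega
  have hlos := C.hi (s * r) (by omega) hqk
  by_cases hj2 : j = 1
  · subst hj2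
    have hgq : g (s * r) = r * (s + 2) := by rw [hgj, hx]; ring
    obtain ⟨t, ht, hts⟩ := Nat.exists_prime_and_dvd (n := s + 2) (by omega)
    have htle : t ≤ s + 2 := Nat.le_of_dvd (by omega) hts
    have ht6 : 6 * t ≤ k := by
      rcases Nat.lt_or_ge s 5 with h5 | h5
      · have : t ≤ 6 := by omega
        omega
      · have : s * s ≤ s * r := Nat.mul_le_mul_left s hsr
        nlinarith
    have hgt := C.good_small ht.one_lt.le ht6
    have h1 : t ∣ s * r := (C.good_iff ht.one_lt.le (by omega) hgt (by omega) hqk).2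
      (by rw [hgq]; exact hts.mul_left _)
    rw [← hq'] at h1
    have h2 := (Nat.prime_dvd_prime_iff_eq ht hs).1 (ht.dvd_of_dvd_pow h1)
    subst h2
    have : t ∣ 2 := (Nat.dvd_add_right dvd_rfl).1 hts
    have := (Nat.prime_dvd_prime_iff_eq ht Nat.prime_two).1 this
    exact hs2 this
  · -- `j ≥ 2`
    have h2j : 2 * (s * r) ≤ j * (s * r) := Nat.mul_le_mul_right _ (by omega)
    obtain ⟨w, hw1, hwk, hgw⟩ := C.surj (2 * r + 2 * (s * r)) (by omega) (by omega)
    have hcong : s * r ∣ w := by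
      rw [C.div (s * r) (2 * (s * r)) w (by omega) (by omega) hw1 hwk (Dvd.intro_left _ rfl)]
      rw [hz, hgw]
      exact (Nat.add_mul_modulus_modEq_iff).2 rfl |>.symm
    have h2rd : 2 * r ∣ 2 * r + 2 * (s * r) := ⟨1 + s, by ring⟩
    rcases Nat.lt_or_ge k (2 * r + 2 * (s * r)) with hky | hky
    · have := C.no_ghost (m := 2 * r) (by omega) hg2r (by omega) h2rd hky
      omega
    · have hnpp : NPP (r * (s + 1)) := by
        refine NPP.of_primes (by positivity) hs Nat.prime_two hs2 ?_ ?_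
        · rw [hrs]; exact ⟨s ^ c * (s + 1), by ring⟩
        · have : 2 ∣ s + 1 := by omega
          exact this.mul_left _
      have e : 2 * (r * (s + 1)) = 2 * r + 2 * (s * r) := by ring
      have hreg := C.E (r * (s + 1)) hnpp (by omega) (by
        rintro ⟨p, hp, h1, h2⟩
        have h3 : s ∣ 2 * p := by rw [← h1, hrs]; exact ⟨s ^ c * (s + 1), by ring⟩
        rcases (Nat.Prime.dvd_mul hs).1 h3 with h | h
        · exact hs2 ((Nat.prime_dvd_prime_iff_eq hs Nat.prime_two).1 h)
        · have := (Nat.prime_dvd_prime_iff_eq hs hp).1 h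
          subst this
          have : s * (s + 1) ≤ r * (s + 1) := Nat.mul_le_mul_right _ hsr
          nlinarith)
      rw [e, ← hgw] at hreg
      have hwe := C.inj _ _ (by omega) (by omega) hw1 hwk (hreg.trans rfl)
      rw [← hwe, hgw] at hcong
      have h5 : s * r ∣ 2 * r := (Nat.dvd_add_left (Dvd.intro_left _ rfl)).1 hcong
      have h6 := Nat.le_of_dvd (by omega) h5
      omega

end Pool.Agent.H33.Wcs
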