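import Pool.Agent.H33.WcsEnum

set_option autoImplicit false

/-!
Tables of the weakly consecutive permutations of length at most `41`, with derivations.
-/

namespace Pool.Agent.H33.Wcs

def tbl : ℕ → List (List ℕ)
  | 1 => [
    [1]]
  | 2 => [
    [1, 2],
    [2, 1]]
  | 3 => [
    [1, 2, 3],
    [3, 2, 1]]
  | 4 => [
    [1, 2, 3, 4],
    [1, 4, 3, 2],
    [2, 3, 4, 1],
    [4, 3, 2, 1]]
  | 5 => [
    [1, 2, 3, 4, 5],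
    [1, 4, 3, 2, 5],
    [5, 2, 3, 4, 1],
    [5, 4, 3, 2, 1]]
  | 6 => [
    [1, 2, 3, 4, 5, 6],
    [1, 6, 5, 4, 3, 2],
    [2, 3, 4, 5, 6, 1],
    [6, 5, 4, 3, 2, 1]]
  | 7 => [
    [1, 2, 3, 4, 5, 6, 7],
    [1, 6, 5, 4, 3, 2, 7],
    [7, 2, 3, 4, 5, 6, 1],
    [7, 6, 5, 4, 3, 2, 1]]
  | 8 => [
    [1, 2, 3, 4, 5, 6, 7, 8],
    [1, 2, 3, 8, 5, 6, 7, 4],
    [4, 7, 6, 5, 8, 3, 2, 1],
    [8, 7, 6, 5, 4, 3, 2, 1]]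
  | 9 => [
    [1, 2, 3, 4, 5, 6, 7, 8, 9],
    [1, 2, 3, 8, 5, 6, 7, 4, 9],
    [1, 2, 9, 4, 5, 6, 7, 8, 3],
    [1, 2, 9, 8, 5, 6, 7, 4, 3],
    [3, 4, 7, 6, 5, 8, 9, 2, 1],
    [3, 8, 7, 6, 5, 4, 9, 2, 1],
    [9, 4, 7, 6, 5, 8, 3, 2, 1],
    [9, 8, 7, 6, 5, 4, 3, 2, 1]]
  | 10 => [
    [1, 2, 3, 4, 5, 6, 7, 8, 9, 10],
    [1, 2, 3, 8, 5, 6, 7, 4, 9, 10],
    [1, 2, 9, 4, 5, 6, 7, 8, 3, 10],
    [1, 2, 9, 8, 5, 6, 7, 4, 3, 10],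
    [1, 10, 3, 4, 7, 6, 5, 8, 9, 2],
    [1, 10, 3, 8, 7, 6, 5, 4, 9, 2],
    [1, 10, 9, 4, 7, 6, 5, 8, 3, 2],
    [1, 10, 9, 8, 7, 6, 5, 4, 3, 2],
    [2, 3, 4, 5, 6, 7, 8, 9, 10, 1],
    [2, 3, 8, 5, 6, 7, 4, 9, 10, 1],
    [2, 9, 4, 5, 6, 7, 8, 3, 10, 1],
    [2, 9, 8, 5, 6, 7, 4, 3, 10, 1],
    [10, 3, 4, 7, 6, 5, 8, 9, 2, 1],
    [10, 3, 8, 7, 6, 5, 4, 9, 2, 1],
    [10, 9, 4, 7, 6, 5, 8, 3, 2, 1],
    [10, 9, 8, 7, 6, 5, 4, 3, 2, 1]]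
  | 11 => [
    [1, 2, 3, 4, 5, 6, 7, 8, 9, 10, 11],
    [1, 2, 3, 8, 5, 6, 7, 4, 9, 10, 11],
    [1, 2, 9, 4, 5, 6, 7, 8, 3, 10, 11],
    [1, 2, 9, 8, 5, 6, 7, 4, 3, 10, 11],
    [1, 10, 3, 4, 7, 6, 5, 8, 9, 2, 11],
    [1, 10, 3, 8, 7, 6, 5, 4, 9, 2, 11],
    [1, 10, 9, 4, 7, 6, 5, 8, 3, 2, 11],
    [1, 10, 9, 8, 7, 6, 5, 4, 3, 2, 11],
    [11, 2, 3, 4, 5, 6, 7, 8, 9, 10, 1],
    [11, 2, 3, 8, 5, 6, 7, 4, 9, 10, 1],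
    [11, 2, 9, 4, 5, 6, 7, 8, 3, 10, 1],
    [11, 2, 9, 8, 5, 6, 7, 4, 3, 10, 1],
    [11, 10, 3, 4, 7, 6, 5, 8, 9, 2, 1],
    [11, 10, 3, 8, 7, 6, 5, 4, 9, 2, 1],
    [11, 10, 9, 4, 7, 6, 5, 8, 3, 2, 1],
    [11, 10, 9, 8, 7, 6, 5, 4, 3, 2, 1]]
  | 12 => [
    [1, 2, 3, 4, 5, 6, 7, 8, 9, 10, 11, 12],
    [1, 12, 11, 10, 9, 8, 7, 6, 5, 4, 3, 2],
    [2, 3, 4, 5, 6, 7, 8, 9, 10, 11, 12, 1],
    [12, 11, 10, 9, 8, 7, 6, 5, 4, 3, 2, 1]]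
  | 13 => [
    [1, 2, 3, 4, 5, 6, 7, 8, 9, 10, 11, 12, 13],
    [1, 12, 11, 10, 9, 8, 7, 6, 5, 4, 3, 2, 13],
    [13, 2, 3, 4, 5, 6, 7, 8, 9, 10, 11, 12, 1],
    [13, 12, 11, 10, 9, 8, 7, 6, 5, 4, 3, 2, 1]]
  | 14 => [
    [1, 2, 3, 4, 5, 6, 7, 8, 9, 10, 11, 12, 13, 14],
    [14, 13, 12, 11, 10, 9, 8, 7, 6, 5, 4, 3, 2, 1]]
  | 15 => [
    [1, 2, 3, 4, 5, 6, 7, 8, 9, 10, 11, 12, 13, 14, 15],
    [15, 14, 13, 12, 11, 10, 9, 8, 7, 6, 5, 4, 3, 2, 1]]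
  | 16 => [
    [1, 2, 3, 4, 5, 6, 7, 8, 9, 10, 11, 12, 13, 14, 15, 16],
    [1, 2, 3, 4, 5, 6, 7, 16, 9, 10, 11, 12, 13, 14, 15, 8],
    [1, 8, 15, 14, 13, 12, 11, 10, 9, 16, 7, 6, 5, 4, 3, 2],
    [1, 16, 15, 14, 13, 12, 11, 10, 9, 8, 7, 6, 5, 4, 3, 2],
    [2, 3, 4, 5, 6, 7, 8, 9, 10, 11, 12, 13, 14, 15, 16, 1],
    [2, 3, 4, 5, 6, 7, 16, 9, 10, 11, 12, 13, 14, 15, 8, 1],
    [8, 15, 14, 13, 12, 11, 10, 9, 16, 7, 6, 5, 4, 3, 2, 1],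
    [16, 15, 14, 13, 12, 11, 10, 9, 8, 7, 6, 5, 4, 3, 2, 1]]
  | 17 => [
    [1, 2, 3, 4, 5, 6, 7, 8, 9, 10, 11, 12, 13, 14, 15, 16, 17],
    [1, 2, 3, 4, 5, 6, 7, 16, 9, 10, 11, 12, 13, 14, 15, 8, 17],
    [1, 8, 15, 14, 13, 12, 11, 10, 9, 16, 7, 6, 5, 4, 3, 2, 17],
    [1, 16, 15, 14, 13, 12, 11, 10, 9, 8, 7, 6, 5, 4, 3, 2, 17],
    [17, 2, 3, 4, 5, 6, 7, 8, 9, 10, 11, 12, 13, 14, 15, 16, 1],
    [17, 2, 3, 4, 5, 6, 7, 16, 9, 10, 11, 12, 13, 14, 15, 8, 1],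
    [17, 8, 15, 14, 13, 12, 11, 10, 9, 16, 7, 6, 5, 4, 3, 2, 1],
    [17, 16, 15, 14, 13, 12, 11, 10, 9, 8, 7, 6, 5, 4, 3, 2, 1]]
  | 18 => [
    [1, 2, 3, 4, 5, 6, 7, 8, 9, 10, 11, 12, 13, 14, 15, 16, 17, 18],
    [1, 2, 3, 4, 5, 6, 7, 16, 9, 10, 11, 12, 13, 14, 15, 8, 17, 18],
    [1, 18, 17, 8, 15, 14, 13, 12, 11, 10, 9, 16, 7, 6, 5, 4, 3, 2],
    [1, 18, 17, 16, 15, 14, 13, 12, 11, 10, 9, 8, 7, 6, 5, 4, 3, 2],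
    [2, 3, 4, 5, 6, 7, 8, 9, 10, 11, 12, 13, 14, 15, 16, 17, 18, 1],
    [2, 3, 4, 5, 6, 7, 16, 9, 10, 11, 12, 13, 14, 15, 8, 17, 18, 1],
    [18, 17, 8, 15, 14, 13, 12, 11, 10, 9, 16, 7, 6, 5, 4, 3, 2, 1],
    [18, 17, 16, 15, 14, 13, 12, 11, 10, 9, 8, 7, 6, 5, 4, 3, 2, 1]]
  | 19 => [
    [1, 2, 3, 4, 5, 6, 7, 8, 9, 10, 11, 12, 13, 14, 15, 16, 17, 18, 19],
    [1, 2, 3, 4, 5, 6, 7, 16, 9, 10, 11, 12, 13, 14, 15, 8, 17, 18, 19],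
    [1, 18, 17, 8, 15, 14, 13, 12, 11, 10, 9, 16, 7, 6, 5, 4, 3, 2, 19],
    [1, 18, 17, 16, 15, 14, 13, 12, 11, 10, 9, 8, 7, 6, 5, 4, 3, 2, 19],
    [19, 2, 3, 4, 5, 6, 7, 8, 9, 10, 11, 12, 13, 14, 15, 16, 17, 18, 1],
    [19, 2, 3, 4, 5, 6, 7, 16, 9, 10, 11, 12, 13, 14, 15, 8, 17, 18, 1],
    [19, 18, 17, 8, 15, 14, 13, 12, 11, 10, 9, 16, 7, 6, 5, 4, 3, 2, 1],
    [19, 18, 17, 16, 15, 14, 13, 12, 11, 10, 9, 8, 7, 6, 5, 4, 3, 2, 1]]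
  | 20 => [
    [1, 2, 3, 4, 5, 6, 7, 8, 9, 10, 11, 12, 13, 14, 15, 16, 17, 18, 19, 20],
    [1, 2, 3, 4, 5, 6, 7, 16, 9, 10, 11, 12, 13, 14, 15, 8, 17, 18, 19, 20],
    [20, 19, 18, 17, 8, 15, 14, 13, 12, 11, 10, 9, 16, 7, 6, 5, 4, 3, 2, 1],
    [20, 19, 18, 17, 16, 15, 14, 13, 12, 11, 10, 9, 8, 7, 6, 5, 4, 3, 2, 1]]
  | 21 => [
    [1, 2, 3, 4, 5, 6, 7, 8, 9, 10, 11, 12, 13, 14, 15, 16, 17, 18, 19, 20, 21],
    [1, 2, 3, 4, 5, 6, 7, 16, 9, 10, 11, 12, 13, 14, 15, 8, 17, 18, 19, 20, 21],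
    [1, 2, 21, 20, 17, 18, 19, 8, 15, 14, 11, 12, 13, 10, 9, 16, 7, 6, 5, 4, 3],
    [1, 2, 21, 20, 17, 18, 19, 16, 15, 14, 11, 12, 13, 10, 9, 8, 7, 6, 5, 4, 3],
    [1, 2, 21, 20, 19, 18, 17, 8, 15, 14, 11, 12, 13, 10, 9, 16, 7, 6, 5, 4, 3],
    [1, 2, 21, 20, 19, 18, 17, 16, 15, 14, 11, 12, 13, 10, 9, 8, 7, 6, 5, 4, 3],
    [3, 4, 5, 6, 7, 8, 9, 10, 13, 12, 11, 14, 15, 16, 17, 18, 19, 20, 21, 2, 1],
    [3, 4, 5, 6, 7, 8, 9, 10, 13, 12, 11, 14, 15, 16, 19, 18, 17, 20, 21, 2, 1],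
    [3, 4, 5, 6, 7, 16, 9, 10, 13, 12, 11, 14, 15, 8, 17, 18, 19, 20, 21, 2, 1],
    [3, 4, 5, 6, 7, 16, 9, 10, 13, 12, 11, 14, 15, 8, 19, 18, 17, 20, 21, 2, 1],
    [21, 20, 19, 18, 17, 8, 15, 14, 13, 12, 11, 10, 9, 16, 7, 6, 5, 4, 3, 2, 1],
    [21, 20, 19, 18, 17, 16, 15, 14, 13, 12, 11, 10, 9, 8, 7, 6, 5, 4, 3, 2, 1]]
  | 22 => [
    [1, 2, 3, 4, 5, 6, 7, 8, 9, 10, 11, 12, 13, 14, 15, 16, 17, 18, 19, 20, 21, 22],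
    [1, 2, 3, 4, 5, 6, 7, 16, 9, 10, 11, 12, 13, 14, 15, 8, 17, 18, 19, 20, 21, 22],
    [1, 2, 21, 20, 19, 18, 17, 8, 15, 14, 11, 12, 13, 10, 9, 16, 7, 6, 5, 4, 3, 22],
    [1, 2, 21, 20, 19, 18, 17, 16, 15, 14, 11, 12, 13, 10, 9, 8, 7, 6, 5, 4, 3, 22],
    [1, 22, 3, 4, 5, 6, 7, 8, 9, 10, 13, 12, 11, 14, 15, 16, 17, 18, 19, 20, 21, 2],
    [1, 22, 3, 4, 5, 6, 7, 16, 9, 10, 13, 12, 11, 14, 15, 8, 17, 18, 19, 20, 21, 2],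
    [1, 22, 21, 20, 19, 18, 17, 8, 15, 14, 13, 12, 11, 10, 9, 16, 7, 6, 5, 4, 3, 2],
    [1, 22, 21, 20, 19, 18, 17, 16, 15, 14, 13, 12, 11, 10, 9, 8, 7, 6, 5, 4, 3, 2],
    [2, 3, 4, 5, 6, 7, 8, 9, 10, 11, 12, 13, 14, 15, 16, 17, 18, 19, 20, 21, 22, 1],
    [2, 3, 4, 5, 6, 7, 16, 9, 10, 11, 12, 13, 14, 15, 8, 17, 18, 19, 20, 21, 22, 1],
    [2, 21, 20, 19, 18, 17, 8, 15, 14, 11, 12, 13, 10, 9, 16, 7, 6, 5, 4, 3, 22, 1],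
    [2, 21, 20, 19, 18, 17, 16, 15, 14, 11, 12, 13, 10, 9, 8, 7, 6, 5, 4, 3, 22, 1],
    [22, 3, 4, 5, 6, 7, 8, 9, 10, 13, 12, 11, 14, 15, 16, 17, 18, 19, 20, 21, 2, 1],
    [22, 3, 4, 5, 6, 7, 16, 9, 10, 13, 12, 11, 14, 15, 8, 17, 18, 19, 20, 21, 2, 1],
    [22, 21, 20, 19, 18, 17, 8, 15, 14, 13, 12, 11, 10, 9, 16, 7, 6, 5, 4, 3, 2, 1],
    [22, 21, 20, 19, 18, 17, 16, 15, 14, 13, 12, 11, 10, 9, 8, 7, 6, 5, 4, 3, 2, 1]]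
  | 23 => [
    [1, 2, 3, 4, 5, 6, 7, 8, 9, 10, 11, 12, 13, 14, 15, 16, 17, 18, 19, 20, 21, 22, 23],
    [1, 2, 3, 4, 5, 6, 7, 16, 9, 10, 11, 12, 13, 14, 15, 8, 17, 18, 19, 20, 21, 22, 23],
    [1, 2, 21, 20, 19, 18, 17, 8, 15, 14, 11, 12, 13, 10, 9, 16, 7, 6, 5, 4, 3, 22, 23],
    [1, 2, 21, 20, 19, 18, 17, 16, 15, 14, 11, 12, 13, 10, 9, 8, 7, 6, 5, 4, 3, 22, 23],
    [1, 22, 3, 4, 5, 6, 7, 8, 9, 10, 13, 12, 11, 14, 15, 16, 17, 18, 19, 20, 21, 2, 23],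
    [1, 22, 3, 4, 5, 6, 7, 16, 9, 10, 13, 12, 11, 14, 15, 8, 17, 18, 19, 20, 21, 2, 23],
    [1, 22, 21, 20, 19, 18, 17, 8, 15, 14, 13, 12, 11, 10, 9, 16, 7, 6, 5, 4, 3, 2, 23],
    [1, 22, 21, 20, 19, 18, 17, 16, 15, 14, 13, 12, 11, 10, 9, 8, 7, 6, 5, 4, 3, 2, 23],
    [23, 2, 3, 4, 5, 6, 7, 8, 9, 10, 11, 12, 13, 14, 15, 16, 17, 18, 19, 20, 21, 22, 1],
    [23, 2, 3, 4, 5, 6, 7, 16, 9, 10, 11, 12, 13, 14, 15, 8, 17, 18, 19, 20, 21, 22, 1],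
    [23, 2, 21, 20, 19, 18, 17, 8, 15, 14, 11, 12, 13, 10, 9, 16, 7, 6, 5, 4, 3, 22, 1],
    [23, 2, 21, 20, 19, 18, 17, 16, 15, 14, 11, 12, 13, 10, 9, 8, 7, 6, 5, 4, 3, 22, 1],
    [23, 22, 3, 4, 5, 6, 7, 8, 9, 10, 13, 12, 11, 14, 15, 16, 17, 18, 19, 20, 21, 2, 1],
    [23, 22, 3, 4, 5, 6, 7, 16, 9, 10, 13, 12, 11, 14, 15, 8, 17, 18, 19, 20, 21, 2, 1],
    [23, 22, 21, 20, 19, 18, 17, 8, 15, 14, 13, 12, 11, 10, 9, 16, 7, 6, 5, 4, 3, 2, 1],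
    [23, 22, 21, 20, 19, 18, 17, 16, 15, 14, 13, 12, 11, 10, 9, 8, 7, 6, 5, 4, 3, 2, 1]]
  | 24 => [
    [1, 2, 3, 4, 5, 6, 7, 8, 9, 10, 11, 12, 13, 14, 15, 16, 17, 18, 19, 20, 21, 22, 23, 24],
    [24, 23, 22, 21, 20, 19, 18, 17, 16, 15, 14, 13, 12, 11, 10, 9, 8, 7, 6, 5, 4, 3, 2, 1]]
  | 25 => [
    [1, 2, 3, 4, 5, 6, 7, 8, 9, 10, 11, 12, 13, 14, 15, 16, 17, 18, 19, 20, 21, 22, 23, 24, 25],
    [1, 2, 3, 4, 25, 6, 7, 8, 9, 10, 11, 12, 13, 14, 15, 16, 17, 18, 19, 20, 21, 22, 23, 24, 5],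
    [5, 24, 23, 22, 21, 20, 19, 18, 17, 16, 15, 14, 13, 12, 11, 10, 9, 8, 7, 6, 25, 4, 3, 2, 1],
    [25, 24, 23, 22, 21, 20, 19, 18, 17, 16, 15, 14, 13, 12, 11, 10, 9, 8, 7, 6, 5, 4, 3, 2, 1]]
  | 26 => [
    [1, 2, 3, 4, 5, 6, 7, 8, 9, 10, 11, 12, 13, 14, 15, 16, 17, 18, 19, 20, 21, 22, 23, 24, 25, 26],
    [1, 2, 3, 4, 25, 6, 7, 8, 9, 10, 11, 12, 13, 14, 15, 16, 17, 18, 19, 20, 21, 22, 23, 24, 5, 26],
    [26, 5, 24, 23, 22, 21, 20, 19, 18, 17, 16, 15, 14, 13, 12, 11, 10, 9, 8, 7, 6, 25, 4, 3, 2, 1],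
    [26, 25, 24, 23, 22, 21, 20, 19, 18, 17, 16, 15, 14, 13, 12, 11, 10, 9, 8, 7, 6, 5, 4, 3, 2, 1]]
  | 27 => [
    [1, 2, 3, 4, 5, 6, 7, 8, 9, 10, 11, 12, 13, 14, 15, 16, 17, 18, 19, 20, 21, 22, 23, 24, 25, 26, 27],
    [1, 2, 3, 4, 5, 6, 7, 8, 27, 10, 11, 12, 13, 14, 15, 16, 17, 18, 19, 20, 21, 22, 23, 24, 25, 26, 9],
    [1, 2, 3, 4, 25, 6, 7, 8, 9, 10, 11, 12, 13, 14, 15, 16, 17, 18, 19, 20, 21, 22, 23, 24, 5, 26, 27],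
    [1, 2, 3, 4, 25, 6, 7, 8, 27, 10, 11, 12, 13, 14, 15, 16, 17, 18, 19, 20, 21, 22, 23, 24, 5, 26, 9],
    [9, 26, 5, 24, 23, 22, 21, 20, 19, 18, 17, 16, 15, 14, 13, 12, 11, 10, 27, 8, 7, 6, 25, 4, 3, 2, 1],
    [9, 26, 25, 24, 23, 22, 21, 20, 19, 18, 17, 16, 15, 14, 13, 12, 11, 10, 27, 8, 7, 6, 5, 4, 3, 2, 1],
    [27, 26, 5, 24, 23, 22, 21, 20, 19, 18, 17, 16, 15, 14, 13, 12, 11, 10, 9, 8, 7, 6, 25, 4, 3, 2, 1],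
    [27, 26, 25, 24, 23, 22, 21, 20, 19, 18, 17, 16, 15, 14, 13, 12, 11, 10, 9, 8, 7, 6, 5, 4, 3, 2, 1]]
  | 28 => [
    [1, 2, 3, 4, 5, 6, 7, 8, 9, 10, 11, 12, 13, 14, 15, 16, 17, 18, 19, 20, 21, 22, 23, 24, 25, 26, 27, 28],
    [1, 2, 3, 4, 5, 6, 7, 8, 27, 10, 11, 12, 13, 14, 15, 16, 17, 18, 19, 20, 21, 22, 23, 24, 25, 26, 9, 28],
    [1, 2, 3, 4, 25, 6, 7, 8, 9, 10, 11, 12, 13, 14, 15, 16, 17, 18, 19, 20, 21, 22, 23, 24, 5, 26, 27, 28],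
    [1, 2, 3, 4, 25, 6, 7, 8, 27, 10, 11, 12, 13, 14, 15, 16, 17, 18, 19, 20, 21, 22, 23, 24, 5, 26, 9, 28],
    [1, 28, 9, 26, 5, 24, 23, 22, 21, 20, 19, 18, 17, 16, 15, 14, 13, 12, 11, 10, 27, 8, 7, 6, 25, 4, 3, 2],
    [1, 28, 9, 26, 25, 24, 23, 22, 21, 20, 19, 18, 17, 16, 15, 14, 13, 12, 11, 10, 27, 8, 7, 6, 5, 4, 3, 2],
    [1, 28, 27, 26, 5, 24, 23, 22, 21, 20, 19, 18, 17, 16, 15, 14, 13, 12, 11, 10, 9, 8, 7, 6, 25, 4, 3, 2],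
    [1, 28, 27, 26, 25, 24, 23, 22, 21, 20, 19, 18, 17, 16, 15, 14, 13, 12, 11, 10, 9, 8, 7, 6, 5, 4, 3, 2],
    [2, 3, 4, 5, 6, 7, 8, 9, 10, 11, 12, 13, 14, 15, 16, 17, 18, 19, 20, 21, 22, 23, 24, 25, 26, 27, 28, 1],
    [2, 3, 4, 5, 6, 7, 8, 27, 10, 11, 12, 13, 14, 15, 16, 17, 18, 19, 20, 21, 22, 23, 24, 25, 26, 9, 28, 1],
    [2, 3, 4, 25, 6, 7, 8, 9, 10, 11, 12, 13, 14, 15, 16, 17, 18, 19, 20, 21, 22, 23, 24, 5, 26, 27, 28, 1],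
    [2, 3, 4, 25, 6, 7, 8, 27, 10, 11, 12, 13, 14, 15, 16, 17, 18, 19, 20, 21, 22, 23, 24, 5, 26, 9, 28, 1],
    [28, 9, 26, 5, 24, 23, 22, 21, 20, 19, 18, 17, 16, 15, 14, 13, 12, 11, 10, 27, 8, 7, 6, 25, 4, 3, 2, 1],
    [28, 9, 26, 25, 24, 23, 22, 21, 20, 19, 18, 17, 16, 15, 14, 13, 12, 11, 10, 27, 8, 7, 6, 5, 4, 3, 2, 1],
    [28, 27, 26, 5, 24, 23, 22, 21, 20, 19, 18, 17, 16, 15, 14, 13, 12, 11, 10, 9, 8, 7, 6, 25, 4, 3, 2, 1],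
    [28, 27, 26, 25, 24, 23, 22, 21, 20, 19, 18, 17, 16, 15, 14, 13, 12, 11, 10, 9, 8, 7, 6, 5, 4, 3, 2, 1]]
  | 29 => [
    [1, 2, 3, 4, 5, 6, 7, 8, 9, 10, 11, 12, 13, 14, 15, 16, 17, 18, 19, 20, 21, 22, 23, 24, 25, 26, 27, 28, 29],
    [1, 2, 3, 4, 5, 6, 7, 8, 27, 10, 11, 12, 13, 14, 15, 16, 17, 18, 19, 20, 21, 22, 23, 24, 25, 26, 9, 28, 29],
    [1, 2, 3, 4, 25, 6, 7, 8, 9, 10, 11, 12, 13, 14, 15, 16, 17, 18, 19, 20, 21, 22, 23, 24, 5, 26, 27, 28, 29],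
    [1, 2, 3, 4, 25, 6, 7, 8, 27, 10, 11, 12, 13, 14, 15, 16, 17, 18, 19, 20, 21, 22, 23, 24, 5, 26, 9, 28, 29],
    [1, 28, 9, 26, 5, 24, 23, 22, 21, 20, 19, 18, 17, 16, 15, 14, 13, 12, 11, 10, 27, 8, 7, 6, 25, 4, 3, 2, 29],
    [1, 28, 9, 26, 25, 24, 23, 22, 21, 20, 19, 18, 17, 16, 15, 14, 13, 12, 11, 10, 27, 8, 7, 6, 5, 4, 3, 2, 29],
    [1, 28, 27, 26, 5, 24, 23, 22, 21, 20, 19, 18, 17, 16, 15, 14, 13, 12, 11, 10, 9, 8, 7, 6, 25, 4, 3, 2, 29],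
    [1, 28, 27, 26, 25, 24, 23, 22, 21, 20, 19, 18, 17, 16, 15, 14, 13, 12, 11, 10, 9, 8, 7, 6, 5, 4, 3, 2, 29],
    [29, 2, 3, 4, 5, 6, 7, 8, 9, 10, 11, 12, 13, 14, 15, 16, 17, 18, 19, 20, 21, 22, 23, 24, 25, 26, 27, 28, 1],
    [29, 2, 3, 4, 5, 6, 7, 8, 27, 10, 11, 12, 13, 14, 15, 16, 17, 18, 19, 20, 21, 22, 23, 24, 25, 26, 9, 28, 1],
    [29, 2, 3, 4, 25, 6, 7, 8, 9, 10, 11, 12, 13, 14, 15, 16, 17, 18, 19, 20, 21, 22, 23, 24, 5, 26, 27, 28, 1],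
    [29, 2, 3, 4, 25, 6, 7, 8, 27, 10, 11, 12, 13, 14, 15, 16, 17, 18, 19, 20, 21, 22, 23, 24, 5, 26, 9, 28, 1],
    [29, 28, 9, 26, 5, 24, 23, 22, 21, 20, 19, 18, 17, 16, 15, 14, 13, 12, 11, 10, 27, 8, 7, 6, 25, 4, 3, 2, 1],
    [29, 28, 9, 26, 25, 24, 23, 22, 21, 20, 19, 18, 17, 16, 15, 14, 13, 12, 11, 10, 27, 8, 7, 6, 5, 4, 3, 2, 1],
    [29, 28, 27, 26, 5, 24, 23, 22, 21, 20, 19, 18, 17, 16, 15, 14, 13, 12, 11, 10, 9, 8, 7, 6, 25, 4, 3, 2, 1],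
    [29, 28, 27, 26, 25, 24, 23, 22, 21, 20, 19, 18, 17, 16, 15, 14, 13, 12, 11, 10, 9, 8, 7, 6, 5, 4, 3, 2, 1]]
  | 30 => [
    [1, 2, 3, 4, 5, 6, 7, 8, 9, 10, 11, 12, 13, 14, 15, 16, 17, 18, 19, 20, 21, 22, 23, 24, 25, 26, 27, 28, 29, 30],
    [1, 2, 3, 4, 5, 6, 7, 8, 27, 10, 11, 12, 13, 14, 15, 16, 17, 18, 19, 20, 21, 22, 23, 24, 25, 26, 9, 28, 29, 30],
    [1, 30, 29, 28, 9, 26, 25, 24, 23, 22, 21, 20, 19, 18, 17, 16, 15, 14, 13, 12, 11, 10, 27, 8, 7, 6, 5, 4, 3, 2],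
    [1, 30, 29, 28, 27, 26, 25, 24, 23, 22, 21, 20, 19, 18, 17, 16, 15, 14, 13, 12, 11, 10, 9, 8, 7, 6, 5, 4, 3, 2],
    [2, 3, 4, 5, 6, 7, 8, 9, 10, 11, 12, 13, 14, 15, 16, 17, 18, 19, 20, 21, 22, 23, 24, 25, 26, 27, 28, 29, 30, 1],
    [2, 3, 4, 5, 6, 7, 8, 27, 10, 11, 12, 13, 14, 15, 16, 17, 18, 19, 20, 21, 22, 23, 24, 25, 26, 9, 28, 29, 30, 1],
    [30, 29, 28, 9, 26, 25, 24, 23, 22, 21, 20, 19, 18, 17, 16, 15, 14, 13, 12, 11, 10, 27, 8, 7, 6, 5, 4, 3, 2, 1],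
    [30, 29, 28, 27, 26, 25, 24, 23, 22, 21, 20, 19, 18, 17, 16, 15, 14, 13, 12, 11, 10, 9, 8, 7, 6, 5, 4, 3, 2, 1]]
  | 31 => [
    [1, 2, 3, 4, 5, 6, 7, 8, 9, 10, 11, 12, 13, 14, 15, 16, 17, 18, 19, 20, 21, 22, 23, 24, 25, 26, 27, 28, 29, 30, 31],
    [1, 2, 3, 4, 5, 6, 7, 8, 27, 10, 11, 12, 13, 14, 15, 16, 17, 18, 19, 20, 21, 22, 23, 24, 25, 26, 9, 28, 29, 30, 31],
    [1, 30, 29, 28, 9, 26, 25, 24, 23, 22, 21, 20, 19, 18, 17, 16, 15, 14, 13, 12, 11, 10, 27, 8, 7, 6, 5, 4, 3, 2, 31],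
    [1, 30, 29, 28, 27, 26, 25, 24, 23, 22, 21, 20, 19, 18, 17, 16, 15, 14, 13, 12, 11, 10, 9, 8, 7, 6, 5, 4, 3, 2, 31],
    [31, 2, 3, 4, 5, 6, 7, 8, 9, 10, 11, 12, 13, 14, 15, 16, 17, 18, 19, 20, 21, 22, 23, 24, 25, 26, 27, 28, 29, 30, 1],
    [31, 2, 3, 4, 5, 6, 7, 8, 27, 10, 11, 12, 13, 14, 15, 16, 17, 18, 19, 20, 21, 22, 23, 24, 25, 26, 9, 28, 29, 30, 1],
    [31, 30, 29, 28, 9, 26, 25, 24, 23, 22, 21, 20, 19, 18, 17, 16, 15, 14, 13, 12, 11, 10, 27, 8, 7, 6, 5, 4, 3, 2, 1],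
    [31, 30, 29, 28, 27, 26, 25, 24, 23, 22, 21, 20, 19, 18, 17, 16, 15, 14, 13, 12, 11, 10, 9, 8, 7, 6, 5, 4, 3, 2, 1]]
  | 32 => [
    [1, 2, 3, 4, 5, 6, 7, 8, 9, 10, 11, 12, 13, 14, 15, 16, 17, 18, 19, 20, 21, 22, 23, 24, 25, 26, 27, 28, 29, 30, 31, 32],
    [1, 2, 3, 4, 5, 6, 7, 8, 9, 10, 11, 12, 13, 14, 15, 32, 17, 18, 19, 20, 21, 22, 23, 24, 25, 26, 27, 28, 29, 30, 31, 16],
    [1, 2, 3, 4, 5, 6, 7, 8, 27, 10, 11, 12, 13, 14, 15, 16, 17, 18, 19, 20, 21, 22, 23, 24, 25, 26, 9, 28, 29, 30, 31, 32],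
    [1, 2, 3, 4, 5, 6, 7, 8, 27, 10, 11, 12, 13, 14, 15, 32, 17, 18, 19, 20, 21, 22, 23, 24, 25, 26, 9, 28, 29, 30, 31, 16],
    [16, 31, 30, 29, 28, 9, 26, 25, 24, 23, 22, 21, 20, 19, 18, 17, 32, 15, 14, 13, 12, 11, 10, 27, 8, 7, 6, 5, 4, 3, 2, 1],
    [16, 31, 30, 29, 28, 27, 26, 25, 24, 23, 22, 21, 20, 19, 18, 17, 32, 15, 14, 13, 12, 11, 10, 9, 8, 7, 6, 5, 4, 3, 2, 1],
    [32, 31, 30, 29, 28, 9, 26, 25, 24, 23, 22, 21, 20, 19, 18, 17, 16, 15, 14, 13, 12, 11, 10, 27, 8, 7, 6, 5, 4, 3, 2, 1],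
    [32, 31, 30, 29, 28, 27, 26, 25, 24, 23, 22, 21, 20, 19, 18, 17, 16, 15, 14, 13, 12, 11, 10, 9, 8, 7, 6, 5, 4, 3, 2, 1]]
  | 33 => [
    [1, 2, 3, 4, 5, 6, 7, 8, 9, 10, 11, 12, 13, 14, 15, 16, 17, 18, 19, 20, 21, 22, 23, 24, 25, 26, 27, 28, 29, 30, 31, 32, 33],
    [1, 2, 3, 4, 5, 6, 7, 8, 9, 10, 11, 12, 13, 14, 15, 32, 17, 18, 19, 20, 21, 22, 23, 24, 25, 26, 27, 28, 29, 30, 31, 16, 33],
    [1, 2, 3, 4, 5, 6, 7, 8, 27, 10, 11, 12, 13, 14, 15, 16, 17, 18, 19, 20, 21, 22, 23, 24, 25, 26, 9, 28, 29, 30, 31, 32, 33],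
    [1, 2, 3, 4, 5, 6, 7, 8, 27, 10, 11, 12, 13, 14, 15, 32, 17, 18, 19, 20, 21, 22, 23, 24, 25, 26, 9, 28, 29, 30, 31, 16, 33],
    [33, 16, 31, 30, 29, 28, 9, 26, 25, 24, 23, 22, 21, 20, 19, 18, 17, 32, 15, 14, 13, 12, 11, 10, 27, 8, 7, 6, 5, 4, 3, 2, 1],
    [33, 16, 31, 30, 29, 28, 27, 26, 25, 24, 23, 22, 21, 20, 19, 18, 17, 32, 15, 14, 13, 12, 11, 10, 9, 8, 7, 6, 5, 4, 3, 2, 1],
    [33, 32, 31, 30, 29, 28, 9, 26, 25, 24, 23, 22, 21, 20, 19, 18, 17, 16, 15, 14, 13, 12, 11, 10, 27, 8, 7, 6, 5, 4, 3, 2, 1],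
    [33, 32, 31, 30, 29, 28, 27, 26, 25, 24, 23, 22, 21, 20, 19, 18, 17, 16, 15, 14, 13, 12, 11, 10, 9, 8, 7, 6, 5, 4, 3, 2, 1]]
  | 34 => [
    [1, 2, 3, 4, 5, 6, 7, 8, 9, 10, 11, 12, 13, 14, 15, 16, 17, 18, 19, 20, 21, 22, 23, 24, 25, 26, 27, 28, 29, 30, 31, 32, 33, 34],
    [1, 2, 3, 4, 5, 6, 7, 8, 9, 10, 11, 12, 13, 14, 15, 32, 17, 18, 19, 20, 21, 22, 23, 24, 25, 26, 27, 28, 29, 30, 31, 16, 33, 34],
    [1, 2, 3, 4, 5, 6, 7, 8, 27, 10, 11, 12, 13, 14, 15, 16, 17, 18, 19, 20, 21, 22, 23, 24, 25, 26, 9, 28, 29, 30, 31, 32, 33, 34],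
    [1, 2, 3, 4, 5, 6, 7, 8, 27, 10, 11, 12, 13, 14, 15, 32, 17, 18, 19, 20, 21, 22, 23, 24, 25, 26, 9, 28, 29, 30, 31, 16, 33, 34],
    [1, 34, 3, 4, 5, 6, 7, 8, 9, 10, 11, 12, 13, 14, 15, 16, 19, 18, 17, 20, 21, 22, 23, 24, 25, 26, 27, 28, 29, 30, 31, 32, 33, 2],
    [1, 34, 3, 4, 5, 6, 7, 8, 9, 10, 11, 12, 13, 14, 15, 32, 19, 18, 17, 20, 21, 22, 23, 24, 25, 26, 27, 28, 29, 30, 31, 16, 33, 2],
    [1, 34, 3, 4, 5, 6, 7, 8, 27, 10, 11, 12, 13, 14, 15, 16, 19, 18, 17, 20, 21, 22, 23, 24, 25, 26, 9, 28, 29, 30, 31, 32, 33, 2],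
    [1, 34, 3, 4, 5, 6, 7, 8, 27, 10, 11, 12, 13, 14, 15, 32, 19, 18, 17, 20, 21, 22, 23, 24, 25, 26, 9, 28, 29, 30, 31, 16, 33, 2],
    [2, 33, 16, 31, 30, 29, 28, 9, 26, 25, 24, 23, 22, 21, 20, 17, 18, 19, 32, 15, 14, 13, 12, 11, 10, 27, 8, 7, 6, 5, 4, 3, 34, 1],
    [2, 33, 16, 31, 30, 29, 28, 27, 26, 25, 24, 23, 22, 21, 20, 17, 18, 19, 32, 15, 14, 13, 12, 11, 10, 9, 8, 7, 6, 5, 4, 3, 34, 1],
    [2, 33, 32, 31, 30, 29, 28, 9, 26, 25, 24, 23, 22, 21, 20, 17, 18, 19, 16, 15, 14, 13, 12, 11, 10, 27, 8, 7, 6, 5, 4, 3, 34, 1],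
    [2, 33, 32, 31, 30, 29, 28, 27, 26, 25, 24, 23, 22, 21, 20, 17, 18, 19, 16, 15, 14, 13, 12, 11, 10, 9, 8, 7, 6, 5, 4, 3, 34, 1],
    [34, 33, 16, 31, 30, 29, 28, 9, 26, 25, 24, 23, 22, 21, 20, 19, 18, 17, 32, 15, 14, 13, 12, 11, 10, 27, 8, 7, 6, 5, 4, 3, 2, 1],
    [34, 33, 16, 31, 30, 29, 28, 27, 26, 25, 24, 23, 22, 21, 20, 19, 18, 17, 32, 15, 14, 13, 12, 11, 10, 9, 8, 7, 6, 5, 4, 3, 2, 1],
    [34, 33, 32, 31, 30, 29, 28, 9, 26, 25, 24, 23, 22, 21, 20, 19, 18, 17, 16, 15, 14, 13, 12, 11, 10, 27, 8, 7, 6, 5, 4, 3, 2, 1],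
    [34, 33, 32, 31, 30, 29, 28, 27, 26, 25, 24, 23, 22, 21, 20, 19, 18, 17, 16, 15, 14, 13, 12, 11, 10, 9, 8, 7, 6, 5, 4, 3, 2, 1]]
  | 35 => [
    [1, 2, 3, 4, 5, 6, 7, 8, 9, 10, 11, 12, 13, 14, 15, 16, 17, 18, 19, 20, 21, 22, 23, 24, 25, 26, 27, 28, 29, 30, 31, 32, 33, 34, 35],
    [1, 2, 3, 4, 5, 6, 7, 8, 9, 10, 11, 12, 13, 14, 15, 32, 17, 18, 19, 20, 21, 22, 23, 24, 25, 26, 27, 28, 29, 30, 31, 16, 33, 34, 35],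
    [1, 2, 3, 4, 5, 6, 7, 8, 27, 10, 11, 12, 13, 14, 15, 16, 17, 18, 19, 20, 21, 22, 23, 24, 25, 26, 9, 28, 29, 30, 31, 32, 33, 34, 35],
    [1, 2, 3, 4, 5, 6, 7, 8, 27, 10, 11, 12, 13, 14, 15, 32, 17, 18, 19, 20, 21, 22, 23, 24, 25, 26, 9, 28, 29, 30, 31, 16, 33, 34, 35],
    [1, 34, 3, 4, 5, 6, 7, 8, 9, 10, 11, 12, 13, 14, 15, 16, 19, 18, 17, 20, 21, 22, 23, 24, 25, 26, 27, 28, 29, 30, 31, 32, 33, 2, 35],
    [1, 34, 3, 4, 5, 6, 7, 8, 9, 10, 11, 12, 13, 14, 15, 32, 19, 18, 17, 20, 21, 22, 23, 24, 25, 26, 27, 28, 29, 30, 31, 16, 33, 2, 35],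
    [1, 34, 3, 4, 5, 6, 7, 8, 27, 10, 11, 12, 13, 14, 15, 16, 19, 18, 17, 20, 21, 22, 23, 24, 25, 26, 9, 28, 29, 30, 31, 32, 33, 2, 35],
    [1, 34, 3, 4, 5, 6, 7, 8, 27, 10, 11, 12, 13, 14, 15, 32, 19, 18, 17, 20, 21, 22, 23, 24, 25, 26, 9, 28, 29, 30, 31, 16, 33, 2, 35],
    [35, 2, 33, 16, 31, 30, 29, 28, 9, 26, 25, 24, 23, 22, 21, 20, 17, 18, 19, 32, 15, 14, 13, 12, 11, 10, 27, 8, 7, 6, 5, 4, 3, 34, 1],
    [35, 2, 33, 16, 31, 30, 29, 28, 27, 26, 25, 24, 23, 22, 21, 20, 17, 18, 19, 32, 15, 14, 13, 12, 11, 10, 9, 8, 7, 6, 5, 4, 3, 34, 1],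
    [35, 2, 33, 32, 31, 30, 29, 28, 9, 26, 25, 24, 23, 22, 21, 20, 17, 18, 19, 16, 15, 14, 13, 12, 11, 10, 27, 8, 7, 6, 5, 4, 3, 34, 1],
    [35, 2, 33, 32, 31, 30, 29, 28, 27, 26, 25, 24, 23, 22, 21, 20, 17, 18, 19, 16, 15, 14, 13, 12, 11, 10, 9, 8, 7, 6, 5, 4, 3, 34, 1],
    [35, 34, 33, 16, 31, 30, 29, 28, 9, 26, 25, 24, 23, 22, 21, 20, 19, 18, 17, 32, 15, 14, 13, 12, 11, 10, 27, 8, 7, 6, 5, 4, 3, 2, 1],
    [35, 34, 33, 16, 31, 30, 29, 28, 27, 26, 25, 24, 23, 22, 21, 20, 19, 18, 17, 32, 15, 14, 13, 12, 11, 10, 9, 8, 7, 6, 5, 4, 3, 2, 1],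
    [35, 34, 33, 32, 31, 30, 29, 28, 9, 26, 25, 24, 23, 22, 21, 20, 19, 18, 17, 16, 15, 14, 13, 12, 11, 10, 27, 8, 7, 6, 5, 4, 3, 2, 1],
    [35, 34, 33, 32, 31, 30, 29, 28, 27, 26, 25, 24, 23, 22, 21, 20, 19, 18, 17, 16, 15, 14, 13, 12, 11, 10, 9, 8, 7, 6, 5, 4, 3, 2, 1]]
  | 36 => [
    [1, 2, 3, 4, 5, 6, 7, 8, 9, 10, 11, 12, 13, 14, 15, 16, 17, 18, 19, 20, 21, 22, 23, 24, 25, 26, 27, 28, 29, 30, 31, 32, 33, 34, 35, 36],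
    [1, 2, 3, 4, 5, 6, 7, 8, 9, 10, 11, 12, 13, 14, 15, 32, 17, 18, 19, 20, 21, 22, 23, 24, 25, 26, 27, 28, 29, 30, 31, 16, 33, 34, 35, 36],
    [1, 36, 35, 34, 33, 16, 31, 30, 29, 28, 27, 26, 25, 24, 23, 22, 21, 20, 19, 18, 17, 32, 15, 14, 13, 12, 11, 10, 9, 8, 7, 6, 5, 4, 3, 2],
    [1, 36, 35, 34, 33, 32, 31, 30, 29, 28, 27, 26, 25, 24, 23, 22, 21, 20, 19, 18, 17, 16, 15, 14, 13, 12, 11, 10, 9, 8, 7, 6, 5, 4, 3, 2],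
    [2, 3, 4, 5, 6, 7, 8, 9, 10, 11, 12, 13, 14, 15, 16, 17, 18, 19, 20, 21, 22, 23, 24, 25, 26, 27, 28, 29, 30, 31, 32, 33, 34, 35, 36, 1],
    [2, 3, 4, 5, 6, 7, 8, 9, 10, 11, 12, 13, 14, 15, 32, 17, 18, 19, 20, 21, 22, 23, 24, 25, 26, 27, 28, 29, 30, 31, 16, 33, 34, 35, 36, 1],
    [36, 35, 34, 33, 16, 31, 30, 29, 28, 27, 26, 25, 24, 23, 22, 21, 20, 19, 18, 17, 32, 15, 14, 13, 12, 11, 10, 9, 8, 7, 6, 5, 4, 3, 2, 1],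
    [36, 35, 34, 33, 32, 31, 30, 29, 28, 27, 26, 25, 24, 23, 22, 21, 20, 19, 18, 17, 16, 15, 14, 13, 12, 11, 10, 9, 8, 7, 6, 5, 4, 3, 2, 1]]
  | 37 => [
    [1, 2, 3, 4, 5, 6, 7, 8, 9, 10, 11, 12, 13, 14, 15, 16, 17, 18, 19, 20, 21, 22, 23, 24, 25, 26, 27, 28, 29, 30, 31, 32, 33, 34, 35, 36, 37],
    [1, 2, 3, 4, 5, 6, 7, 8, 9, 10, 11, 12, 13, 14, 15, 32, 17, 18, 19, 20, 21, 22, 23, 24, 25, 26, 27, 28, 29, 30, 31, 16, 33, 34, 35, 36, 37],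
    [1, 36, 35, 34, 33, 16, 31, 30, 29, 28, 27, 26, 25, 24, 23, 22, 21, 20, 19, 18, 17, 32, 15, 14, 13, 12, 11, 10, 9, 8, 7, 6, 5, 4, 3, 2, 37],
    [1, 36, 35, 34, 33, 32, 31, 30, 29, 28, 27, 26, 25, 24, 23, 22, 21, 20, 19, 18, 17, 16, 15, 14, 13, 12, 11, 10, 9, 8, 7, 6, 5, 4, 3, 2, 37],
    [37, 2, 3, 4, 5, 6, 7, 8, 9, 10, 11, 12, 13, 14, 15, 16, 17, 18, 19, 20, 21, 22, 23, 24, 25, 26, 27, 28, 29, 30, 31, 32, 33, 34, 35, 36, 1],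
    [37, 2, 3, 4, 5, 6, 7, 8, 9, 10, 11, 12, 13, 14, 15, 32, 17, 18, 19, 20, 21, 22, 23, 24, 25, 26, 27, 28, 29, 30, 31, 16, 33, 34, 35, 36, 1],
    [37, 36, 35, 34, 33, 16, 31, 30, 29, 28, 27, 26, 25, 24, 23, 22, 21, 20, 19, 18, 17, 32, 15, 14, 13, 12, 11, 10, 9, 8, 7, 6, 5, 4, 3, 2, 1],
    [37, 36, 35, 34, 33, 32, 31, 30, 29, 28, 27, 26, 25, 24, 23, 22, 21, 20, 19, 18, 17, 16, 15, 14, 13, 12, 11, 10, 9, 8, 7, 6, 5, 4, 3, 2, 1]]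
  | 38 => [
    [1, 2, 3, 4, 5, 6, 7, 8, 9, 10, 11, 12, 13, 14, 15, 16, 17, 18, 19, 20, 21, 22, 23, 24, 25, 26, 27, 28, 29, 30, 31, 32, 33, 34, 35, 36, 37, 38],
    [1, 2, 3, 4, 5, 6, 7, 8, 9, 10, 11, 12, 13, 14, 15, 32, 17, 18, 19, 20, 21, 22, 23, 24, 25, 26, 27, 28, 29, 30, 31, 16, 33, 34, 35, 36, 37, 38],
    [38, 37, 36, 35, 34, 33, 16, 31, 30, 29, 28, 27, 26, 25, 24, 23, 22, 21, 20, 19, 18, 17, 32, 15, 14, 13, 12, 11, 10, 9, 8, 7, 6, 5, 4, 3, 2, 1],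
    [38, 37, 36, 35, 34, 33, 32, 31, 30, 29, 28, 27, 26, 25, 24, 23, 22, 21, 20, 19, 18, 17, 16, 15, 14, 13, 12, 11, 10, 9, 8, 7, 6, 5, 4, 3, 2, 1]]
  | 39 => [
    [1, 2, 3, 4, 5, 6, 7, 8, 9, 10, 11, 12, 13, 14, 15, 16, 17, 18, 19, 20, 21, 22, 23, 24, 25, 26, 27, 28, 29, 30, 31, 32, 33, 34, 35, 36, 37, 38, 39],
    [1, 2, 3, 4, 5, 6, 7, 8, 9, 10, 11, 12, 13, 14, 15, 32, 17, 18, 19, 20, 21, 22, 23, 24, 25, 26, 27, 28, 29, 30, 31, 16, 33, 34, 35, 36, 37, 38, 39],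
    [39, 38, 37, 36, 35, 34, 33, 16, 31, 30, 29, 28, 27, 26, 25, 24, 23, 22, 21, 20, 19, 18, 17, 32, 15, 14, 13, 12, 11, 10, 9, 8, 7, 6, 5, 4, 3, 2, 1],
    [39, 38, 37, 36, 35, 34, 33, 32, 31, 30, 29, 28, 27, 26, 25, 24, 23, 22, 21, 20, 19, 18, 17, 16, 15, 14, 13, 12, 11, 10, 9, 8, 7, 6, 5, 4, 3, 2, 1]]
  | 40 => [
    [1, 2, 3, 4, 5, 6, 7, 8, 9, 10, 11, 12, 13, 14, 15, 16, 17, 18, 19, 20, 21, 22, 23, 24, 25, 26, 27, 28, 29, 30, 31, 32, 33, 34, 35, 36, 37, 38, 39, 40],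
    [1, 2, 3, 4, 5, 6, 7, 8, 9, 10, 11, 12, 13, 14, 15, 32, 17, 18, 19, 20, 21, 22, 23, 24, 25, 26, 27, 28, 29, 30, 31, 16, 33, 34, 35, 36, 37, 38, 39, 40],
    [1, 40, 39, 38, 37, 36, 35, 34, 33, 16, 31, 30, 29, 28, 27, 26, 25, 24, 23, 22, 21, 20, 19, 18, 17, 32, 15, 14, 13, 12, 11, 10, 9, 8, 7, 6, 5, 4, 3, 2],
    [1, 40, 39, 38, 37, 36, 35, 34, 33, 32, 31, 30, 29, 28, 27, 26, 25, 24, 23, 22, 21, 20, 19, 18, 17, 16, 15, 14, 13, 12, 11, 10, 9, 8, 7, 6, 5, 4, 3, 2],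
    [2, 3, 4, 5, 6, 7, 8, 9, 10, 11, 12, 13, 14, 15, 16, 17, 18, 19, 20, 21, 22, 23, 24, 25, 26, 27, 28, 29, 30, 31, 32, 33, 34, 35, 36, 37, 38, 39, 40, 1],
    [2, 3, 4, 5, 6, 7, 8, 9, 10, 11, 12, 13, 14, 15, 32, 17, 18, 19, 20, 21, 22, 23, 24, 25, 26, 27, 28, 29, 30, 31, 16, 33, 34, 35, 36, 37, 38, 39, 40, 1],
    [40, 39, 38, 37, 36, 35, 34, 33, 16, 31, 30, 29, 28, 27, 26, 25, 24, 23, 22, 21, 20, 19, 18, 17, 32, 15, 14, 13, 12, 11, 10, 9, 8, 7, 6, 5, 4, 3, 2, 1],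
    [40, 39, 38, 37, 36, 35, 34, 33, 32, 31, 30, 29, 28, 27, 26, 25, 24, 23, 22, 21, 20, 19, 18, 17, 16, 15, 14, 13, 12, 11, 10, 9, 8, 7, 6, 5, 4, 3, 2, 1]]
  | 41 => [
    [1, 2, 3, 4, 5, 6, 7, 8, 9, 10, 11, 12, 13, 14, 15, 16, 17, 18, 19, 20, 21, 22, 23, 24, 25, 26, 27, 28, 29, 30, 31, 32, 33, 34, 35, 36, 37, 38, 39, 40, 41],
    [1, 2, 3, 4, 5, 6, 7, 8, 9, 10, 11, 12, 13, 14, 15, 32, 17, 18, 19, 20, 21, 22, 23, 24, 25, 26, 27, 28, 29, 30, 31, 16, 33, 34, 35, 36, 37, 38, 39, 40, 41],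
    [1, 40, 39, 38, 37, 36, 35, 34, 33, 16, 31, 30, 29, 28, 27, 26, 25, 24, 23, 22, 21, 20, 19, 18, 17, 32, 15, 14, 13, 12, 11, 10, 9, 8, 7, 6, 5, 4, 3, 2, 41],
    [1, 40, 39, 38, 37, 36, 35, 34, 33, 32, 31, 30, 29, 28, 27, 26, 25, 24, 23, 22, 21, 20, 19, 18, 17, 16, 15, 14, 13, 12, 11, 10, 9, 8, 7, 6, 5, 4, 3, 2, 41],
    [41, 2, 3, 4, 5, 6, 7, 8, 9, 10, 11, 12, 13, 14, 15, 16, 17, 18, 19, 20, 21, 22, 23, 24, 25, 26, 27, 28, 29, 30, 31, 32, 33, 34, 35, 36, 37, 38, 39, 40, 1],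
    [41, 2, 3, 4, 5, 6, 7, 8, 9, 10, 11, 12, 13, 14, 15, 32, 17, 18, 19, 20, 21, 22, 23, 24, 25, 26, 27, 28, 29, 30, 31, 16, 33, 34, 35, 36, 37, 38, 39, 40, 1],
    [41, 40, 39, 38, 37, 36, 35, 34, 33, 16, 31, 30, 29, 28, 27, 26, 25, 24, 23, 22, 21, 20, 19, 18, 17, 32, 15, 14, 13, 12, 11, 10, 9, 8, 7, 6, 5, 4, 3, 2, 1],
    [41, 40, 39, 38, 37, 36, 35, 34, 33, 32, 31, 30, 29, 28, 27, 26, 25, 24, 23, 22, 21, 20, 19, 18, 17, 16, 15, 14, 13, 12, 11, 10, 9, 8, 7, 6, 5, 4, 3, 2, 1]]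
  | _ => []

def certs : ℕ → List (Start × List Move)
  | 1 => [
    (.consecutive, [])]
  | 2 => [
    (.consecutive, []),
    (.oneInversion, [])]
  | 3 => [
    (.consecutive, []),
    (.consecutive, [.swap 1 3])]
  | 4 => [
    (.consecutive, []),
    (.consecutive, [.swap 2 4]),
    (.oneInversion, []),
    (.consecutive, [.reversal])]
  | 5 => [
    (.consecutive, []),
    (.consecutive, [.swap 2 4]),
    (.consecutive, [.swap 1 5]),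
    (.twinSophieGermain, [])]
  | 6 => [
    (.consecutive, []),
    (.twiceTwinPrime, []),
    (.oneInversion, []),
    (.consecutive, [.reversal])]
  | 7 => [
    (.consecutive, []),
    (.twiceTwinPrime, []),
    (.consecutive, [.swap 1 7]),
    (.consecutive, [.reversal])]
  | 8 => [
    (.consecutive, []),
    (.consecutive, [.swap 4 8]),
    (.consecutive, [.swap 4 8, .reversal]),
    (.consecutive, [.reversal])]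
  | 9 => [
    (.consecutive, []),
    (.consecutive, [.swap 4 8]),
    (.consecutive, [.swap 3 9]),
    (.twinSophieGermain, [.reversal]),
    (.twinSophieGermain, []),
    (.twinSophieGermain, [.swap 4 8]),
    (.twinSophieGermain, [.swap 3 9]),
    (.consecutive, [.reversal])]
  | 10 => [
    (.consecutive, []),
    (.consecutive, [.swap 4 8]),
    (.consecutive, [.swap 3 9]),
    (.consecutive, [.swap 3 9, .swap 4 8]),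
    (.twiceTwinPrime, []),
    (.twiceTwinPrime, [.swap 4 8]),
    (.twiceTwinPrime, [.swap 3 9]),
    (.oneInversion, [.reversal]),
    (.oneInversion, []),
    (.oneInversion, [.swap 4 8]),
    (.oneInversion, [.swap 3 9]),
    (.twiceTwinPrime, [.reversal]),
    (.consecutive, [.swap 3 9, .swap 4 8, .reversal]),
    (.consecutive, [.swap 3 9, .reversal]),
    (.consecutive, [.swap 4 8, .reversal]),
    (.consecutive, [.reversal])]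
  | 11 => [
    (.consecutive, []),
    (.consecutive, [.swap 4 8]),
    (.consecutive, [.swap 3 9]),
    (.consecutive, [.swap 3 9, .swap 4 8]),
    (.twiceTwinPrime, []),
    (.twiceTwinPrime, [.swap 4 8]),
    (.twiceTwinPrime, [.swap 3 9]),
    (.consecutive, [.swap 1 11, .reversal]),
    (.consecutive, [.swap 1 11]),
    (.consecutive, [.swap 1 11, .swap 4 8]),
    (.consecutive, [.swap 1 11, .swap 3 9]),
    (.twiceTwinPrime, [.reversal]),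
    (.twiceTwinPrime, [.swap 1 11]),
    (.consecutive, [.swap 3 9, .reversal]),
    (.consecutive, [.swap 4 8, .reversal]),
    (.consecutive, [.reversal])]
  | 12 => [
    (.consecutive, []),
    (.oneInversion, [.reversal]),
    (.oneInversion, []),
    (.consecutive, [.reversal])]
  | 13 => [
    (.consecutive, []),
    (.consecutive, [.swap 1 13, .reversal]),
    (.consecutive, [.swap 1 13]),
    (.consecutive, [.reversal])]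
  | 14 => [
    (.consecutive, []),
    (.consecutive, [.reversal])]
  | 15 => [
    (.consecutive, []),
    (.consecutive, [.reversal])]
  | 16 => [
    (.consecutive, []),
    (.consecutive, [.swap 8 16]),
    (.oneInversion, [.swap 8 16, .reversal]),
    (.oneInversion, [.reversal]),
    (.oneInversion, []),
    (.oneInversion, [.swap 8 16]),
    (.consecutive, [.swap 8 16, .reversal]),
    (.consecutive, [.reversal])]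
  | 17 => [
    (.consecutive, []),
    (.consecutive, [.swap 8 16]),
    (.consecutive, [.swap 1 17, .swap 8 16, .reversal]),
    (.consecutive, [.swap 1 17, .reversal]),
    (.consecutive, [.swap 1 17]),
    (.consecutive, [.swap 1 17, .swap 8 16]),
    (.consecutive, [.swap 8 16, .reversal]),
    (.consecutive, [.reversal])]
  | 18 => [
    (.consecutive, []),
    (.consecutive, [.swap 8 16]),
    (.oneInversion, [.swap 8 16, .reversal]),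
    (.oneInversion, [.reversal]),
    (.oneInversion, []),
    (.oneInversion, [.swap 8 16]),
    (.consecutive, [.swap 8 16, .reversal]),
    (.consecutive, [.reversal])]
  | 19 => [
    (.consecutive, []),
    (.consecutive, [.swap 8 16]),
    (.consecutive, [.swap 1 19, .swap 8 16, .reversal]),
    (.consecutive, [.swap 1 19, .reversal]),
    (.consecutive, [.swap 1 19]),
    (.consecutive, [.swap 1 19, .swap 8 16]),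
    (.consecutive, [.swap 8 16, .reversal]),
    (.consecutive, [.reversal])]
  | 20 => [
    (.consecutive, []),
    (.consecutive, [.swap 8 16]),
    (.consecutive, [.swap 8 16, .reversal]),
    (.consecutive, [.reversal])]
  | 21 => [
    (.consecutive, []),
    (.consecutive, [.swap 8 16]),
    (.twinSophieGermain, [.swap 8 16, .swap 17 19, .reversal]),
    (.twinSophieGermain, [.swap 17 19, .reversal]),
    (.twinSophieGermain, [.swap 8 16, .reversal]),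
    (.twinSophieGermain, [.reversal]),
    (.twinSophieGermain, []),
    (.twinSophieGermain, [.swap 17 19]),
    (.twinSophieGermain, [.swap 8 16]),
    (.twinSophieGermain, [.swap 8 16, .swap 17 19]),
    (.consecutive, [.swap 8 16, .reversal]),
    (.consecutive, [.reversal])]
  | 22 => [
    (.consecutive, []),
    (.consecutive, [.swap 8 16]),
    (.twiceTwinPrimeInversion, [.swap 8 16, .reversal]),
    (.twiceTwinPrimeInversion, [.reversal]),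
    (.twiceTwinPrime, []),
    (.twiceTwinPrime, [.swap 8 16]),
    (.oneInversion, [.swap 8 16, .reversal]),
    (.oneInversion, [.reversal]),
    (.oneInversion, []),
    (.oneInversion, [.swap 8 16]),
    (.twiceTwinPrime, [.swap 8 16, .reversal]),
    (.twiceTwinPrime, [.reversal]),
    (.twiceTwinPrimeInversion, []),
    (.twiceTwinPrimeInversion, [.swap 8 16]),
    (.consecutive, [.swap 8 16, .reversal]),
    (.consecutive, [.reversal])]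
  | 23 => [
    (.consecutive, []),
    (.consecutive, [.swap 8 16]),
    (.twiceTwinPrime, [.swap 1 23, .swap 8 16, .reversal]),
    (.twiceTwinPrime, [.swap 1 23, .reversal]),
    (.twiceTwinPrime, []),
    (.twiceTwinPrime, [.swap 8 16]),
    (.consecutive, [.swap 1 23, .swap 8 16, .reversal]),
    (.consecutive, [.swap 1 23, .reversal]),
    (.consecutive, [.swap 1 23]),
    (.consecutive, [.swap 1 23, .swap 8 16]),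
    (.twiceTwinPrime, [.swap 8 16, .reversal]),
    (.twiceTwinPrime, [.reversal]),
    (.twiceTwinPrime, [.swap 1 23]),
    (.twiceTwinPrime, [.swap 1 23, .swap 8 16]),
    (.consecutive, [.swap 8 16, .reversal]),
    (.consecutive, [.reversal])]
  | 24 => [
    (.consecutive, []),
    (.consecutive, [.reversal])]
  | 25 => [
    (.consecutive, []),
    (.consecutive, [.swap 5 25]),
    (.consecutive, [.swap 5 25, .reversal]),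
    (.consecutive, [.reversal])]
  | 26 => [
    (.consecutive, []),
    (.consecutive, [.swap 5 25]),
    (.consecutive, [.swap 5 25, .reversal]),
    (.consecutive, [.reversal])]
  | 27 => [
    (.consecutive, []),
    (.consecutive, [.swap 9 27]),
    (.consecutive, [.swap 5 25]),
    (.consecutive, [.swap 5 25, .swap 9 27]),
    (.consecutive, [.swap 5 25, .swap 9 27, .reversal]),
    (.consecutive, [.swap 9 27, .reversal]),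
    (.consecutive, [.swap 5 25, .reversal]),
    (.consecutive, [.reversal])]
  | 28 => [
    (.consecutive, []),
    (.consecutive, [.swap 9 27]),
    (.consecutive, [.swap 5 25]),
    (.consecutive, [.swap 5 25, .swap 9 27]),
    (.oneInversion, [.swap 5 25, .swap 9 27, .reversal]),
    (.oneInversion, [.swap 9 27, .reversal]),
    (.oneInversion, [.swap 5 25, .reversal]),
    (.oneInversion, [.reversal]),
    (.oneInversion, []),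
    (.oneInversion, [.swap 9 27]),
    (.oneInversion, [.swap 5 25]),
    (.oneInversion, [.swap 5 25, .swap 9 27]),
    (.consecutive, [.swap 5 25, .swap 9 27, .reversal]),
    (.consecutive, [.swap 9 27, .reversal]),
    (.consecutive, [.swap 5 25, .reversal]),
    (.consecutive, [.reversal])]
  | 29 => [
    (.consecutive, []),
    (.consecutive, [.swap 9 27]),
    (.consecutive, [.swap 5 25]),
    (.consecutive, [.swap 5 25, .swap 9 27]),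
    (.consecutive, [.swap 1 29, .swap 5 25, .swap 9 27, .reversal]),
    (.consecutive, [.swap 1 29, .swap 9 27, .reversal]),
    (.consecutive, [.swap 1 29, .swap 5 25, .reversal]),
    (.consecutive, [.swap 1 29, .reversal]),
    (.consecutive, [.swap 1 29]),
    (.consecutive, [.swap 1 29, .swap 9 27]),
    (.consecutive, [.swap 1 29, .swap 5 25]),
    (.consecutive, [.swap 1 29, .swap 5 25, .swap 9 27]),
    (.consecutive, [.swap 5 25, .swap 9 27, .reversal]),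
    (.consecutive, [.swap 9 27, .reversal]),
    (.consecutive, [.swap 5 25, .reversal]),
    (.consecutive, [.reversal])]
  | 30 => [
    (.consecutive, []),
    (.consecutive, [.swap 9 27]),
    (.oneInversion, [.swap 9 27, .reversal]),
    (.oneInversion, [.reversal]),
    (.oneInversion, []),
    (.oneInversion, [.swap 9 27]),
    (.consecutive, [.swap 9 27, .reversal]),
    (.consecutive, [.reversal])]
  | 31 => [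
    (.consecutive, []),
    (.consecutive, [.swap 9 27]),
    (.consecutive, [.swap 1 31, .swap 9 27, .reversal]),
    (.consecutive, [.swap 1 31, .reversal]),
    (.consecutive, [.swap 1 31]),
    (.consecutive, [.swap 1 31, .swap 9 27]),
    (.consecutive, [.swap 9 27, .reversal]),
    (.consecutive, [.reversal])]
  | 32 => [
    (.consecutive, []),
    (.consecutive, [.swap 16 32]),
    (.consecutive, [.swap 9 27]),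
    (.consecutive, [.swap 9 27, .swap 16 32]),
    (.consecutive, [.swap 9 27, .swap 16 32, .reversal]),
    (.consecutive, [.swap 16 32, .reversal]),
    (.consecutive, [.swap 9 27, .reversal]),
    (.consecutive, [.reversal])]
  | 33 => [
    (.consecutive, []),
    (.consecutive, [.swap 16 32]),
    (.consecutive, [.swap 9 27]),
    (.consecutive, [.swap 9 27, .swap 16 32]),
    (.consecutive, [.swap 9 27, .swap 16 32, .reversal]),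
    (.consecutive, [.swap 16 32, .reversal]),
    (.consecutive, [.swap 9 27, .reversal]),
    (.consecutive, [.reversal])]
  | 34 => [
    (.consecutive, []),
    (.consecutive, [.swap 16 32]),
    (.consecutive, [.swap 9 27]),
    (.consecutive, [.swap 9 27, .swap 16 32]),
    (.twiceTwinPrime, []),
    (.twiceTwinPrime, [.swap 16 32]),
    (.twiceTwinPrime, [.swap 9 27]),
    (.twiceTwinPrime, [.swap 9 27, .swap 16 32]),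
    (.twiceTwinPrime, [.swap 9 27, .swap 16 32, .reversal]),
    (.twiceTwinPrime, [.swap 16 32, .reversal]),
    (.twiceTwinPrime, [.swap 9 27, .reversal]),
    (.twiceTwinPrime, [.reversal]),
    (.consecutive, [.swap 9 27, .swap 16 32, .reversal]),
    (.consecutive, [.swap 16 32, .reversal]),
    (.consecutive, [.swap 9 27, .reversal]),
    (.consecutive, [.reversal])]
  | 35 => [
    (.consecutive, []),
    (.consecutive, [.swap 16 32]),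
    (.consecutive, [.swap 9 27]),
    (.consecutive, [.swap 9 27, .swap 16 32]),
    (.twiceTwinPrime, []),
    (.twiceTwinPrime, [.swap 16 32]),
    (.twiceTwinPrime, [.swap 9 27]),
    (.twiceTwinPrime, [.swap 9 27, .swap 16 32]),
    (.twiceTwinPrime, [.swap 9 27, .swap 16 32, .reversal]),
    (.twiceTwinPrime, [.swap 16 32, .reversal]),
    (.twiceTwinPrime, [.swap 9 27, .reversal]),
    (.twiceTwinPrime, [.reversal]),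
    (.consecutive, [.swap 9 27, .swap 16 32, .reversal]),
    (.consecutive, [.swap 16 32, .reversal]),
    (.consecutive, [.swap 9 27, .reversal]),
    (.consecutive, [.reversal])]
  | 36 => [
    (.consecutive, []),
    (.consecutive, [.swap 16 32]),
    (.oneInversion, [.swap 16 32, .reversal]),
    (.oneInversion, [.reversal]),
    (.oneInversion, []),
    (.oneInversion, [.swap 16 32]),
    (.consecutive, [.swap 16 32, .reversal]),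
    (.consecutive, [.reversal])]
  | 37 => [
    (.consecutive, []),
    (.consecutive, [.swap 16 32]),
    (.consecutive, [.swap 1 37, .swap 16 32, .reversal]),
    (.consecutive, [.swap 1 37, .reversal]),
    (.consecutive, [.swap 1 37]),
    (.consecutive, [.swap 1 37, .swap 16 32]),
    (.consecutive, [.swap 16 32, .reversal]),
    (.consecutive, [.reversal])]
  | 38 => [
    (.consecutive, []),
    (.consecutive, [.swap 16 32]),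
    (.consecutive, [.swap 16 32, .reversal]),
    (.consecutive, [.reversal])]
  | 39 => [
    (.consecutive, []),
    (.consecutive, [.swap 16 32]),
    (.consecutive, [.swap 16 32, .reversal]),
    (.consecutive, [.reversal])]
  | 40 => [
    (.consecutive, []),
    (.consecutive, [.swap 16 32]),
    (.oneInversion, [.swap 16 32, .reversal]),
    (.oneInversion, [.reversal]),
    (.oneInversion, []),
    (.oneInversion, [.swap 16 32]),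
    (.consecutive, [.swap 16 32, .reversal]),
    (.consecutive, [.reversal])]
  | 41 => [
    (.consecutive, []),
    (.consecutive, [.swap 16 32]),
    (.consecutive, [.swap 1 41, .swap 16 32, .reversal]),
    (.consecutive, [.swap 1 41, .reversal]),
    (.consecutive, [.swap 1 41]),
    (.consecutive, [.swap 1 41, .swap 16 32]),
    (.consecutive, [.swap 16 32, .reversal]),
    (.consecutive, [.reversal])]
  | _ => []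

end Pool.Agent.H33.Wcs
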