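import Mathlib

/-!
A lower bound for the number of zeros among the binary digits of `√2`.

`y = 2 - √2` has the complementary binary digits and satisfies `y² = 4 y - 2`.
-/

open Finset

namespace Pool.Agent.H33.Zeros

/-- `X n = ⌊2^n √2⌋`. -/
noncomputable def X (n : ℕ) : ℕ := ⌊Real.sqrt 2 * (2:ℝ)^n⌋₊

lemma X_le (n : ℕ) : (X n : ℝ) ≤ Real.sqrt 2 * 2^n := Nat.floor_le (by positivity)

lemma lt_X (n : ℕ) : Real.sqrt 2 * 2^n < X n + 1 := Nat.lt_floor_add_one _

lemma X_ne (n : ℕ) : (X n : ℝ) ≠ Real.sqrt 2 * 2^n := by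
  intro h
  apply irrational_sqrt_two
  refine ⟨(X n : ℚ) / 2^n, ?_⟩
  push_cast
  rw [h]
  field_simp

lemma X_lt (n : ℕ) : (X n : ℝ) < Real.sqrt 2 * 2^n := lt_of_le_of_ne (X_le n) (X_ne n)

lemma X_succ_div (n : ℕ) : X (n+1) / 2 = X n := by
  unfold X
  have h := Nat.floor_div_natCast (Real.sqrt 2 * (2:ℝ)^(n+1)) 2
  rw [← h]
  congr 1
  rw [pow_succ]
  push_cast
  ring

lemma X_succ (n : ℕ) : X (n+1) = 2 * X n + X (n+1) % 2 := by
  have h := X_succ_div n
  omega

lemma sq2 : Real.sqrt 2 * Real.sqrt 2 = 2 := Real.mul_self_sqrt (by norm_num)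

lemma sqrt2_lt : Real.sqrt 2 < 1.4143 := by
  rw [Real.sqrt_lt' (by norm_num)]
  norm_num

lemma lt_sqrt2 : 1.4142 < Real.sqrt 2 := by
  rw [Real.lt_sqrt (by norm_num)]
  norm_num

lemma X_val (n m : ℕ) (h1 : (m:ℝ) ≤ 1.4142 * 2^n) (h2 : 1.4143 * 2^n ≤ (m:ℝ) + 1) : X n = m := by
  unfold X
  have h3 := lt_sqrt2
  have h4 := sqrt2_lt
  have h5 : (0:ℝ) < 2^n := by positivity
  rw [Nat.floor_eq_iff (by positivity)]
  constructor
  · nlinarith
  · nlinarith

lemma X_0 : X 0 = 1 := X_val 0 1 (by norm_num) (by norm_num)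
lemma X_1 : X 1 = 2 := X_val 1 2 (by norm_num) (by norm_num)
lemma X_2 : X 2 = 5 := X_val 2 5 (by norm_num) (by norm_num)
lemma X_3 : X 3 = 11 := X_val 3 11 (by norm_num) (by norm_num)
lemma X_4 : X 4 = 22 := X_val 4 22 (by norm_num) (by norm_num)
lemma X_5 : X 5 = 45 := X_val 5 45 (by norm_num) (by norm_num)

/-- the set of the positions of the zeros up to `N` -/
noncomputable def Z (N : ℕ) : Finset ℕ := (range (N+1)).filter (fun k => X k % 2 = 0)

lemma mem_Z {N k : ℕ} : k ∈ Z N ↔ k ≤ N ∧ X k % 2 = 0 := by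
  simp [Z]

/-- `k` is the position of a zero -/
def IsZ (k : ℕ) : Prop := X k % 2 = 0

lemma mem_Z' {N k : ℕ} : k ∈ Z N ↔ k ≤ N ∧ IsZ k := mem_Z

lemma isZ_1 : IsZ 1 := by unfold IsZ; rw [X_1]
lemma not_isZ_0 : ¬ IsZ 0 := by unfold IsZ; rw [X_0]; norm_num
lemma not_isZ_2 : ¬ IsZ 2 := by unfold IsZ; rw [X_2]; norm_num
lemma not_isZ_3 : ¬ IsZ 3 := by unfold IsZ; rw [X_3]; norm_num
lemma isZ_4 : IsZ 4 := by unfold IsZ; rw [X_4]
lemma not_isZ_5 : ¬ IsZ 5 := by unfold IsZ; rw [X_5]; norm_num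

lemma Z_succ_sum {M : Type*} [AddCommMonoid M] (N : ℕ) (f : ℕ → M) :
    ∑ a ∈ Z (N+1), f a = ∑ a ∈ Z N, f a + (if X (N+1) % 2 = 0 then f (N+1) else 0) := by
  unfold Z
  rw [sum_filter, sum_filter, sum_range_succ]

/-- partial binary expansion of `2 - √2` -/
lemma sum_Z_half (N : ℕ) : ∑ a ∈ Z N, (1/2:ℝ)^a = 2 - (X N + 1) / 2^N := by
  induction N with
  | zero =>
    have : Z 0 = ∅ := by
      ext k
      rw [mem_Z]
      constructor
      · rintro ⟨h, h2⟩
        have : k = 0 := by omega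
        subst this
        rw [X_0] at h2
        omega
      · intro h
        exact absurd h (by simp)
    rw [this, X_0]
    norm_num
  | succ N ih =>
    rw [Z_succ_sum, ih]
    have h := X_succ N
    have h2 : (X (N+1) : ℝ) = 2 * X N + (X (N+1) % 2 : ℕ) := by exact_mod_cast h
    rcases Nat.mod_two_eq_zero_or_one (X (N+1)) with h0 | h1
    · rw [h0] at h2
      rw [if_pos h0, h2, pow_succ, pow_succ]
      rw [one_div, inv_pow]
      field_simp
      push_cast
      ring
    · rw [h1] at h2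
      rw [h1, if_neg (by norm_num), h2, pow_succ]
      field_simp
      push_cast
      ring

/-- `y = 2 - √2` -/
noncomputable def y : ℝ := 2 - Real.sqrt 2

lemma y_sq : y * y = 4 * y - 2 := by
  unfold y
  have := sq2
  nlinarith

lemma y_pos : 0 < y := by
  unfold y
  have := sqrt2_lt
  linarith

lemma y_lt_one : y < 1 := by
  unfold y
  have := lt_sqrt2
  linarith

lemma Z_half_lt (N : ℕ) : ∑ a ∈ Z N, (1/2:ℝ)^a < y := by
  rw [sum_Z_half]
  unfold y
  have h := lt_X N
  have h2 : (0:ℝ) < 2^N := by positivity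
  have h3 : Real.sqrt 2 < (X N + 1) / 2^N := by
    rw [lt_div_iff₀ h2]; exact h
  linarith

lemma lt_Z_half (N : ℕ) : y < ∑ a ∈ Z N, (1/2:ℝ)^a + (1/2)^N := by
  rw [sum_Z_half]
  unfold y
  have h := X_lt N
  have h2 : (0:ℝ) < 2^N := by positivity
  have h3 : (X N : ℝ) / 2^N < Real.sqrt 2 := by
    rw [div_lt_iff₀ h2]; exact h
  have h4 : (1/2:ℝ)^N = 1 / 2^N := by rw [one_div, inv_pow, one_div]
  rw [h4, add_div]
  linarith

/-- number of ordered representations inside `Z N` -/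
noncomputable def rho (N k : ℕ) : ℕ := ((Z N ×ˢ Z N).filter (fun p => p.1 + p.2 = k)).card

lemma sum_rho {M : Type*} [CommSemiring M] (N R : ℕ) (f : ℕ → M) :
    ∑ k ∈ range (R+1), (rho N k : M) * f k
      = ∑ p ∈ (Z N ×ˢ Z N).filter (fun p => p.1 + p.2 ≤ R), f (p.1 + p.2) := by
  rw [← Finset.sum_fiberwise_of_maps_to (g := fun p : ℕ × ℕ => p.1 + p.2) (t := range (R+1))]
  · apply sum_congr rfl
    intro k hk
    rw [mem_range] at hk
    have h1 : ∀ p ∈ ((Z N ×ˢ Z N).filter (fun p => p.1 + p.2 ≤ R)).filter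
        (fun p => p.1 + p.2 = k), f (p.1 + p.2) = f k := by
      intro p hp
      rw [mem_filter] at hp
      rw [hp.2]
    rw [sum_congr rfl h1, sum_const, nsmul_eq_mul]
    congr 2
    unfold rho
    congr 1
    ext p
    simp only [mem_filter]
    constructor
    · rintro ⟨h, h'⟩; exact ⟨⟨h, by omega⟩, h'⟩
    · rintro ⟨⟨h, _⟩, h'⟩; exact ⟨h, h'⟩
  · intro p hp
    rw [mem_filter] at hp
    rw [mem_range]
    omega

/-- the digits of `y² = 4 y - 2` -/
noncomputable def e (k : ℕ) : ℤ := if X (k+2) % 2 = 0 then 1 else 0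

lemma e_nonneg (k : ℕ) : 0 ≤ e k := by unfold e; split_ifs <;> norm_num
lemma e_le_one (k : ℕ) : e k ≤ 1 := by unfold e; split_ifs <;> norm_num
lemma e_one_iff (k : ℕ) : e k = 1 ↔ IsZ (k+2) := by
  unfold e IsZ; split_ifs with h <;> simp [h]

lemma sum_e (R : ℕ) : ∑ k ∈ range (R+1), (e k : ℝ) * (1/2)^k
    = 4 * ∑ a ∈ Z (R+2), (1/2:ℝ)^a - 2 := by
  induction R with
  | zero =>
    rw [sum_Z_half, sum_range_one]
    have : e 0 = 0 := by unfold e; rw [X_2]; norm_num
    rw [this, X_2]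
    norm_num
  | succ R ih =>
    have hs := Z_succ_sum (R+2) (fun a => (1/2:ℝ)^a)
    rw [show R + 1 + 2 = (R + 2) + 1 by ring, hs, sum_range_succ, ih]
    have he : (e (R+1) : ℝ) = if X (R+2+1) % 2 = 0 then 1 else 0 := by
      unfold e
      rw [show R + 1 + 2 = (R + 2) + 1 by ring]
      split_ifs <;> norm_num
    rw [he]
    split_ifs with h
    · rw [show R + 2 + 1 = (R + 1) + 1 + 1 by ring, pow_succ (1/2:ℝ) (R+1+1), pow_succ (1/2:ℝ) (R+1)]
      ring
    · ring

/-- the integer carries -/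
noncomputable def T (N R : ℕ) : ℤ := ∑ k ∈ range (R+1), (e k - (rho N k : ℤ)) * 2^(R-k)

lemma T_succ (N R : ℕ) : T N (R+1) = 2 * T N R + e (R+1) - rho N (R+1) := by
  unfold T
  rw [sum_range_succ _ (R+1), Nat.sub_self, pow_zero, mul_one, mul_sum]
  have : ∑ k ∈ range (R+1), (e k - (rho N k : ℤ)) * 2^(R+1-k)
      = ∑ k ∈ range (R+1), 2 * ((e k - (rho N k : ℤ)) * 2^(R-k)) := by
    apply sum_congr rfl
    intro k hk
    rw [mem_range] at hk
    rw [show R + 1 - k = (R - k) + 1 by omega, pow_succ]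
    ring
  rw [this]
  ring

lemma T_real (N R : ℕ) : (T N R : ℝ) =
    2^R * ((4 * ∑ a ∈ Z (R+2), (1/2:ℝ)^a - 2)
      - ∑ p ∈ (Z N ×ˢ Z N).filter (fun p => p.1 + p.2 ≤ R), (1/2:ℝ)^(p.1 + p.2)) := by
  unfold T
  push_cast
  rw [← sum_rho N R (fun k => (1/2:ℝ)^k), ← sum_e, ← sum_sub_distrib, mul_sum]
  apply sum_congr rfl
  intro k hk
  rw [mem_range] at hk
  have : (2:ℝ)^R = 2^(R-k) * 2^k := by rw [← pow_add]; congr 1; omega
  rw [this, one_div, inv_pow]
  field_simp

lemma prod_sum (N : ℕ) : (∑ a ∈ Z N, (1/2:ℝ)^a) * (∑ a ∈ Z N, (1/2:ℝ)^a)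
    = ∑ p ∈ Z N ×ˢ Z N, (1/2:ℝ)^(p.1 + p.2) := by
  rw [sum_mul_sum, ← sum_product']
  apply sum_congr rfl
  intro p _
  rw [pow_add]

lemma half_nonneg (N : ℕ) : (0:ℝ) ≤ ∑ a ∈ Z N, (1/2:ℝ)^a := sum_nonneg (fun a _ => by positivity)

lemma prod_lt (N : ℕ) : (∑ a ∈ Z N, (1/2:ℝ)^a) * (∑ a ∈ Z N, (1/2:ℝ)^a) < 4 * y - 2 := by
  rw [← y_sq]
  exact mul_self_lt_mul_self (half_nonneg N) (Z_half_lt N)

lemma four_Z (R : ℕ) : 4 * y - (1/2)^R < 4 * ∑ a ∈ Z (R+2), (1/2:ℝ)^a := by
  have h := lt_Z_half (R+2)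
  have h2 : (1/2:ℝ)^(R+2) = (1/2)^R / 4 := by rw [pow_succ, pow_succ]; ring
  rw [h2] at h
  linarith

lemma two_half (R : ℕ) : (2:ℝ)^R * (1/2)^R = 1 := by rw [← mul_pow]; norm_num

lemma T_nonneg (N R : ℕ) : 0 ≤ T N R := by
  have h1 : (-1:ℝ) < T N R := by
    rw [T_real]
    have h2 : ∑ p ∈ (Z N ×ˢ Z N).filter (fun p => p.1 + p.2 ≤ R), (1/2:ℝ)^(p.1 + p.2)
        ≤ ∑ p ∈ Z N ×ˢ Z N, (1/2:ℝ)^(p.1 + p.2) :=
      sum_le_sum_of_subset_of_nonneg (filter_subset _ _) (fun p _ _ => by positivity)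
    rw [← prod_sum] at h2
    have h3 := prod_lt N
    have h4 := four_Z R
    have h5 := two_half R
    have h6 : (0:ℝ) < 2^R := by positivity
    have h7 : -(1/2:ℝ)^R < (4 * ∑ a ∈ Z (R+2), (1/2:ℝ)^a - 2)
      - ∑ p ∈ (Z N ×ˢ Z N).filter (fun p => p.1 + p.2 ≤ R), (1/2:ℝ)^(p.1 + p.2) := by linarith
    have h8 := mul_lt_mul_of_pos_left h7 h6
    linarith
  have h7 : (-1:ℤ) < T N R := by exact_mod_cast h1
  omega

lemma T_pos_of_isZ {N K : ℕ} (hKN : K ≤ N) (hK2 : 2 ≤ K) (hK : IsZ K) : 1 ≤ T N K := by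
  have h1 : (0:ℝ) < T N K := by
    rw [T_real]
    have h2 : ∑ p ∈ (Z N ×ˢ Z N).filter (fun p => p.1 + p.2 ≤ K), (1/2:ℝ)^(p.1 + p.2) + (1/2)^K
        ≤ ∑ p ∈ Z N ×ˢ Z N, (1/2:ℝ)^(p.1 + p.2) := by
      rw [← sum_filter_add_sum_filter_not (Z N ×ˢ Z N) (fun p => p.1 + p.2 ≤ K)]
      apply add_le_add le_rfl
      have h3 : (1/2:ℝ)^K = ∑ p ∈ ({(1, K), (K, 1)} : Finset (ℕ × ℕ)), (1/2:ℝ)^(p.1 + p.2) := by
        rw [sum_pair (by
          intro h
          have := congrArg Prod.fst h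
          simp at this
          omega)]
        simp only
        rw [add_comm 1 K, pow_succ]
        ring
      rw [h3]
      apply sum_le_sum_of_subset_of_nonneg
      · intro p hp
        rw [mem_insert, mem_singleton] at hp
        rw [mem_filter, mem_product, mem_Z', mem_Z']
        rcases hp with rfl | rfl
        · exact ⟨⟨⟨by simp; omega, isZ_1⟩, ⟨hKN, hK⟩⟩, by simp⟩
        · exact ⟨⟨⟨hKN, hK⟩, ⟨by simp; omega, isZ_1⟩⟩, by simp⟩
      · intro p _ _
        positivity
    rw [← prod_sum] at h2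
    have h3 := prod_lt N
    have h4 := four_Z K
    have h6 : (0:ℝ) < 2^K := by positivity
    apply mul_pos h6
    linarith
  have h7 : (0:ℤ) < T N K := by exact_mod_cast h1
  omega

lemma rho_parity (N k : ℕ) (h : ∀ a ∈ Z N, a + a ≠ k) : (rho N k) % 2 = 0 := by
  have h1 : ((rho N k : ℕ) : ZMod 2) = 0 := by
    unfold rho
    rw [card_eq_sum_ones, Nat.cast_sum]
    apply sum_involution (fun p _ => (p.2, p.1))
    · intro p _
      decide
    · intro p hp _ heq
      rw [mem_filter, mem_product] at hp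
      have h2 : p.1 = p.2 := by
        have := congrArg Prod.fst heq
        simpa using this.symm
      apply h p.1 hp.1.1
      rw [← hp.2, ← h2]
    · intro p hp
      rw [mem_filter, mem_product] at hp ⊢
      refine ⟨⟨hp.1.2, hp.1.1⟩, ?_⟩
      rw [add_comm]; exact hp.2
    · intro p _
      rfl
  rw [ZMod.natCast_eq_zero_iff] at h1
  omega

lemma rho_ge_two {N a b : ℕ} (ha : a ∈ Z N) (hb : b ∈ Z N) (hne : a ≠ b) : 2 ≤ rho N (a + b) := by
  have h : ({(a, b), (b, a)} : Finset (ℕ × ℕ)) ⊆ (Z N ×ˢ Z N).filter (fun p => p.1 + p.2 = a + b) := by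
    intro p hp
    rw [mem_insert, mem_singleton] at hp
    rw [mem_filter, mem_product]
    rcases hp with rfl | rfl
    · exact ⟨⟨ha, hb⟩, rfl⟩
    · exact ⟨⟨hb, ha⟩, add_comm _ _⟩
  have h2 := card_le_card h
  rw [card_pair (by
    intro h3
    exact hne (congrArg Prod.fst h3))] at h2
  exact h2

/-- **Liouville**: a block of ones starting after the position `P` has length at most `P + 1` -/
lemma gap_le {P L : ℕ} (h : ∀ k, P < k → k ≤ P + L → ¬ IsZ k) : L ≤ P + 1 := by
  have h1 : ∀ l, l ≤ L → X (P + l) + 1 = 2^l * (X P + 1) := by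
    intro l
    induction l with
    | zero => intro _; simp
    | succ l ih =>
      intro hl
      have h2 := ih (by omega)
      have h3 := X_succ (P + l)
      have h4 : X (P + l + 1) % 2 = 1 := by
        have := h (P + l + 1) (by omega) (by omega)
        unfold IsZ at this
        omega
      rw [h4] at h3
      rw [← add_assoc, h3, pow_succ]
      calc 2 * X (P + l) + 1 + 1 = 2 * (X (P+l) + 1) := by ring
        _ = 2 * (2^l * (X P + 1)) := by rw [h2]
        _ = 2^l * 2 * (X P + 1) := by ring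
  have h2 := h1 L le_rfl
  have h3 : ((X (P + L) : ℝ) + 1) = 2^L * ((X P : ℝ) + 1) := by exact_mod_cast h2
  have h4 := X_lt (P + L)
  set f : ℝ := ((X P : ℝ) + 1) - Real.sqrt 2 * 2^P with hf
  have hf0 : 0 < f := by
    have := lt_X P
    rw [hf]; linarith
  have hf1 : 2^L * f < 1 := by
    rw [hf, mul_sub, ← h3]
    have : (2:ℝ)^L * (Real.sqrt 2 * 2^P) = Real.sqrt 2 * 2^(P+L) := by rw [pow_add]; ring
    rw [this]
    linarith
  have hP : (0:ℝ) < 2^P := by positivity
  have hP1 : (1:ℝ) ≤ 2^P := one_le_pow₀ (by norm_num)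
  have hprod : f * (((X P : ℝ) + 1) + Real.sqrt 2 * 2^P) = ((((X P : ℤ) + 1)^2 - 2 * 4^P : ℤ) : ℝ) := by
    push_cast
    have h5 : (4:ℝ)^P = 2^P * 2^P := by rw [← mul_pow]; norm_num
    rw [h5, hf]
    have := sq2
    have h6 : (Real.sqrt 2 * 2^P) * (Real.sqrt 2 * 2^P) = 2 * (2^P * 2^P) := by
      calc (Real.sqrt 2 * 2^P) * (Real.sqrt 2 * 2^P) = (Real.sqrt 2 * Real.sqrt 2) * (2^P * 2^P) := by ring
        _ = 2 * (2^P * 2^P) := by rw [this]
    calc (((X P : ℝ) + 1) - Real.sqrt 2 * 2^P) * (((X P : ℝ) + 1) + Real.sqrt 2 * 2^P)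
        = ((X P : ℝ) + 1)^2 - (Real.sqrt 2 * 2^P) * (Real.sqrt 2 * 2^P) := by ring
      _ = ((X P : ℝ) + 1)^2 - 2 * (2^P * 2^P) := by rw [h6]
  have hs0 : 0 < ((X P : ℝ) + 1) + Real.sqrt 2 * 2^P := by positivity
  have hint : (1:ℤ) ≤ (((X P : ℤ) + 1)^2 - 2 * 4^P : ℤ) := by
    have h5 : (0:ℝ) < ((((X P : ℤ) + 1)^2 - 2 * 4^P : ℤ) : ℝ) := by
      rw [← hprod]; exact mul_pos hf0 hs0
    have h6 : (0:ℤ) < (((X P : ℤ) + 1)^2 - 2 * 4^P : ℤ) := by exact_mod_cast h5
    omega
  have hone : (1:ℝ) ≤ f * (((X P : ℝ) + 1) + Real.sqrt 2 * 2^P) := by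
    rw [hprod]; exact_mod_cast hint
  have hf2 : f ≤ 1 := by
    have := X_le P
    rw [hf]; linarith
  have hs4 : ((X P : ℝ) + 1) + Real.sqrt 2 * 2^P < 4 * 2^P := by
    have h5 := sqrt2_lt
    have h6 : ((X P : ℝ) + 1) = f + Real.sqrt 2 * 2^P := by rw [hf]; ring
    rw [h6]
    nlinarith
  have h7 : (1:ℝ) < f * (4 * 2^P) := lt_of_le_of_lt hone (mul_lt_mul_of_pos_left hs4 hf0)
  have h8 : (2:ℝ)^L < 2^(P+2) := by
    have hL : (0:ℝ) < 2^L := by positivity
    calc (2:ℝ)^L = 2^L * 1 := by ring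
      _ < 2^L * (f * (4 * 2^P)) := mul_lt_mul_of_pos_left h7 hL
      _ = (2^L * f) * (4 * 2^P) := by ring
      _ < 1 * (4 * 2^P) := mul_lt_mul_of_pos_right hf1 (by positivity)
      _ = 2^(P+2) := by rw [pow_add]; ring
  have h9 := (pow_lt_pow_iff_right₀ (by norm_num : (1:ℝ) < 2)).mp h8
  omega

lemma exit {N m : ℕ} (h0 : T N m = 0) (h1 : T N (m+1) ≠ 0) : IsZ (m + 3) := by
  have h2 := T_succ N m
  have h3 := T_nonneg N (m+1)
  have h4 := e_le_one (m+1)
  rw [h0] at h2
  have h5 : e (m+1) = 1 := by omega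
  exact (e_one_iff (m+1)).mp h5

lemma stay {N m : ℕ} (h0 : T N m = 0) (h1 : T N (m+1) = 0) : rho N (m+1) ≤ 1 := by
  have h2 := T_succ N m
  have h4 := e_le_one (m+1)
  rw [h0, h1] at h2
  omega

/-- number of the positions `m ≤ K` with `T = 0` -/
noncomputable def o (N K : ℕ) : ℕ := ((Icc 1 K).filter (fun m => T N m = 0)).card

/-- the error term -/
noncomputable def B (K : ℕ) : ℕ := 2 * (Z K).card + (Z (K+1)).card + 2 * (Z (K/2)).card

lemma Z_mono {a b : ℕ} (h : a ≤ b) : (Z a).card ≤ (Z b).card := by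
  apply card_le_card
  intro k hk
  rw [mem_Z] at hk ⊢
  exact ⟨by omega, hk.2⟩

lemma Z_lt {a b : ℕ} (h : a < b) (hb : IsZ b) : (Z a).card + 1 ≤ (Z b).card := by
  have h1 : insert b (Z a) ⊆ Z b := by
    intro k hk
    rw [mem_insert] at hk
    rcases hk with rfl | hk
    · exact mem_Z'.mpr ⟨le_rfl, hb⟩
    · rw [mem_Z] at hk ⊢
      exact ⟨by omega, hk.2⟩
  have h2 := card_le_card h1
  rw [card_insert_of_notMem (by
    intro h3
    rw [mem_Z] at h3
    omega)] at h2
  exact h2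

lemma B_mono {a b : ℕ} (h : a ≤ b) : B a ≤ B b := by
  unfold B
  have h1 := Z_mono h
  have h2 := Z_mono (show a + 1 ≤ b + 1 by omega)
  have h3 := Z_mono (Nat.div_le_div_right (c := 2) h)
  omega

lemma o_le_add {N K M : ℕ} (h : ∀ m, M < m → m ≤ K → T N m = 0 → False) : o N K ≤ o N M := by
  apply card_le_card
  intro m hm
  rw [mem_filter, mem_Icc] at hm ⊢
  refine ⟨⟨hm.1.1, ?_⟩, hm.2⟩
  by_contra hcon
  exact h m (by omega) hm.1.2 hm.2

lemma o_le {N K M : ℕ} (_h : M ≤ K) : o N K ≤ o N M + (K - M) := by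
  have h1 : (Icc 1 K).filter (fun m => T N m = 0) ⊆
      (Icc 1 M).filter (fun m => T N m = 0) ∪ Ioc M K := by
    intro m hm
    rw [mem_filter, mem_Icc] at hm
    rw [mem_union, mem_filter, mem_Icc, mem_Ioc]
    by_cases h2 : m ≤ M
    · exact Or.inl ⟨⟨hm.1.1, h2⟩, hm.2⟩
    · exact Or.inr ⟨by omega, hm.1.2⟩
  have h2 := card_le_card h1
  have h3 := card_union_le ((Icc 1 M).filter (fun m => T N m = 0)) (Ioc M K)
  rw [Nat.card_Ioc] at h3
  unfold o
  omega

lemma card_Z_1 : (Z 1).card = 1 := by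
  rw [card_eq_one]
  refine ⟨1, ?_⟩
  ext k
  rw [mem_Z', mem_singleton]
  constructor
  · rintro ⟨h1, h2⟩
    have : k = 0 ∨ k = 1 := by omega
    rcases this with rfl | rfl
    · exact absurd h2 not_isZ_0
    · rfl
  · rintro rfl
    exact ⟨le_rfl, isZ_1⟩

theorem o_bound (N : ℕ) : ∀ K, K ≤ N → 2 * o N K ≤ K + B K := by
  intro K
  induction K using Nat.strong_induction_on with
  | _ K ih =>
    intro hKN
    rcases Nat.eq_zero_or_pos K with rfl | hKpos
    · have : o N 0 = 0 := by unfold o; simp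
      rw [this]; omega
    by_cases hT : T N K = 0
    swap
    · have h1 : o N K ≤ o N (K-1) := by
        apply o_le_add
        intro m h2 h3 h4
        have : m = K := by omega
        rw [this] at h4
        exact hT h4
      have h2 := ih (K-1) (by omega) (by omega)
      have h3 := B_mono (show K - 1 ≤ K by omega)
      omega
    by_cases hK4 : K < 4
    · -- small cases
      have h1 := o_le (N := N) (K := K) (M := 0) (by omega)
      have h0 : o N 0 = 0 := by unfold o; simp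
      rw [h0] at h1
      have h2 : K ≤ B K := by
        unfold B
        have h3 := Z_mono hKpos
        rw [card_Z_1] at h3
        have h4 := Z_mono (show K ≤ K + 1 by omega)
        omega
      omega
    push Not at hK4
    -- the last zero
    classical
    obtain ⟨z, hzK, hz, hzmax⟩ : ∃ z, z ≤ K ∧ IsZ z ∧ ∀ w, z < w → w ≤ K → ¬ IsZ w := by
      have h1 := Nat.findGreatest_spec (P := IsZ) hK4 isZ_4
      exact ⟨Nat.findGreatest IsZ K, Nat.findGreatest_le K, h1,
        fun w h2 h3 => Nat.findGreatest_is_greatest h2 h3⟩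
    have hz4 : 4 ≤ z := by
      by_contra hcon
      exact hzmax 4 (by omega) hK4 isZ_4
    have hzne : z ≠ K := by
      rintro rfl
      have := T_pos_of_isZ hKN (by omega) hz
      omega
    have hTz : T N z ≠ 0 := by
      have := T_pos_of_isZ (show z ≤ N by omega) (by omega) hz
      omega
    by_cases h2z : 2 * z ≤ K
    · have h1 : K - z ≤ z + 1 := by
        apply gap_le
        intro k hk1 hk2
        exact hzmax k hk1 (by omega)
      have h3 := o_le (N := N) (K := K) (M := 2*z-1) (by omega)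
      have h4 := ih (2*z-1) (by omega) (by omega)
      have h5 : B (2*z-1) + 2 ≤ B K := by
        unfold B
        have h6 := Z_mono (show 2*z-1 ≤ K by omega)
        have h7 := Z_mono (show 2*z-1+1 ≤ K+1 by omega)
        have h8 := Z_lt (show (2*z-1)/2 < z by omega) hz
        have h9 := Z_mono (show z ≤ K/2 by omega)
        omega
      omega
    push Not at h2z
    by_cases hK1 : IsZ (K+1)
    · have h3 := o_le (N := N) (K := K) (M := K-1) (by omega)
      have h4 := ih (K-1) (by omega) (by omega)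
      have h5 : B (K-1) + 1 ≤ B K := by
        unfold B
        have h6 := Z_mono (show K-1 ≤ K by omega)
        have h7 := Z_lt (show K-1+1 < K+1 by omega) hK1
        have h8 := Z_mono (show (K-1)/2 ≤ K/2 by omega)
        omega
      omega
    -- the last position with T ≠ 0
    obtain ⟨m0, hm0K, hm0, hm0max⟩ : ∃ m0, m0 ≤ K ∧ T N m0 ≠ 0 ∧ ∀ w, m0 < w → w ≤ K → T N w = 0 := by
      have h1 := Nat.findGreatest_spec (P := fun m => T N m ≠ 0) hzK hTz
      refine ⟨Nat.findGreatest (fun m => T N m ≠ 0) K, Nat.findGreatest_le K, h1, ?_⟩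
      intro w h2 h3
      by_contra hcon
      exact Nat.findGreatest_is_greatest (P := fun m => T N m ≠ 0) h2 h3 hcon
    have hzm0 : z ≤ m0 := by
      by_contra hcon
      exact hTz (hm0max z (by omega) hzK)
    have hm0K' : m0 < K := by
      rcases Nat.lt_or_ge m0 K with h1 | h1
      · exact h1
      · have : m0 = K := by omega
        rw [this] at hm0
        exact absurd hT hm0
    have hblock : ∀ d, d ≤ m0 - z → T N (m0 - d) ≠ 0 := by
      intro d
      induction d with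
      | zero => intro _; simpa using hm0
      | succ d ihd =>
        intro hd hcon
        have h1 := ihd (by omega)
        have h2 : m0 - d = (m0 - (d+1)) + 1 := by omega
        rw [h2] at h1
        have h3 := exit hcon h1
        by_cases h4 : m0 - (d+1) + 3 ≤ K
        · exact hzmax _ (by omega) h4 h3
        · have h5 : m0 - (d+1) + 3 = K + 1 := by omega
          rw [h5] at h3
          exact hK1 h3
    have hfree : K - m0 - 1 ≤ (m0 + 1 - z) + 1 := by
      apply gap_le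
      intro w hw1 hw2 hw
      have h1 := hm0max (z + w) (by omega) (by omega)
      have h2 := hm0max (z + w - 1) (by omega) (by omega)
      have h3 : z + w = (z + w - 1) + 1 := by omega
      rw [h3] at h1
      have h4 := stay h2 h1
      rw [← h3] at h4
      have h5 := rho_ge_two (N := N) (a := z) (b := w) (mem_Z'.mpr ⟨by omega, hz⟩)
        (mem_Z'.mpr ⟨by omega, hw⟩) (by omega)
      omega
    have h3 : o N K ≤ o N m0 + (K - m0) := o_le (by omega)
    have h4 : o N m0 ≤ o N (z-1) := by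
      apply o_le_add
      intro m h5 h6 h7
      apply hblock (m0 - m) (by omega)
      rw [show m0 - (m0 - m) = m by omega]
      exact h7
    have h5 := ih (z-1) (by omega) (by omega)
    have h6 : B (z-1) + 2 ≤ B K := by
      unfold B
      have h7 := Z_lt (show z-1 < z by omega) hz
      have h7' := Z_mono hzK
      have h8 := Z_mono (show z-1+1 ≤ K+1 by omega)
      have h9 := Z_mono (show (z-1)/2 ≤ K/2 by omega)
      omega
    omega

lemma geom_tail (M N : ℕ) :
    ∑ b ∈ (range (N+1)).filter (fun b => M < b), (1/2:ℝ)^b ≤ (1/2)^M := by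
  have key : ∑ b ∈ (range (N+1)).filter (fun b => M < b), (1/2:ℝ)^b
      + (if M ≤ N then (1/2)^N else (1/2)^M) ≤ (1/2)^M := by
    induction N with
    | zero =>
      rw [sum_filter]
      simp
      split_ifs with h
      · subst h; simp
      · exact le_rfl
    | succ N ih =>
      rw [sum_filter, sum_range_succ, ← sum_filter]
      by_cases h : M ≤ N
      · rw [if_pos h] at ih
        rw [if_pos (by omega : M < N + 1), if_pos (by omega : M ≤ N+1)]
        have : (1/2:ℝ)^N = (1/2)^(N+1) + (1/2)^(N+1) := by rw [pow_succ]; ring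
        linarith
      · rw [if_neg h] at ih
        rw [if_neg (by omega : ¬ M < N + 1)]
        by_cases h2 : M ≤ N + 1
        · have : M = N + 1 := by omega
          subst this
          rw [if_pos le_rfl]
          linarith
        · rw [if_neg h2]
          linarith
  have h2 : (0:ℝ) ≤ (if M ≤ N then (1/2)^N else (1/2)^M) := by
    split_ifs <;> positivity
  linarith

lemma T_le (N : ℕ) : T N N ≤ (Z N).card + 3 := by
  have h1 : (T N N : ℝ) ≤ ((Z N).card : ℝ) + 3 := by
    rw [T_real]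
    set x := ∑ a ∈ Z N, (1/2:ℝ)^a with hx
    have h2 : x * x = ∑ p ∈ (Z N ×ˢ Z N).filter (fun p => p.1 + p.2 ≤ N), (1/2:ℝ)^(p.1 + p.2)
        + ∑ p ∈ (Z N ×ˢ Z N).filter (fun p => ¬ p.1 + p.2 ≤ N), (1/2:ℝ)^(p.1 + p.2) := by
      rw [sum_filter_add_sum_filter_not, hx, prod_sum]
    have h3 : ∑ p ∈ (Z N ×ˢ Z N).filter (fun p => ¬ p.1 + p.2 ≤ N), (1/2:ℝ)^(p.1 + p.2)
        ≤ (Z N).card * (1/2:ℝ)^N := by
      rw [sum_filter, sum_product]
      calc ∑ a ∈ Z N, ∑ b ∈ Z N, (if ¬ a + b ≤ N then (1/2:ℝ)^(a+b) else 0)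
          ≤ ∑ a ∈ Z N, (1/2:ℝ)^N := by
            apply sum_le_sum
            intro a ha
            rw [mem_Z] at ha
            rw [← sum_filter]
            calc ∑ b ∈ (Z N).filter (fun b => ¬ a + b ≤ N), (1/2:ℝ)^(a+b)
                ≤ ∑ b ∈ (range (N+1)).filter (fun b => N - a < b), (1/2:ℝ)^(a+b) := by
                  apply sum_le_sum_of_subset_of_nonneg
                  · intro b hb
                    rw [mem_filter, mem_Z] at hb
                    rw [mem_filter, mem_range]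
                    constructor <;> omega
                  · intro b _ _
                    positivity
              _ = (1/2:ℝ)^a * ∑ b ∈ (range (N+1)).filter (fun b => N - a < b), (1/2:ℝ)^b := by
                  rw [mul_sum]
                  apply sum_congr rfl
                  intro b _
                  rw [pow_add]
              _ ≤ (1/2:ℝ)^a * (1/2)^(N-a) := by
                  apply mul_le_mul_of_nonneg_left (geom_tail _ _) (by positivity)
              _ = (1/2:ℝ)^N := by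
                  rw [← pow_add]
                  congr 1
                  omega
        _ = (Z N).card * (1/2:ℝ)^N := by rw [sum_const, nsmul_eq_mul]
    have h4 := Z_half_lt N
    have h5 := lt_Z_half N
    rw [← hx] at h4 h5
    have h6 := Z_half_lt (N+2)
    have h7 := y_sq
    have h8 : (0:ℝ) ≤ x := half_nonneg N
    have h9 := y_lt_one
    have hN := two_half N
    have hN0 : (0:ℝ) < 2^N := by positivity
    have hH0 : (0:ℝ) < (1/2)^N := by positivity
    have hy0 := y_pos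
    have h10 : y * y - x * x ≤ 3 * (1/2)^N := by nlinarith
    calc 2^N * ((4 * ∑ a ∈ Z (N+2), (1/2:ℝ)^a - 2)
          - ∑ p ∈ (Z N ×ˢ Z N).filter (fun p => p.1 + p.2 ≤ N), (1/2:ℝ)^(p.1 + p.2))
        ≤ 2^N * (3 * (1/2)^N + (Z N).card * (1/2:ℝ)^N) := by
          apply mul_le_mul_of_nonneg_left _ hN0.le
          linarith
      _ = (2^N * (1/2)^N) * ((Z N).card + 3) := by ring
      _ = (Z N).card + 3 := by rw [hN, one_mul]
  exact_mod_cast h1

end Pool.Agent.H33.Zeros
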